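import Mathlib

/-!
# Spectra of constructive models of uncountably categorical theories (MP_ed0a9a_lc)

Definitions: relational signatures with symbols `0, 1, 2, …`, computable copies, the
structures `U P J` (`J` = set of generic components).
-/

namespace Pool.Agent.Work.MP_ed0a9a_lc

open FirstOrder

/-! ## Signatures and computable copies -/

/-- Relational signature with the relation symbols `0, 1, 2, …`, the `i`-th of arity `a i`. -/
def sig (a : ℕ → ℕ) : FirstOrder.Language.{0, 0} := ⟨fun _ => Empty, fun n => {i : ℕ // a i = n}⟩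

/-- The structure `A` has a computable copy: it is isomorphic to a structure on `ℕ` whose
relations are uniformly computable. -/
def HasCompCopy (a : ℕ → ℕ) (A : Type) [SA : (sig a).Structure A] : Prop :=
  ∃ (S : (sig a).Structure ℕ) (r : ℕ → List ℕ → Bool), Computable₂ r ∧
    (∀ (i : ℕ) (v : Fin (a i) → ℕ), r i (List.ofFn v) = true ↔
      S.RelMap (n := a i) ⟨i, rfl⟩ v) ∧
    Nonempty (A ≃[sig a] ℕ)

/-- `hd a S i l`: the `i`-th relation of the structure `S` holds of the list `l`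
(which then has length `a i`). -/
def hd (a : ℕ → ℕ) {N : Type} (S : (sig a).Structure N) (i : ℕ) (l : List N) : Prop :=
  ∃ h : l.length = a i, S.RelMap (n := a i) ⟨i, rfl⟩ (fun t => l.get (t.cast h.symm))

/-! ## The symbols -/

/-- The symbols of our signature.
`SD`, `ST k`, `SW`: the sorts; `Z`: the base point; `Tr g`: translation by `g` on the sort `D`;
`P j`: the `j`-th visible coordinate of an element of a sort `T k`; `Wt`, `Wz`: the two
coordinates of an element of the sort `W`; `Q n`: the links; `R e j`: the coding relations. -/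
inductive Sym : Type
  | SD | SW | Z
  | ST (k : ℕ)
  | Tr (g : ℕ)
  | P (j : ℕ)
  | Wt | Wz
  | Q (n : ℕ)
  | R (e j : ℕ)

/-- The `i`-th symbol. -/
def Sym.dec (i : ℕ) : Sym :=
  match (Nat.unpair i).1 with
  | 0 => match (Nat.unpair i).2 with
    | 0 => .SD
    | 1 => .SW
    | 2 => .Z
    | k + 3 => .ST k
  | 1 => .Tr (Nat.unpair i).2
  | 2 => .P (Nat.unpair i).2
  | 3 => match (Nat.unpair i).2 with
    | 0 => .Wt
    | _ => .Wz
  | 4 => .Q (Nat.unpair i).2
  | _ => .R (Nat.unpair (Nat.unpair i).2).1 (Nat.unpair (Nat.unpair i).2).2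

/-- A number of a symbol. -/
def Sym.code : Sym → ℕ
  | .SD => Nat.pair 0 0
  | .SW => Nat.pair 0 1
  | .Z => Nat.pair 0 2
  | .ST k => Nat.pair 0 (k + 3)
  | .Tr g => Nat.pair 1 g
  | .P j => Nat.pair 2 j
  | .Wt => Nat.pair 3 0
  | .Wz => Nat.pair 3 1
  | .Q n => Nat.pair 4 n
  | .R e j => Nat.pair 5 (Nat.pair e j)

theorem Sym.dec_code (s : Sym) : Sym.dec s.code = s := by
  cases s <;> simp [Sym.dec, Sym.code]

/-- Arity of a symbol; `ar e` is the arity of the relations `R e j`. -/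
def arity (ar : ℕ → ℕ) : Sym → ℕ
  | .SD => 1
  | .SW => 1
  | .Z => 1
  | .ST _ => 1
  | .Tr _ => 2
  | .P _ => 2
  | .Wt => 2
  | .Wz => 2
  | .Q _ => 2
  | .R e _ => ar e

/-- Arity of the `i`-th symbol. -/
def ari (ar : ℕ → ℕ) (i : ℕ) : ℕ := arity ar (Sym.dec i)

theorem ari_code (ar : ℕ → ℕ) (s : Sym) : ari ar s.code = arity ar s := by
  simp [ari, Sym.dec_code]

/-- The relations of a structure, indexed by symbols. -/
def HN {ar : ℕ → ℕ} {N : Type} (S : (sig (ari ar)).Structure N) (s : Sym) (l : List N) : Prop :=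
  hd (ari ar) S s.code l

/-- The structure given by relations indexed by symbols. -/
@[reducible] def mkStr (ar : ℕ → ℕ) {N : Type} (H : Sym → List N → Prop) : (sig (ari ar)).Structure N where
  funMap := fun f => Empty.elim f
  RelMap := fun r v => H (Sym.dec r.1) (List.ofFn v)

/-! ## The parameters -/

/-- Parameters of the construction. -/
structure Par where
  /-- the finite dimensions killed by the sorts `T k` -/
  F : Finset ℕ
  /-- there are `K + 1` visible coordinates -/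
  K : ℕ
  hF : ∀ k ∈ F, k ≤ K
  /-- bit `n` of `msk q t`: direction `n` is missing at position `q`, at level `t` -/
  msk : ℕ → ℕ → ℕ
  msk_bit : ∀ q t n, (msk q t).testBit n = true → (Nat.unpair n).2 = q
  msk_lim : ∀ q, ∃ t₀, ∀ t, t₀ ≤ t → msk q t = msk q t₀
  /-- arity of `R e j` -/
  ar : ℕ → ℕ
  kb : ℕ → ℕ → ℕ → Bool
  kb_mono : ∀ e j s t, s ≤ t → kb e j s = true → kb e j t = true

/-- The limit of `msk q`. -/
noncomputable def Par.lim (P : Par) (q : ℕ) : ℕ := P.msk q (Classical.choose (P.msk_lim q))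

open Classical in
/-- `msk q` extended to `ℕ∞`. -/
noncomputable def Par.mskI (P : Par) (q : ℕ) (N : ℕ∞) : ℕ :=
  if N = ⊤ then P.lim q else P.msk q N.toNat

/-! ## The sort `D` -/

/-- Points of the sort `D`: `(g, none)` is in the base component, `(g, some j)` in the
generic component `j`. -/
abbrev Pt (J : Type) := ℕ × Option J

/-- The base point. -/
def bs {J : Type} : Pt J := (0, none)

/-- Translation by `g`. -/
def sh {J : Type} (g : ℕ) (p : Pt J) : Pt J := (p.1 ^^^ g, p.2)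

/-- Supremum in `ℕ∞` of the `c` with `LG c`. -/
noncomputable def lv (LG : ℕ → Prop) : ℕ∞ := sSup ((fun c : ℕ => (c : ℕ∞)) '' {c | LG c})

/-- The list `l` of points has level `≥ c`. -/
def LG {J : Type} (l : List (Pt J)) (c : ℕ) : Prop :=
  l.Pairwise (fun p p' => p.2 = p'.2 → c ≤ p.1 ^^^ p'.1)

/-- The level of a list of points: the least `g` such that a later point is the translate by
`g` of an earlier one, `⊤` if the points are in different components. -/
noncomputable def lvl {J : Type} (l : List (Pt J)) : ℕ∞ := lv (LG l)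

/-- The `q`-th position relative to `x`, for the sort `T k`. -/
def pos {J : Type} {K : ℕ} (k : ℕ) (x : Fin (K + 1) → Pt J) (q : ℕ) : Pt J :=
  sh (q / (k + 1)) ((bs :: List.ofFn x).getD (q % (k + 1)) bs)

/-- Direction `n` is missing at its position for level `N`. -/
def missP (P : Par) (n : ℕ) (N : ℕ∞) : Prop :=
  (P.mskI (Nat.unpair n).2 N).testBit n = true

/-- Direction `n` is missing over `(x, z)`, for the sort `T k`. -/
def miss {J : Type} (P : Par) (k : ℕ) (x : Fin (P.K + 1) → Pt J) (z : Pt J) (n : ℕ) : Prop :=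
  z = pos k x (Nat.unpair n).2 ∧ missP P n (lvl ((bs :: List.ofFn x).take (k + 1)))

/-! ## The structures `U P J` -/

/-- Universe of the model with set `J` of generic components. -/
inductive U (P : Par) (J : Type) : Type
  | d (p : Pt J)
  | t (k : ℕ) (hk : k ∈ P.F) (x : Fin (P.K + 1) → Pt J) (z : Pt J)
  | w (k : ℕ) (hk : k ∈ P.F) (x : Fin (P.K + 1) → Pt J) (z z' : Pt J) (h : z' ≠ z)

/-- The relations of `U P J`. -/
def relM (P : Par) (J : Type) : Sym → List (U P J) → Prop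
  | .SD, [.d _] => True
  | .SW, [.w _ _ _ _ _ _] => True
  | .Z, [.d p] => p = bs
  | .ST k, [.t k' _ _ _] => k = k'
  | .Tr g, [.d p, .d p'] => p' = sh g p
  | .P j, [.t _ _ x _, .d p] => ∃ h : j < P.K + 1, x ⟨j, h⟩ = p
  | .Wt, [.w k _ x z _ _, .t k' _ x' z'] => k = k' ∧ x = x' ∧ z = z'
  | .Wz, [.w _ _ _ _ z' _, .d p] => z' = p
  | .Q n, [.t k _ x z, .t k' _ x' z'] =>
      k = k' ∧ z = z' ∧ (∀ j : Fin (P.K + 1), j.1 < P.K → x' j = x j) ∧
        x' (Fin.last P.K) = sh (2 ^ n) (x (Fin.last P.K)) ∧ ¬ miss P k x z n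
  | .R e j, l => l.length = P.ar e ∧ ∃ l' : List (Pt J), l = l'.map U.d ∧
      ∃ t, P.kb e j t = true ∧ (t : ℕ∞) ≤ lvl (bs :: l')
  | _, _ => False

/-- The structure on `U P J`. -/
noncomputable instance strU (P : Par) (J : Type) : (sig (ari P.ar)).Structure (U P J) :=
  mkStr P.ar (relM P J)

/-- Generic components of the countable model number `i`. -/
abbrev Jt (i : ℕ∞) : Type := {r : ℕ // (r : ℕ∞) < i}

/-! ## Axioms, in semantic form -/

section

variable {N : Type} (H : Sym → List N → Prop)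

/-- `z` is the hidden coordinate of `τ`. -/
def hz (τ z : N) : Prop := H .SD [z] ∧ ¬ ∃ w, H .Wt [w, τ] ∧ H .Wz [w, z]

/-- level `≥ c`, in terms of the relations -/
def LGH (l : List N) (c : ℕ) : Prop := l.Pairwise (fun x y => ∀ g < c, ¬ H (.Tr g) [x, y])

/-- the level, in terms of the relations -/
noncomputable def lvH (l : List N) : ℕ∞ := lv (LGH H l)

/-- Direction `n` is missing over `(x, z)`; `o` is the base point. -/
def missH (P : Par) (k n : ℕ) (o : N) (x : Fin (P.K + 1) → N) (z : N) : Prop :=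
  H (.Tr ((Nat.unpair n).2 / (k + 1)))
    [(o :: List.ofFn x).getD ((Nat.unpair n).2 % (k + 1)) o, z] ∧
  missP P n (lvH H ((o :: List.ofFn x).take (k + 1)))

/-- Axioms on the sorts. -/
structure GSort (P : Par) : Prop where
  len : ∀ s l, H s l → l.length = arity P.ar s
  cover : ∀ x, H .SD [x] ∨ (∃ k ∈ P.F, H (.ST k) [x]) ∨ H .SW [x]
  d_not_t : ∀ k x, H .SD [x] → ¬ H (.ST k) [x]
  d_not_w : ∀ x, H .SD [x] → ¬ H .SW [x]
  t_not_w : ∀ k x, H (.ST k) [x] → ¬ H .SW [x]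
  t_uniq : ∀ k k', k ≠ k' → ∀ x, H (.ST k) [x] → ¬ H (.ST k') [x]
  t_F : ∀ k, k ∉ P.F → ∀ x, ¬ H (.ST k) [x]

/-- Axioms on the sort `D`. -/
structure GTr : Prop where
  tr_dom : ∀ g x y, H (.Tr g) [x, y] → H .SD [x] ∧ H .SD [y]
  tr_ex : ∀ g x, H .SD [x] → ∃ y, H (.Tr g) [x, y]
  tr_uniq : ∀ g x y y', H (.Tr g) [x, y] → H (.Tr g) [x, y'] → y = y'
  tr_zero : ∀ x, H .SD [x] → H (.Tr 0) [x, x]
  tr_comp : ∀ g h x y z, H (.Tr g) [x, y] → H (.Tr h) [y, z] → H (.Tr (g ^^^ h)) [x, z]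
  tr_free : ∀ g, g ≠ 0 → ∀ x, ¬ H (.Tr g) [x, x]
  z_ex : ∃ o, H .Z [o]
  z_dom : ∀ o, H .Z [o] → H .SD [o]
  z_uniq : ∀ o o', H .Z [o] → H .Z [o'] → o = o'

/-- Axioms on the coordinates. -/
structure GPW (P : Par) : Prop where
  p_dom : ∀ j τ x, H (.P j) [τ, x] → (∃ k ∈ P.F, H (.ST k) [τ]) ∧ H .SD [x]
  p_big : ∀ j, P.K < j → ∀ τ x, ¬ H (.P j) [τ, x]
  p_ex : ∀ j, j ≤ P.K → ∀ τ, (∃ k ∈ P.F, H (.ST k) [τ]) → ∃ x, H (.P j) [τ, x]
  p_uniq : ∀ j τ x x', H (.P j) [τ, x] → H (.P j) [τ, x'] → x = x'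
  wt_dom : ∀ w τ, H .Wt [w, τ] → H .SW [w] ∧ ∃ k ∈ P.F, H (.ST k) [τ]
  wt_ex : ∀ w, H .SW [w] → ∃ τ, H .Wt [w, τ]
  wt_uniq : ∀ w τ τ', H .Wt [w, τ] → H .Wt [w, τ'] → τ = τ'
  wz_dom : ∀ w z, H .Wz [w, z] → H .SW [w] ∧ H .SD [z]
  wz_ex : ∀ w, H .SW [w] → ∃ z, H .Wz [w, z]
  wz_uniq : ∀ w z z', H .Wz [w, z] → H .Wz [w, z'] → z = z'
  w_inj : ∀ w w' τ z, H .Wt [w, τ] → H .Wz [w, z] → H .Wt [w', τ] → H .Wz [w', z] → w = w'

/-- Axioms on the hidden coordinate. -/
structure GT (P : Par) : Prop where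
  hz_ex : ∀ τ, (∃ k ∈ P.F, H (.ST k) [τ]) → ∃ z, hz H τ z
  hz_uniq : ∀ τ z z', (∃ k ∈ P.F, H (.ST k) [τ]) → hz H τ z → hz H τ z' → z = z'
  t_ex : ∀ k ∈ P.F, ∀ (x : Fin (P.K + 1) → N) (z : N), (∀ j, H .SD [x j]) → H .SD [z] →
    ∃ τ, H (.ST k) [τ] ∧ (∀ j : Fin (P.K + 1), H (.P j) [τ, x j]) ∧ hz H τ z
  t_inj : ∀ k ∈ P.F, ∀ (x : Fin (P.K + 1) → N) (z τ τ' : N), H (.ST k) [τ] → H (.ST k) [τ'] →
    (∀ j : Fin (P.K + 1), H (.P j) [τ, x j]) → (∀ j : Fin (P.K + 1), H (.P j) [τ', x j]) →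
    hz H τ z → hz H τ' z → τ = τ'

/-- Axioms on the links. -/
def GQ (P : Par) : Prop :=
  ∀ n τ τ', H (.Q n) [τ, τ'] ↔ ∃ k ∈ P.F, ∃ (x : Fin (P.K + 1) → N) (d' z o : N),
    H (.ST k) [τ] ∧ H (.ST k) [τ'] ∧ (∀ j : Fin (P.K + 1), H (.P j) [τ, x j]) ∧
    (∀ j : Fin (P.K + 1), j.1 < P.K → H (.P j) [τ', x j]) ∧ H (.P P.K) [τ', d'] ∧
    H (.Tr (2 ^ n)) [x (Fin.last P.K), d'] ∧ hz H τ z ∧ hz H τ' z ∧ H .Z [o] ∧
    ¬ missH H P k n o x z

/-- Axioms on the coding relations. -/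
def GR (P : Par) : Prop :=
  ∀ e j (l : List N), l.length = P.ar e → (H (.R e j) l ↔ (∀ x ∈ l, H .SD [x]) ∧
    ∃ o, H .Z [o] ∧ ∃ t, P.kb e j t = true ∧ (t : ℕ∞) ≤ lvH H (o :: l))

/-- The axioms, in semantic form. -/
structure Good (P : Par) : Prop where
  sort : GSort H P
  tr : GTr H
  pw : GPW H P
  t : GT H P
  q : GQ H P
  r : GR H P

end

/-- Duplicates: the `i`-th relation only depends on the `i`-th symbol. -/
def Dup {ar : ℕ → ℕ} {N : Type} (S : (sig (ari ar)).Structure N) : Prop :=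
  ∀ i l, hd (ari ar) S i l ↔ hd (ari ar) S (Sym.dec i).code l

end Pool.Agent.Work.MP_ed0a9a_lc
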