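import Mathlib

/-!
# Module `Bits`: bit operations are primitive recursive

* `primrec_pow2`: `Primrec.nat_rec'`-style recursion (or `Nat.Primrec.pow`).
* `primrec_testBit`: `m.testBit i = decide (m / 2 ^ i % 2 = 1)` (`Nat.testBit_eq_decide_div_mod_eq`
  or similar), with `Primrec.nat_div`, `Primrec.nat_mod`.
* `primrec_xor`, `primrec_land`: for `f : Bool → Bool → Bool` with `f false false = false` put
  `G a b := ((List.range (a + b)).map (fun i => if f (a.testBit i) (b.testBit i) then 2 ^ i else 0)).sum`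
  (or the same by `Nat.rec`); `(G a b).testBit i = f (a.testBit i) (b.testBit i)`
  (`Nat.eq_of_testBit_eq`, `Nat.testBit_lt_two_pow`, `Nat.lt_two_pow_self`); or, maybe simpler,
  show by induction on `c` that `Nat.rec 0 (fun i acc => acc + if … then 2 ^ i else 0) c
  = (a op b) % 2 ^ c`, and `a op b < 2 ^ (a + b)`.
-/

namespace Pool.Agent.Work.MP_ed0a9a_lc

theorem primrec_pow2 : Primrec (fun n : ℕ => 2 ^ n) := by
  have h : Primrec₂ (fun a b : ℕ => a ^ b) := Primrec₂.unpaired'.1 Nat.Primrec.pow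
  exact h.comp (Primrec.const 2) Primrec.id

theorem primrec_testBit : Primrec₂ (fun m i : ℕ => m.testBit i) := by
  have h1 : Primrec (fun p : ℕ × ℕ => p.1 / 2 ^ p.2 % 2) :=
    Primrec.nat_mod.comp (Primrec.nat_div.comp Primrec.fst (primrec_pow2.comp Primrec.snd))
      (Primrec.const 2)
  have h2 : PrimrecPred (fun p : ℕ × ℕ => p.1 / 2 ^ p.2 % 2 = 1) :=
    Primrec.eq.comp h1 (Primrec.const 1)
  have h3 : Primrec (fun p : ℕ × ℕ => decide (p.1 / 2 ^ p.2 % 2 = 1)) := h2.decide
  refine h3.of_eq fun p => ?_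
  exact (Nat.testBit_eq_decide_div_mod_eq).symm

private theorem bits_mod_succ (x i : ℕ) :
    x % 2 ^ (i + 1) = x % 2 ^ i + (if x.testBit i then 2 ^ i else 0) := by
  rw [Nat.mod_pow_succ, Nat.testBit_eq_decide_div_mod_eq]
  congr 1
  rcases Nat.mod_two_eq_zero_or_one (x / 2 ^ i) with h | h
  · simp [h]
  · simp [h]

private theorem bits_gen (f : Bool → Bool → Bool) (op : ℕ → ℕ → ℕ)
    (hb : ∀ a b i, (op a b).testBit i = f (a.testBit i) (b.testBit i))
    (hl : ∀ a b, op a b < 2 ^ (a + b)) : Primrec₂ op := by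
  have hrec : ∀ a b c : ℕ, (Nat.rec 0 (fun i acc => acc +
      (if f (a.testBit i) (b.testBit i) then 2 ^ i else 0)) c : ℕ) = op a b % 2 ^ c := by
    intro a b c
    induction c with
    | zero => simp [Nat.mod_one]
    | succ c ih =>
      show (Nat.rec 0 (fun i acc => acc +
        (if f (a.testBit i) (b.testBit i) then 2 ^ i else 0)) c : ℕ) + _ = _
      rw [ih, bits_mod_succ, hb]
  have hstep : Primrec₂ (fun (p : ℕ × ℕ) (q : ℕ × ℕ) => q.2 +
      (if f (p.1.testBit q.1) (p.2.testBit q.1) then 2 ^ q.1 else 0)) := by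
    have hf : Primrec₂ f := Primrec₂.mk (Primrec.dom_finite _)
    have h1 : Primrec (fun x : (ℕ × ℕ) × (ℕ × ℕ) => f (x.1.1.testBit x.2.1) (x.1.2.testBit x.2.1)) :=
      hf.comp (primrec_testBit.comp (Primrec.fst.comp Primrec.fst) (Primrec.fst.comp Primrec.snd))
        (primrec_testBit.comp (Primrec.snd.comp Primrec.fst) (Primrec.fst.comp Primrec.snd))
    have h2 : Primrec (fun x : (ℕ × ℕ) × (ℕ × ℕ) =>
        cond (f (x.1.1.testBit x.2.1) (x.1.2.testBit x.2.1)) (2 ^ x.2.1) 0) :=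
      Primrec.cond h1 (primrec_pow2.comp (Primrec.fst.comp Primrec.snd)) (Primrec.const 0)
    refine (Primrec.nat_add.comp (Primrec.snd.comp Primrec.snd) h2).of_eq fun x => ?_
    show x.2.2 + cond (f (x.1.1.testBit x.2.1) (x.1.2.testBit x.2.1)) (2 ^ x.2.1) 0 =
      x.2.2 + (if f (x.1.1.testBit x.2.1) (x.1.2.testBit x.2.1) then 2 ^ x.2.1 else 0)
    cases f (x.1.1.testBit x.2.1) (x.1.2.testBit x.2.1) <;> rfl
  have hmain : Primrec (fun p : ℕ × ℕ => (Nat.rec 0 (fun i acc => acc +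
      (if f (p.1.testBit i) (p.2.testBit i) then 2 ^ i else 0)) (p.1 + p.2) : ℕ)) :=
    Primrec.nat_rec' (f := fun p : ℕ × ℕ => p.1 + p.2) (g := fun _ => 0)
      (h := fun p q => q.2 + (if f (p.1.testBit q.1) (p.2.testBit q.1) then 2 ^ q.1 else 0))
      (Primrec.nat_add.comp Primrec.fst Primrec.snd) (Primrec.const 0) hstep
  refine hmain.of_eq fun p => ?_
  rw [hrec]
  exact Nat.mod_eq_of_lt (hl p.1 p.2)

private theorem bits_lt (a b : ℕ) : a < 2 ^ (a + b) ∧ b < 2 ^ (a + b) := by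
  constructor
  · exact Nat.lt_two_pow_self.trans_le (Nat.pow_le_pow_right (by norm_num) (by omega))
  · exact Nat.lt_two_pow_self.trans_le (Nat.pow_le_pow_right (by norm_num) (by omega))

theorem primrec_xor : Primrec₂ (fun a b : ℕ => a ^^^ b) :=
  bits_gen (fun x y => x ^^ y) (fun a b => a ^^^ b) (fun a b i => Nat.testBit_xor a b i)
    (fun a b => Nat.xor_lt_two_pow (bits_lt a b).1 (bits_lt a b).2)

theorem primrec_land : Primrec₂ (fun a b : ℕ => a &&& b) :=
  bits_gen (fun x y => x && y) (fun a b => a &&& b) (fun a b i => Nat.testBit_and a b i)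
    (fun a b => (Nat.and_le_left (n := a) (m := b)).trans_lt (bits_lt a b).1)

end Pool.Agent.Work.MP_ed0a9a_lc
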