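import Pool.Agent.Work.MP_ed0a9a_lc.MskDefs

/-!
# Module `Kb`: the coding sets

* `kbD_mono`: `Nat.Partrec.Code.evaln_mono`.
* `kbD_comp`: let `f j = φ_e (pair e j)` (partial).  If `f j` is defined for all `j` then
  `∃ t, kbD e j t` iff `f j = 0` (all `j' ≤ j` converge at a common time), computable since `f` is
  then a total computable function (`Nat.Partrec.Code.eval` is partial recursive;
  `Partrec.of_eq`, or `Computable` from a `Partrec` total function).
  If `f j₀` is undefined then `∃ t, kbD e j t` implies `j < j₀`, so the set is finite, and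
  a function with finite support is computable (e.g. `g j = decide (j ∈ l)` for a list `l`,
  `PrimrecRel`/`PrimrecPred.exists_mem_list`, or `j ↦ l.getD j false` : `Primrec.list_getD`).
* `kbD_comp_lt`: induction on `m`: `g' e j := if e = m then g_m j else g e j`.
* `kbD_diag`: let `c` be a number of the program computing `pair x y ↦ if Ψ x y then 1 else 0`.
  It is total, so `∃ t, kbD c j t` iff `φ_c (pair c j) = 0` iff `Ψ c j = false`.
-/

namespace Pool.Agent.Work.MP_ed0a9a_lc

private theorem kb_app_mono {e s t x : ℕ} (h : s ≤ t) {v : ℕ} (hv : app e s x = some v) :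
    app e t x = some v :=
  Nat.Partrec.Code.evaln_mono h hv

theorem kbD_mono (e j s t : ℕ) (h : s ≤ t) (hk : kbD e j s = true) : kbD e j t = true := by
  unfold kbD at hk ⊢
  rw [decide_eq_true_eq] at hk ⊢
  refine ⟨fun j' hj' => ?_, kb_app_mono h hk.2⟩
  obtain ⟨v, hv⟩ := Option.ne_none_iff_exists'.1 (hk.1 j' hj')
  rw [kb_app_mono h hv]
  exact Option.some_ne_none v

/-- the program number e -/
private def kbc (e : ℕ) : Nat.Partrec.Code := Denumerable.ofNat Nat.Partrec.Code e

private theorem kb_sound {e t x v : ℕ} (h : app e t x = some v) :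
    v ∈ (kbc e).eval x := Nat.Partrec.Code.evaln_sound h

private theorem kb_complete {e x v : ℕ} (h : v ∈ (kbc e).eval x) :
    ∃ t, app e t x = some v := Nat.Partrec.Code.evaln_complete.1 h

private theorem kb_total (e : ℕ) (f : ℕ → ℕ) (hf : ∀ j, f j ∈ (kbc e).eval (Nat.pair e j))
    (j : ℕ) : (∃ t, kbD e j t = true) ↔ f j = 0 := by
  constructor
  · rintro ⟨t, ht⟩
    unfold kbD at ht
    rw [decide_eq_true_eq] at ht
    exact Part.mem_unique (hf j) (kb_sound ht.2)
  · intro h0
    have h1 : ∀ k, ∃ t, ∀ j' < k, app e t (Nat.pair e j') ≠ none := by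
      intro k
      induction k with
      | zero => exact ⟨0, fun j' hj' => absurd hj' (by omega)⟩
      | succ k ih =>
        obtain ⟨t, ht⟩ := ih
        obtain ⟨t', ht'⟩ := kb_complete (hf k)
        refine ⟨max t t', fun j' hj' => ?_⟩
        by_cases hk : j' = k
        · subst hk
          rw [kb_app_mono (le_max_right t t') ht']
          exact Option.some_ne_none _
        · obtain ⟨v, hv⟩ := Option.ne_none_iff_exists'.1 (ht j' (by omega))
          rw [kb_app_mono (le_max_left t t') hv]
          exact Option.some_ne_none _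
    obtain ⟨t, ht⟩ := h1 (j + 1)
    obtain ⟨t', ht'⟩ := kb_complete (hf j)
    refine ⟨max t t', ?_⟩
    unfold kbD
    rw [decide_eq_true_eq]
    refine ⟨fun j' hj' => ?_, ?_⟩
    · obtain ⟨v, hv⟩ := Option.ne_none_iff_exists'.1 (ht j' hj')
      rw [kb_app_mono (le_max_left t t') hv]
      exact Option.some_ne_none _
    · rw [kb_app_mono (le_max_right t t') ht', h0]

theorem kbD_comp (e : ℕ) : ∃ g : ℕ → Bool, Computable g ∧
    ∀ j, g j = true ↔ ∃ t, kbD e j t = true := by
  classical
  by_cases hall : ∀ j, ((kbc e).eval (Nat.pair e j)).Dom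
  · have hf : Computable fun j => ((kbc e).eval (Nat.pair e j)).get (hall j) := by
      have h1 : Partrec fun j : ℕ => (kbc e).eval (Nat.pair e j) :=
        Nat.Partrec.Code.eval_part.comp (Computable.const (kbc e))
          (Primrec₂.natPair.to_comp.comp (Computable.const e) Computable.id)
      refine h1.of_eq fun j => ?_
      exact (Part.some_get (hall j)).symm
    refine ⟨fun j => decide (((kbc e).eval (Nat.pair e j)).get (hall j) = 0), ?_, fun j => ?_⟩
    · have h2 : Primrec fun n : ℕ => decide (n = 0) := by
        obtain ⟨_, h⟩ := (Primrec.eq (α := ℕ)).comp (α := ℕ) Primrec.id (Primrec.const 0)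
        exact h.of_eq fun q => by simp
      exact h2.to_comp.comp hf
    · rw [decide_eq_true_eq, kb_total e (fun j => ((kbc e).eval (Nat.pair e j)).get (hall j))
        (fun j => Part.get_mem (hall j)) j]
  · push Not at hall
    obtain ⟨j0, hj0⟩ := hall
    refine ⟨fun j => ((List.range j0).map fun j => decide (∃ t, kbD e j t = true)).getD j false,
      ?_, fun j => ?_⟩
    · exact ((Primrec.list_getD false).to_comp).comp (Computable.const _) Computable.id
    · change ((List.range j0).map fun j => decide (∃ t, kbD e j t = true)).getD j false = true ↔ _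
      by_cases hj : j < j0
      · rw [List.getD_eq_getElem _ _ (by simpa using hj)]
        simp
      · rw [List.getD_eq_default _ _ (by simpa using not_lt.1 hj)]
        constructor
        · intro h
          exact absurd h (by simp)
        · rintro ⟨t, ht⟩
          exfalso
          unfold kbD at ht
          rw [decide_eq_true_eq] at ht
          obtain ⟨v, hv⟩ := Option.ne_none_iff_exists'.1 (ht.1 j0 (by omega))
          exact hj0 (Part.dom_iff_mem.2 ⟨v, kb_sound hv⟩)

theorem kbD_comp_lt (m : ℕ) : ∃ g : ℕ → ℕ → Bool, Computable₂ g ∧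
    ∀ e < m, ∀ j, g e j = true ↔ ∃ t, kbD e j t = true := by
  induction m with
  | zero => exact ⟨fun _ _ => false, Computable.const false, fun e he => absurd he (by omega)⟩
  | succ m ih =>
    obtain ⟨g, hg, h1⟩ := ih
    obtain ⟨g', hg', h2⟩ := kbD_comp m
    refine ⟨fun e j => bif decide (e = m) then g' j else g e j, ?_, fun e he j => ?_⟩
    · refine Computable.cond ?_ (hg'.comp Computable.snd) hg
      have h3 : Primrec fun q : ℕ × ℕ => decide (q.1 = m) := by
        obtain ⟨_, h⟩ := (Primrec.eq (α := ℕ)).comp (α := ℕ × ℕ) Primrec.fst (Primrec.const m)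
        exact h.of_eq fun q => by simp
      exact h3.to_comp
    · by_cases hem : e = m
      · subst hem
        simp only [decide_true, cond_true]
        exact h2 j
      · simp only [hem, decide_false, cond_false]
        exact h1 e (by omega) j

theorem kbD_diag : DiagR kbD := by
  intro Ψ hΨ
  have h1 : Computable fun x : ℕ => (bif Ψ (Nat.unpair x).1 (Nat.unpair x).2 then 1 else 0 : ℕ) := by
    refine Computable.cond ?_ (Computable.const 1) (Computable.const 0)
    exact hΨ.comp (Computable.fst.comp Computable.unpair) (Computable.snd.comp Computable.unpair)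
  obtain ⟨c, hc⟩ := Nat.Partrec.Code.exists_code.1 (Partrec.nat_iff.1 h1.partrec)
  refine ⟨Encodable.encode c, fun j => ?_⟩
  have hk : kbc (Encodable.encode c) = c := Denumerable.ofNat_encode c
  rw [kb_total (Encodable.encode c)
    (fun j => (bif Ψ (Encodable.encode c) j then 1 else 0 : ℕ)) (fun j => ?_) j]
  · cases Ψ (Encodable.encode c) j <;> simp
  · rw [hk, hc]
    simp

end Pool.Agent.Work.MP_ed0a9a_lc
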