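import Pool.Agent.Work.MP_ed0a9a_lc.MskDefs

/-!
# Module `Msk`: properties of the masks

* `testBit_mskU`: induction on `N` (`Nat.testBit_xor`, `Nat.testBit_two_pow`, `Nat.zero_testBit`;
  `Nat.pair` is injective: for the new term `n = pair N q` the bit of `mskU q t N` is false).
* `app_mono`: `Nat.Partrec.Code.evaln_mono`.
* `Cc_anti`: if `Cc e t' q` and `t ≤ t'` then `Cc e t q`: for `m < t` with `startedAt e t m` we
  have `startedAt e t' m` (all values `app e t (0, u)`, `u < m`, are defined, so unchanged at `t'`),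
  take the `u` given by `Cc e t' q`; if `app e t (1, …) = some 1` then the same at `t'`.
* `mskD_lim`: for fixed `e`, `q'` the truth value of `Cc e t q'` is antitone in `t`, hence
  eventually constant; so `mark e t q` is eventually constant for all `e ≤ q`; take the maximum.
* `diag_mskD`: let `c : Code` compute the total function `F` with `F (pair 0 u) = if fib u then 1
  else 0`, `F (pair 1 (pair n (pair u u'))) = if Qr n u u' then 1 else 0`
  (`Nat.Partrec.Code.exists_code`, `Computable`), `e := encode c`, so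
  `Denumerable.ofNat Code e = c`; `app e t x = some y → F x = y` (`evaln_sound`), and for every
  `x` eventually `app e t x = some (F x)` (`evaln_complete`, `evaln_mono`).
  Let `m` be such that exactly `e + 1` numbers `u < m` have `fib u` (`fib` is infinite:
  e.g. `m = Nat.nth … e + 1`), `L` := these.  For all large `t`, `m < t` and `startedAt e t m`, and
  whenever `startedAt e t m'` the `u < m'` with `app e t (0,u) = some 1` are exactly `L`
  (both sets are initial segments of the fibre with `e + 1` elements).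
  Case A: there is `q ≥ e` with `∀ t, Cc e t q`.  Take the least.  Then eventually
  `mark e t q`, so the bit is eventually `false`.  For every large `t` there is `u ∈ L` with
  `∀ u' < t, app … ≠ some 1`; `L` is finite, so one `u` works for arbitrarily large `t`, and then
  `Qr (pair e q) u u' = false` for all `u'`.
  Case B: for all `q ≥ e` eventually `¬ Cc e t q`.  So for `q ≥ e` eventually `¬ mark e t q` and
  the bit is eventually `true`; and `¬ Cc e t q` says: for all `u ∈ L` there is `u'` with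
  `app … = some 1`, i.e. `Qr (pair e q) u u' = true`.
-/

namespace Pool.Agent.Work.MP_ed0a9a_lc

theorem testBit_mskU (q t N n : ℕ) :
    (mskU q t N).testBit n = true ↔ ∃ e < N, n = Nat.pair e q ∧ ¬ mark e t q := by
  induction N with
  | zero => simp [mskU]
  | succ N ih =>
    rw [mskU, Nat.testBit_xor]
    by_cases hm : mark N t q
    · rw [if_pos hm, Nat.zero_testBit, Bool.xor_false, ih]
      constructor
      · rintro ⟨e, he, h⟩
        exact ⟨e, by omega, h⟩
      · rintro ⟨e, he, hn, h⟩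
        refine ⟨e, ?_, hn, h⟩
        rcases Nat.lt_succ_iff_lt_or_eq.1 he with h' | rfl
        · exact h'
        · exact absurd hm h
    · rw [if_neg hm, Nat.testBit_two_pow]
      by_cases hn : Nat.pair N q = n
      · have h1 : (mskU q t N).testBit n = false := by
          by_contra hc
          obtain ⟨e, he, hn', _⟩ := ih.1 (by simpa using hc)
          rw [← hn, Nat.pair_eq_pair] at hn'
          omega
        rw [h1]
        simp only [hn, decide_true, Bool.false_xor, true_iff]
        exact ⟨N, by omega, hn.symm, hm⟩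
      · simp only [hn, decide_false, Bool.xor_false]
        rw [ih]
        constructor
        · rintro ⟨e, he, h⟩
          exact ⟨e, by omega, h⟩
        · rintro ⟨e, he, hn', h⟩
          refine ⟨e, ?_, hn', h⟩
          rcases Nat.lt_succ_iff_lt_or_eq.1 he with h' | rfl
          · exact h'
          · exact absurd hn'.symm hn

theorem testBit_mskD (q t n : ℕ) :
    (mskD q t).testBit n = true ↔ ∃ e ≤ q, n = Nat.pair e q ∧ ¬ mark e t q := by
  unfold mskD
  rw [testBit_mskU]
  simp only [Nat.lt_succ_iff]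

theorem mskD_bit (q t n : ℕ) (h : (mskD q t).testBit n = true) : (Nat.unpair n).2 = q := by
  obtain ⟨e, -, h, -⟩ := (testBit_mskD q t n).1 h
  simp [h]

theorem app_mono (e t t' x y : ℕ) (h : t ≤ t') (hy : app e t x = some y) :
    app e t' x = some y :=
  Nat.Partrec.Code.evaln_mono h hy

theorem Cc_anti (e t t' q : ℕ) (h : t ≤ t') (hc : Cc e t' q) : Cc e t q := by
  intro m hm hs
  have hval : ∀ u < m, app e t' (Nat.pair 0 u) = app e t (Nat.pair 0 u) := by
    intro u hu
    obtain ⟨y, hy⟩ := Option.ne_none_iff_exists'.1 (hs.1 u hu)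
    rw [hy]
    exact app_mono e t t' _ y h hy
  have hs' : startedAt e t' m := by
    refine ⟨fun u hu => by rw [hval u hu]; exact hs.1 u hu, ?_⟩
    rw [← hs.2]
    unfold cnt
    congr 1
    apply List.filter_congr
    intro u hu
    rw [hval u (List.mem_range.1 hu)]
  obtain ⟨u, hu, h1, h2⟩ := hc m (by omega) hs'
  refine ⟨u, hu, by rw [← hval u hu]; exact h1, fun u' hu' h3 => ?_⟩
  exact h2 u' (by omega) (app_mono e t t' _ 1 h h3)

private theorem ev_forall_lt (m : ℕ) (Q : ℕ → ℕ → Prop) (h : ∀ u < m, ∃ t₀, ∀ t, t₀ ≤ t → Q u t) :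
    ∃ t₀, ∀ t, t₀ ≤ t → ∀ u < m, Q u t := by
  induction m with
  | zero => exact ⟨0, fun t _ u hu => absurd hu (Nat.not_lt_zero u)⟩
  | succ m ih =>
    obtain ⟨t₀, h0⟩ := ih (fun u hu => h u (by omega))
    obtain ⟨t₁, h1⟩ := h m (by omega)
    refine ⟨max t₀ t₁, fun t ht u hu => ?_⟩
    rcases Nat.lt_succ_iff_lt_or_eq.1 hu with hu' | rfl
    · exact h0 t (le_trans (le_max_left _ _) ht) u hu'
    · exact h1 t (le_trans (le_max_right _ _) ht)

/-- An antitone predicate is eventually constant. -/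
private theorem ev_const (Q : ℕ → Prop) (h : ∀ s t, s ≤ t → Q t → Q s) :
    ∃ t₀, ∀ t, t₀ ≤ t → (Q t ↔ Q t₀) := by
  by_cases hall : ∀ t, Q t
  · exact ⟨0, fun t _ => ⟨fun _ => hall _, fun _ => hall _⟩⟩
  · obtain ⟨t₀, ht₀⟩ := not_forall.1 hall
    exact ⟨t₀, fun t ht => ⟨fun hq => absurd (h _ _ ht hq) ht₀, fun hq => absurd hq ht₀⟩⟩

theorem mskD_lim (q : ℕ) : ∃ t₀, ∀ t, t₀ ≤ t → mskD q t = mskD q t₀ := by
  have h1 : ∀ e < q + 1, ∃ t₀, ∀ t, t₀ ≤ t → ∀ q' < q + 1, (Cc e t q' ↔ Cc e t₀ q') := by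
    intro e _
    have h2 : ∀ q' < q + 1, ∃ t₀, ∀ t, t₀ ≤ t → (Cc e t q' ↔ ∀ s, Cc e s q') := by
      intro q' _
      obtain ⟨t₀, ht₀⟩ := ev_const (fun t => Cc e t q') (fun s t hst => Cc_anti e s t q' hst)
      refine ⟨t₀, fun t ht => ⟨fun hq s => ?_, fun hq => hq t⟩⟩
      rcases le_total s t₀ with hs | hs
      · exact Cc_anti e s t₀ q' hs ((ht₀ t ht).1 hq)
      · exact (ht₀ s hs).2 ((ht₀ t ht).1 hq)
    obtain ⟨t₀, ht₀⟩ := ev_forall_lt (q + 1) (fun q' t => (Cc e t q' ↔ ∀ s, Cc e s q')) h2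
    exact ⟨t₀, fun t ht q' hq' => (ht₀ t ht q' hq').trans (ht₀ t₀ le_rfl q' hq').symm⟩
  have h3 : ∀ e < q + 1, ∃ t₀, ∀ t, t₀ ≤ t → (mark e t q ↔ mark e t₀ q) := by
    intro e he
    obtain ⟨t₀, ht₀⟩ := h1 e he
    refine ⟨t₀, fun t ht => ?_⟩
    unfold mark
    rw [ht₀ t ht q (by omega)]
    constructor
    · rintro ⟨a, b⟩
      exact ⟨a, fun q' hq' he' hc => b q' hq' he' ((ht₀ t ht q' (by omega)).2 hc)⟩
    · rintro ⟨a, b⟩
      exact ⟨a, fun q' hq' he' hc => b q' hq' he' ((ht₀ t ht q' (by omega)).1 hc)⟩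
  have h4 : ∀ e < q + 1, ∃ t₀, ∀ t, t₀ ≤ t → ∀ s, t₀ ≤ s → (mark e t q ↔ mark e s q) := by
    intro e he
    obtain ⟨t₀, ht₀⟩ := h3 e he
    exact ⟨t₀, fun t ht s hs => (ht₀ t ht).trans (ht₀ s hs).symm⟩
  choose! τ hτ using h4
  have h5 : ∃ t₀, ∀ e < q + 1, τ e ≤ t₀ := by
    refine ⟨(Finset.range (q + 1)).sup τ, fun e he => ?_⟩
    exact Finset.le_sup (f := τ) (Finset.mem_range.2 he)
  obtain ⟨t₀, ht₀⟩ := h5
  refine ⟨t₀, fun t ht => ?_⟩
  apply Nat.eq_of_testBit_eq
  intro n
  have h6 : (mskD q t).testBit n = true ↔ (mskD q t₀).testBit n = true := by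
    rw [testBit_mskD, testBit_mskD]
    constructor
    · rintro ⟨e, he, hn, hm⟩
      exact ⟨e, he, hn, fun hm' => hm ((hτ e (by omega) t (le_trans (ht₀ e (by omega)) ht) t₀
        (ht₀ e (by omega))).2 hm')⟩
    · rintro ⟨e, he, hn, hm⟩
      exact ⟨e, he, hn, fun hm' => hm ((hτ e (by omega) t (le_trans (ht₀ e (by omega)) ht) t₀
        (ht₀ e (by omega))).1 hm')⟩
  exact Bool.eq_iff_iff.2 h6

theorem diag_mskD : Diag mskD := by
  intro fib Qr hfib hQr hinf
  -- the total function
  let F : ℕ → ℕ := fun x =>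
    if (Nat.unpair x).1 = 0 then (if fib (Nat.unpair x).2 = true then 1 else 0)
    else (if Qr (Nat.unpair (Nat.unpair x).2).1 (Nat.unpair (Nat.unpair (Nat.unpair x).2).2).1
      (Nat.unpair (Nat.unpair (Nat.unpair x).2).2).2 = true then 1 else 0)
  have hF : Computable F := by
    have u1 : Primrec (fun x : ℕ => (Nat.unpair x).1) := Primrec.fst.comp Primrec.unpair
    have u2 : Primrec (fun x : ℕ => (Nat.unpair x).2) := Primrec.snd.comp Primrec.unpair
    have c1 : Computable (fun x : ℕ => fib (Nat.unpair x).2) := hfib.comp u2.to_comp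
    have c2 : Computable (fun x : ℕ => Qr (Nat.unpair (Nat.unpair x).2).1
        (Nat.unpair (Nat.unpair (Nat.unpair x).2).2).1
        (Nat.unpair (Nat.unpair (Nat.unpair x).2).2).2) := by
      have := hQr.comp (((u1.comp u2).pair ((u1.comp (u2.comp u2)).pair
        (u2.comp (u2.comp u2)))).to_comp)
      exact this
    have d1 := Computable.cond c1 (Computable.const 1) (Computable.const 0)
    have d2 := Computable.cond c2 (Computable.const 1) (Computable.const 0)
    have d0 : Computable (fun x : ℕ => decide ((Nat.unpair x).1 = 0)) :=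
      (Primrec.eq.comp u1 (Primrec.const 0)).decide.to_comp
    refine (Computable.cond d0 d1 d2).of_eq (fun x => ?_)
    simp only [F, Bool.cond_eq_ite, decide_eq_true_eq]
  have hF0 : ∀ u, F (Nat.pair 0 u) = if fib u = true then 1 else 0 := by
    intro u; simp [F]
  have hF1 : ∀ n u u', F (Nat.pair 1 (Nat.pair n (Nat.pair u u'))) =
      if Qr n u u' = true then 1 else 0 := by
    intro n u u'; simp [F]
  obtain ⟨c, hc⟩ := Nat.Partrec.Code.exists_code.1 (Partrec.nat_iff.1 hF)
  set e := Encodable.encode c with he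
  have hof : Denumerable.ofNat Nat.Partrec.Code e = c := Denumerable.ofNat_encode c
  have hsound : ∀ t x y, app e t x = some y → y = F x := by
    intro t x y h
    unfold app at h
    rw [hof] at h
    have h1 := Nat.Partrec.Code.evaln_sound h
    rw [hc] at h1
    exact Part.mem_some_iff.1 h1
  have hconv : ∀ x, ∃ t₀, ∀ t, t₀ ≤ t → app e t x = some (F x) := by
    intro x
    have h1 : F x ∈ Nat.Partrec.Code.eval c x := by
      rw [hc]; exact Part.mem_some _
    obtain ⟨t₀, ht₀⟩ := Nat.Partrec.Code.evaln_complete.1 h1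
    refine ⟨t₀, fun t ht => ?_⟩
    apply app_mono e t₀ t x _ ht
    unfold app
    rw [hof]
    exact ht₀
  classical
  -- the first `e + 1` elements of the fibre
  set p : ℕ → Prop := fun u => fib u = true with hp
  have hinf' : {u | p u}.Infinite := hinf
  obtain ⟨m, hm⟩ : ∃ m, ((Finset.range m).filter p).card = e + 1 := by
    refine ⟨Nat.nth p e + 1, ?_⟩
    rw [← Nat.count_eq_card_filter_range, Nat.count_succ, Nat.count_nth_of_infinite hinf',
      if_pos (Nat.nth_mem_of_infinite hinf' e)]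
  set L : Finset ℕ := (Finset.range m).filter p with hL
  have hLm : ∀ u ∈ L, u < m := fun u hu => Finset.mem_range.1 (Finset.mem_filter.1 hu).1
  have hLf : ∀ u ∈ L, fib u = true := fun u hu => (Finset.mem_filter.1 hu).2
  -- K1
  have K1 : ∀ t m', startedAt e t m' →
      ∀ u, u ∈ L ↔ (u < m' ∧ app e t (Nat.pair 0 u) = some 1) := by
    intro t m' hs
    have h1 : ∀ u < m', (app e t (Nat.pair 0 u) = some 1 ↔ fib u = true) := by
      intro u hu
      obtain ⟨y, hy⟩ := Option.ne_none_iff_exists'.1 (hs.1 u hu)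
      have := hsound _ _ _ hy
      rw [hF0] at this
      rw [hy, this]
      by_cases hfu : fib u = true <;> simp [hfu]
    have h2 : ((Finset.range m').filter p).card = e + 1 := by
      rw [← hs.2]
      unfold cnt
      have h3 : (List.range m').filter (fun u => decide (app e t (Nat.pair 0 u) = some 1)) =
          (List.range m').filter (fun u => decide (p u)) := by
        apply List.filter_congr
        intro u hu
        have := h1 u (List.mem_range.1 hu)
        simp only [hp, decide_eq_decide]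
        exact this
      rw [h3]
      rfl
    have h4 : L = (Finset.range m').filter p := by
      rcases le_total m m' with h | h
      · refine Finset.eq_of_subset_of_card_le ?_ (by rw [h2, hm])
        intro u hu
        rw [hL, Finset.mem_filter, Finset.mem_range] at hu
        rw [Finset.mem_filter, Finset.mem_range]
        exact ⟨by omega, hu.2⟩
      · symm
        refine Finset.eq_of_subset_of_card_le ?_ (by rw [h2, hm])
        intro u hu
        rw [Finset.mem_filter, Finset.mem_range] at hu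
        rw [hL, Finset.mem_filter, Finset.mem_range]
        exact ⟨by omega, hu.2⟩
    intro u
    rw [h4, Finset.mem_filter, Finset.mem_range]
    constructor
    · rintro ⟨a, b⟩
      exact ⟨a, (h1 u a).2 b⟩
    · rintro ⟨a, b⟩
      exact ⟨a, (h1 u a).1 b⟩
  -- K2
  obtain ⟨t₁, ht₁⟩ : ∃ t₁, ∀ t, t₁ ≤ t → m < t ∧ startedAt e t m := by
    obtain ⟨t₀, ht₀⟩ := ev_forall_lt m
      (fun u t => app e t (Nat.pair 0 u) = some (F (Nat.pair 0 u))) (fun u _ => hconv _)
    refine ⟨max t₀ (m + 1), fun t ht => ⟨by have := le_trans (le_max_right _ _) ht; omega, ?_⟩⟩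
    have h1 := ht₀ t (le_trans (le_max_left _ _) ht)
    refine ⟨fun u hu => by rw [h1 u hu]; simp, ?_⟩
    unfold cnt
    rw [← hm]
    have h3 : (List.range m).filter (fun u => decide (app e t (Nat.pair 0 u) = some 1)) =
        (List.range m).filter (fun u => decide (p u)) := by
      apply List.filter_congr
      intro u hu
      rw [h1 u (List.mem_range.1 hu), hF0]
      by_cases hfu : fib u = true <;> simp [hp, hfu]
    rw [h3]
    rfl
  -- K3
  have K3 : ∀ t, t₁ ≤ t → ∀ q, (Cc e t q ↔ ∃ u ∈ L, ∀ u' < t,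
      app e t (Nat.pair 1 (Nat.pair (Nat.pair e q) (Nat.pair u u'))) ≠ some 1) := by
    intro t ht q
    obtain ⟨hmt, hs⟩ := ht₁ t ht
    constructor
    · intro hcc
      obtain ⟨u, hu, h1, h2⟩ := hcc m hmt hs
      exact ⟨u, (K1 t m hs u).2 ⟨hu, h1⟩, h2⟩
    · rintro ⟨u, hu, h2⟩ m' hm' hs'
      obtain ⟨a, b⟩ := (K1 t m' hs' u).1 hu
      exact ⟨u, a, b, h2⟩
  have hval : ∀ n u u', Qr n u u' = true → ∃ t₀, ∀ t, t₀ ≤ t →
      app e t (Nat.pair 1 (Nat.pair n (Nat.pair u u'))) = some 1 := by
    intro n u u' h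
    obtain ⟨t₀, ht₀⟩ := hconv (Nat.pair 1 (Nat.pair n (Nat.pair u u')))
    refine ⟨t₀, fun t ht => ?_⟩
    rw [ht₀ t ht, hF1, if_pos h]
  have hval' : ∀ n u u' t, app e t (Nat.pair 1 (Nat.pair n (Nat.pair u u'))) = some 1 →
      Qr n u u' = true := by
    intro n u u' t h
    have := hsound _ _ _ h
    rw [hF1] at this
    by_contra hc
    rw [if_neg hc] at this
    exact absurd this (by simp)
  refine ⟨e, L, hm, hLf, ?_⟩
  by_cases hA : ∃ q, e ≤ q ∧ ∀ t, Cc e t q
  · left
    obtain ⟨hq1, hq2⟩ := Nat.find_spec hA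
    have hmin : ∀ q' < Nat.find hA, ¬ (e ≤ q' ∧ ∀ t, Cc e t q') :=
      fun q' hq' => Nat.find_min hA hq'
    set q := Nat.find hA with hq
    refine ⟨q, hq1, ?_, ?_⟩
    · obtain ⟨t₂, ht₂⟩ := ev_forall_lt q (fun q' t => e ≤ q' → ¬ Cc e t q') (by
        intro q' hq'
        by_cases heq : e ≤ q'
        · have : ¬ ∀ t, Cc e t q' := fun h => hmin q' hq' ⟨heq, h⟩
          obtain ⟨t₀, ht₀⟩ := not_forall.1 this
          exact ⟨t₀, fun t ht _ hcc => ht₀ (Cc_anti e t₀ t q' ht hcc)⟩
        · exact ⟨0, fun t _ h => absurd h heq⟩)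
      refine ⟨t₂, fun t ht => ?_⟩
      by_contra hc'
      obtain ⟨e', -, he', hmk⟩ := (testBit_mskD q t _).1 (by simpa using hc')
      rw [Nat.pair_eq_pair] at he'
      rw [← he'.1] at hmk
      exact hmk ⟨hq2 t, fun q' hq' heq => ht₂ t ht q' hq' heq⟩
    · by_contra hno
      have h1 : ∀ u ∈ L, ∃ u', Qr (Nat.pair e q) u u' = true := by
        intro u hu
        by_contra hc'
        apply hno
        refine ⟨u, hu, fun u' => ?_⟩
        by_contra h2
        exact hc' ⟨u', by simpa using h2⟩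
      obtain ⟨t₂, ht₂⟩ := ev_forall_lt m (fun u t => u ∈ L → ∃ u' < t,
        app e t (Nat.pair 1 (Nat.pair (Nat.pair e q) (Nat.pair u u'))) = some 1) (by
        intro u _
        by_cases hu : u ∈ L
        · obtain ⟨u', hu'⟩ := h1 u hu
          obtain ⟨t₀, ht₀⟩ := hval _ _ _ hu'
          refine ⟨max t₀ (u' + 1), fun t ht _ => ⟨u', ?_, ht₀ t (le_trans (le_max_left _ _) ht)⟩⟩
          have := le_trans (le_max_right _ _) ht
          omega
        · exact ⟨0, fun t _ h => absurd h hu⟩)
      obtain ⟨u, hu, h3⟩ := (K3 (max t₁ t₂) (le_max_left _ _) q).1 (hq2 _)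
      obtain ⟨u', hu', h4⟩ := ht₂ (max t₁ t₂) (le_max_right _ _) u (hLm u hu) hu
      exact h3 u' hu' h4
  · right
    intro q heq
    have h1 : ∃ t₀, ¬ Cc e t₀ q := by
      by_contra hno
      exact hA ⟨q, heq, fun t => by
        by_contra h
        exact hno ⟨t, h⟩⟩
    obtain ⟨t₀, ht₀⟩ := h1
    have h2 : ∀ t, t₀ ≤ t → ¬ Cc e t q := fun t ht hcc => ht₀ (Cc_anti e t₀ t q ht hcc)
    constructor
    · refine ⟨t₀, fun t ht => (testBit_mskD q t _).2 ⟨e, heq, rfl, fun hmk => h2 t ht hmk.1⟩⟩
    · intro u hu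
      have h3 := h2 (max t₀ t₁) (le_max_left _ _)
      rw [K3 _ (le_max_right _ _) q] at h3
      by_contra hno
      apply h3
      refine ⟨u, hu, fun u' _ h4 => hno ⟨u', hval' _ _ _ _ h4⟩⟩

end Pool.Agent.Work.MP_ed0a9a_lc
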