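import Pool.Agent.Work.MP_ed0a9a_lc.MskDefs
import Pool.Agent.Work.MP_ed0a9a_lc.Bits

/-!
# Module `MskPrim`: the masks and the coding sets are primitive recursive

* `primrec_app`: `Nat.Partrec.Code.primrec_evaln` and `Primrec.ofNat`.
* `cnt`: filter with parameters (`PrimrecRel.listFilter`) or directly: `cnt e t (m+1) =
  cnt e t m + if … then 1 else 0`, `Primrec.nat_rec'`.
* Bounded quantifiers: `PrimrecRel.forall_lt`, `PrimrecRel.exists_lt` with all parameters packed
  into one tuple, `PrimrecPred.and`/`.or`/`.not`.  (`startedAt`, `Cc`, `mark`: the predicates are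
  decidable; `PrimrecPred p` is `∃ (_ : DecidablePred p), Primrec …`.)
* `mskU`: `Primrec.nat_rec'`, `primrec_xor`, `primrec_pow2`, `Primrec.ite`.
-/

namespace Pool.Agent.Work.MP_ed0a9a_lc

section

variable {α : Type} [Primcodable α]

private theorem mp_ball {g : α → ℕ} {p : α → ℕ → Prop} (hg : Primrec g) (hp : PrimrecRel p) :
    PrimrecPred fun a => ∀ x < g a, p a x := by
  have h1 : PrimrecRel fun (x : ℕ) (a : α) => p a x := hp.swap
  have h2 := PrimrecRel.forall_mem_list h1
  exact (PrimrecRel.comp (f := fun a => List.range (g a)) (g := fun a => a) h2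
    (Primrec.list_range.comp hg) Primrec.id).of_eq fun a => by simp

private theorem mp_bex {g : α → ℕ} {p : α → ℕ → Prop} (hg : Primrec g) (hp : PrimrecRel p) :
    PrimrecPred fun a => ∃ x < g a, p a x := by
  have h1 : PrimrecRel fun (x : ℕ) (a : α) => p a x := hp.swap
  have h2 := PrimrecRel.exists_mem_list h1
  exact (PrimrecRel.comp (f := fun a => List.range (g a)) (g := fun a => a) h2
    (Primrec.list_range.comp hg) Primrec.id).of_eq fun a => by simp

private theorem mp_imp {p q : α → Prop} (hp : PrimrecPred p) (hq : PrimrecPred q) :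
    PrimrecPred fun a => p a → q a :=
  (hp.not.or hq).of_eq fun _ => imp_iff_not_or.symm

private theorem mp_app {e t x : α → ℕ} (he : Primrec e) (ht : Primrec t) (hx : Primrec x) :
    Primrec fun a => app (e a) (t a) (x a) :=
  Nat.Partrec.Code.primrec_evaln.comp
    (Primrec.pair (Primrec.pair ht ((Primrec.ofNat Nat.Partrec.Code).comp he)) hx)

private theorem mp_pair {f g : α → ℕ} (hf : Primrec f) (hg : Primrec g) :
    Primrec fun a => Nat.pair (f a) (g a) := Primrec₂.natPair.comp hf hg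

private theorem mp_len {m : α → ℕ} {p : α → ℕ → Bool} (hm : Primrec m) (hp : Primrec₂ p) :
    Primrec fun a => ((List.range (m a)).filter (p a)).length := by
  have hg : Primrec₂ (fun (a : α) (u : ℕ) => cond (p a u) (some u) (none : Option ℕ)) :=
    Primrec.cond hp (Primrec.option_some.comp Primrec.snd) (Primrec.const none)
  have h1 := Primrec.list_length.comp (Primrec.listFilterMap (Primrec.list_range.comp hm) hg)
  refine h1.of_eq fun a => ?_
  congr 1
  generalize List.range (m a) = l
  induction l with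
  | nil => rfl
  | cons b l ih =>
    rw [List.filterMap_cons, List.filter_cons, ih]
    cases p a b <;> rfl

private theorem mp_cnt {e t m : α → ℕ} (he : Primrec e) (ht : Primrec t) (hm : Primrec m) :
    Primrec fun a => cnt (e a) (t a) (m a) := by
  unfold cnt
  refine mp_len hm ?_
  have h1 : Primrec (fun x : α × ℕ => app (e x.1) (t x.1) (Nat.pair 0 x.2)) :=
    mp_app (he.comp Primrec.fst) (ht.comp Primrec.fst) (mp_pair (Primrec.const 0) Primrec.snd)
  exact (Primrec.eq.comp h1 (Primrec.const (some 1))).decide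

private theorem mp_started {e t m : α → ℕ} (he : Primrec e) (ht : Primrec t) (hm : Primrec m) :
    PrimrecPred fun a => startedAt (e a) (t a) (m a) := by
  unfold startedAt
  refine PrimrecPred.and (mp_ball hm ?_) (Primrec.eq.comp (mp_cnt he ht hm)
    (Primrec.succ.comp he))
  have h1 : Primrec (fun x : α × ℕ => app (e x.1) (t x.1) (Nat.pair 0 x.2)) :=
    mp_app (he.comp Primrec.fst) (ht.comp Primrec.fst) (mp_pair (Primrec.const 0) Primrec.snd)
  exact (Primrec.eq.comp h1 (Primrec.const none)).not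

private theorem mp_Cc {e t q : α → ℕ} (he : Primrec e) (ht : Primrec t) (hq : Primrec q) :
    PrimrecPred fun a => Cc (e a) (t a) (q a) := by
  unfold Cc
  refine mp_ball ht ?_
  have he1 : Primrec (fun x : α × ℕ => e x.1) := he.comp Primrec.fst
  have ht1 : Primrec (fun x : α × ℕ => t x.1) := ht.comp Primrec.fst
  have hq1 : Primrec (fun x : α × ℕ => q x.1) := hq.comp Primrec.fst
  have hs : PrimrecPred (fun x : α × ℕ => startedAt (e x.1) (t x.1) x.2) :=
    mp_started he1 ht1 Primrec.snd
  have hex : PrimrecPred (fun x : α × ℕ => ∃ u < x.2, app (e x.1) (t x.1) (Nat.pair 0 u) = some 1 ∧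
      ∀ u' < t x.1, app (e x.1) (t x.1)
        (Nat.pair 1 (Nat.pair (Nat.pair (e x.1) (q x.1)) (Nat.pair u u'))) ≠ some 1) := by
    refine mp_bex Primrec.snd ?_
    have he2 : Primrec (fun x : (α × ℕ) × ℕ => e x.1.1) := he1.comp Primrec.fst
    have ht2 : Primrec (fun x : (α × ℕ) × ℕ => t x.1.1) := ht1.comp Primrec.fst
    have hq2 : Primrec (fun x : (α × ℕ) × ℕ => q x.1.1) := hq1.comp Primrec.fst
    refine PrimrecPred.and ?_ ?_
    · exact Primrec.eq.comp (mp_app he2 ht2 (mp_pair (Primrec.const 0) Primrec.snd))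
        (Primrec.const (some 1))
    · refine mp_ball ht2 ?_
      have he3 : Primrec (fun x : ((α × ℕ) × ℕ) × ℕ => e x.1.1.1) := he2.comp Primrec.fst
      have ht3 : Primrec (fun x : ((α × ℕ) × ℕ) × ℕ => t x.1.1.1) := ht2.comp Primrec.fst
      have hq3 : Primrec (fun x : ((α × ℕ) × ℕ) × ℕ => q x.1.1.1) := hq2.comp Primrec.fst
      exact (Primrec.eq.comp (mp_app he3 ht3 (mp_pair (Primrec.const 1)
        (mp_pair (mp_pair he3 hq3) (mp_pair (Primrec.snd.comp Primrec.fst) Primrec.snd))))
        (Primrec.const (some 1))).not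
  exact mp_imp hs hex

private theorem mp_mark {e t q : α → ℕ} (he : Primrec e) (ht : Primrec t) (hq : Primrec q) :
    PrimrecPred fun a => mark (e a) (t a) (q a) := by
  unfold mark
  refine PrimrecPred.and (mp_Cc he ht hq) (mp_ball hq ?_)
  exact mp_imp (Primrec.nat_le.comp (he.comp Primrec.fst) Primrec.snd)
    (mp_Cc (he.comp Primrec.fst) (ht.comp Primrec.fst) Primrec.snd).not

end

theorem primrec_app : Primrec (fun x : ℕ × ℕ × ℕ => app x.1 x.2.1 x.2.2) :=
  mp_app Primrec.fst (Primrec.fst.comp Primrec.snd) (Primrec.snd.comp Primrec.snd)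

theorem primrec_mark : PrimrecPred (fun x : ℕ × ℕ × ℕ => mark x.1 x.2.1 x.2.2) :=
  mp_mark Primrec.fst (Primrec.fst.comp Primrec.snd) (Primrec.snd.comp Primrec.snd)

theorem primrec_mskD : Primrec₂ mskD := by
  have hstep : Primrec₂ (fun (p : ℕ × ℕ) (s : ℕ × ℕ) => s.2 ^^^
      (if mark s.1 p.2 p.1 then 0 else 2 ^ Nat.pair s.1 p.1)) := by
    have h1 : PrimrecPred (fun x : (ℕ × ℕ) × (ℕ × ℕ) => mark x.2.1 x.1.2 x.1.1) :=
      mp_mark (Primrec.fst.comp Primrec.snd) (Primrec.snd.comp Primrec.fst)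
        (Primrec.fst.comp Primrec.fst)
    have h2 : Primrec (fun x : (ℕ × ℕ) × (ℕ × ℕ) =>
        if mark x.2.1 x.1.2 x.1.1 then 0 else 2 ^ Nat.pair x.2.1 x.1.1) :=
      Primrec.ite h1 (Primrec.const 0) (primrec_pow2.comp
        (mp_pair (Primrec.fst.comp Primrec.snd) (Primrec.fst.comp Primrec.fst)))
    exact primrec_xor.comp (Primrec.snd.comp Primrec.snd) h2
  have hmain : Primrec (fun p : ℕ × ℕ => (Nat.rec 0 (fun i acc => acc ^^^
      (if mark i p.2 p.1 then 0 else 2 ^ Nat.pair i p.1)) (p.1 + 1) : ℕ)) :=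
    Primrec.nat_rec' (f := fun p : ℕ × ℕ => p.1 + 1) (g := fun _ => 0)
      (h := fun p s => s.2 ^^^ (if mark s.1 p.2 p.1 then 0 else 2 ^ Nat.pair s.1 p.1))
      (Primrec.succ.comp Primrec.fst) (Primrec.const 0) hstep
  refine hmain.of_eq fun p => ?_
  have key : ∀ n, (Nat.rec 0 (fun i acc => acc ^^^
      (if mark i p.2 p.1 then 0 else 2 ^ Nat.pair i p.1)) n : ℕ) = mskU p.1 p.2 n := by
    intro n
    induction n with
    | zero => rfl
    | succ n ih =>
      show (Nat.rec 0 (fun i acc => acc ^^^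
        (if mark i p.2 p.1 then 0 else 2 ^ Nat.pair i p.1)) n : ℕ) ^^^ _ = _
      rw [ih]
      rfl
  exact key (p.1 + 1)

theorem primrec_kbD : Primrec (fun x : ℕ × ℕ × ℕ => kbD x.1 x.2.1 x.2.2) := by
  unfold kbD
  have h1 : PrimrecPred (fun x : ℕ × ℕ × ℕ =>
      ∀ j' < x.2.1 + 1, app x.1 x.2.2 (Nat.pair x.1 j') ≠ none) := by
    refine mp_ball (Primrec.succ.comp (Primrec.fst.comp Primrec.snd)) ?_
    exact (Primrec.eq.comp (mp_app (Primrec.fst.comp Primrec.fst)
      (Primrec.snd.comp (Primrec.snd.comp Primrec.fst))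
      (mp_pair (Primrec.fst.comp Primrec.fst) Primrec.snd)) (Primrec.const none)).not
  have h2 : PrimrecPred (fun x : ℕ × ℕ × ℕ => app x.1 x.2.2 (Nat.pair x.1 x.2.1) = some 0) :=
    Primrec.eq.comp (mp_app Primrec.fst (Primrec.snd.comp Primrec.snd)
      (mp_pair Primrec.fst (Primrec.fst.comp Primrec.snd))) (Primrec.const (some 0))
  exact (h1.and h2).decide

end Pool.Agent.Work.MP_ed0a9a_lc
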