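import Pool.Agent.Work.MP_ed0a9a_lc.Defs

/-!
# Module `Lvl`: the level `lv`, `lvl`, `lvH`

`lv A = sSup {c | A c}` in `ℕ∞`.  For `A` antitone with `A 0`: `c ≤ lv A ↔ A c`
(if `A c` then `c ≤ lv A` by `le_sSup`; conversely if `¬ A c` then all `d` with `A d` are `< c`,
so `lv A ≤ c - 1 < c` (`c ≠ 0` since `A 0`)).  `LG l` and `LGH H l` are antitone and hold at `0`
(use `List.Pairwise.imp`).  `lvl l = ⊤` iff the points are pairwise in different components:
`⊤ ≤ lvl l` iff `∀ c, LG l c`; if two points with `p.2 = p'.2` occur, `LG l (p.1 ^^^ p'.1 + 1)`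
fails.  (For `List.Pairwise` use `List.pairwise_iff_getElem` if convenient.)
`lvl_map`: if `φ` preserves 'same component' and the xor within components then `LG` is
preserved (`List.pairwise_map`).
`mskI`: unfold (`ENat.toNat_coe`, `ENat.coe_ne_top`).
`missP_ev`, `kb_ev`: `missP P n N` for `N ≥ t₀`: both sides equal
`(P.lim q).testBit n` (`P.lim q = msk q t` for all large `t`: `Classical.choose_spec`).
For `kb`: if `kb e j t = true` for some `t`, take `c = t`: both sides true; otherwise both false.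
-/

namespace Pool.Agent.Work.MP_ed0a9a_lc

theorem le_lv_iff (A : ℕ → Prop) (h0 : A 0) (ha : ∀ c d, c ≤ d → A d → A c) (c : ℕ) :
    (c : ℕ∞) ≤ lv A ↔ A c := by
  unfold lv
  constructor
  · intro h
    by_contra hc
    have hc0 : c ≠ 0 := by
      rintro rfl
      exact hc h0
    have h1 : sSup ((fun c : ℕ => (c : ℕ∞)) '' {c | A c}) ≤ ((c - 1 : ℕ) : ℕ∞) := by
      apply sSup_le
      rintro _ ⟨d, hd, rfl⟩
      have hdc : d ≤ c - 1 := by
        by_contra hlt
        exact hc (ha c d (by omega) hd)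
      show ((d : ℕ) : ℕ∞) ≤ ((c - 1 : ℕ) : ℕ∞)
      exact_mod_cast hdc
    have h2 : (c : ℕ∞) ≤ ((c - 1 : ℕ) : ℕ∞) := h.trans h1
    have h3 : c ≤ c - 1 := by exact_mod_cast h2
    omega
  · intro h
    exact le_sSup ⟨c, h, rfl⟩

theorem le_lvl_iff {J : Type} (l : List (Pt J)) (c : ℕ) : (c : ℕ∞) ≤ lvl l ↔ LG l c := by
  unfold lvl
  apply le_lv_iff
  · unfold LG
    apply List.Pairwise.imp (R := fun _ _ => True) (fun _ _ => Nat.zero_le _)
    exact List.pairwise_of_forall (fun _ _ => trivial)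
  · intro c d hcd h
    unfold LG at *
    exact h.imp (fun h h' => hcd.trans (h h'))

theorem le_lvH_iff {N : Type} (H : Sym → List N → Prop) (l : List N) (c : ℕ) :
    (c : ℕ∞) ≤ lvH H l ↔ LGH H l c := by
  unfold lvH
  apply le_lv_iff
  · unfold LGH
    apply List.Pairwise.imp (R := fun _ _ => True) (fun _ g hg => absurd hg (Nat.not_lt_zero g))
    exact List.pairwise_of_forall (fun _ _ => trivial)
  · intro c d hcd h
    unfold LGH at *
    exact h.imp (fun h g hg => h g (lt_of_lt_of_le hg hcd))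

theorem lvl_eq_top_iff {J : Type} (l : List (Pt J)) :
    lvl l = ⊤ ↔ l.Pairwise (fun p p' => p.2 ≠ p'.2) := by
  constructor
  · intro h
    have h1 : ∀ c, LG l c := fun c => (le_lvl_iff l c).1 (by rw [h]; exact le_top)
    rw [List.pairwise_iff_getElem]
    intro i j hi hj hij he
    have h2 := h1 (((l[i]).1 ^^^ (l[j]).1) + 1)
    unfold LG at h2
    rw [List.pairwise_iff_getElem] at h2
    have := h2 i j hi hj hij he
    omega
  · intro h
    rw [ENat.eq_top_iff_forall_ge]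
    intro c
    rw [le_lvl_iff]
    unfold LG
    exact h.imp (fun h h' => absurd h' h)

/-- Two lists with the same `LG`-predicates have the same level. -/
theorem lv_congr {A B : ℕ → Prop} (h : ∀ c, A c ↔ B c) : lv A = lv B := by
  have : A = B := funext fun c => propext (h c)
  rw [this]

theorem lvl_map {I J : Type} (φ : Pt I → Pt J)
    (h : ∀ p p', (φ p).2 = (φ p').2 ↔ p.2 = p'.2)
    (h' : ∀ p p' : Pt I, p.2 = p'.2 → (φ p).1 ^^^ (φ p').1 = p.1 ^^^ p'.1)
    (l : List (Pt I)) : lvl (l.map φ) = lvl l := by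
  unfold lvl
  apply lv_congr
  intro c
  unfold LG
  rw [List.pairwise_map]
  constructor
  · intro hp
    refine hp.imp ?_
    intro p p' hpp e
    rw [← h' p p' e]
    exact hpp ((h p p').2 e)
  · intro hp
    refine hp.imp ?_
    intro p p' hpp e
    rw [h] at e
    rw [h' p p' e]
    exact hpp e

theorem Par.mskI_top (P : Par) (q : ℕ) : P.mskI q ⊤ = P.lim q := by
  unfold Par.mskI
  rw [if_pos rfl]

theorem Par.mskI_coe (P : Par) (q t : ℕ) : P.mskI q (t : ℕ∞) = P.msk q t := by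
  unfold Par.mskI
  rw [if_neg (ENat.natCast_ne_top t), ENat.toNat_natCast]

/-- The limit is attained from some time on. -/
theorem Par.lim_spec (P : Par) (q : ℕ) : ∃ t₀, ∀ t, t₀ ≤ t → P.msk q t = P.lim q :=
  ⟨_, Classical.choose_spec (P.msk_lim q)⟩

theorem Par.mskI_bit (P : Par) (q : ℕ) (N : ℕ∞) (n : ℕ)
    (h : (P.mskI q N).testBit n = true) : (Nat.unpair n).2 = q := by
  unfold Par.mskI at h
  split_ifs at h
  · exact P.msk_bit _ _ _ h
  · exact P.msk_bit _ _ _ h

theorem missP_ev (P : Par) (n : ℕ) :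
    ∃ c : ℕ, ∀ N : ℕ∞, (c : ℕ∞) ≤ N → (missP P n N ↔ missP P n ⊤) := by
  obtain ⟨c, hc⟩ := P.lim_spec (Nat.unpair n).2
  refine ⟨c, fun N hN => ?_⟩
  unfold missP
  rw [P.mskI_top]
  induction N using ENat.recTopCoe with
  | top => rw [P.mskI_top]
  | coe t =>
    rw [P.mskI_coe, hc t (by exact_mod_cast hN)]

theorem kb_ev (P : Par) (e j : ℕ) :
    ∃ c : ℕ, ∀ N : ℕ∞, (c : ℕ∞) ≤ N →
      ((∃ t : ℕ, P.kb e j t = true ∧ (t : ℕ∞) ≤ N) ↔
        (∃ t : ℕ, P.kb e j t = true ∧ (t : ℕ∞) ≤ (⊤ : ℕ∞))) := by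
  by_cases h : ∃ t, P.kb e j t = true
  · obtain ⟨t, ht⟩ := h
    refine ⟨t, fun N hN => ⟨fun _ => ⟨t, ht, le_top⟩, fun _ => ⟨t, ht, hN⟩⟩⟩
  · refine ⟨0, fun N _ => ⟨?_, ?_⟩⟩
    · rintro ⟨t, ht, _⟩
      exact absurd ⟨t, ht⟩ h
    · rintro ⟨t, ht, _⟩
      exact absurd ⟨t, ht⟩ h

end Pool.Agent.Work.MP_ed0a9a_lc
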