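import Mathlib

/-!
# The diagonal construction: definitions

The function with number `e` is read as a description of a fibre `u ↦ φ_e (0, u)` (value `1`
means that `u` is in the fibre) and of the links, `(n, u, u') ↦ φ_e (1, (n, (u, u')))`.
-/

namespace Pool.Agent.Work.MP_ed0a9a_lc

/-- The result of `t` steps of the program number `e` on the input `x`. -/
def app (e t x : ℕ) : Option ℕ :=
  Nat.Partrec.Code.evaln t (Denumerable.ofNat Nat.Partrec.Code e) x

/-- Number of the `u < m` seen to be in the fibre at time `t`. -/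
def cnt (e t m : ℕ) : ℕ :=
  ((List.range m).filter (fun u => decide (app e t (Nat.pair 0 u) = some 1))).length

/-- All inputs `(0, u)`, `u < m`, have converged and `e + 1` of them are in the fibre. -/
def startedAt (e t m : ℕ) : Prop :=
  (∀ u < m, app e t (Nat.pair 0 u) ≠ none) ∧ cnt e t m = e + 1

instance (e t m : ℕ) : Decidable (startedAt e t m) := by unfold startedAt; infer_instance

/-- `q` is still a possible position for the marker `e` at time `t`. -/
def Cc (e t q : ℕ) : Prop :=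
  ∀ m < t, startedAt e t m → ∃ u < m, app e t (Nat.pair 0 u) = some 1 ∧
    ∀ u' < t, app e t (Nat.pair 1 (Nat.pair (Nat.pair e q) (Nat.pair u u'))) ≠ some 1

instance (e t q : ℕ) : Decidable (Cc e t q) := by unfold Cc; infer_instance

/-- The marker `e` is at `q` at time `t`. -/
def mark (e t q : ℕ) : Prop := Cc e t q ∧ ∀ q' < q, e ≤ q' → ¬ Cc e t q'

instance (e t q : ℕ) : Decidable (mark e t q) := by unfold mark; infer_instance

/-- Partial masks. -/
def mskU (q t : ℕ) : ℕ → ℕ
  | 0 => 0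
  | e + 1 => mskU q t e ^^^ (if mark e t q then 0 else 2 ^ Nat.pair e q)

/-- The masks. -/
def mskD (q t : ℕ) : ℕ := mskU q t (q + 1)

/-- Every computable description of a fibre is defeated. -/
def Diag (msk : ℕ → ℕ → ℕ) : Prop :=
  ∀ (fib : ℕ → Bool) (Qr : ℕ → ℕ → ℕ → Bool), Computable fib →
    Computable (fun x : ℕ × ℕ × ℕ => Qr x.1 x.2.1 x.2.2) → {u | fib u = true}.Infinite →
    ∃ (e : ℕ) (L : Finset ℕ), L.card = e + 1 ∧ (∀ u ∈ L, fib u = true) ∧
      ((∃ q, e ≤ q ∧ (∃ t₀, ∀ t, t₀ ≤ t → (msk q t).testBit (Nat.pair e q) = false) ∧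
          ∃ u ∈ L, ∀ u', Qr (Nat.pair e q) u u' = false) ∨
        (∀ q, e ≤ q → (∃ t₀, ∀ t, t₀ ≤ t → (msk q t).testBit (Nat.pair e q) = true) ∧
          ∀ u ∈ L, ∃ u', Qr (Nat.pair e q) u u' = true))

/-- The coding sets, by stages. -/
def kbD (e j t : ℕ) : Bool :=
  decide ((∀ j' < j + 1, app e t (Nat.pair e j') ≠ none) ∧ app e t (Nat.pair e j) = some 0)

/-- The sets `{j | ∃ t, kb c j t}` diagonalize against all uniformly computable sequences. -/
def DiagR (kb : ℕ → ℕ → ℕ → Bool) : Prop :=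
  ∀ Ψ : ℕ → ℕ → Bool, Computable₂ Ψ → ∃ c, ∀ j, (∃ t, kb c j t = true) ↔ Ψ c j = false

end Pool.Agent.Work.MP_ed0a9a_lc
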