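import Pool.Agent.Work.MP_ed0a9a_lc.UMap

/-!
# Module `Cat`: cardinalities, categoricity, completeness

* `infinite_U`: `g ↦ .d (g, none)` is injective.
* `card_U`: for infinite `J`, `mk (U P J) = mk J`: `≥` by `j ↦ .d (0, some j)`; `≤`: `U P J` injects
  into `Pt J ⊕ (ℕ × (Fin (K+1) → Pt J) × Pt J) ⊕ (ℕ × (Fin (K+1) → Pt J) × Pt J × Pt J)`, and
  `mk (Pt J) = mk J` (`Cardinal.mk_prod`, `Cardinal.mk_option`, `aleph0_mul_eq`), finite powers:
  `Cardinal.mk_pi`/`Cardinal.power_nat_eq`-like or `Cardinal.mk_finsupp`; alternatively embed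
  into `List (Pt J) × …` (`Cardinal.mk_list_eq_mk`).
* `countable_U`: similar (or `Countable` instances through the same injection).
* `categorical_aleph1`: two models of cardinality `ℵ₁` are `≅ U P J`, `≅ U P J'` by the hypothesis;
  `J` cannot be countable (else `U P J` countable), so it is infinite and `mk J = mk (U P J) = ℵ₁`,
  same for `J'`; so `J ≃ J'` and `std_equiv`.  `ModelType` `M` has `M ⊨ T` (`M.is_model`).
* `complete`: `Cardinal.Categorical.isComplete` with `κ = ℵ₁`; the language is countable:
  `(sig a).card ≤ ℵ₀` (`Language.card`, `Symbols`: `Functions n` empty, `Σ n, {i // a i = n}`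
  countable); all models are infinite by the hypothesis and `infinite_U`; satisfiable since
  `U P Empty ⊨ T`.
* `not_categorical_aleph0`: `U P Empty` and `U P Unit` are countable infinite models, and not
  isomorphic: an isomorphism preserves `HN = relM` (`rel_of_embedding`, `HN_strU`); in `U P Empty`
  any two elements of `SD` are connected by some `Tr g`, in `U P Unit` the points `bs` and
  `(0, some ())` are not.
-/

namespace Pool.Agent.Work.MP_ed0a9a_lc

open FirstOrder FirstOrder.Language Cardinal

/-- Encoding of the elements by lists of points. -/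
private def catEnc (P : Par) (J : Type) : U P J → ℕ × List (Pt J)
  | .d p => (0, [p])
  | .t k _ x z => (2 * k + 1, z :: List.ofFn x)
  | .w k _ x z z' _ => (2 * k + 2, z :: z' :: List.ofFn x)

private theorem catEnc_inj (P : Par) (J : Type) : Function.Injective (catEnc P J) := by
  intro a b h
  cases a <;> cases b
  · rename_i p q
    have h' : ((0 : ℕ), [p]) = (0, [q]) := h
    simp only [Prod.mk.injEq, List.cons.injEq, and_true, true_and] at h'
    rw [h']
  · have h' := congrArg Prod.fst h
    simp only [catEnc] at h'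
    omega
  · have h' := congrArg Prod.fst h
    simp only [catEnc] at h'
    omega
  · have h' := congrArg Prod.fst h
    simp only [catEnc] at h'
    omega
  · rename_i k hk x z k' hk' x' z'
    have h1 : 2 * k + 1 = 2 * k' + 1 := congrArg Prod.fst h
    have h2 : z :: List.ofFn x = z' :: List.ofFn x' := congrArg Prod.snd h
    have h3 : k = k' := by omega
    subst h3
    injection h2 with h4 h5
    have h6 := List.ofFn_injective h5
    subst h4 h6
    rfl
  · have h' := congrArg Prod.fst h
    simp only [catEnc] at h'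
    omega
  · have h' := congrArg Prod.fst h
    simp only [catEnc] at h'
    omega
  · have h' := congrArg Prod.fst h
    simp only [catEnc] at h'
    omega
  · rename_i k hk x z w hz k' hk' x' z' w' hz'
    have h1 : 2 * k + 2 = 2 * k' + 2 := congrArg Prod.fst h
    have h2 : z :: w :: List.ofFn x = z' :: w' :: List.ofFn x' := congrArg Prod.snd h
    have h3 : k = k' := by omega
    subst h3
    injection h2 with h4 h5
    injection h5 with h5 h7
    have h6 := List.ofFn_injective h7
    subst h4 h5 h6
    rfl

instance infinite_U (P : Par) (J : Type) : Infinite (U P J) := by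
  apply Infinite.of_injective (fun g : ℕ => (U.d (g, none) : U P J))
  intro g g' h
  have h' : (U.d (g, none) : U P J) = U.d (g', none) := h
  injection h' with h'
  exact congrArg Prod.fst h'

instance countable_U (P : Par) (J : Type) [Countable J] : Countable (U P J) := by
  exact (catEnc_inj P J).countable

theorem card_U (P : Par) (J : Type) [Infinite J] : Cardinal.mk (U P J) = Cardinal.mk J := by
  have hJ : ℵ₀ ≤ Cardinal.mk J := Cardinal.aleph0_le_mk J
  apply le_antisymm
  · refine (Cardinal.mk_le_of_injective (catEnc_inj P J)).trans ?_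
    rw [Cardinal.mk_prod, Cardinal.lift_id, Cardinal.lift_id, Cardinal.mk_list_eq_mk,
      Cardinal.mk_prod, Cardinal.lift_id, Cardinal.lift_id, Cardinal.mk_option,
      Cardinal.add_one_eq hJ, Cardinal.mk_nat, Cardinal.aleph0_mul_eq hJ,
      Cardinal.aleph0_mul_eq hJ]
  · apply Cardinal.mk_le_of_injective (f := fun j : J => (U.d (0, some j) : U P J))
    intro j j' h
    have h' : (U.d (0, some j) : U P J) = U.d (0, some j') := h
    injection h' with h'
    have := congrArg Prod.snd h'
    exact Option.some_injective _ this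

theorem card_sig (a : ℕ → ℕ) : (sig a).card ≤ ℵ₀ := by
  unfold FirstOrder.Language.card
  rw [Cardinal.mk_le_aleph0_iff]
  exact inferInstanceAs (Countable ((Σ _ : ℕ, Empty) ⊕ (Σ n : ℕ, {i : ℕ // a i = n})))

/-- Hypothesis `hT`: the models of `T` are the structures `U P J`. -/
theorem categorical_aleph1 (P : Par) (T : (sig (ari P.ar)).Theory)
    (hT : ∀ (N : Type) [Nonempty N] [S : (sig (ari P.ar)).Structure N], N ⊨ T →
      ∃ J : Type, Nonempty (U P J ≃[sig (ari P.ar)] N)) :
    (Cardinal.aleph 1 : Cardinal.{0}).Categorical T := by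
  intro M N hM hN
  obtain ⟨J, ⟨f⟩⟩ := hT M M.is_model
  obtain ⟨J', ⟨f'⟩⟩ := hT N N.is_model
  have hlt : ℵ₀ < Cardinal.aleph 1 := by
    rw [← Cardinal.aleph_zero]
    exact Cardinal.aleph_lt_aleph.2 zero_lt_one
  have key : ∀ (J : Type) (A : Type), Nonempty (U P J ≃ A) → Cardinal.mk A = Cardinal.aleph 1 →
      Cardinal.mk J = Cardinal.aleph 1 := by
    rintro J A ⟨g⟩ hA
    have h1 : Cardinal.mk (U P J) = Cardinal.aleph 1 := (Cardinal.mk_congr g).trans hA
    have hinf : Infinite J := by
      by_contra hfin
      rw [not_infinite_iff_finite] at hfin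
      have : Cardinal.mk (U P J) ≤ ℵ₀ := Cardinal.mk_le_aleph0_iff.2 inferInstance
      rw [h1] at this
      exact absurd this (not_le.2 hlt)
    rw [← h1, card_U]
  have h1 := key J M ⟨f.toEquiv⟩ hM
  have h2 := key J' N ⟨f'.toEquiv⟩ hN
  obtain ⟨e⟩ := Cardinal.eq.1 (h1.trans h2.symm)
  obtain ⟨F⟩ := std_equiv P e
  exact ⟨f'.comp (F.comp f.symm)⟩

theorem complete (P : Par) (T : (sig (ari P.ar)).Theory)
    (hT : ∀ (N : Type) [Nonempty N] [S : (sig (ari P.ar)).Structure N], N ⊨ T →
      ∃ J : Type, Nonempty (U P J ≃[sig (ari P.ar)] N))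
    (hU : ∀ J : Type, U P J ⊨ T) : T.IsComplete := by
  apply (categorical_aleph1 P T hT).isComplete (Cardinal.aleph 1) T
  · exact Cardinal.aleph0_le_aleph 1
  · simp only [Cardinal.lift_id]
    exact (card_sig _).trans (Cardinal.aleph0_le_aleph 1)
  · have := hU Empty
    exact Theory.Model.isSatisfiable (U P Empty)
  · intro M
    obtain ⟨J, ⟨f⟩⟩ := hT M M.is_model
    exact Infinite.of_injective f f.injective

theorem not_categorical_aleph0 (P : Par) (T : (sig (ari P.ar)).Theory)
    (hU : ∀ J : Type, U P J ⊨ T) : ¬ (Cardinal.aleph0 : Cardinal.{0}).Categorical T := by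
  intro hc
  have := hU Empty
  have := hU Unit
  have h1 : Cardinal.mk (U P Empty) = ℵ₀ := Cardinal.mk_eq_aleph0 _
  have h2 : Cardinal.mk (U P Unit) = ℵ₀ := Cardinal.mk_eq_aleph0 _
  obtain ⟨f⟩ := hc (Theory.ModelType.of T (U P Empty)) (Theory.ModelType.of T (U P Unit)) h1 h2
  let f' : U P Empty ≃[sig (ari P.ar)] U P Unit := f
  have hrel : ∀ s l, relM P Unit s (l.map f') ↔ relM P Empty s l := by
    intro s l
    have := rel_of_embedding f'.toEmbedding s l
    rw [HN_strU, HN_strU] at this
    exact this
  have hD : ∀ p : Pt Unit, ∃ q : Pt Empty, f' (.d q) = .d p := by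
    intro p
    obtain ⟨x, hx⟩ := f'.surjective (.d p)
    have h3 := (hrel .SD [x]).1 (by
      rw [List.map_cons, List.map_nil, hx]
      trivial)
    cases x with
    | d q => exact ⟨q, hx⟩
    | t k hk x z => exact h3.elim
    | w k hk x z z' h' => exact h3.elim
  obtain ⟨q, hq⟩ := hD bs
  obtain ⟨q', hq'⟩ := hD (0, some ())
  have h4 : relM P Empty (.Tr (q.1 ^^^ q'.1)) [.d q, .d q'] := by
    show q' = sh (q.1 ^^^ q'.1) q
    have hq2 : q.2 = none := by
      cases hh : q.2 with
      | none => rfl
      | some a => exact a.elim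
    have hq2' : q'.2 = none := by
      cases hh : q'.2 with
      | none => rfl
      | some a => exact a.elim
    apply Prod.ext
    · show q'.1 = q.1 ^^^ (q.1 ^^^ q'.1)
      rw [← Nat.xor_assoc, Nat.xor_self, Nat.zero_xor]
    · show q'.2 = q.2
      rw [hq2, hq2']
  have h5 := (hrel _ _).2 h4
  rw [List.map_cons, List.map_cons, List.map_nil, hq, hq'] at h5
  have h6 : ((0, some ()) : Pt Unit) = sh (q.1 ^^^ q'.1) bs := h5
  have h7 := congrArg Prod.snd h6
  cases h7

end Pool.Agent.Work.MP_ed0a9a_lc
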