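import Pool.Agent.Work.MP_ed0a9a_lc.PrimA

/-!
# Module `PrimB`: primitive recursiveness of the relations of the copy

From `PrimA`, `Bits`, `Primrec.ite`, `Primrec.cond`, `Primrec.and`, `Primrec.eq`,
`Primrec.unpair`, `Primrec.list_getD`, `PrimrecPred.forall_mem_list` (for `List.all`),
membership in a fixed finite set (`decide (c.1 ∈ F)`): a primitive recursive predicate
(e.g. `F.toList`, `PrimrecRel.exists_mem_list`, or induction on `F`),
`List.contains`: `∃ a ∈ l, a = r`.
-/

namespace Pool.Agent.Work.MP_ed0a9a_lc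

section

variable {α : Type} [Primcodable α] (msk : ℕ → ℕ → ℕ)

private theorem pb_and {f g : α → Bool} (hf : Primrec f) (hg : Primrec g) :
    Primrec fun a => f a && g a := Primrec.and.comp hf hg

private theorem pb_or {f g : α → Bool} (hf : Primrec f) (hg : Primrec g) :
    Primrec fun a => f a || g a := Primrec.or.comp hf hg

private theorem pb_not {f : α → Bool} (hf : Primrec f) :
    Primrec fun a => !(f a) := Primrec.not.comp hf

private theorem pb_eq {β : Type} [Primcodable β] [DecidableEq β] {f g : α → β} (hf : Primrec f)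
    (hg : Primrec g) : Primrec fun a => decide (f a = g a) := (Primrec.eq.comp hf hg).decide

private theorem pb_lt {f g : α → ℕ} (hf : Primrec f) (hg : Primrec g) :
    Primrec fun a => decide (f a < g a) := (Primrec.nat_lt.comp hf hg).decide

private theorem pb_u1 {f : α → ℕ} (hf : Primrec f) : Primrec fun a => (Nat.unpair (f a)).1 :=
  Primrec.fst.comp (Primrec.unpair.comp hf)

private theorem pb_u2 {f : α → ℕ} (hf : Primrec f) : Primrec fun a => (Nat.unpair (f a)).2 :=
  Primrec.snd.comp (Primrec.unpair.comp hf)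

private theorem pb_disc (hm : Primrec₂ msk) {q s t : α → ℕ} (hq : Primrec q) (hs : Primrec s)
    (ht : Primrec t) : Primrec fun a => disc msk (q a) (s a) (t a) :=
  (primrec_disc msk hm).comp (Primrec.pair hq (Primrec.pair hs ht))

private theorem pb_isGarb (hm : Primrec₂ msk) (K : ℕ) {k q s : α → ℕ} {v : α → List CP}
    {z : α → CP} (hk : Primrec k) (hv : Primrec v) (hq : Primrec q) (hs : Primrec s)
    (hz : Primrec z) : Primrec fun a => isGarb msk K (k a) (v a) (q a) (s a) (z a) := by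
  unfold isGarb
  have hz1 : Primrec fun a => (z a).1 := Primrec.fst.comp hz
  have hz2 : Primrec fun a => (z a).2 := Primrec.snd.comp hz
  have hyl : Primrec fun a => yl (k a) (v a) := primrec_yl.comp hk hv
  have hr : Primrec fun a => rgen (yl (k a) (v a)) := primrec_rgen.comp hyl
  have hd : Primrec fun a => (dl K (v a)).1 := Primrec.fst.comp ((primrec_dl K).comp hv)
  refine pb_and (pb_and (pb_and (pb_eq hz2 hr) ?_) ?_) ?_
  · exact pb_eq (Primrec.unpair.comp (pb_u1 hz1)) (Primrec.pair hq hs)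
  · exact pb_eq (pb_u1 (pb_u2 hz1)) (primrec_land.comp hd (hm.comp hq hs))
  · exact pb_disc msk hm hq hs (pb_u2 (pb_u2 hz1))

private theorem pb_old (hm : Primrec₂ msk) (K : ℕ) {k : α → ℕ} {v : α → List CP}
    {z : α → CP} (hk : Primrec k) (hv : Primrec v)
    (hz : Primrec z) : Primrec fun a => old msk K (k a) (v a) (z a) := by
  unfold old
  have hz1 : Primrec fun a => (z a).1 := Primrec.fst.comp hz
  have hd : Primrec fun a => (dl K (v a)).1 := Primrec.fst.comp ((primrec_dl K).comp hv)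
  exact pb_and (pb_isGarb msk hm K hk hv (pb_u1 (pb_u1 hz1)) (pb_u2 (pb_u1 hz1)) hz)
    (pb_lt hd (pb_u2 (pb_u2 hz1)))

private theorem pb_lc (hm : Primrec₂ msk) {q t : α → ℕ} (hq : Primrec q)
    (ht : Primrec t) : Primrec fun a => lc msk (q a) (t a) := (primrec_lc msk hm).comp hq ht

private theorem pb_all {l : α → List CP} {p : CP → Bool} (hl : Primrec l) (hp : Primrec p) :
    Primrec fun a => (l a).all p := by
  have h1 : PrimrecPred fun x : CP => p x = true := Primrec.eq.comp hp (Primrec.const true)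
  have h2 : PrimrecPred fun a => ∀ x ∈ l a, p x = true := (h1.forall_mem_list).comp hl
  refine h2.decide.of_eq fun a => ?_
  rw [Bool.eq_iff_iff]
  simp

private theorem pb_contains {l : α → List ℕ} {r : α → ℕ} (hl : Primrec l) (hr : Primrec r) :
    Primrec fun a => (l a).contains (r a) := by
  have h1 : PrimrecRel fun (x y : ℕ) => x = y := Primrec.eq
  have h2 : PrimrecPred fun a => ∃ x ∈ l a, x = r a := (h1.exists_mem_list).comp hl hr
  refine h2.decide.of_eq fun a => ?_
  rw [Bool.eq_iff_iff]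
  simp

private theorem pb_mem (F : Finset ℕ) {k : α → ℕ} (hk : Primrec k) :
    Primrec fun a => decide (k a ∈ F) := by
  refine (pb_contains (Primrec.const F.toList) hk).of_eq fun a => ?_
  rw [Bool.eq_iff_iff]
  simp

private theorem pb_map {l : α → List CP} (hl : Primrec l) :
    Primrec fun a => (l a).map Prod.snd :=
  Primrec.list_map hl (Primrec.snd.comp Primrec.snd)

private theorem pb_posn {k q : α → ℕ} {v : α → List CP} (hk : Primrec k) (hv : Primrec v)
    (hq : Primrec q) : Primrec fun a => posn (k a) (v a) (q a) :=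
  primrec_posn.comp (Primrec.pair hk (Primrec.pair hv hq))

private theorem pb_missD (hm : Primrec₂ msk) {k n : α → ℕ} {v : α → List CP}
    {z : α → CP} (hk : Primrec k) (hv : Primrec v)
    (hz : Primrec z) (hn : Primrec n) :
    Primrec fun a => missD msk (k a) (v a) (z a) (n a) := by
  unfold missD
  have hyl : Primrec fun a => yl (k a) (v a) := primrec_yl.comp hk hv
  refine pb_and (pb_eq hz (pb_posn hk hv (pb_u2 hn))) ?_
  exact primrec_testBit.comp (hm.comp (pb_u2 hn) (primrec_lvn.comp hyl)) hn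

private theorem pb_ite {β : Type} [Primcodable β] {c : α → Bool} {f g : α → β}
    (hc : Primrec c) (hf : Primrec f) (hg : Primrec g) :
    Primrec fun a => if c a then f a else g a := by
  refine (Primrec.cond hc hf hg).of_eq fun a => ?_
  cases c a <;> rfl

private theorem pb_iteEq {β γ : Type} [Primcodable β] [Primcodable γ] [DecidableEq γ]
    {u w : α → γ} {f g : α → β}
    (hu : Primrec u) (hw : Primrec w) (hf : Primrec f) (hg : Primrec g) :
    Primrec fun a => if u a = w a then f a else g a :=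
  Primrec.ite (Primrec.eq.comp hu hw) hf hg

end

theorem primrec_isGarb (msk : ℕ → ℕ → ℕ) (hm : Primrec₂ msk) (K : ℕ) :
    Primrec (fun x : ℕ × List CP × ℕ × ℕ × CP =>
      isGarb msk K x.1 x.2.1 x.2.2.1 x.2.2.2.1 x.2.2.2.2) :=
  pb_isGarb msk hm K Primrec.fst (Primrec.fst.comp Primrec.snd)
    (Primrec.fst.comp (Primrec.snd.comp Primrec.snd))
    (Primrec.fst.comp (Primrec.snd.comp (Primrec.snd.comp Primrec.snd)))
    (Primrec.snd.comp (Primrec.snd.comp (Primrec.snd.comp Primrec.snd)))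

theorem primrec_old (msk : ℕ → ℕ → ℕ) (hm : Primrec₂ msk) (K : ℕ) :
    Primrec (fun x : ℕ × List CP × CP => old msk K x.1 x.2.1 x.2.2) :=
  pb_old msk hm K Primrec.fst (Primrec.fst.comp Primrec.snd) (Primrec.snd.comp Primrec.snd)

section

variable {α : Type} [Primcodable α] (msk : ℕ → ℕ → ℕ)

private theorem pb_c1 {c : α → Tc} (hc : Primrec c) : Primrec fun a => (c a).1 :=
  Primrec.fst.comp hc
private theorem pb_cv {c : α → Tc} (hc : Primrec c) : Primrec fun a => (c a).2.1 :=
  Primrec.fst.comp (Primrec.snd.comp hc)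
private theorem pb_cz {c : α → Tc} (hc : Primrec c) : Primrec fun a => (c a).2.2.1 :=
  Primrec.fst.comp (Primrec.snd.comp (Primrec.snd.comp hc))
private theorem pb_ce {c : α → Tc} (hc : Primrec c) : Primrec fun a => (c a).2.2.2 :=
  Primrec.snd.comp (Primrec.snd.comp (Primrec.snd.comp hc))

private theorem pb_okT (hm : Primrec₂ msk) (F : Finset ℕ) (K : ℕ) (i : ℕ∞) {c : α → Tc}
    (hc : Primrec c) : Primrec fun a => okT msk F K i (c a) := by
  unfold okT
  have hz1 : Primrec fun a => (c a).2.2.1.1 := Primrec.fst.comp (pb_cz hc)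
  have hz2 : Primrec fun a => (c a).2.2.1.2 := Primrec.snd.comp (pb_cz hc)
  have hyl : Primrec fun a => yl (c a).1 (c a).2.1 := primrec_yl.comp (pb_c1 hc) (pb_cv hc)
  have hle : Primrec fun a => leI i (c a).2.2.1.2 := (primrec_leI i).comp hz2
  have hd : Primrec fun a => (dl K (c a).2.1).1 :=
    Primrec.fst.comp ((primrec_dl K).comp (pb_cv hc))
  refine pb_and (pb_and (pb_and (pb_mem F (pb_c1 hc)) ?_) ?_) ?_
  · exact pb_eq (Primrec.list_length.comp (pb_cv hc)) (Primrec.const (K + 1))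
  · exact pb_all (pb_cv hc) ((primrec_leI i).comp Primrec.snd)
  · refine pb_ite (primrec_indep.comp hyl) (pb_or ?_ ?_) ?_
    · refine pb_and (pb_and (pb_and (pb_eq (pb_ce hc) (Primrec.const 0)) hle) ?_) ?_
      · exact pb_not (pb_contains (pb_map hyl) hz2)
      · exact pb_not (pb_old msk hm K (pb_c1 hc) (pb_cv hc) (pb_cz hc))
    · refine pb_and (pb_and (pb_eq (pb_ce hc) (Primrec.const 1)) ?_) ?_
      · exact pb_eq (pb_lc msk hm hz1 hz2) hz2
      · exact pb_eq (pb_lc msk hm hz1 (Primrec.nat_max.comp hz2 hd)) hz2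
    · exact pb_and (pb_eq (pb_ce hc) (Primrec.const 0)) hle

end

theorem primrec_okT (msk : ℕ → ℕ → ℕ) (hm : Primrec₂ msk) (F : Finset ℕ) (K : ℕ) (i : ℕ∞) :
    Primrec (okT msk F K i) := pb_okT msk hm F K i Primrec.id

theorem primrec_missD (msk : ℕ → ℕ → ℕ) (hm : Primrec₂ msk) :
    Primrec (fun x : ℕ × List CP × CP × ℕ => missD msk x.1 x.2.1 x.2.2.1 x.2.2.2) :=
  pb_missD msk hm Primrec.fst (Primrec.fst.comp Primrec.snd)
    (Primrec.fst.comp (Primrec.snd.comp Primrec.snd))
    (Primrec.snd.comp (Primrec.snd.comp Primrec.snd))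

theorem primrec_qrel (msk : ℕ → ℕ → ℕ) (hm : Primrec₂ msk) (K : ℕ) :
    Primrec (fun x : ℕ × Tc × Tc => qrel msk K x.1 x.2.1 x.2.2) := by
  unfold qrel
  have hn : Primrec fun x : ℕ × Tc × Tc => x.1 := Primrec.fst
  have hc : Primrec fun x : ℕ × Tc × Tc => x.2.1 := Primrec.fst.comp Primrec.snd
  have hc' : Primrec fun x : ℕ × Tc × Tc => x.2.2 := Primrec.snd.comp Primrec.snd
  have hdl : Primrec fun x : ℕ × Tc × Tc => dl K x.2.1.2.1 := (primrec_dl K).comp (pb_cv hc)
  have hdl' : Primrec fun x : ℕ × Tc × Tc => dl K x.2.2.2.1 := (primrec_dl K).comp (pb_cv hc')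
  have hyl : Primrec fun x : ℕ × Tc × Tc => yl x.2.1.1 x.2.1.2.1 :=
    primrec_yl.comp (pb_c1 hc) (pb_cv hc)
  have htake : ∀ {c : ℕ × Tc × Tc → Tc}, Primrec c →
      Primrec fun x : ℕ × Tc × Tc => (c x).2.1.take K := fun {c} hc =>
    Primrec.list_take.comp (Primrec.const K) (pb_cv hc)
  have hzz : Primrec fun x : ℕ × Tc × Tc => decide (x.2.1.2.2.1 = x.2.2.2.2.1) :=
    pb_eq (pb_cz hc) (pb_cz hc')
  refine pb_and (pb_and (pb_and (pb_eq (pb_c1 hc) (pb_c1 hc')) (pb_eq (htake hc') (htake hc))) ?_) ?_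
  · exact pb_eq hdl' (primrec_shn.comp (primrec_pow2.comp hn) hdl)
  · refine pb_ite (primrec_indep.comp hyl) ?_ ?_
    · refine pb_iteEq (pb_ce hc) (Primrec.const 0) ?_ ?_
      · refine pb_iteEq (pb_ce hc') (Primrec.const 0) hzz ?_
        exact pb_isGarb msk hm K (pb_c1 hc) (pb_cv hc') (Primrec.fst.comp (pb_cz hc'))
          (Primrec.snd.comp (pb_cz hc')) (pb_cz hc)
      · refine pb_iteEq (pb_ce hc') (Primrec.const 0) ?_ ?_
        · exact pb_isGarb msk hm K (pb_c1 hc) (pb_cv hc) (Primrec.fst.comp (pb_cz hc))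
            (Primrec.snd.comp (pb_cz hc)) (pb_cz hc')
        · exact pb_and hzz (pb_not (primrec_testBit.comp (hm.comp (Primrec.fst.comp (pb_cz hc))
            (Primrec.snd.comp (pb_cz hc))) hn))
    · exact pb_and hzz (pb_not (pb_missD msk hm (pb_c1 hc) (pb_cv hc) (pb_cz hc) hn))

theorem primrec_okW (msk : ℕ → ℕ → ℕ) (hm : Primrec₂ msk) (F : Finset ℕ) (K : ℕ) (i : ℕ∞) :
    Primrec (fun x : Tc × CP × ℕ => okW msk F K i x.1 x.2.1 x.2.2) := by
  unfold okW
  have hc : Primrec fun x : Tc × CP × ℕ => x.1 := Primrec.fst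
  have hz' : Primrec fun x : Tc × CP × ℕ => x.2.1 := Primrec.fst.comp Primrec.snd
  have he : Primrec fun x : Tc × CP × ℕ => x.2.2 := Primrec.snd.comp Primrec.snd
  have hz1 : Primrec fun x : Tc × CP × ℕ => x.1.2.2.1.1 := Primrec.fst.comp (pb_cz hc)
  have hz2 : Primrec fun x : Tc × CP × ℕ => x.1.2.2.1.2 := Primrec.snd.comp (pb_cz hc)
  refine pb_and (pb_and (pb_okT msk hm F K i hc) ((primrec_leI i).comp
    (Primrec.snd.comp hz'))) ?_
  refine pb_iteEq (pb_ce hc) (Primrec.const 0) ?_ ?_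
  · exact pb_and (pb_eq he (Primrec.const 0)) (pb_not (pb_eq hz' (pb_cz hc)))
  · refine pb_iteEq hz' (pb_posn (pb_c1 hc) (pb_cv hc) hz1) ?_ ?_
    · exact pb_disc msk hm hz1 hz2 he
    · exact pb_and (pb_eq he (Primrec.const 0)) (pb_not
        (pb_isGarb msk hm K (pb_c1 hc) (pb_cv hc) hz1 hz2 hz'))

end Pool.Agent.Work.MP_ed0a9a_lc
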