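import Pool.Agent.Work.MP_ed0a9a_lc.RawDefs
import Pool.Agent.Work.MP_ed0a9a_lc.PrimB

/-!
# Module `PrimC`: computability of `okRaw` and `relC`
-/

namespace Pool.Agent.Work.MP_ed0a9a_lc

private theorem primC_dec {α : Type*} [Primcodable α] {p : α → Prop} [DecidablePred p]
    (h : PrimrecPred p) : Primrec (fun x => decide (p x)) := primrecPred_iff_primrec_decide.1 h

private theorem primC_eq {α β : Type*} [Primcodable α] [Primcodable β] [DecidableEq β]
    {f g : α → β} (hf : Primrec f) (hg : Primrec g) : PrimrecPred (fun x => f x = g x) :=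
  Primrec.eq.comp hf hg

private theorem primC_ite {α : Type*} [Primcodable α] {c : α → Prop} [DecidablePred c]
    (hc : PrimrecPred c) {f g : α → Bool} (hf : Computable f) (hg : Computable g) :
    Computable (fun x => if c x then f x else g x) :=
  (Computable.cond (primC_dec hc).to_comp hf hg).of_eq fun x => by
    by_cases h : c x
    · simp [h]
    · simp [h]

theorem computable_okRaw (P : Par) (hm : Primrec₂ P.msk) (i : ℕ∞) :
    Computable (okRaw P i) := by
  apply Primrec.to_comp
  have h1 : Primrec (fun x : Raw => x.1) := Primrec.fst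
  have h2 : Primrec (fun x : Raw => x.2.1) := Primrec.fst.comp Primrec.snd
  have h3 : Primrec (fun x : Raw => x.2.2) := Primrec.snd.comp Primrec.snd
  have h4 : Primrec (fun x : Raw => x.2.2.1) := Primrec.fst.comp h3
  have h5 : Primrec (fun x : Raw => x.2.2.2) := Primrec.snd.comp h3
  refine Primrec.ite (primC_eq h1 (Primrec.const 0)) ?_
    (Primrec.ite (primC_eq h1 (Primrec.const 1)) ?_ ?_)
  · exact Primrec.and.comp (Primrec.and.comp (primC_dec (primC_eq h2 (Primrec.const _)))
      (primC_dec (primC_eq h5 (Primrec.const 0)))) ((primrec_leI i).comp (Primrec.snd.comp h4))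
  · exact Primrec.and.comp (primC_dec (primC_eq h3 (Primrec.const _)))
      ((primrec_okT P.msk hm P.F P.K i).comp h2)
  · exact Primrec.and.comp (primC_dec (primC_eq h1 (Primrec.const 2)))
      ((primrec_okW P.msk hm P.F P.K i).comp (Primrec.pair h2 (Primrec.pair h4 h5)))

theorem computable_relC (P : Par) (hm : Primrec₂ P.msk)
    (hk : Computable (fun x : ℕ × ℕ × ℕ => P.kb x.1 x.2.1 x.2.2))
    (g : ℕ → ℕ → Bool) (hg : Computable₂ g) : Computable₂ (relC P g) := by
  have ha : Primrec (fun z : ℕ × List Raw => (Nat.unpair z.1).1) :=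
    Primrec.fst.comp (Primrec.unpair.comp Primrec.fst)
  have hb : Primrec (fun z : ℕ × List Raw => (Nat.unpair z.1).2) :=
    Primrec.snd.comp (Primrec.unpair.comp Primrec.fst)
  have hx : Primrec (fun z : ℕ × List Raw => z.2.getD 0 (0, (0, [], (0, 0), 0), (0, 0), 0)) :=
    (Primrec.list_getD _).comp Primrec.snd (Primrec.const 0)
  have hy : Primrec (fun z : ℕ × List Raw => z.2.getD 1 (0, (0, [], (0, 0), 0), (0, 0), 0)) :=
    (Primrec.list_getD _).comp Primrec.snd (Primrec.const 1)
  have hx1 := Primrec.fst.comp hx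
  have hy1 := Primrec.fst.comp hy
  have hxT := Primrec.fst.comp (Primrec.snd.comp hx)
  have hyT := Primrec.fst.comp (Primrec.snd.comp hy)
  have hxP := Primrec.fst.comp (Primrec.snd.comp (Primrec.snd.comp hx))
  have hyP := Primrec.fst.comp (Primrec.snd.comp (Primrec.snd.comp hy))
  have hL : Primrec (fun z : ℕ × List Raw => (0, 0) :: z.2.map (fun x => x.2.2.1)) := by
    refine Primrec.list_cons.comp (Primrec.const _) (Primrec.list_map Primrec.snd ?_)
    exact (Primrec.fst.comp (Primrec.snd.comp (Primrec.snd.comp Primrec.snd)))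
  have hall : Primrec (fun z : ℕ × List Raw => z.2.all (fun x => decide (x.1 = 0))) := by
    have h1 : PrimrecPred (fun x : Raw => x.1 = 0) := primC_eq Primrec.fst (Primrec.const 0)
    have h2 : PrimrecPred (fun L : List Raw => ∀ x ∈ L, x.1 = 0) := h1.forall_mem_list
    refine ((primC_dec h2).comp Primrec.snd).of_eq fun z => ?_
    rw [Bool.eq_iff_iff, decide_eq_true_iff, List.all_eq_true]
    simp only [decide_eq_true_iff]
  have hb2 := Primrec.unpair.comp hb
  have hp : Computable (fun z : ℕ × List Raw => ((Nat.unpair (Nat.unpair z.1).2).1,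
      (Nat.unpair (Nat.unpair z.1).2).2, lvn ((0, 0) :: z.2.map (fun x => x.2.2.1)))) :=
    (Primrec.fst.comp hb2).to_comp.pair ((Primrec.snd.comp hb2).to_comp.pair
      (primrec_lvn.comp hL).to_comp)
  have h5 : Computable (fun z : ℕ × List Raw => P.kb (Nat.unpair (Nat.unpair z.1).2).1
      (Nat.unpair (Nat.unpair z.1).2).2 (lvn ((0, 0) :: z.2.map (fun x => x.2.2.1)))) :=
    (Computable.comp hk hp).of_eq fun z => rfl
  have h50 : Computable (fun z : ℕ × List Raw => g (Nat.unpair (Nat.unpair z.1).2).1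
      (Nat.unpair (Nat.unpair z.1).2).2) :=
    hg.comp (Primrec.fst.comp hb2).to_comp (Primrec.snd.comp hb2).to_comp
  have A0 : Primrec (fun z : ℕ × List Raw =>
      if (Nat.unpair z.1).2 = 0 then
        decide ((z.2.getD 0 (0, (0, [], (0, 0), 0), (0, 0), 0)).1 = 0)
      else if (Nat.unpair z.1).2 = 1 then
        decide ((z.2.getD 0 (0, (0, [], (0, 0), 0), (0, 0), 0)).1 = 2)
      else if (Nat.unpair z.1).2 = 2 then
        decide ((z.2.getD 0 (0, (0, [], (0, 0), 0), (0, 0), 0)).1 = 0) &&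
          decide ((z.2.getD 0 (0, (0, [], (0, 0), 0), (0, 0), 0)).2.2.1 = (0, 0))
      else decide ((z.2.getD 0 (0, (0, [], (0, 0), 0), (0, 0), 0)).1 = 1) &&
        decide ((z.2.getD 0 (0, (0, [], (0, 0), 0), (0, 0), 0)).2.1.1 + 3 =
          (Nat.unpair z.1).2)) := by
    refine Primrec.ite (primC_eq hb (Primrec.const 0)) (primC_dec (primC_eq hx1 (Primrec.const 0)))
      (Primrec.ite (primC_eq hb (Primrec.const 1)) (primC_dec (primC_eq hx1 (Primrec.const 2)))
      (Primrec.ite (primC_eq hb (Primrec.const 2)) ?_ ?_))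
    · exact Primrec.and.comp (primC_dec (primC_eq hx1 (Primrec.const 0)))
        (primC_dec (primC_eq hxP (Primrec.const _)))
    · exact Primrec.and.comp (primC_dec (primC_eq hx1 (Primrec.const 1)))
        (primC_dec (primC_eq (Primrec.nat_add.comp (Primrec.fst.comp hxT) (Primrec.const 3)) hb))
  have A1 : Primrec (fun z : ℕ × List Raw =>
      decide ((z.2.getD 0 (0, (0, [], (0, 0), 0), (0, 0), 0)).1 = 0) &&
      decide ((z.2.getD 1 (0, (0, [], (0, 0), 0), (0, 0), 0)).1 = 0) &&
      decide ((z.2.getD 1 (0, (0, [], (0, 0), 0), (0, 0), 0)).2.2.1 =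
        shn (Nat.unpair z.1).2 (z.2.getD 0 (0, (0, [], (0, 0), 0), (0, 0), 0)).2.2.1)) :=
    Primrec.and.comp (Primrec.and.comp (primC_dec (primC_eq hx1 (Primrec.const 0)))
      (primC_dec (primC_eq hy1 (Primrec.const 0))))
      (primC_dec (primC_eq hyP (primrec_shn.comp hb hxP)))
  have A2 : Primrec (fun z : ℕ × List Raw =>
      decide ((z.2.getD 0 (0, (0, [], (0, 0), 0), (0, 0), 0)).1 = 1) &&
      decide ((z.2.getD 1 (0, (0, [], (0, 0), 0), (0, 0), 0)).1 = 0) &&
      decide ((Nat.unpair z.1).2 < P.K + 1) &&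
      decide ((z.2.getD 1 (0, (0, [], (0, 0), 0), (0, 0), 0)).2.2.1 =
        (z.2.getD 0 (0, (0, [], (0, 0), 0), (0, 0), 0)).2.1.2.1.getD (Nat.unpair z.1).2
          (0, 0))) :=
    Primrec.and.comp (Primrec.and.comp (Primrec.and.comp
      (primC_dec (primC_eq hx1 (Primrec.const 1)))
      (primC_dec (primC_eq hy1 (Primrec.const 0))))
      (primC_dec (Primrec.nat_lt.comp hb (Primrec.const (P.K + 1)))))
      (primC_dec (primC_eq hyP ((Primrec.list_getD (0, 0)).comp
        (Primrec.fst.comp (Primrec.snd.comp hxT)) hb)))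
  have A3 : Primrec (fun z : ℕ × List Raw =>
      if (Nat.unpair z.1).2 = 0 then
        decide ((z.2.getD 0 (0, (0, [], (0, 0), 0), (0, 0), 0)).1 = 2) &&
        decide ((z.2.getD 1 (0, (0, [], (0, 0), 0), (0, 0), 0)).1 = 1) &&
        decide ((z.2.getD 0 (0, (0, [], (0, 0), 0), (0, 0), 0)).2.1 =
          (z.2.getD 1 (0, (0, [], (0, 0), 0), (0, 0), 0)).2.1)
      else
        decide ((z.2.getD 0 (0, (0, [], (0, 0), 0), (0, 0), 0)).1 = 2) &&
        decide ((z.2.getD 1 (0, (0, [], (0, 0), 0), (0, 0), 0)).1 = 0) &&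
        decide ((z.2.getD 0 (0, (0, [], (0, 0), 0), (0, 0), 0)).2.2.1 =
          (z.2.getD 1 (0, (0, [], (0, 0), 0), (0, 0), 0)).2.2.1)) := by
    refine Primrec.ite (primC_eq hb (Primrec.const 0)) ?_ ?_
    · exact Primrec.and.comp (Primrec.and.comp (primC_dec (primC_eq hx1 (Primrec.const 2)))
        (primC_dec (primC_eq hy1 (Primrec.const 1)))) (primC_dec (primC_eq hxT hyT))
    · exact Primrec.and.comp (Primrec.and.comp (primC_dec (primC_eq hx1 (Primrec.const 2)))
        (primC_dec (primC_eq hy1 (Primrec.const 0)))) (primC_dec (primC_eq hxP hyP))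
  have A4 : Primrec (fun z : ℕ × List Raw =>
      decide ((z.2.getD 0 (0, (0, [], (0, 0), 0), (0, 0), 0)).1 = 1) &&
      decide ((z.2.getD 1 (0, (0, [], (0, 0), 0), (0, 0), 0)).1 = 1) &&
      qrel P.msk P.K (Nat.unpair z.1).2 (z.2.getD 0 (0, (0, [], (0, 0), 0), (0, 0), 0)).2.1
        (z.2.getD 1 (0, (0, [], (0, 0), 0), (0, 0), 0)).2.1) :=
    Primrec.and.comp (Primrec.and.comp (primC_dec (primC_eq hx1 (Primrec.const 1)))
      (primC_dec (primC_eq hy1 (Primrec.const 1))))
      ((primrec_qrel P.msk hm P.K).comp (Primrec.pair hb (Primrec.pair hxT hyT)))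
  have A5 : Computable (fun z : ℕ × List Raw =>
      z.2.all (fun x => decide (x.1 = 0)) &&
      (if indep ((0, 0) :: z.2.map (fun x => x.2.2.1)) = true then
        g (Nat.unpair (Nat.unpair z.1).2).1 (Nat.unpair (Nat.unpair z.1).2).2
      else P.kb (Nat.unpair (Nat.unpair z.1).2).1 (Nat.unpair (Nat.unpair z.1).2).2
        (lvn ((0, 0) :: z.2.map (fun x => x.2.2.1))))) := by
    refine Primrec.and.to_comp.comp hall.to_comp (primC_ite ?_ h50 h5)
    exact primC_eq (primrec_indep.comp hL) (Primrec.const true)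
  exact (primC_ite (primC_eq ha (Primrec.const 0)) A0.to_comp
    (primC_ite (primC_eq ha (Primrec.const 1)) A1.to_comp
    (primC_ite (primC_eq ha (Primrec.const 2)) A2.to_comp
    (primC_ite (primC_eq ha (Primrec.const 3)) A3.to_comp
    (primC_ite (primC_eq ha (Primrec.const 4)) A4.to_comp A5))))).of_eq fun z => rfl

end Pool.Agent.Work.MP_ed0a9a_lc
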