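import Pool.Agent.Work.MP_ed0a9a_lc.Defs

/-!
# Module `Transfer`: a criterion for computable copies

* `exists_enum`: let `p n := ∃ x, decode n = some x ∧ encode x = n ∧ ok x` (decidable, computable
  as a function `ℕ → Bool`: `Computable.decode`, `Computable.option_casesOn`,
  `Primrec.eq.decide`), an infinite set of numbers.
  `count p` is computable (`Computable.nat_rec`), and
  `Nat.nth p n` is the least `m` with `n < Nat.count p (m + 1)`
  (`Nat.lt_nth_iff_count_lt`/`Nat.count_le_iff_le_nth`/`Nat.count_succ`, `Nat.nth_count`,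
  `Nat.nth_mem_of_infinite`), computable by `Partrec.rfind`.  `f n := (decode (nth p n)).getD _`
  (some default `ok` element).  `Nat.nth_injective`, `Nat.range_nth_of_infinite`,
  `Encodable.encode_injective`.
* `computable_list_map`: `l ↦ l.map f` is computable for computable `f : ℕ → α`
  (e.g. by `Computable.nat_rec` on the length, `List.getD`/`l[i]?`, `Primrec.list_getElem?`,
  appending one element at a time; or via `List.ofFn`/`Vector` lemmas).
* `hasCompCopy_of`: with `f` from `exists_enum` the map `n ↦ dU (f n)` is a bijection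
  `ℕ → A`; let `S` be the structure on `ℕ` with
  `RelMap r v := RelMap r (fun t => dU (f (v t)))`, `r i l := rel i (l.map f)`.
-/

namespace Pool.Agent.Work.MP_ed0a9a_lc

open FirstOrder

private theorem tr_next (p : ℕ → Bool) (hp : Computable p) (hinf : ∀ a, ∃ n, p (a + n) = true) :
    ∃ g : ℕ → ℕ, Computable g ∧ (∀ a, p (g a) = true) ∧ (∀ a, a ≤ g a) ∧
      ∀ a m, a ≤ m → p m = true → g a ≤ m := by
  refine ⟨fun a => a + Nat.find (hinf a), ?_, fun a => Nat.find_spec (hinf a),
    fun a => Nat.le_add_right _ _, ?_⟩
  · have h1 : Partrec₂ (fun (a n : ℕ) => (Part.some (p (a + n)) : Part Bool)) :=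
      (hp.comp (Primrec.nat_add.to_comp)).partrec
    have h2 : Partrec fun a : ℕ => Nat.rfind fun n => (Part.some (p (a + n)) : Part Bool) :=
      Partrec.rfind h1
    have h3 : Computable fun a : ℕ => Nat.find (hinf a) := by
      refine h2.of_eq fun a => ?_
      refine Part.eq_some_iff.2 (Nat.mem_rfind.2 ⟨?_, fun {m} hm => ?_⟩)
      · exact Part.mem_some_iff.2 (Nat.find_spec (hinf a)).symm
      · refine Part.mem_some_iff.2 ?_
        have := Nat.find_min (hinf a) hm
        simpa using this
    exact Primrec.nat_add.to_comp.comp Computable.id h3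
  · intro a m ham hm
    have : Nat.find (hinf a) ≤ m - a := Nat.find_min' (hinf a) (by
      rw [Nat.add_sub_cancel' ham]
      exact hm)
    change a + Nat.find (hinf a) ≤ m
    omega

private theorem tr_enum (p : ℕ → Bool) (hp : Computable p) (hinf : ∀ a, ∃ n, p (a + n) = true) :
    ∃ g : ℕ → ℕ, Computable g ∧ Function.Injective g ∧ ∀ m, p m = true ↔ ∃ n, g n = m := by
  obtain ⟨nx, h1, h2, h3, h4⟩ := tr_next p hp hinf
  let g : ℕ → ℕ := fun n => Nat.rec (nx 0) (fun _ ih => nx (ih + 1)) n
  have g0 : g 0 = nx 0 := rfl
  have gs : ∀ n, g (n + 1) = nx (g n + 1) := fun n => rfl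
  have hg : Computable g :=
    Computable.nat_rec (f := fun n : ℕ => n) (g := fun _ => nx 0)
      (h := fun (_ : ℕ) (q : ℕ × ℕ) => nx (q.2 + 1)) Computable.id (Computable.const _)
      (h1.comp (Computable.succ.comp (Computable.snd.comp Computable.snd)))
  have hmono : StrictMono g := strictMono_nat_of_lt_succ fun n => by
    rw [gs]
    exact h3 (g n + 1)
  have hpg : ∀ n, p (g n) = true := by
    intro n
    cases n with
    | zero => exact h2 0
    | succ n => exact h2 _
  refine ⟨g, hg, hmono.injective, fun m => ⟨fun hm => ?_, ?_⟩⟩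
  · by_contra hne
    push Not at hne
    have h5 : ∀ n, g n < m := by
      intro n
      induction n with
      | zero => exact lt_of_le_of_ne (h4 0 m (Nat.zero_le _) hm) (hne 0)
      | succ n ih => exact lt_of_le_of_ne (h4 (g n + 1) m ih hm) (hne (n + 1))
    have h6 := hmono.id_le m
    exact absurd (h5 m) (not_lt.2 h6)
  · rintro ⟨n, rfl⟩
    exact hpg n

theorem exists_enum {α : Type} [Primcodable α] (ok : α → Bool) (hok : Computable ok)
    (hinf : {x | ok x = true}.Infinite) :
    ∃ f : ℕ → α, Computable f ∧ Function.Injective f ∧ ∀ x, ok x = true ↔ ∃ n, f n = x := by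
  obtain ⟨x0, hx0⟩ := hinf.nonempty
  let p : ℕ → Bool := fun n => Option.casesOn (Encodable.decode (α := α) n) false
    (fun x => decide (Encodable.encode x = n) && ok x)
  have hp : Computable p := by
    refine Computable.option_casesOn Computable.decode (Computable.const false) ?_
    have e1 : Computable₂ fun (n : ℕ) (x : α) => decide (Encodable.encode x = n) := by
      have : PrimrecRel fun (x y : ℕ) => x = y := Primrec.eq
      obtain ⟨_, h⟩ := this.comp (α := ℕ × α) (Primrec.encode.comp Primrec.snd) Primrec.fst
      exact (h.of_eq fun q => by simp).to_comp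
    exact (Primrec.and.to_comp.comp e1 (hok.comp Computable.snd))
  have hpx : ∀ x : α, ok x = true → p (Encodable.encode x) = true := by
    intro x hx
    simp only [p, Encodable.encodek]
    simp [hx]
  have hpi : ∀ n, p n = true → ∃ x : α, ok x = true ∧ Encodable.encode x = n ∧
      Encodable.decode (α := α) n = some x := by
    intro n hn
    simp only [p] at hn
    cases h : Encodable.decode (α := α) n with
    | none => rw [h] at hn; simp at hn
    | some x =>
      rw [h] at hn
      simp only [Bool.and_eq_true, decide_eq_true_eq] at hn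
      exact ⟨x, hn.2, hn.1, rfl⟩
  have hinf' : ∀ a, ∃ n, p (a + n) = true := by
    intro a
    by_contra hne
    push Not at hne
    apply hinf
    have h1 : {x : α | ok x = true} ⊆ Encodable.encode ⁻¹' (Set.Iio a) := by
      intro x hx
      rw [Set.mem_preimage, Set.mem_Iio]
      by_contra hc
      apply hne (Encodable.encode x - a)
      rw [Nat.add_sub_cancel' (not_lt.1 hc)]
      exact hpx x hx
    exact ((Set.finite_Iio a).preimage Encodable.encode_injective.injOn).subset h1
  obtain ⟨g, hg, hgi, hgr⟩ := tr_enum p hp hinf'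
  have hpg : ∀ n, p (g n) = true := fun n => (hgr _).2 ⟨n, rfl⟩
  have hf : ∀ n, ok ((Encodable.decode (α := α) (g n)).getD x0) = true ∧
      Encodable.encode ((Encodable.decode (α := α) (g n)).getD x0) = g n := by
    intro n
    obtain ⟨x, h1, h2, h3⟩ := hpi (g n) (hpg n)
    rw [h3]
    exact ⟨h1, h2⟩
  refine ⟨fun n => (Encodable.decode (α := α) (g n)).getD x0, ?_, ?_, ?_⟩
  · exact Computable.option_getD (Computable.decode.comp hg) (Computable.const x0)
  · intro n n' h
    apply hgi
    rw [← (hf n).2, ← (hf n').2]
    exact congrArg Encodable.encode h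
  · intro x
    constructor
    · intro hx
      obtain ⟨n, hn⟩ := (hgr _).1 (hpx x hx)
      refine ⟨n, ?_⟩
      apply Encodable.encode_injective
      rw [← hn]
      exact (hf n).2
    · rintro ⟨n, rfl⟩
      exact (hf n).1

theorem computable_list_map {α : Type} [Primcodable α] (f : ℕ → α) (hf : Computable f) :
    Computable (fun l : List ℕ => l.map f) := by
  have h1 : Computable fun l : List ℕ => (Nat.rec ([] : List α)
      (fun n ih => ih ++ [f (l.getD n 0)]) l.length : List α) := by
    refine Computable.nat_rec (f := fun l : List ℕ => l.length) (g := fun _ => ([] : List α))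
      (h := fun (l : List ℕ) (q : ℕ × List α) => q.2 ++ [f (l.getD q.1 0)])
      Computable.list_length (Computable.const _) ?_
    refine (Primrec.list_append.to_comp).comp (Computable.snd.comp Computable.snd) ?_
    refine (Primrec.list_cons.to_comp).comp (hf.comp ?_) (Computable.const [])
    exact ((Primrec.list_getD 0).to_comp).comp Computable.fst
      (Computable.fst.comp Computable.snd)
  refine h1.of_eq fun l => ?_
  have h2 : ∀ k ≤ l.length, (Nat.rec ([] : List α)
      (fun n ih => ih ++ [f (l.getD n 0)]) k : List α) = (l.take k).map f := by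
    intro k
    induction k with
    | zero => intro _; simp
    | succ k ih =>
      intro hk
      have h3 := ih (by omega)
      change (Nat.rec ([] : List α) (fun n ih => ih ++ [f (l.getD n 0)]) k : List α) ++
        [f (l.getD k 0)] = _
      rw [h3, List.take_succ_eq_append_getElem (by omega), List.map_append, List.map_singleton]
      congr 3
      rw [List.getD_eq_getElem]
  rw [h2 l.length le_rfl, List.take_length]

theorem hasCompCopy_of (a : ℕ → ℕ) {A : Type} [S : (sig a).Structure A] [Infinite A]
    {R : Type} [Primcodable R] (ok : R → Bool) (hok : Computable ok) (dU : R → A)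
    (hinj : ∀ x y, ok x = true → ok y = true → dU x = dU y → x = y)
    (hsurj : ∀ y, ∃ x, ok x = true ∧ dU x = y)
    (rel : ℕ → List R → Bool) (hrel : Computable₂ rel)
    (h : ∀ (i : ℕ) (v : Fin (a i) → R), (∀ t, ok (v t) = true) →
      (rel i (List.ofFn v) = true ↔ S.RelMap (n := a i) ⟨i, rfl⟩ (fun t => dU (v t)))) :
    HasCompCopy a A := by
  have hinf : {x | ok x = true}.Infinite := by
    intro hfin
    have h1 : (Set.univ : Set A) ⊆ dU '' {x | ok x = true} := by
      intro y _
      obtain ⟨x, hx, hxy⟩ := hsurj y
      exact ⟨x, hx, hxy⟩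
    exact Set.infinite_univ ((hfin.image dU).subset h1)
  obtain ⟨f, hf, hfi, hfr⟩ := exists_enum ok hok hinf
  have hokf : ∀ n, ok (f n) = true := fun n => (hfr _).2 ⟨n, rfl⟩
  have hbij : Function.Bijective fun n => dU (f n) := by
    constructor
    · intro n m hnm
      exact hfi (hinj _ _ (hokf n) (hokf m) hnm)
    · intro y
      obtain ⟨x, hx, hxy⟩ := hsurj y
      obtain ⟨n, hn⟩ := (hfr x).1 hx
      exact ⟨n, by simp only [hn, hxy]⟩
  let e : ℕ ≃ A := Equiv.ofBijective _ hbij
  have he : ∀ n, e n = dU (f n) := fun n => rfl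
  let S' : (sig a).Structure ℕ :=
    { funMap := fun {n} (g : (sig a).Functions n) _ => (g : Empty).elim
      RelMap := fun {n} r v => S.RelMap r (fun t => e (v t)) }
  refine ⟨S', fun i l => rel i (l.map f), ?_, ?_, ?_⟩
  · exact hrel.comp Computable.fst ((computable_list_map f hf).comp Computable.snd)
  · intro i v
    have e1 : (List.ofFn v).map f = List.ofFn (f ∘ v) := List.map_ofFn
    change rel i ((List.ofFn v).map f) = true ↔ _
    rw [e1]
    exact h i (f ∘ v) fun t => hokf _
  · refine ⟨⟨e.symm, ?_, ?_⟩⟩
    · intro n g x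
      exact (g : Empty).elim
    · intro n r x
      change S.RelMap r (fun t => e (e.symm (x t))) ↔ _
      simp only [Equiv.apply_symm_apply]

end Pool.Agent.Work.MP_ed0a9a_lc
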