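import Pool.Agent.Work.MP_ed0a9a_lc.Defs

/-!
# Module `Ari`: the arity function is computable

`ari ar i` depends on `a = (Nat.unpair i).1` and `b = (Nat.unpair i).2`: it is `1` if `a = 0`, `2` if
`a = 1, 2, 3, 4`, and `ar (Nat.unpair b).1` otherwise.  Prove this formula by cases
(`unfold ari Sym.dec`, `split`), then `Computable.ite`/`Computable.cond`
(`Primrec.eq`, `Primrec.unpair`, `Primrec.to_comp`).
-/

namespace Pool.Agent.Work.MP_ed0a9a_lc

private theorem ari_formula (ar : ℕ → ℕ) (i : ℕ) :
    ari ar i = cond (decide ((Nat.unpair i).1 = 0)) 1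
      (cond (decide ((Nat.unpair i).1 < 5)) 2 (ar (Nat.unpair (Nat.unpair i).2).1)) := by
  unfold ari Sym.dec
  generalize (Nat.unpair i).1 = a
  generalize (Nat.unpair i).2 = b
  rcases a with _ | _ | _ | _ | _ | a
  · rcases b with _ | _ | _ | b <;> simp [arity]
  · simp [arity]
  · simp [arity]
  · rcases b with _ | b <;> simp [arity]
  · simp [arity]
  · have h : ¬ (a + 1 + 1 + 1 + 1 + 1 < 5) := by omega
    simp [arity, h]

theorem computable_ari (ar : ℕ → ℕ) (h : Computable ar) : Computable (ari ar) := by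
  have hu1 : Primrec (fun i : ℕ => (Nat.unpair i).1) := Primrec.fst.comp Primrec.unpair
  have hu2 : Primrec (fun i : ℕ => (Nat.unpair i).2) := Primrec.snd.comp Primrec.unpair
  have c1 : Primrec (fun i : ℕ => decide ((Nat.unpair i).1 = 0)) :=
    (Primrec.eq.comp hu1 (Primrec.const 0)).decide
  have c2 : Primrec (fun i : ℕ => decide ((Nat.unpair i).1 < 5)) :=
    (Primrec.nat_lt.comp hu1 (Primrec.const 5)).decide
  have h3 : Computable (fun i : ℕ => ar (Nat.unpair (Nat.unpair i).2).1) :=
    h.comp (hu1.comp hu2).to_comp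
  have h4 := Computable.cond c1.to_comp (Computable.const 1)
    (Computable.cond c2.to_comp (Computable.const 2) h3)
  refine h4.of_eq fun i => ?_
  exact (ari_formula ar i).symm

end Pool.Agent.Work.MP_ed0a9a_lc
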