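import Pool.Agent.Work.MP_ed0a9a_lc.Form
import Pool.Agent.Work.MP_ed0a9a_lc.AxKit

/-!
# Module `AxPW`: the axioms `GPW` are first order

Each field is the universal closure of a formula in the variables `0, …, 3` (write it with
`rl`, `⊓`, `.imp`, `.not`, `exv`, equality `Term.equal (Term.var 0) (Term.var 1)`, and
`Formula.iSup` over the finite type `{k // k ∈ P.F}` for `∃ k ∈ P.F`), or a family of such over
`j` (`Axb.all`, `Axb.allProp`).  See the header of `AxSort` for the technique.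
-/

set_option linter.unusedVariables false

namespace Pool.Agent.Work.MP_ed0a9a_lc

open FirstOrder FirstOrder.Language

private theorem axPW_T (P : Par) (x : ℕ) :
    Dfb P.ar (fun N H v => ∃ k ∈ P.F, H (.ST k) [v x]) := Dfb.exF fun k => Dfb.rel1 (.ST k) x

theorem axb_pw (P : Par) : Axb P.ar (fun N H => GPW H P) := by
  have h1 : Axb P.ar (fun N H => ∀ j, ∀ τ x : N, H (.P j) [τ, x] →
      (∃ k ∈ P.F, H (.ST k) [τ]) ∧ H .SD [x]) :=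
    Axb.all fun j => Axb.of2 ((Dfb.rel2 (.P j) 0 1).imp ((axPW_T P 0).and (Dfb.rel1 .SD 1)))
  have h2 : Axb P.ar (fun N H => ∀ j, P.K < j → ∀ τ x : N, ¬ H (.P j) [τ, x]) :=
    Axb.all fun j => Axb.allProp fun _ => Axb.of2 (Dfb.rel2 (.P j) 0 1).not
  have h3 : Axb P.ar (fun N H => ∀ j, j ≤ P.K → ∀ τ : N, (∃ k ∈ P.F, H (.ST k) [τ]) →
      ∃ x, H (.P j) [τ, x]) :=
    Axb.all fun j => Axb.allProp fun _ => Axb.of1 ((axPW_T P 0).imp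
      (Dfb.ex' 1 (Dfb.rel2 (.P j) 0 1) fun _ _ _ => Iff.rfl))
  have h4 : Axb P.ar (fun N H => ∀ j, ∀ τ x x' : N, H (.P j) [τ, x] → H (.P j) [τ, x'] → x = x') :=
    Axb.all fun j => Axb.of3 ((Dfb.rel2 (.P j) 0 1).imp ((Dfb.rel2 (.P j) 0 2).imp (Dfb.eq 1 2)))
  have h5 : Axb P.ar (fun N H => ∀ w τ : N, H .Wt [w, τ] → H .SW [w] ∧ ∃ k ∈ P.F, H (.ST k) [τ]) :=
    Axb.of2 ((Dfb.rel2 .Wt 0 1).imp ((Dfb.rel1 .SW 0).and (axPW_T P 1)))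
  have h6 : Axb P.ar (fun N H => ∀ w : N, H .SW [w] → ∃ τ, H .Wt [w, τ]) :=
    Axb.of1 ((Dfb.rel1 .SW 0).imp (Dfb.ex' 1 (Dfb.rel2 .Wt 0 1) fun _ _ _ => Iff.rfl))
  have h7 : Axb P.ar (fun N H => ∀ w τ τ' : N, H .Wt [w, τ] → H .Wt [w, τ'] → τ = τ') :=
    Axb.of3 ((Dfb.rel2 .Wt 0 1).imp ((Dfb.rel2 .Wt 0 2).imp (Dfb.eq 1 2)))
  have h8 : Axb P.ar (fun N H => ∀ w z : N, H .Wz [w, z] → H .SW [w] ∧ H .SD [z]) :=
    Axb.of2 ((Dfb.rel2 .Wz 0 1).imp ((Dfb.rel1 .SW 0).and (Dfb.rel1 .SD 1)))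
  have h9 : Axb P.ar (fun N H => ∀ w : N, H .SW [w] → ∃ z, H .Wz [w, z]) :=
    Axb.of1 ((Dfb.rel1 .SW 0).imp (Dfb.ex' 1 (Dfb.rel2 .Wz 0 1) fun _ _ _ => Iff.rfl))
  have h10 : Axb P.ar (fun N H => ∀ w z z' : N, H .Wz [w, z] → H .Wz [w, z'] → z = z') :=
    Axb.of3 ((Dfb.rel2 .Wz 0 1).imp ((Dfb.rel2 .Wz 0 2).imp (Dfb.eq 1 2)))
  have h11 : Axb P.ar (fun N H => ∀ w w' τ z : N, H .Wt [w, τ] → H .Wz [w, z] →
      H .Wt [w', τ] → H .Wz [w', z] → w = w') :=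
    Axb.of4 ((Dfb.rel2 .Wt 0 2).imp ((Dfb.rel2 .Wz 0 3).imp ((Dfb.rel2 .Wt 1 2).imp
      ((Dfb.rel2 .Wz 1 3).imp (Dfb.eq 0 1)))))
  refine (h1.and (h2.and (h3.and (h4.and (h5.and (h6.and (h7.and (h8.and (h9.and
    (h10.and h11)))))))))).congr fun N _ S => ?_
  constructor
  · rintro ⟨a1, a2, a3, a4, a5, a6, a7, a8, a9, a10, a11⟩
    exact ⟨a1, a2, a3, a4, a5, a6, a7, a8, a9, a10, a11⟩
  · rintro ⟨a1, a2, a3, a4, a5, a6, a7, a8, a9, a10, a11⟩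
    exact ⟨a1, a2, a3, a4, a5, a6, a7, a8, a9, a10, a11⟩

end Pool.Agent.Work.MP_ed0a9a_lc
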