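import Pool.Agent.Work.MP_ed0a9a_lc.Form
import Pool.Agent.Work.MP_ed0a9a_lc.AxKit
import Pool.Agent.Work.MP_ed0a9a_lc.Lvl

/-!
# Module `AxLvl`: formulas for the level

`LGF l c`: the conjunction (`Formula.iInf` over `Fin l.length × Fin l.length × Fin c`) of
`if i < j then (rl (.Tr g) [l_i, l_j]).not else ⊤`; it is realized by `v` iff
`LGH (HN S) (l.map v) c` (`List.pairwise_iff_getElem` or `List.pairwise_iff_get`).
For `A : ℕ∞ → Prop` constant from `c` on (including `⊤`): with `L = lvH (HN S) (l.map v)`,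
`A L ↔ (c ≤ L ∧ A ⊤) ∨ ∃ m < c, A m ∧ m ≤ L ∧ ¬ (m + 1 ≤ L)`, and `m ≤ L ↔ LGH … m`
(`le_lvH_iff`).  So the formula is
`(LGF l c ⊓ (if A ⊤ then ⊤ else ⊥)) ⊔ iSup_{m : Fin c} (if A m then LGF l m ⊓ (LGF l (m+1)).not else ⊥)`
(classical `if`).
-/

set_option linter.unusedVariables false

namespace Pool.Agent.Work.MP_ed0a9a_lc

open FirstOrder FirstOrder.Language

variable {ar : ℕ → ℕ}

private theorem axLvl_LGH (l : List ℕ) (c : ℕ) : Dfb ar (fun N H v => LGH H (l.map v) c) := by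
  have key : Dfb ar (fun N H v => l.Pairwise (fun a b => ∀ g : Fin c, ¬ H (.Tr g) [v a, v b])) := by
    induction l with
    | nil => exact Dfb.tru.congr fun N S v => ⟨fun _ => List.Pairwise.nil, fun _ => trivial⟩
    | cons a l ih =>
      have h1 : Dfb ar (fun N H v => ∀ b : {b // b ∈ l}, ∀ g : Fin c, ¬ H (.Tr g) [v a, v b.1]) :=
        Dfb.fin fun b => Dfb.fin fun g => (Dfb.rel2 (.Tr g) a b.1).not
      refine (h1.and ih).congr fun N S v => ?_
      rw [List.pairwise_cons]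
      constructor
      · rintro ⟨h, h'⟩
        exact ⟨fun b hb => h ⟨b, hb⟩, h'⟩
      · rintro ⟨h, h'⟩
        exact ⟨fun b => h b.1 b.2, h'⟩
  refine key.congr fun N S v => ?_
  unfold LGH
  rw [List.pairwise_map]
  constructor
  · intro h
    exact h.imp fun hab g hg => hab ⟨g, hg⟩
  · intro h
    exact h.imp (fun hab (g : Fin c) => hab g.1 g.2)

private theorem axLvl_cases (A : ℕ∞ → Prop) {c : ℕ} (hc : ∀ N : ℕ∞, (c : ℕ∞) ≤ N → (A N ↔ A ⊤))
    (L : ℕ∞) : ((c : ℕ∞) ≤ L ∧ A ⊤) ∨ (∃ m : Fin c, A ((m.1 : ℕ) : ℕ∞) ∧ ((m.1 : ℕ) : ℕ∞) ≤ L ∧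
      ¬ ((m.1 + 1 : ℕ) : ℕ∞) ≤ L) ↔ A L := by
  constructor
  · rintro (⟨h1, h2⟩ | ⟨m, h1, h2, h3⟩)
    · exact (hc L h1).2 h2
    · have h4 : L ≠ ⊤ := by
        rintro rfl
        exact h3 le_top
      lift L to ℕ using h4
      have h5 : m.1 ≤ L := by exact_mod_cast h2
      have h6 : ¬ m.1 + 1 ≤ L := by exact_mod_cast h3
      have h7 : m.1 = L := by omega
      rwa [h7] at h1
  · intro h
    by_cases h1 : (c : ℕ∞) ≤ L
    · exact Or.inl ⟨h1, (hc L h1).1 h⟩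
    · right
      have h4 : L ≠ ⊤ := by
        rintro rfl
        exact h1 le_top
      lift L to ℕ using h4
      have h5 : ¬ c ≤ L := by exact_mod_cast h1
      refine ⟨⟨L, by omega⟩, h, le_rfl, ?_⟩
      have : ¬ L + 1 ≤ L := by omega
      exact_mod_cast this

theorem exists_lvl_formula (l : List ℕ) (A : ℕ∞ → Prop)
    (hA : ∃ c : ℕ, ∀ N : ℕ∞, (c : ℕ∞) ≤ N → (A N ↔ A ⊤)) :
    ∃ φ : Fo ar, ∀ (N : Type) [S : (sig (ari ar)).Structure N] (v : ℕ → N),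
      φ.Realize v ↔ A (lvH (HN S) (l.map v)) := by
  obtain ⟨c, hc⟩ := hA
  have h : Dfb ar (fun N H v => A (lvH H (l.map v))) := by
    refine (((axLvl_LGH l c).and (Dfb.prp (A ⊤))).or (Dfb.exf fun m : Fin c =>
      (Dfb.prp (A ((m.1 : ℕ) : ℕ∞))).and ((axLvl_LGH l m.1).and (axLvl_LGH l (m.1 + 1)).not))).congr
      fun N S v => ?_
    simp only [← le_lvH_iff]
    exact axLvl_cases A hc _
  exact h

end Pool.Agent.Work.MP_ed0a9a_lc
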