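import Pool.Agent.Work.MP_ed0a9a_lc.AxT
import Pool.Agent.Work.MP_ed0a9a_lc.AxLvl
import Pool.Agent.Work.MP_ed0a9a_lc.AxKit

/-!
# Module `AxQ`: the axioms `GQ` are first order

For fixed `n` a single formula with variables `0 = τ`, `1 = τ'`, `2 = z`, `3 = o`, `4 = d'`,
`5 + j = x_j`.
-/

set_option linter.unusedVariables false

namespace Pool.Agent.Work.MP_ed0a9a_lc

open FirstOrder FirstOrder.Language

variable {ar : ℕ → ℕ}

private theorem axQ_hz (τ z w : ℕ) (hτ : w ≠ τ) (hz' : w ≠ z) :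
    Dfb ar (fun N H v => hz H (v τ) (v z)) := ⟨hzF τ z w, fun _ _ v => realize_hzF τ z w hτ hz' v⟩

private theorem axQ_miss (P : Par) (k n : ℕ) :
    Dfb P.ar (fun N H v => missH H P k n (v 3) (fun j => v (j.1 + 5)) (v 2)) := by
  have h1 : Dfb P.ar (fun N H v => missP P n (lvH H
      (((3 :: List.ofFn fun j : Fin (P.K + 1) => j.1 + 5).take (k + 1)).map v))) :=
    exists_lvl_formula _ (missP P n) (missP_ev P n)
  refine ((Dfb.rel2 (.Tr ((Nat.unpair n).2 / (k + 1)))
    ((3 :: List.ofFn fun j : Fin (P.K + 1) => j.1 + 5).getD ((Nat.unpair n).2 % (k + 1)) 3)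
    2).and h1).congr fun N S v => ?_
  unfold missH
  have h2 : v 3 :: List.ofFn (fun j : Fin (P.K + 1) => v (j.1 + 5)) =
      (3 :: List.ofFn fun j : Fin (P.K + 1) => j.1 + 5).map v := by
    rw [List.map_cons, List.map_ofFn]
    rfl
  rw [h2, ← List.map_take, List.getD_map]

private theorem axQ_core (P : Par) (k n : ℕ) : Dfb P.ar (fun N H v =>
    ∃ (x : Fin (P.K + 1) → N) (d' z o : N),
    H (.ST k) [v 0] ∧ H (.ST k) [v 1] ∧ (∀ j : Fin (P.K + 1), H (.P j) [v 0, x j]) ∧
    (∀ j : Fin (P.K + 1), j.1 < P.K → H (.P j) [v 1, x j]) ∧ H (.P P.K) [v 1, d'] ∧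
    H (.Tr (2 ^ n)) [x (Fin.last P.K), d'] ∧ hz H (v 0) z ∧ hz H (v 1) z ∧ H .Z [o] ∧
    ¬ missH H P k n o x z) := by
  have h0 : Dfb P.ar (fun N H v =>
      H (.ST k) [v 0] ∧ H (.ST k) [v 1] ∧ (∀ j : Fin (P.K + 1), H (.P j) [v 0, v (j.1 + 5)]) ∧
      (∀ j : Fin (P.K + 1), j.1 < P.K → H (.P j) [v 1, v (j.1 + 5)]) ∧ H (.P P.K) [v 1, v 4] ∧
      H (.Tr (2 ^ n)) [v ((Fin.last P.K).1 + 5), v 4] ∧ hz H (v 0) (v 2) ∧ hz H (v 1) (v 2) ∧
      H .Z [v 3] ∧ ¬ missH H P k n (v 3) (fun j => v (j.1 + 5)) (v 2)) := by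
    refine (Dfb.rel1 _ 0).and ((Dfb.rel1 _ 1).and ((Dfb.fin fun j => Dfb.rel2 _ 0 _).and
      ((Dfb.fin fun j => (Dfb.prp _).imp (Dfb.rel2 _ 1 _)).and ((Dfb.rel2 _ 1 4).and
      ((Dfb.rel2 _ _ 4).and ((axQ_hz 0 2 3 (by decide) (by decide)).and
      ((axQ_hz 1 2 3 (by decide) (by decide)).and ((Dfb.rel1 _ 3).and
      (axQ_miss P k n).not))))))))
  have h1 := Dfb.exT (P.K + 1) 5 (Dfb.ex 4 (Dfb.ex 2 (Dfb.ex 3 h0)))
  refine h1.congr fun N S v => ?_
  refine exists_congr fun x => exists_congr fun d' => exists_congr fun z => exists_congr fun o => ?_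
  have hx : ∀ j : Fin (P.K + 1), (Function.update (Function.update (Function.update
      (fun i => if hi : 5 ≤ i ∧ i - 5 < P.K + 1 then x ⟨i - 5, hi.2⟩ else v i) 4 d') 2 z) 3 o)
      (j.1 + 5) = x j := by
    intro j
    rw [Function.update_of_ne (by omega), Function.update_of_ne (by omega),
      Function.update_of_ne (by omega)]
    have hj : 5 ≤ j.1 + 5 ∧ j.1 + 5 - 5 < P.K + 1 := ⟨by omega, by have := j.2; omega⟩
    refine (dif_pos hj).trans (congrArg x (Fin.ext ?_))
    show j.1 + 5 - 5 = j.1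
    omega
  have e0 : (Function.update (Function.update (Function.update
      (fun i => if hi : 5 ≤ i ∧ i - 5 < P.K + 1 then x ⟨i - 5, hi.2⟩ else v i) 4 d') 2 z) 3 o) 0 =
      v 0 := by
    rw [Function.update_of_ne (by omega), Function.update_of_ne (by omega),
      Function.update_of_ne (by omega), dif_neg (by omega)]
  have e1 : (Function.update (Function.update (Function.update
      (fun i => if hi : 5 ≤ i ∧ i - 5 < P.K + 1 then x ⟨i - 5, hi.2⟩ else v i) 4 d') 2 z) 3 o) 1 =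
      v 1 := by
    rw [Function.update_of_ne (by omega), Function.update_of_ne (by omega),
      Function.update_of_ne (by omega), dif_neg (by omega)]
  have e2 : (Function.update (Function.update (Function.update
      (fun i => if hi : 5 ≤ i ∧ i - 5 < P.K + 1 then x ⟨i - 5, hi.2⟩ else v i) 4 d') 2 z) 3 o) 2 =
      z := by
    rw [Function.update_of_ne (by omega), Function.update_self]
  have e3 : (Function.update (Function.update (Function.update
      (fun i => if hi : 5 ≤ i ∧ i - 5 < P.K + 1 then x ⟨i - 5, hi.2⟩ else v i) 4 d') 2 z) 3 o) 3 =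
      o := by
    rw [Function.update_self]
  have e4 : (Function.update (Function.update (Function.update
      (fun i => if hi : 5 ≤ i ∧ i - 5 < P.K + 1 then x ⟨i - 5, hi.2⟩ else v i) 4 d') 2 z) 3 o) 4 =
      d' := by
    rw [Function.update_of_ne (by omega), Function.update_of_ne (by omega), Function.update_self]
  simp only [hx, e0, e1, e2, e3, e4]

theorem axb_q (P : Par) : Axb P.ar (fun N H => GQ H P) :=
  Axb.all fun n => Axb.of2 ((Dfb.rel2 (.Q n) 0 1).iff (Dfb.exF fun k => axQ_core P k n))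

end Pool.Agent.Work.MP_ed0a9a_lc
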