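import Pool.Agent.Work.MP_ed0a9a_lc.AxLvl
import Pool.Agent.Work.MP_ed0a9a_lc.AxKit

/-!
# Module `AxR`: the axioms `GR` are first order

For fixed `e`, `j` a single formula: variables `0 = o`, `1 + i = l_i` (`i < ar e`),
`(rl (.R e j) [1, …, ar e]).iff ((⨅ i : Fin (ar e), rl .SD [1 + i]) ⊓ exv 0 (rl .Z [0] ⊓ φ_lvl))`
with `φ_lvl` from `exists_lvl_formula` for the list `[0, 1, …, ar e]` and
`A N := ∃ t, kb e j t = true ∧ t ≤ N` (`kb_ev`).
-/

set_option linter.unusedVariables false

namespace Pool.Agent.Work.MP_ed0a9a_lc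

open FirstOrder FirstOrder.Language

variable {ar : ℕ → ℕ}

/-- the list of the variables `1, …, n` -/
private def axRL (n : ℕ) : List ℕ := (List.range n).map (· + 1)

private theorem axR_upd {N : Type} (n : ℕ) (v : ℕ → N) (o : N) :
    (0 :: axRL n).map (Function.update v 0 o) = o :: (axRL n).map v := by
  rw [List.map_cons, Function.update_self]
  congr 1
  apply List.map_congr_left
  intro a ha
  unfold axRL at ha
  rw [List.mem_map] at ha
  obtain ⟨b, -, rfl⟩ := ha
  rw [Function.update_of_ne (by omega)]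

private theorem axR_surj {N : Type} [Nonempty N] (n : ℕ) (l : List N) (hl : l.length = n) :
    (axRL n).map (fun m => l.getD (m - 1) (Classical.arbitrary N)) = l := by
  unfold axRL
  rw [List.map_map]
  apply List.ext_getElem
  · rw [List.length_map, List.length_range, hl]
  · intro i h1 h2
    rw [List.getElem_map, List.getElem_range]
    simp only [Function.comp, Nat.add_sub_cancel]
    rw [List.getD_eq_getElem _ _ h2]

theorem axb_r (P : Par) : Axb P.ar (fun N H => GR H P) := by
  have key : ∀ e j, Axb P.ar (fun N H => ∀ l : List N, l.length = P.ar e →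
      (H (.R e j) l ↔ (∀ x ∈ l, H .SD [x]) ∧
        ∃ o, H .Z [o] ∧ ∃ t, P.kb e j t = true ∧ (t : ℕ∞) ≤ lvH H (o :: l))) := by
    intro e j
    have hlv : Dfb P.ar (fun N H v => ∃ t : ℕ, P.kb e j t = true ∧
        (t : ℕ∞) ≤ lvH H ((0 :: axRL (P.ar e)).map v)) :=
      exists_lvl_formula (0 :: axRL (P.ar e)) (fun L => ∃ t : ℕ, P.kb e j t = true ∧ (t : ℕ∞) ≤ L)
        (kb_ev P e j)
    have h1 : Dfb P.ar (fun N H v => ∃ o, H .Z [o] ∧ ∃ t : ℕ, P.kb e j t = true ∧
        (t : ℕ∞) ≤ lvH H (o :: (axRL (P.ar e)).map v)) := by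
      refine Dfb.ex' 0 ((Dfb.rel1 .Z 0).and hlv) fun N S v => ?_
      refine exists_congr fun o => ?_
      rw [axR_upd]
      exact Iff.rfl
    have h2 : Dfb P.ar (fun N H v => ∀ a : {a // a ∈ axRL (P.ar e)}, H .SD [v a.1]) :=
      Dfb.fin fun a => Dfb.rel1 .SD a.1
    refine ((Dfb.rel (.R e j) (axRL (P.ar e))).iff (h2.and h1)).axb.congr fun N _ S => ?_
    have e1 : ∀ v : ℕ → N, (∀ a : {a // a ∈ axRL (P.ar e)}, HN S .SD [v a.1]) ↔
        ∀ x ∈ (axRL (P.ar e)).map v, HN S .SD [x] := by
      intro v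
      rw [List.forall_mem_map]
      exact ⟨fun h a ha => h ⟨a, ha⟩, fun h a => h a.1 a.2⟩
    constructor
    · intro h l hl
      have h3 := (h (fun m => l.getD (m - 1) (Classical.arbitrary N))).trans
        (and_congr (e1 (fun m => l.getD (m - 1) (Classical.arbitrary N))) Iff.rfl)
      rw [axR_surj _ l hl] at h3
      exact h3
    · intro h v
      refine (h _ ?_).trans (and_congr (e1 v).symm Iff.rfl)
      rw [List.length_map, axRL, List.length_map, List.length_range]
  exact Axb.all fun e => Axb.all fun j => key e j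

end Pool.Agent.Work.MP_ed0a9a_lc
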