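import Pool.Agent.Work.MP_ed0a9a_lc.Form
import Pool.Agent.Work.MP_ed0a9a_lc.AxKit

/-!
# Module `AxTr`: the axioms `GTr` are first order

Each field is the universal closure of a formula in the variables `0, 1, 2, 3` (write it with
`rl`, `⊓`, `.imp`, `.not`, `exv`, `Term.equal`/`Term.bdEqual` for equality), or a family of such
over `g`, `h` (`Axb.all`, `Axb.allProp`).  E.g. `tr_ex g`:
`(rl .SD [0]).imp (exv 1 (rl (.Tr g) [0, 1]))`.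
See the header of `AxSort` for the technique.  Put the conjunction together with `Axb.and` and
`Axb.congr`.
-/

set_option linter.unusedVariables false

namespace Pool.Agent.Work.MP_ed0a9a_lc

open FirstOrder FirstOrder.Language

theorem axb_tr (ar : ℕ → ℕ) : Axb ar (fun N H => GTr H) := by
  have h1 : Axb ar (fun N H => ∀ g, ∀ x y : N, H (.Tr g) [x, y] → H .SD [x] ∧ H .SD [y]) :=
    Axb.all fun g => Axb.of2 ((Dfb.rel2 (.Tr g) 0 1).imp ((Dfb.rel1 .SD 0).and (Dfb.rel1 .SD 1)))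
  have h2 : Axb ar (fun N H => ∀ g, ∀ x : N, H .SD [x] → ∃ y, H (.Tr g) [x, y]) :=
    Axb.all fun g => Axb.of1 ((Dfb.rel1 .SD 0).imp
      (Dfb.ex' 1 (Dfb.rel2 (.Tr g) 0 1) fun _ _ _ => Iff.rfl))
  have h3 : Axb ar (fun N H => ∀ g, ∀ x y y' : N, H (.Tr g) [x, y] → H (.Tr g) [x, y'] → y = y') :=
    Axb.all fun g => Axb.of3 ((Dfb.rel2 (.Tr g) 0 1).imp ((Dfb.rel2 (.Tr g) 0 2).imp (Dfb.eq 1 2)))
  have h4 : Axb ar (fun N H => ∀ x : N, H .SD [x] → H (.Tr 0) [x, x]) :=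
    Axb.of1 ((Dfb.rel1 .SD 0).imp (Dfb.rel2 (.Tr 0) 0 0))
  have h5 : Axb ar (fun N H => ∀ g h, ∀ x y z : N, H (.Tr g) [x, y] → H (.Tr h) [y, z] →
      H (.Tr (g ^^^ h)) [x, z]) :=
    Axb.all fun g => Axb.all fun h => Axb.of3
      ((Dfb.rel2 (.Tr g) 0 1).imp ((Dfb.rel2 (.Tr h) 1 2).imp (Dfb.rel2 (.Tr (g ^^^ h)) 0 2)))
  have h6 : Axb ar (fun N H => ∀ g, g ≠ 0 → ∀ x : N, ¬ H (.Tr g) [x, x]) :=
    Axb.all fun g => Axb.allProp fun _ => Axb.of1 (Dfb.rel2 (.Tr g) 0 0).not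
  have h7 : Axb ar (fun N H => ∃ o : N, H .Z [o]) :=
    Axb.of0 (Dfb.ex' 0 (Dfb.rel1 .Z 0) fun _ _ _ => Iff.rfl)
  have h8 : Axb ar (fun N H => ∀ o : N, H .Z [o] → H .SD [o]) :=
    Axb.of1 ((Dfb.rel1 .Z 0).imp (Dfb.rel1 .SD 0))
  have h9 : Axb ar (fun N H => ∀ o o' : N, H .Z [o] → H .Z [o'] → o = o') :=
    Axb.of2 ((Dfb.rel1 .Z 0).imp ((Dfb.rel1 .Z 1).imp (Dfb.eq 0 1)))
  refine (h1.and (h2.and (h3.and (h4.and (h5.and (h6.and (h7.and (h8.and h9)))))))).congr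
    fun N _ S => ?_
  constructor
  · rintro ⟨a1, a2, a3, a4, a5, a6, a7, a8, a9⟩
    exact ⟨a1, a2, a3, a4, a5, a6, a7, a8, a9⟩
  · rintro ⟨a1, a2, a3, a4, a5, a6, a7, a8, a9⟩
    exact ⟨a1, a2, a3, a4, a5, a6, a7, a8, a9⟩

end Pool.Agent.Work.MP_ed0a9a_lc
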