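import Pool.Agent.Work.MP_ed0a9a_lc.Form
import Pool.Agent.Work.MP_ed0a9a_lc.AxKit

/-!
# Module `AxSort`: the axioms `GSort` are first order

Each field of `GSort` is the universal closure of a quantifier free formula in the variables
`0, 1` (write it with `rl`, `⊓`, `⊔`, `.imp`, `.not`, and `Formula.iSup` over the finite type
`{k // k ∈ P.F}`), or a family of such (over `k`, `k'`: `Axb.all`, `Axb.allProp`).  The field
`len` is automatic for `HN S` (`hd` contains the length condition; `ari_code`).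
For `(∀ v : ℕ → N, Q (v 0)) ↔ ∀ x, Q x` use `v := fun _ => x`; for two variables
`v := fun n => if n = 0 then x else y`.
`Formula.realize_*` lemmas: `Formula.realize_inf, realize_sup, realize_imp, realize_not,
realize_iSup, realize_iInf`, and `realize_rl` from `Form`.  Put the conjunction together with
`Axb.and` and `Axb.congr`.
-/

set_option linter.unusedVariables false

namespace Pool.Agent.Work.MP_ed0a9a_lc

open FirstOrder FirstOrder.Language

theorem axb_sort (P : Par) : Axb P.ar (fun N H => GSort H P) := by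
  have h1 : Axb P.ar (fun N H => ∀ x : N,
      H .SD [x] ∨ (∃ k ∈ P.F, H (.ST k) [x]) ∨ H .SW [x]) :=
    Axb.of1 ((Dfb.rel1 .SD 0).or ((Dfb.exF fun k => Dfb.rel1 (.ST k) 0).or (Dfb.rel1 .SW 0)))
  have h2 : Axb P.ar (fun N H => ∀ k, ∀ x : N, H .SD [x] → ¬ H (.ST k) [x]) :=
    Axb.all fun k => Axb.of1 ((Dfb.rel1 .SD 0).imp (Dfb.rel1 (.ST k) 0).not)
  have h3 : Axb P.ar (fun N H => ∀ x : N, H .SD [x] → ¬ H .SW [x]) :=
    Axb.of1 ((Dfb.rel1 .SD 0).imp (Dfb.rel1 .SW 0).not)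
  have h4 : Axb P.ar (fun N H => ∀ k, ∀ x : N, H (.ST k) [x] → ¬ H .SW [x]) :=
    Axb.all fun k => Axb.of1 ((Dfb.rel1 (.ST k) 0).imp (Dfb.rel1 .SW 0).not)
  have h5 : Axb P.ar (fun N H => ∀ k, ∀ k', k ≠ k' → ∀ x : N, H (.ST k) [x] → ¬ H (.ST k') [x]) :=
    Axb.all fun k => Axb.all fun k' => Axb.allProp fun _ =>
      Axb.of1 ((Dfb.rel1 (.ST k) 0).imp (Dfb.rel1 (.ST k') 0).not)
  have h6 : Axb P.ar (fun N H => ∀ k, k ∉ P.F → ∀ x : N, ¬ H (.ST k) [x]) :=
    Axb.all fun k => Axb.allProp fun _ => Axb.of1 (Dfb.rel1 (.ST k) 0).not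
  refine (h1.and (h2.and (h3.and (h4.and (h5.and h6))))).congr fun N _ S => ?_
  constructor
  · rintro ⟨a1, a2, a3, a4, a5, a6⟩
    refine ⟨?_, a1, a2, a3, a4, a5, a6⟩
    rintro s l ⟨h, -⟩
    rw [h, ari_code]
  · intro h
    exact ⟨h.cover, h.d_not_t, h.d_not_w, h.t_not_w, h.t_uniq, h.t_F⟩

end Pool.Agent.Work.MP_ed0a9a_lc
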