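import Pool.Agent.Work.MP_ed0a9a_lc.Form
import Pool.Agent.Work.MP_ed0a9a_lc.AxKit

/-!
# Module `AxT`: the axioms `GT` are first order

First the formula for `hz`: with `w` a variable different from `τ`, `z`,
`hzF τ z w := rl .SD [z] ⊓ (exv w (rl .Wt [w, τ] ⊓ rl .Wz [w, z])).not`, and
`(hzF τ z w).Realize v ↔ hz (HN S) (v τ) (v z)` (`realize_exv`, `Function.update`).
`hz_ex`, `hz_uniq`: few variables.
`t_ex` for `k ∈ P.F`: variables `0 = τ`, `1 = z`, `2 = w`, `3 + j = x_j` (`j : Fin (P.K+1)`):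
`((⨅ j, rl .SD [3 + j]) ⊓ rl .SD [1]).imp (exv 0 (rl (.ST k) [0] ⊓ (⨅ j, rl (.P j) [0, 3 + j]) ⊓
hzF 0 1 2))` with `Formula.iInf` over `Fin (P.K + 1)`; `(∀ v, …)` ↔ `∀ x z`: given `x`, `z` use
`v := fun n => if h : 3 ≤ n ∧ n - 3 < P.K + 1 then x ⟨n - 3, _⟩ else z`; conversely
`x := fun j => v (3 + j)`.  `t_inj` similarly with `τ' = 0`, `τ = P.K + 10` or so.
`hzF` is also used by the module `AxQ`: keep it with its statement.
-/

set_option linter.unusedVariables false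

namespace Pool.Agent.Work.MP_ed0a9a_lc

open FirstOrder FirstOrder.Language

variable {ar : ℕ → ℕ}

/-- `z` is the hidden coordinate of `τ`; `w` is a bound variable. -/
noncomputable def hzF (τ z w : ℕ) : Fo ar :=
  rl .SD [z] ⊓ (exv w (rl .Wt [w, τ] ⊓ rl .Wz [w, z])).not

theorem realize_hzF {N : Type} [S : (sig (ari ar)).Structure N] (τ z w : ℕ) (hτ : w ≠ τ)
    (hz' : w ≠ z) (v : ℕ → N) : (hzF τ z w : Fo ar).Realize v ↔ hz (HN S) (v τ) (v z) := by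
  unfold hzF hz
  rw [Formula.realize_inf, Formula.realize_not, realize_exv, realize_rl]
  simp only [Formula.realize_inf, realize_rl, List.map_cons, List.map_nil, Function.update_self,
    Function.update_of_ne hτ.symm, Function.update_of_ne hz'.symm]

private theorem axT_hz (τ z w : ℕ) (hτ : w ≠ τ) (hz' : w ≠ z) :
    Dfb ar (fun N H v => hz H (v τ) (v z)) := ⟨hzF τ z w, fun _ _ v => realize_hzF τ z w hτ hz' v⟩

private theorem axT_T (P : Par) (x : ℕ) :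
    Dfb P.ar (fun N H v => ∃ k ∈ P.F, H (.ST k) [v x]) := Dfb.exF fun k => Dfb.rel1 (.ST k) x

theorem axb_t (P : Par) : Axb P.ar (fun N H => GT H P) := by
  have h1 : Axb P.ar (fun N H => ∀ τ : N, (∃ k ∈ P.F, H (.ST k) [τ]) → ∃ z, hz H τ z) :=
    Axb.of1 ((axT_T P 0).imp (Dfb.ex' 1 (axT_hz 0 1 2 (by decide) (by decide))
      fun _ _ _ => Iff.rfl))
  have h2 : Axb P.ar (fun N H => ∀ τ z z' : N, (∃ k ∈ P.F, H (.ST k) [τ]) → hz H τ z →
      hz H τ z' → z = z') :=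
    Axb.of3 ((axT_T P 0).imp ((axT_hz 0 1 3 (by decide) (by decide)).imp
      ((axT_hz 0 2 3 (by decide) (by decide)).imp (Dfb.eq 1 2))))
  have h3 : Axb P.ar (fun N H => ∀ k, k ∈ P.F → ∀ (x : Fin (P.K + 1) → N) (z : N),
      (∀ j, H .SD [x j]) → H .SD [z] →
      ∃ τ, H (.ST k) [τ] ∧ (∀ j : Fin (P.K + 1), H (.P j) [τ, x j]) ∧ hz H τ z) := by
    refine Axb.all fun k => Axb.allProp fun _ => Axb.ofT1 ?_
    refine (Dfb.fin fun j : Fin (P.K + 1) => Dfb.rel1 .SD (j.1 + 5)).imp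
      ((Dfb.rel1 .SD 0).imp ?_)
    refine Dfb.ex' 1 ((Dfb.rel1 (.ST k) 1).and ((Dfb.fin fun j : Fin (P.K + 1) =>
      Dfb.rel2 (.P j) 1 (j.1 + 5)).and (axT_hz 1 0 2 (by decide) (by decide)))) ?_
    intro N S v
    exact Iff.rfl
  have h4 : Axb P.ar (fun N H => ∀ k, k ∈ P.F → ∀ (x : Fin (P.K + 1) → N) (z τ τ' : N),
      H (.ST k) [τ] → H (.ST k) [τ'] →
      (∀ j : Fin (P.K + 1), H (.P j) [τ, x j]) → (∀ j : Fin (P.K + 1), H (.P j) [τ', x j]) →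
      hz H τ z → hz H τ' z → τ = τ') := by
    refine Axb.all fun k => Axb.allProp fun _ => Axb.ofT3 ?_
    exact (Dfb.rel1 (.ST k) 1).imp ((Dfb.rel1 (.ST k) 2).imp
      ((Dfb.fin fun j : Fin (P.K + 1) => Dfb.rel2 (.P j) 1 (j.1 + 5)).imp
      ((Dfb.fin fun j : Fin (P.K + 1) => Dfb.rel2 (.P j) 2 (j.1 + 5)).imp
      ((axT_hz 1 0 3 (by decide) (by decide)).imp ((axT_hz 2 0 3 (by decide) (by decide)).imp
        (Dfb.eq 1 2))))))
  refine (h1.and (h2.and (h3.and h4))).congr fun N _ S => ?_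
  constructor
  · rintro ⟨a1, a2, a3, a4⟩
    exact ⟨a1, a2, a3, a4⟩
  · rintro ⟨a1, a2, a3, a4⟩
    exact ⟨a1, a2, a3, a4⟩

end Pool.Agent.Work.MP_ed0a9a_lc
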