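import Pool.Agent.Work.MP_ed0a9a_lc.Lvl

/-!
# Module `ClassD`: the sort `D` of a model

`H` satisfies `GTr`.  The relation `x ~ y :⟺ ∃ g, Tr g [x, y]` is an equivalence relation on
`{x // H .SD [x]}`: reflexive by `tr_zero`; symmetric: if `Tr g [x, y]` let `Tr g [y, w]`
(`tr_ex`); then `Tr (g ^^^ g) = Tr 0 [x, w]`, and `Tr 0 [x, x]`, so `w = x` (`tr_uniq`);
transitive by `tr_comp`.
Let `o` be the base point, `J` := the quotient of `{x // H .SD [x] ∧ ¬ ∃ g, H (.Tr g) [o, x]}` by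
`~`, and choose representatives `ρ j` (`Quotient.out`).  Let `act g x` be the `y` with
`Tr g [x, y]`.  Put `e (g, none) := act g o`, `e (g, some j) := act g (ρ j)`.
* `Tr g [e p, y] ↔ y = e (sh g p)`: `tr_comp` and `tr_uniq` (`e (sh g p) = act (p.1 ^^^ g) ρ`).
* injective: `e p = e p'` implies that the representatives are `~`, hence equal (`o` is not `~`
  to any `ρ j`), and then `act g ρ = act g' ρ` implies `Tr (g ^^^ g') [ρ', ρ']` with
  `ρ' = act g ρ`, so `g ^^^ g' = 0` by `tr_free`, `g = g'`.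
* surjective onto `SD`.
-/

namespace Pool.Agent.Work.MP_ed0a9a_lc

private theorem classD_symm {N : Type} {H : Sym → List N → Prop} (h : GTr H) {g : ℕ} {x y : N}
    (hxy : H (.Tr g) [x, y]) : H (.Tr g) [y, x] := by
  obtain ⟨hx, hy⟩ := h.tr_dom g x y hxy
  obtain ⟨w, hw⟩ := h.tr_ex g y hy
  have h1 := h.tr_comp g g x y w hxy hw
  rw [Nat.xor_self] at h1
  have h2 := h.tr_uniq 0 x w x h1 (h.tr_zero x hx)
  rwa [h2] at hw

private theorem classD_xor {g : ℕ} {J : Type} {p p' : Pt J} :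
    p' = sh g p ↔ p.2 = p'.2 ∧ g = p.1 ^^^ p'.1 := by
  obtain ⟨a, r⟩ := p
  obtain ⟨b, r'⟩ := p'
  unfold sh
  constructor
  · intro h
    have h1 : b = a ^^^ g := congrArg Prod.fst h
    have h2 : r' = r := congrArg Prod.snd h
    refine ⟨h2.symm, ?_⟩
    show g = a ^^^ b
    rw [h1, ← Nat.xor_assoc, Nat.xor_self, Nat.zero_xor]
  · rintro ⟨h1, h2⟩
    have h1' : r = r' := h1
    have h2' : g = a ^^^ b := h2
    subst h1' h2'
    show (b, r) = (a ^^^ (a ^^^ b), r)
    rw [← Nat.xor_assoc, Nat.xor_self, Nat.zero_xor]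

theorem classD {N : Type} (H : Sym → List N → Prop) (h : GTr H) :
    ∃ (J : Type) (e : Pt J → N), Function.Injective e ∧
      (∀ x, H .SD [x] ↔ ∃ p, e p = x) ∧
      (∀ g x y, H (.Tr g) [x, y] ↔ ∃ p, e p = x ∧ e (sh g p) = y) ∧
      (∀ x, H .Z [x] ↔ x = e bs) := by
  classical
  obtain ⟨o, ho⟩ := h.z_ex
  have hoD := h.z_dom o ho
  let st : Setoid {x : N // H .SD [x] ∧ ¬ ∃ g, H (.Tr g) [o, x]} :=
    { r := fun x y => ∃ g, H (.Tr g) [x.1, y.1]
      iseqv := ⟨fun x => ⟨0, h.tr_zero x.1 x.2.1⟩,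
        fun {x y} ⟨g, hg⟩ => ⟨g, classD_symm h hg⟩,
        fun {x y z} ⟨g, hg⟩ ⟨g', hg'⟩ => ⟨g ^^^ g', h.tr_comp g g' _ _ _ hg hg'⟩⟩ }
  let J := Quotient st
  let r : Option J → N := fun a => match a with
    | none => o
    | some j => (Quotient.out j).1
  have hrD : ∀ a, H .SD [r a] := by
    intro a
    cases a with
    | none => exact hoD
    | some j => exact (Quotient.out j).2.1
  have hex : ∀ p : Pt J, ∃ y, H (.Tr p.1) [r p.2, y] := fun p => h.tr_ex p.1 _ (hrD p.2)
  choose e he using hex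
  have hclaim : ∀ a b : Option J, (∃ g, H (.Tr g) [r a, r b]) → a = b := by
    intro a b hab
    cases a with
    | none =>
      cases b with
      | none => rfl
      | some j => exact absurd hab (Quotient.out j).2.2
    | some i =>
      cases b with
      | none =>
        obtain ⟨g, hg⟩ := hab
        exact absurd ⟨g, classD_symm h hg⟩ (Quotient.out i).2.2
      | some j =>
        congr 1
        exact Quotient.out_equiv_out.1 hab
  have h2 : ∀ g p y, H (.Tr g) [e p, y] ↔ y = e (sh g p) := by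
    intro g p y
    constructor
    · intro hy
      have h3 := h.tr_comp p.1 g _ _ _ (he p) hy
      exact h.tr_uniq _ _ _ _ h3 (he (sh g p))
    · rintro rfl
      have h3 := classD_symm h (he p)
      have h4 : H (.Tr (p.1 ^^^ g)) [r p.2, e (sh g p)] := he (sh g p)
      have h5 := h.tr_comp _ _ _ _ _ h3 h4
      rwa [← Nat.xor_assoc, Nat.xor_self, Nat.zero_xor] at h5
  have heD : ∀ p, H .SD [e p] := fun p => (h.tr_dom _ _ _ (he p)).2
  have hinj : Function.Injective e := by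
    intro p p' hpp
    have h3 := he p
    rw [hpp] at h3
    have h4 := h.tr_comp _ _ _ _ _ h3 (classD_symm h (he p'))
    have h5 : p.2 = p'.2 := hclaim _ _ ⟨_, h4⟩
    rw [h5] at h4
    have h6 : p.1 ^^^ p'.1 = 0 := by
      by_contra hne
      exact h.tr_free _ hne _ h4
    exact Prod.ext (Nat.xor_eq_zero_iff.1 h6) h5
  have hsurj : ∀ x, H .SD [x] → ∃ p, e p = x := by
    intro x hx
    by_cases hxo : ∃ g, H (.Tr g) [o, x]
    · obtain ⟨g, hg⟩ := hxo
      exact ⟨(g, none), h.tr_uniq _ _ _ _ (he (g, none)) hg⟩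
    · let X : {x : N // H .SD [x] ∧ ¬ ∃ g, H (.Tr g) [o, x]} := ⟨x, hx, hxo⟩
      have hX : ∃ g, H (.Tr g) [(Quotient.out (Quotient.mk st X)).1, x] :=
        Quotient.mk_out (s := st) X
      obtain ⟨g, hg⟩ := hX
      exact ⟨(g, some (Quotient.mk st X)),
        h.tr_uniq _ _ _ _ (he (g, some (Quotient.mk st X))) hg⟩
  have hbs : e bs = o := h.tr_uniq 0 o _ _ (he bs) (h.tr_zero o hoD)
  refine ⟨J, e, hinj, fun x => ⟨hsurj x, ?_⟩, ?_, ?_⟩
  · rintro ⟨p, rfl⟩
    exact heD p
  · intro g x y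
    constructor
    · intro hxy
      obtain ⟨p, rfl⟩ := hsurj x (h.tr_dom _ _ _ hxy).1
      exact ⟨p, rfl, ((h2 g p y).1 hxy).symm⟩
    · rintro ⟨p, rfl, rfl⟩
      exact (h2 g p _).2 rfl
  · intro x
    rw [hbs]
    constructor
    · intro hx
      exact h.z_uniq _ _ hx ho
    · rintro rfl
      exact ho

/-- Levels in `N` and levels of lists of points. -/
theorem lvH_map_e {N : Type} (H : Sym → List N → Prop) {J : Type} (e : Pt J → N)
    (he : Function.Injective e)
    (htr : ∀ g x y, H (.Tr g) [x, y] ↔ ∃ p, e p = x ∧ e (sh g p) = y) (l : List (Pt J)) :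
    lvH H (l.map e) = lvl l := by
  unfold lvH lvl
  apply lv_congr
  intro c
  unfold LGH LG
  rw [List.pairwise_map]
  have hT : ∀ g (p p' : Pt J), H (.Tr g) [e p, e p'] ↔ p' = sh g p := by
    intro g p p'
    rw [htr]
    constructor
    · rintro ⟨q, hq, hq'⟩
      have := he hq
      subst this
      exact (he hq').symm
    · rintro rfl
      exact ⟨p, rfl, rfl⟩
  have key : ∀ p p' : Pt J, (∀ g < c, ¬ H (.Tr g) [e p, e p']) ↔
      (p.2 = p'.2 → c ≤ p.1 ^^^ p'.1) := by
    intro p p'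
    constructor
    · intro h hp
      by_contra hlt
      exact h (p.1 ^^^ p'.1) (not_le.1 hlt) ((hT _ _ _).2 (classD_xor.2 ⟨hp, rfl⟩))
    · intro h g hg hr
      obtain ⟨e1, e2⟩ := classD_xor.1 ((hT _ _ _).1 hr)
      have := h e1
      omega
  constructor
  · intro h
    exact h.imp (fun h => (key _ _).1 h)
  · intro h
    exact h.imp (fun h => (key _ _).2 h)

end Pool.Agent.Work.MP_ed0a9a_lc
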