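import Pool.Agent.Work.MP_ed0a9a_lc.Defs

/-!
# Module `StrU`: bookkeeping about structures given by relations indexed by symbols

* `relM_len`: by cases on the symbol and the list.
* `hd_strU`: unfold `hd`, `strU`, `mkStr`; `List.ofFn (fun t => l.get (t.cast _)) = l` when
  `l.length = a i` (`List.ofFn_get`, subst / `Fin.cast`).
* `HN_strU`: from `hd_strU`, `Sym.dec_code`, `ari_code` and `relM_len`.
* `dup_strU`: from `hd_strU`, `Sym.dec_code` (`ari ar i = ari ar (Sym.dec i).code`).
* `equiv_of_rel`: a bijection preserving the relations indexed by symbols, between two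
  structures satisfying `Dup`, is an isomorphism: `funMap'` is trivial (`Empty`), and for
  `map_rel'` a relation symbol is `⟨i, rfl⟩`, `RelMap ⟨i, rfl⟩ v ↔ hd i (List.ofFn v)`
  (`hd_ofFn`), then `Dup` and `List.map_ofFn`.
* `rel_of_equiv`: an isomorphism (or an embedding) preserves `HN`.
-/

namespace Pool.Agent.Work.MP_ed0a9a_lc

open FirstOrder FirstOrder.Language

theorem relM_len (P : Par) (J : Type) (s : Sym) (l : List (U P J)) (h : relM P J s l) :
    l.length = arity P.ar s := by
  unfold relM at h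
  split at h
  all_goals first
    | rfl
    | exact h.1
    | exact h.elim

theorem hd_ofFn (a : ℕ → ℕ) {N : Type} (S : (sig a).Structure N) (i : ℕ) (v : Fin (a i) → N) :
    hd a S i (List.ofFn v) ↔ S.RelMap (n := a i) ⟨i, rfl⟩ v := by
  unfold hd
  constructor
  · rintro ⟨h, hr⟩
    convert hr using 1
    funext t
    simp
  · intro hr
    refine ⟨List.length_ofFn, ?_⟩
    convert hr using 1
    funext t
    simp

private theorem strU_ofFn {N : Type} (l : List N) {n : ℕ} (h : l.length = n) :
    List.ofFn (fun t : Fin n => l.get (t.cast h.symm)) = l := by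
  subst h
  simp

theorem hd_strU (P : Par) (J : Type) (i : ℕ) (l : List (U P J)) :
    hd (ari P.ar) (strU P J) i l ↔ l.length = ari P.ar i ∧ relM P J (Sym.dec i) l := by
  unfold hd
  constructor
  · rintro ⟨h, hr⟩
    refine ⟨h, ?_⟩
    have h2 : relM P J (Sym.dec i)
      (List.ofFn (fun t : Fin (ari P.ar i) => l.get (t.cast h.symm))) := hr
    rwa [strU_ofFn l h] at h2
  · rintro ⟨h, hr⟩
    refine ⟨h, ?_⟩
    show relM P J (Sym.dec i)
      (List.ofFn (fun t : Fin (ari P.ar i) => l.get (t.cast h.symm)))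
    rwa [strU_ofFn l h]

theorem HN_strU (P : Par) (J : Type) : HN (strU P J) = relM P J := by
  funext s l
  apply propext
  unfold HN
  rw [hd_strU, Sym.dec_code, ari_code]
  exact ⟨fun h => h.2, fun h => ⟨relM_len P J s l h, h⟩⟩

theorem dup_strU (P : Par) (J : Type) : Dup (strU P J) := by
  intro i l
  rw [hd_strU, hd_strU, Sym.dec_code, ari_code]
  rfl

theorem equiv_of_rel {ar : ℕ → ℕ} {M N : Type} [SM : (sig (ari ar)).Structure M]
    [SN : (sig (ari ar)).Structure N] (hM : Dup SM) (hN : Dup SN) (e : M ≃ N)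
    (h : ∀ s l, HN SN s (l.map e) ↔ HN SM s l) :
    ∃ f : M ≃[sig (ari ar)] N, ∀ x, f x = e x := by
  refine ⟨{ toEquiv := e, map_fun' := ?_, map_rel' := ?_ }, fun x => rfl⟩
  · intro n f x
    exact f.elim
  · intro n r x
    obtain ⟨i, rfl⟩ := r
    show SN.RelMap (n := ari ar i) ⟨i, rfl⟩ (e ∘ x) ↔ SM.RelMap (n := ari ar i) ⟨i, rfl⟩ x
    rw [← hd_ofFn, ← hd_ofFn, hN i, hM i, ← List.map_ofFn]
    exact h (Sym.dec i) (List.ofFn x)

theorem rel_of_embedding {ar : ℕ → ℕ} {M N : Type} [SM : (sig (ari ar)).Structure M]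
    [SN : (sig (ari ar)).Structure N] (f : M ↪[sig (ari ar)] N) (s : Sym) (l : List M) :
    HN SN s (l.map f) ↔ HN SM s l := by
  unfold HN hd
  constructor
  · rintro ⟨h, hr⟩
    have h' : l.length = ari ar s.code := by simpa using h
    refine ⟨h', ?_⟩
    rw [← f.map_rel]
    convert hr using 1
    funext t
    simp
  · rintro ⟨h', hr⟩
    have h : (l.map f).length = ari ar s.code := by simpa using h'
    refine ⟨h, ?_⟩
    rw [← f.map_rel] at hr
    convert hr using 1
    funext t
    simp

end Pool.Agent.Work.MP_ed0a9a_lc
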