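import Pool.Agent.Work.MP_ed0a9a_lc.ClassD
import Pool.Agent.Work.MP_ed0a9a_lc.StrU

/-!
# Module `ClassU`: every model of the axioms is isomorphic to some `U P J`

Let `H` satisfy `Good`.  Take `J`, `e` from `classD`.  Define `E : U P J → N`:
`E (.d p) = e p`; `E (.t k hk x z)` := the unique `τ` with `ST k [τ]`, `P j [τ, e (x j)]` for all
`j : Fin (K+1)`, `hz H τ (e z)` (`t_ex`, `t_inj`; choose); `E (.w k hk x z z' h)` := the unique `w`
with `Wt [w, τ]`, `Wz [w, e z']`, `τ = E (.t k hk x z)`: it exists because `e z' ≠ e z`, so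
`¬ hz H τ (e z')` by `hz_uniq`, and `H .SD [e z']`, so by definition of `hz` there is such a `w`;
unique by `w_inj`.
`E` is injective: the sorts are disjoint (`GSort`); within a sort the coordinates determine the
element (`p_uniq`, `hz_uniq`, `wt_uniq`, `wz_uniq`, `t_uniq`, `classD`).
`E` is surjective: `cover`; for `τ ∈ ST k` take `x j` with `P j [τ, e (x j)]` (`p_ex`, `p_dom`),
`z` with `hz` (`hz_ex`); for `w ∈ SW` take `τ`, `z'` (`wt_ex`, `wz_ex`); `z' ≠ z` since
`hz H τ (e z)` says there is no `w` over `(τ, e z)`.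
Relations: by cases on the symbol (and with `len` on the length of the list):
`SD, SW, Z, ST, Tr, P, Wt, Wz` directly; `Q` by `GQ` with `missH` (`lvH_map_e`,
`List.map_ofFn`, `getD` of a mapped list) ; `R` by `GR` and `lvH_map_e` (a list with all entries
in `SD` is `(l'.map .d).map E`).
-/

namespace Pool.Agent.Work.MP_ed0a9a_lc

open FirstOrder FirstOrder.Language

private theorem sh_inj {J : Type} {g : ℕ} {p p' : Pt J} (h : sh g p = sh g p') : p = p' := by
  have h1 := congrArg Prod.fst h
  have h2 := congrArg Prod.snd h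
  simp only [sh] at h1 h2
  ext1
  · exact Nat.xor_left_injective h1
  · exact h2

theorem classU {N : Type} (P : Par) (H : Sym → List N → Prop) (h : Good H P) :
    ∃ (J : Type) (E : U P J ≃ N), ∀ s l, H s (l.map E) ↔ relM P J s l := by
  obtain ⟨J, e, he, hSD, hTr, hZ⟩ := classD H h.tr
  have hlv := lvH_map_e H e he hTr
  have eSD : ∀ p, H .SD [e p] := fun p => (hSD _).2 ⟨p, rfl⟩
  have T_ex : ∀ k (_ : k ∈ P.F) (x : Fin (P.K + 1) → Pt J) (z : Pt J),
      ∃ τ, H (.ST k) [τ] ∧ (∀ j : Fin (P.K + 1), H (.P j) [τ, e (x j)]) ∧ hz H τ (e z) :=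
    fun k hk x z => h.t.t_ex k hk (fun j => e (x j)) (e z) (fun j => eSD _) (eSD _)
  choose tt htt1 htt2 htt3 using T_ex
  have W_ex : ∀ k (hk : k ∈ P.F) (x : Fin (P.K + 1) → Pt J) (z z' : Pt J) (_ : z' ≠ z),
      ∃ w, H .Wt [w, tt k hk x z] ∧ H .Wz [w, e z'] := by
    intro k hk x z z' hne
    by_contra hno
    have h1 : hz H (tt k hk x z) (e z') := ⟨eSD _, hno⟩
    exact hne (he (h.t.hz_uniq _ _ _ ⟨k, hk, htt1 k hk x z⟩ h1 (htt3 k hk x z)))
  choose ww hww1 hww2 using W_ex
  have wSW : ∀ k hk x z z' hne, H .SW [ww k hk x z z' hne] :=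
    fun k hk x z z' hne => (h.pw.wt_dom _ _ (hww1 k hk x z z' hne)).1
  let E0 : U P J → N := fun u => match u with
    | .d p => e p
    | .t k hk x z => tt k hk x z
    | .w k hk x z z' hne => ww k hk x z z' hne
  -- equality of elements of the sorts `T k`
  have tt_inj : ∀ k hk x z k' hk' x' z', tt k hk x z = tt k' hk' x' z' →
      k = k' ∧ x = x' ∧ z = z' := by
    intro k hk x z k' hk' x' z' heq
    have hkk : k = k' := by
      by_contra hne
      have h1 := htt1 k hk x z
      rw [heq] at h1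
      exact h.sort.t_uniq k k' hne _ h1 (htt1 k' hk' x' z')
    refine ⟨hkk, ?_, ?_⟩
    · funext j
      have h1 := htt2 k hk x z j
      rw [heq] at h1
      exact he (h.pw.p_uniq _ _ _ _ h1 (htt2 k' hk' x' z' j))
    · have h1 := htt3 k hk x z
      rw [heq] at h1
      exact he (h.t.hz_uniq _ _ _ ⟨k', hk', htt1 k' hk' x' z'⟩ h1 (htt3 k' hk' x' z'))
  have E0_inj : Function.Injective E0 := by
    rintro (p | ⟨k, hk, x, z⟩ | ⟨k, hk, x, z, z', hne⟩) (p' | ⟨l, hl, y, t⟩ | ⟨l, hl, y, t, t', hne'⟩)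
      heq <;> simp only [E0] at heq
    · rw [he heq]
    · exact absurd (heq ▸ htt1 l hl y t) (h.sort.d_not_t l _ (eSD p))
    · exact absurd (heq ▸ wSW l hl y t t' hne') (h.sort.d_not_w _ (eSD p))
    · exact absurd (heq ▸ htt1 k hk x z) (h.sort.d_not_t k _ (eSD p'))
    · obtain ⟨rfl, rfl, rfl⟩ := tt_inj _ _ _ _ _ _ _ _ heq
      rfl
    · exact absurd (heq ▸ wSW l hl y t t' hne') (h.sort.t_not_w k _ (htt1 k hk x z))
    · exact absurd (heq ▸ wSW k hk x z z' hne) (h.sort.d_not_w _ (eSD p'))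
    · exact absurd (heq ▸ wSW k hk x z z' hne) (h.sort.t_not_w l _ (htt1 l hl y t))
    · have h1 := hww1 k hk x z z' hne
      have h2 := hww2 k hk x z z' hne
      rw [heq] at h1 h2
      obtain ⟨rfl, rfl, rfl⟩ := tt_inj _ _ _ _ _ _ _ _
        (h.pw.wt_uniq _ _ _ h1 (hww1 l hl y t t' hne'))
      have h3 := he (h.pw.wz_uniq _ _ _ h2 (hww2 k hl x z t' hne'))
      subst h3
      rfl
  have tt_surj : ∀ k (hk : k ∈ P.F) τ, H (.ST k) [τ] → ∃ x z, tt k hk x z = τ := by
    intro k hk τ hτ
    have h1 : ∀ j : Fin (P.K + 1), ∃ p, H (.P j) [τ, e p] := by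
      intro j
      obtain ⟨y, hy⟩ := h.pw.p_ex j.1 (Nat.lt_succ_iff.1 j.2) τ ⟨k, hk, hτ⟩
      obtain ⟨p, rfl⟩ := (hSD y).1 (h.pw.p_dom _ _ _ hy).2
      exact ⟨p, hy⟩
    choose x hx using h1
    obtain ⟨y, hy⟩ := h.t.hz_ex τ ⟨k, hk, hτ⟩
    obtain ⟨z, rfl⟩ := (hSD y).1 hy.1
    exact ⟨x, z, h.t.t_inj k hk (fun j => e (x j)) (e z) _ _ (htt1 k hk x z) hτ
      (htt2 k hk x z) hx (htt3 k hk x z) hy⟩
  have E0_surj : Function.Surjective E0 := by
    intro y
    rcases h.sort.cover y with hy | ⟨k, hk, hy⟩ | hy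
    · obtain ⟨p, hp⟩ := (hSD y).1 hy
      exact ⟨.d p, hp⟩
    · obtain ⟨x, z, hxz⟩ := tt_surj k hk y hy
      exact ⟨.t k hk x z, hxz⟩
    · obtain ⟨τ, hτ⟩ := h.pw.wt_ex y hy
      obtain ⟨-, k, hk, hτk⟩ := h.pw.wt_dom _ _ hτ
      obtain ⟨x, z, rfl⟩ := tt_surj k hk τ hτk
      obtain ⟨y', hy'⟩ := h.pw.wz_ex y hy
      obtain ⟨z', rfl⟩ := (hSD y').1 (h.pw.wz_dom _ _ hy').2
      have hne : z' ≠ z := by
        rintro rfl
        exact (htt3 k hk x z').2 ⟨y, hτ, hy'⟩
      exact ⟨.w k hk x z z' hne, h.pw.w_inj _ _ _ _ (hww1 k hk x z z' hne)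
        (hww2 k hk x z z' hne) hτ hy'⟩
  let E : U P J ≃ N := Equiv.ofBijective E0 ⟨E0_inj, E0_surj⟩
  have E_d : ∀ p, E (.d p) = e p := fun p => rfl
  have E_t : ∀ k hk x z, E (.t k hk x z) = tt k hk x z := fun k hk x z => rfl
  have E_w : ∀ k hk x z z' hne, E (.w k hk x z z' hne) = ww k hk x z z' hne :=
    fun k hk x z z' hne => rfl
  -- characterization of the relations
  have cSD : ∀ u, H .SD [E u] ↔ ∃ p, u = .d p := by
    intro u
    rw [hSD]
    constructor
    · rintro ⟨p, hp⟩
      exact ⟨p, E.injective (hp.symm ▸ (E_d p).symm ▸ rfl)⟩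
    · rintro ⟨p, rfl⟩
      exact ⟨p, rfl⟩
  have cST : ∀ k u, H (.ST k) [E u] ↔ ∃ hk x z, u = .t k hk x z := by
    intro k u
    constructor
    · intro hu
      have hk : k ∈ P.F := by
        by_contra hk
        exact h.sort.t_F k hk _ hu
      obtain ⟨x, z, hxz⟩ := tt_surj k hk _ hu
      exact ⟨hk, x, z, E.injective hxz.symm⟩
    · rintro ⟨hk, x, z, rfl⟩
      exact htt1 k hk x z
  have cSW : ∀ u, H .SW [E u] ↔ ∃ k hk x z z' hne, u = .w k hk x z z' hne := by
    intro u
    constructor
    · intro hu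
      rcases u with p | ⟨k, hk, x, z⟩ | ⟨k, hk, x, z, z', hne⟩
      · exact absurd hu (h.sort.d_not_w _ (eSD p))
      · exact absurd hu (h.sort.t_not_w k _ (htt1 k hk x z))
      · exact ⟨k, hk, x, z, z', hne, rfl⟩
    · rintro ⟨k, hk, x, z, z', hne, rfl⟩
      exact wSW k hk x z z' hne
  have cZ : ∀ u, H .Z [E u] ↔ u = .d bs := by
    intro u
    rw [hZ]
    constructor
    · intro hu; exact E.injective hu
    · rintro rfl; rfl
  have cTr : ∀ g u u', H (.Tr g) [E u, E u'] ↔ ∃ p, u = .d p ∧ u' = .d (sh g p) := by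
    intro g u u'
    rw [hTr]
    constructor
    · rintro ⟨p, hp, hp'⟩
      exact ⟨p, E.injective hp.symm, E.injective hp'.symm⟩
    · rintro ⟨p, rfl, rfl⟩
      exact ⟨p, rfl, rfl⟩
  have cP : ∀ j u u', H (.P j) [E u, E u'] ↔
      ∃ k hk x z, ∃ hj : j < P.K + 1, u = .t k hk x z ∧ u' = .d (x ⟨j, hj⟩) := by
    intro j u u'
    constructor
    · intro hu
      obtain ⟨⟨k, hk, h1⟩, h2⟩ := h.pw.p_dom _ _ _ hu
      have hj : j < P.K + 1 := by
        by_contra hj
        exact h.pw.p_big j (by omega) _ _ hu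
      obtain ⟨hk', x, z, rfl⟩ := (cST k u).1 h1
      exact ⟨k, hk', x, z, hj, rfl, E.injective (h.pw.p_uniq _ _ _ _ hu (htt2 k hk' x z ⟨j, hj⟩))⟩
    · rintro ⟨k, hk, x, z, hj, rfl, rfl⟩
      exact htt2 k hk x z ⟨j, hj⟩
  have cWt : ∀ u u', H .Wt [E u, E u'] ↔ ∃ k hk x z z' hne, u = .w k hk x z z' hne ∧
      u' = .t k hk x z := by
    intro u u'
    constructor
    · intro hu
      obtain ⟨h1, h2⟩ := h.pw.wt_dom _ _ hu
      obtain ⟨k, hk, x, z, z', hne, rfl⟩ := (cSW u).1 h1
      exact ⟨k, hk, x, z, z', hne, rfl,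
        E.injective (h.pw.wt_uniq _ _ _ hu (hww1 k hk x z z' hne))⟩
    · rintro ⟨k, hk, x, z, z', hne, rfl, rfl⟩
      exact hww1 k hk x z z' hne
  have cWz : ∀ u u', H .Wz [E u, E u'] ↔ ∃ k hk x z z' hne, u = .w k hk x z z' hne ∧
      u' = .d z' := by
    intro u u'
    constructor
    · intro hu
      obtain ⟨h1, h2⟩ := h.pw.wz_dom _ _ hu
      obtain ⟨k, hk, x, z, z', hne, rfl⟩ := (cSW u).1 h1
      exact ⟨k, hk, x, z, z', hne, rfl,
        E.injective (h.pw.wz_uniq _ _ _ hu (hww2 k hk x z z' hne))⟩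
    · rintro ⟨k, hk, x, z, z', hne, rfl, rfl⟩
      exact hww2 k hk x z z' hne
  have chz : ∀ k hk x z y, hz H (tt k hk x z) y ↔ y = e z := by
    intro k hk x z y
    constructor
    · intro hy
      exact h.t.hz_uniq _ _ _ ⟨k, hk, htt1 k hk x z⟩ hy (htt3 k hk x z)
    · rintro rfl
      exact htt3 k hk x z
  -- missing directions
  have hmiss : ∀ k n (x : Fin (P.K + 1) → Pt J) z,
      missH H P k n (e bs) (fun j => e (x j)) (e z) ↔ miss P k x z n := by
    intro k n x z
    unfold missH miss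
    have h1 : (e bs :: List.ofFn (fun j => e (x j))) = (bs :: List.ofFn x).map e := by
      rw [List.map_cons, List.map_ofFn]
      rfl
    have h2 : ((bs :: List.ofFn x).map e).getD ((Nat.unpair n).2 % (k + 1)) (e bs) =
        e ((bs :: List.ofFn x).getD ((Nat.unpair n).2 % (k + 1)) bs) := by
      rw [List.getD_map]
    rw [h1, h2, ← List.map_take, hlv]
    have h3 : H (.Tr ((Nat.unpair n).2 / (k + 1)))
        [e ((bs :: List.ofFn x).getD ((Nat.unpair n).2 % (k + 1)) bs), e z] ↔
        z = pos k x (Nat.unpair n).2 := by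
      rw [hTr]
      constructor
      · rintro ⟨p, hp, hp'⟩
        rw [he hp] at hp'
        exact (he hp').symm
      · intro hz'
        exact ⟨_, rfl, by rw [hz']; rfl⟩
    rw [h3]
  have cQ : ∀ n u u', H (.Q n) [E u, E u'] ↔ relM P J (.Q n) [u, u'] := by
    intro n u u'
    rw [h.q]
    constructor
    · rintro ⟨k, hk, x, d', z, o, h1, h2, h3, h4, h5, h6, h7, h8, h9, h10⟩
      obtain ⟨hk1, x1, z1, rfl⟩ := (cST k u).1 h1
      obtain ⟨hk2, x2, z2, rfl⟩ := (cST k u').1 h2
      have hx : x = fun j => e (x1 j) := by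
        funext j
        exact h.pw.p_uniq _ _ _ _ (h3 j) (htt2 k hk1 x1 z1 j)
      subst hx
      have hzz : z = e z1 := (chz k hk1 x1 z1 z).1 h7
      subst hzz
      have hz2 : e z1 = e z2 := (chz k hk2 x2 z2 _).1 h8
      have ho : o = e bs := (hZ o).1 h9
      subst ho
      have hd : d' = e (x2 (Fin.last P.K)) :=
        h.pw.p_uniq _ _ _ _ h5 (htt2 k hk2 x2 z2 (Fin.last P.K))
      subst hd
      simp only [relM]
      refine ⟨trivial, he hz2, ?_, ?_, ?_⟩
      · intro j hj
        exact (he (h.pw.p_uniq _ _ _ _ (h4 j hj) (htt2 k hk2 x2 z2 j))).symm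
      · rw [hTr] at h6
        obtain ⟨p, hp, hp'⟩ := h6
        rw [he hp] at hp'
        exact (he hp').symm
      · intro hm
        exact h10 ((hmiss k n x1 z1).2 hm)
    · intro hr
      rcases u with p | ⟨k, hk, x, z⟩ | ⟨k, hk, x, z, z', hne⟩
      · simp [relM] at hr
      · rcases u' with p | ⟨k', hk', x', z'⟩ | ⟨k', hk', x', z', z'', hne⟩
        · simp [relM] at hr
        · simp only [relM] at hr
          obtain ⟨rfl, rfl, h3, h4, h5⟩ := hr
          refine ⟨k, hk, fun j => e (x j), e (x' (Fin.last P.K)), e z, e bs, htt1 k hk x z,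
            htt1 k hk' x' z, htt2 k hk x z, ?_, htt2 k hk' x' z (Fin.last P.K), ?_,
            htt3 k hk x z, htt3 k hk' x' z, (hZ _).2 rfl, ?_⟩
          · intro j hj
            have := htt2 k hk' x' z j
            rw [h3 j hj] at this
            exact this
          · rw [hTr]
            exact ⟨_, rfl, by rw [h4]⟩
          · intro hm
            exact h5 ((hmiss k n x z).1 hm)
        · simp [relM] at hr
      · simp [relM] at hr
  have cR : ∀ e' j (l : List (U P J)), H (.R e' j) (l.map E) ↔ relM P J (.R e' j) l := by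
    intro e' j l
    constructor
    · intro hl
      have hlen : l.length = P.ar e' := by
        have := h.sort.len _ _ hl
        simpa [arity] using this
      rw [h.r e' j _ (by simpa using hlen)] at hl
      obtain ⟨h1, o, ho, t, ht, hle⟩ := hl
      have ho' : o = e bs := (hZ o).1 ho
      subst ho'
      have h2 : ∀ u ∈ l, ∃ p, u = U.d p := fun u hu =>
        (cSD u).1 (h1 _ (List.mem_map_of_mem hu))
      have h3 : ∃ l' : List (Pt J), l = l'.map U.d := by
        clear hle h1 hlen
        induction l with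
        | nil => exact ⟨[], rfl⟩
        | cons a l ih =>
          obtain ⟨p, hp⟩ := h2 a (by simp)
          obtain ⟨l', hl'⟩ := ih (fun u hu => h2 u (by simp [hu]))
          exact ⟨p :: l', by rw [hp, hl']; rfl⟩
      obtain ⟨l', rfl⟩ := h3
      refine ⟨hlen, l', rfl, t, ht, ?_⟩
      have h4 : (e bs :: (l'.map U.d).map E) = (bs :: l').map e := by
        rw [List.map_map]
        rfl
      rw [h4, hlv] at hle
      exact hle
    · rintro ⟨hlen, l', rfl, t, ht, hle⟩
      rw [h.r e' j _ (by simpa using hlen)]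
      refine ⟨?_, e bs, (hZ _).2 rfl, t, ht, ?_⟩
      · intro x hx
        simp only [List.map_map, List.mem_map] at hx
        obtain ⟨p, -, rfl⟩ := hx
        exact eSD p
      · have h4 : (e bs :: (l'.map U.d).map E) = (bs :: l').map e := by
          rw [List.map_map]
          rfl
        rw [h4, hlv]
        exact hle
  refine ⟨J, E, ?_⟩
  intro s l
  by_cases hR : ∃ e' j, s = .R e' j
  · obtain ⟨e', j, rfl⟩ := hR
    exact cR e' j l
  · by_cases hlen : l.length = arity P.ar s
    · cases s with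
      | SD =>
        obtain ⟨u, rfl⟩ := List.length_eq_one_iff.1 hlen
        rw [List.map_singleton, cSD]
        rcases u with p | ⟨k, hk, x, z⟩ | ⟨k, hk, x, z, z', hne⟩ <;> simp [relM]
      | SW =>
        obtain ⟨u, rfl⟩ := List.length_eq_one_iff.1 hlen
        rw [List.map_singleton, cSW]
        rcases u with p | ⟨k, hk, x, z⟩ | ⟨k, hk, x, z, z', hne⟩
        · simp [relM]
        · simp [relM]
        · simp only [relM, iff_true]
          exact ⟨k, hk, x, z, z', hne, rfl⟩
      | Z =>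
        obtain ⟨u, rfl⟩ := List.length_eq_one_iff.1 hlen
        rw [List.map_singleton, cZ]
        rcases u with p | ⟨k, hk, x, z⟩ | ⟨k, hk, x, z, z', hne⟩ <;> simp [relM]
      | ST k' =>
        obtain ⟨u, rfl⟩ := List.length_eq_one_iff.1 hlen
        rw [List.map_singleton, cST]
        rcases u with p | ⟨k, hk, x, z⟩ | ⟨k, hk, x, z, z', hne⟩
        · simp [relM]
        · simp only [relM]
          constructor
          · rintro ⟨_, _, _, h1⟩
            injection h1 with h1
            exact h1.symm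
          · rintro rfl
            exact ⟨hk, x, z, rfl⟩
        · simp [relM]
      | Tr g =>
        obtain ⟨u, u', rfl⟩ := List.length_eq_two.1 hlen
        rw [List.map_cons, List.map_singleton, cTr]
        rcases u with p | ⟨k, hk, x, z⟩ | ⟨k, hk, x, z, z', hne⟩ <;>
          rcases u' with p' | ⟨l, hl, y, t⟩ | ⟨l, hl, y, t, t', hne'⟩ <;> simp [relM]
      | P j =>
        obtain ⟨u, u', rfl⟩ := List.length_eq_two.1 hlen
        rw [List.map_cons, List.map_singleton, cP]
        rcases u with p | ⟨k, hk, x, z⟩ | ⟨k, hk, x, z, z', hne⟩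
        · simp [relM]
        · rcases u' with p' | ⟨l, hl, y, t⟩ | ⟨l, hl, y, t, t', hne'⟩
          · simp only [relM]
            constructor
            · rintro ⟨_, _, _, _, hj, h1, h2⟩
              injection h1 with h1 h3 h4
              injection h2 with h2
              subst h3
              exact ⟨hj, h2.symm⟩
            · rintro ⟨hj, rfl⟩
              exact ⟨k, hk, x, z, hj, rfl, rfl⟩
          · simp [relM]
          · simp [relM]
        · simp [relM]
      | Wt =>
        obtain ⟨u, u', rfl⟩ := List.length_eq_two.1 hlen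
        rw [List.map_cons, List.map_singleton, cWt]
        rcases u with p | ⟨k, hk, x, z⟩ | ⟨k, hk, x, z, z', hne⟩
        · simp [relM]
        · simp [relM]
        · rcases u' with p' | ⟨l, hl, y, t⟩ | ⟨l, hl, y, t, t', hne'⟩
          · simp [relM]
          · simp only [relM]
            constructor
            · rintro ⟨_, _, _, _, _, _, h1, h2⟩
              injection h1 with h1 h3 h4 h5
              injection h2 with h2 h6 h7
              subst h1 h3 h4 h2 h6 h7
              exact ⟨rfl, rfl, rfl⟩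
            · rintro ⟨rfl, rfl, rfl⟩
              exact ⟨k, hk, x, z, z', hne, rfl, rfl⟩
          · simp [relM]
      | Wz =>
        obtain ⟨u, u', rfl⟩ := List.length_eq_two.1 hlen
        rw [List.map_cons, List.map_singleton, cWz]
        rcases u with p | ⟨k, hk, x, z⟩ | ⟨k, hk, x, z, z', hne⟩
        · simp [relM]
        · simp [relM]
        · rcases u' with p' | ⟨l, hl, y, t⟩ | ⟨l, hl, y, t, t', hne'⟩
          · simp only [relM]
            constructor
            · rintro ⟨_, _, _, _, _, _, h1, h2⟩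
              injection h1 with h1 h3 h4 h5
              injection h2 with h2
              subst h5 h2
              rfl
            · rintro rfl
              exact ⟨k, hk, x, z, z', hne, rfl, rfl⟩
          · simp [relM]
          · simp [relM]
      | Q n =>
        obtain ⟨u, u', rfl⟩ := List.length_eq_two.1 hlen
        rw [List.map_cons, List.map_singleton]
        exact cQ n u u'
      | R e' j => exact absurd ⟨e', j, rfl⟩ hR
    · constructor
      · intro hl
        have := h.sort.len _ _ hl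
        rw [List.length_map] at this
        exact absurd this hlen
      · intro hl
        exact absurd (relM_len P J s l hl) hlen

theorem classify {N : Type} (P : Par) [S : (sig (ari P.ar)).Structure N]
    (h : Good (HN S) P) (hd : Dup S) : ∃ J : Type, Nonempty (U P J ≃[sig (ari P.ar)] N) := by
  obtain ⟨J, E, hE⟩ := classU P (HN S) h
  obtain ⟨f, -⟩ := equiv_of_rel (dup_strU P J) hd E (fun s l => by rw [HN_strU]; exact hE s l)
  exact ⟨J, ⟨f⟩⟩

end Pool.Agent.Work.MP_ed0a9a_lc
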