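import Pool.Agent.Work.MP_ed0a9a_lc.Defs

/-!
# The computable copy of `U P (Jt i)`: definitions

Points are coded by pairs `(g, r)`, `r = 0` for the base component, `r = j + 1` for the generic
component number `j`.
-/

namespace Pool.Agent.Work.MP_ed0a9a_lc

/-- Codes of points. -/
abbrev CP := ℕ × ℕ

/-- `(base point, first k visible coordinates)`. -/
def yl (k : ℕ) (v : List CP) : List CP := ((0, 0) :: v).take (k + 1)

/-- All points of the list are in different components. -/
def indep (l : List CP) : Bool := decide (l.Pairwise (fun p p' => p.2 ≠ p'.2))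

/-- level `≥ c` -/
def LGn (l : List CP) (c : ℕ) : Prop := l.Pairwise (fun p p' => p.2 = p'.2 → c ≤ p.1 ^^^ p'.1)

instance (l : List CP) : DecidablePred (LGn l) := fun c => by unfold LGn; infer_instance

/-- The level of a dependent list. -/
def lvn (l : List CP) : ℕ := Nat.findGreatest (LGn l) (l.map Prod.fst).sum

/-- translation -/
def shn (g : ℕ) (p : CP) : CP := (p.1 ^^^ g, p.2)

/-- The `q`-th position relative to `v`. -/
def posn (k : ℕ) (v : List CP) (q : ℕ) : CP :=
  shn (q / (k + 1)) (((0, 0) :: v).getD (q % (k + 1)) (0, 0))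

/-- The least component not among those of `l`. -/
def rgen (l : List CP) : ℕ :=
  ((List.range (l.length + 1)).find? (fun r => !(l.map Prod.snd).contains r)).getD 0

section

variable (msk : ℕ → ℕ → ℕ)

/-- Last change of `msk q` up to time `t`. -/
def lc (q : ℕ) : ℕ → ℕ
  | 0 => 0
  | t + 1 => if msk q (t + 1) = msk q t then lc q t else t + 1

/-- Version `(q, s)` is discarded at time `t`. -/
def disc (q s t : ℕ) : Bool :=
  decide (lc msk q s = s) && decide (s < t) && decide (lc msk q t = t) &&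
    decide (lc msk q (t - 1) = s)

/-- The visible coordinate `d` (the last one). -/
def dl (K : ℕ) (v : List CP) : CP := v.getD K (0, 0)

/-- `z` is the garbage label of the (discarded) element `(q, s)` over `v`, for the sort `T k`. -/
def isGarb (K k : ℕ) (v : List CP) (q s : ℕ) (z : CP) : Bool :=
  decide (z.2 = rgen (yl k v)) &&
  decide ((Nat.unpair (Nat.unpair z.1).1) = (q, s)) &&
  decide ((Nat.unpair (Nat.unpair z.1).2).1 = (dl K v).1 &&& msk q s) &&
  disc msk q s (Nat.unpair (Nat.unpair z.1).2).2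

/-- `z` is a garbage label, taken over `v` by a discarded element. -/
def old (K k : ℕ) (v : List CP) (z : CP) : Bool :=
  isGarb msk K k v (Nat.unpair (Nat.unpair z.1).1).1 (Nat.unpair (Nat.unpair z.1).1).2 z &&
  decide ((dl K v).1 < (Nat.unpair (Nat.unpair z.1).2).2)

/-- Codes of elements of the sorts `T k`: `(k, v, z, 0)` (plain element with hidden coordinate
`z`) or `(k, v, (q, s), 1)` (version `s` of the element at position `q`). -/
abbrev Tc := ℕ × List CP × CP × ℕ

/-- Components allowed in the model number `i`. -/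
noncomputable def leI (i : ℕ∞) (r : ℕ) : Bool := by
  classical exact decide ((r : ℕ∞) ≤ i)

/-- The valid codes of elements of the sorts `T k`. -/
noncomputable def okT (F : Finset ℕ) (K : ℕ) (i : ℕ∞) (c : Tc) : Bool :=
  decide (c.1 ∈ F) && decide (c.2.1.length = K + 1) && c.2.1.all (fun p => leI i p.2) &&
  (if indep (yl c.1 c.2.1) then
    (decide (c.2.2.2 = 0) && leI i c.2.2.1.2 &&
      !((yl c.1 c.2.1).map Prod.snd).contains c.2.2.1.2 &&
      !old msk K c.1 c.2.1 c.2.2.1) ||
    (decide (c.2.2.2 = 1) && decide (lc msk c.2.2.1.1 c.2.2.1.2 = c.2.2.1.2) &&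
      decide (lc msk c.2.2.1.1 (max c.2.2.1.2 (dl K c.2.1).1) = c.2.2.1.2))
  else decide (c.2.2.2 = 0) && leI i c.2.2.1.2)

/-- Direction `n` is missing over `(v, z)`, `v` dependent. -/
def missD (k : ℕ) (v : List CP) (z : CP) (n : ℕ) : Bool :=
  decide (z = posn k v (Nat.unpair n).2) &&
  (msk (Nat.unpair n).2 (lvn (yl k v))).testBit n

/-- The links `Q n` between codes. -/
def qrel (K n : ℕ) (c c' : Tc) : Bool :=
  decide (c.1 = c'.1) && decide (c'.2.1.take K = c.2.1.take K) &&
  decide (dl K c'.2.1 = shn (2 ^ n) (dl K c.2.1)) &&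
  (if indep (yl c.1 c.2.1) then
    (if c.2.2.2 = 0 then
      (if c'.2.2.2 = 0 then decide (c.2.2.1 = c'.2.2.1)
        else isGarb msk K c.1 c'.2.1 c'.2.2.1.1 c'.2.2.1.2 c.2.2.1)
      else
      (if c'.2.2.2 = 0 then isGarb msk K c.1 c.2.1 c.2.2.1.1 c.2.2.1.2 c'.2.2.1
        else decide (c.2.2.1 = c'.2.2.1) && !(msk c.2.2.1.1 c.2.2.1.2).testBit n))
  else decide (c.2.2.1 = c'.2.2.1) && !missD msk c.1 c.2.1 c.2.2.1 n)

/-- Codes of elements of the sort `W`: `(c, z', e)` with `e = 0` in general, and `e` the time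
at which `c` is discarded if `z'` is the position of `c`. -/
noncomputable def okW (F : Finset ℕ) (K : ℕ) (i : ℕ∞) (c : Tc) (z' : CP) (e : ℕ) : Bool :=
  okT msk F K i c && leI i z'.2 &&
  (if c.2.2.2 = 0 then decide (e = 0) && !decide (z' = c.2.2.1)
   else if z' = posn c.1 c.2.1 c.2.2.1.1 then disc msk c.2.2.1.1 c.2.2.1.2 e
   else decide (e = 0) && !isGarb msk K c.1 c.2.1 c.2.2.1.1 c.2.2.1.2 z')

open Classical in
/-- The hidden coordinate of a code. -/
noncomputable def lab (K : ℕ) (c : Tc) : CP :=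
  if c.2.2.2 = 0 then c.2.2.1
  else if h : ∃ t, disc msk c.2.2.1.1 c.2.2.1.2 t = true then
    (Nat.pair (Nat.pair c.2.2.1.1 c.2.2.1.2)
      (Nat.pair ((dl K c.2.1).1 &&& msk c.2.2.1.1 c.2.2.1.2) (Nat.find h)), rgen (yl c.1 c.2.1))
  else posn c.1 c.2.1 c.2.2.1.1

end

end Pool.Agent.Work.MP_ed0a9a_lc
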