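import Pool.Agent.Work.MP_ed0a9a_lc.CopyLc
import Pool.Agent.Work.MP_ed0a9a_lc.Lvl

/-!
# Module `CopyLab`: the hidden coordinate is a bijection over each visible tuple

Fix the sort `k ∈ P.F`, `(k : ℕ∞) ≠ i`, and the list `v` of visible coordinates, of length
`P.K + 1`, with components `≤ i`.  If `yl k v` is dependent everything is trivial.  Let it be
independent, so `k ≤ i` (`le_of_indep`), `k < i`, `leI i (k + 1)`.
* `posn_comp`: `(posn k v q).2 ∈ (yl k v).map Prod.snd`; `posn_inj`: injective in `q`: the
  components of the elements of `yl k v` are different, so `q % (k+1)` and then `q / (k + 1)` are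
  determined (xor is cancellative); `posn_surj`: every `z` with `z.2 ∈ (yl k v).map Prod.snd` is
  `posn k v q` for some `q` (`q = a + (k + 1) * (z.1 ^^^ y_a.1)`).
* `isGarb_iff`: `isGarb … q s z` iff `∃ t, disc msk q s t ∧ z = (pair (pair q s) (pair π t), rgen)`
  with `π = (dl K v).1 &&& msk q s`.
* `lab_le`: `rgen (yl k v) ≤ k + 1 ≤ i` (`rgen_le`, `length_yl`); positions have components
  among those of `yl k v`, `≤ i`.
* `lab_inj`: three types of labels: plain `z` (component not among those of `yl k v`, and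
  not `old`), garbage labels (component `rgen`, not among those of `yl`), positions
  (component among those of `yl`).  Garbage labels determine `(q, s)`; a garbage label of a valid
  version `(q, s)` is `old` (`disc q s t`, `d < t` by `lc_max_iff`).  A position determines `q`;
  and for one `q` at most one `s` is never discarded (`disc_unique`-like: if `s < s'` are both
  change times then `s` is discarded: `lc_eq_iff` with `u = s'`).
* `lab_surj`: `z` with component among those of `yl`: `z = posn q`; `s :=` the last change of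
  `msk q` (`P.msk_lim`: `lc msk q t₀`), never discarded.  Otherwise, if not `old`: plain.  If
  `old`: version `(q, s)` read off from `z`, valid since `d < t` (`lc_max_iff`,
  `disc_unique`), and its label is `z`.
-/

namespace Pool.Agent.Work.MP_ed0a9a_lc

theorem posn_comp (k : ℕ) (v : List CP) (q : ℕ) (h : k ≤ v.length) :
    (posn k v q).2 ∈ (yl k v).map Prod.snd := by
  have hq : q % (k + 1) < k + 1 := Nat.mod_lt _ (Nat.succ_pos k)
  have hlen : q % (k + 1) < (((0, 0) : CP) :: v).length := by simp; omega
  have e : (((0, 0) : CP) :: v).getD (q % (k + 1)) (0, 0) = (((0, 0) : CP) :: v)[q % (k + 1)] :=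
    List.getD_eq_getElem _ _ hlen
  have hl2 : q % (k + 1) < (yl k v).length := by rw [length_yl k v h]; exact hq
  have h3 : (yl k v)[q % (k + 1)] = (((0, 0) : CP) :: v)[q % (k + 1)] := by
    simp only [yl, List.getElem_take]
  simp only [posn, shn]
  rw [e, ← h3]
  exact List.mem_map_of_mem (List.getElem_mem hl2)

private theorem posn_eq (k : ℕ) (v : List CP) (q : ℕ) (h : k ≤ v.length) (h' : q % (k + 1) < (yl k v).length) :
    posn k v q = ((yl k v)[q % (k + 1)].1 ^^^ (q / (k + 1)), (yl k v)[q % (k + 1)].2) := by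
  have hlen : q % (k + 1) < (((0, 0) : CP) :: v).length := by
    have : q % (k + 1) < k + 1 := Nat.mod_lt _ (Nat.succ_pos k)
    simp; omega
  have e : (((0, 0) : CP) :: v).getD (q % (k + 1)) (0, 0) = (((0, 0) : CP) :: v)[q % (k + 1)] :=
    List.getD_eq_getElem _ _ hlen
  have h3 : (yl k v)[q % (k + 1)] = (((0, 0) : CP) :: v)[q % (k + 1)] := by
    simp only [yl, List.getElem_take]
  simp only [posn, shn]
  rw [e, ← h3]

theorem posn_inj (k : ℕ) (v : List CP) (h : k ≤ v.length) (hi : indep (yl k v) = true)
    (q q' : ℕ) (he : posn k v q = posn k v q') : q = q' := by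
  have hl := length_yl k v h
  have hq : q % (k + 1) < (yl k v).length := by rw [hl]; exact Nat.mod_lt _ (Nat.succ_pos k)
  have hq' : q' % (k + 1) < (yl k v).length := by rw [hl]; exact Nat.mod_lt _ (Nat.succ_pos k)
  rw [posn_eq k v q h hq, posn_eq k v q' h hq'] at he
  have h2 := congrArg Prod.snd he
  have h1 := congrArg Prod.fst he
  simp only at h1 h2
  rw [indep_iff] at hi
  have hmod : q % (k + 1) = q' % (k + 1) := by
    have hq1 : q % (k + 1) < ((yl k v).map Prod.snd).length := by simpa using hq
    have hq1' : q' % (k + 1) < ((yl k v).map Prod.snd).length := by simpa using hq'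
    refine (List.Nodup.getElem_inj_iff hi (hi := hq1) (hj := hq1')).1 ?_
    simpa using h2
  have hdiv : q / (k + 1) = q' / (k + 1) := by
    have h1' : (yl k v)[q % (k + 1)].1 ^^^ (q / (k + 1)) =
        (yl k v)[q % (k + 1)].1 ^^^ (q' / (k + 1)) := by
      rw [h1]
      congr 2
      simp only [hmod]
    exact Nat.xor_right_injective h1'
  rw [← Nat.div_add_mod q (k + 1), ← Nat.div_add_mod q' (k + 1), hmod, hdiv]

theorem posn_surj (k : ℕ) (v : List CP) (h : k ≤ v.length) (z : CP)
    (hz : z.2 ∈ (yl k v).map Prod.snd) : ∃ q, posn k v q = z := by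
  rw [List.mem_map] at hz
  obtain ⟨y, hy, hyz⟩ := hz
  obtain ⟨a, ha, rfl⟩ := List.mem_iff_getElem.1 hy
  have ha' : a < k + 1 := by rwa [length_yl k v h] at ha
  refine ⟨a + (k + 1) * (z.1 ^^^ (yl k v)[a].1), ?_⟩
  have hm : (a + (k + 1) * (z.1 ^^^ (yl k v)[a].1)) % (k + 1) = a := by
    rw [Nat.add_mul_mod_self_left, Nat.mod_eq_of_lt ha']
  have hd : (a + (k + 1) * (z.1 ^^^ (yl k v)[a].1)) / (k + 1) = (z.1 ^^^ (yl k v)[a].1) := by
    rw [Nat.add_mul_div_left _ _ (Nat.succ_pos k), Nat.div_eq_of_lt ha', zero_add]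
  rw [posn_eq k v _ h (by rw [hm]; exact ha)]
  simp only [hm, hd]
  ext
  · have : ∀ x y : ℕ, x ^^^ (y ^^^ x) = y := by
      intro x y
      rw [Nat.xor_comm y x, ← Nat.xor_assoc, Nat.xor_self, Nat.zero_xor]
    exact this _ _
  · exact hyz

theorem isGarb_iff (msk : ℕ → ℕ → ℕ) (K k : ℕ) (v : List CP) (q s : ℕ) (z : CP) :
    isGarb msk K k v q s z = true ↔ ∃ t, disc msk q s t = true ∧
      z = (Nat.pair (Nat.pair q s) (Nat.pair ((dl K v).1 &&& msk q s) t), rgen (yl k v)) := by
  simp only [isGarb, Bool.and_eq_true, decide_eq_true_eq]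
  constructor
  · rintro ⟨⟨⟨h1, h2⟩, h3⟩, h4⟩
    refine ⟨_, h4, ?_⟩
    ext
    · simp only
      have e1 : Nat.pair q s = (Nat.unpair z.1).1 := by
        rw [← Nat.pair_unpair (Nat.unpair z.1).1, h2]
      have e2 : Nat.pair ((dl K v).1 &&& msk q s) (Nat.unpair (Nat.unpair z.1).2).2 =
          (Nat.unpair z.1).2 := by
        rw [← h3, Nat.pair_unpair]
      rw [e1, e2, Nat.pair_unpair]
    · exact h1
  · rintro ⟨t, ht, rfl⟩
    simp [ht]

/-- The label of a discarded version. -/
theorem lab_disc (msk : ℕ → ℕ → ℕ) (K k : ℕ) (v : List CP) (q s t : ℕ)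
    (h : disc msk q s t = true) : lab msk K (k, v, (q, s), 1) =
      (Nat.pair (Nat.pair q s) (Nat.pair ((dl K v).1 &&& msk q s) t), rgen (yl k v)) := by
  classical
  have hex : ∃ t, disc msk q s t = true := ⟨t, h⟩
  unfold lab
  rw [if_neg (by simp), dif_pos hex]
  have : Nat.find hex = t := disc_unique msk q s _ _ (Nat.find_spec hex) h
  simp only
  congr 3

/-- The label of a version that is never discarded. -/
theorem lab_pos (msk : ℕ → ℕ → ℕ) (K k : ℕ) (v : List CP) (q s : ℕ)
    (h : ∀ t, disc msk q s t = false) : lab msk K (k, v, (q, s), 1) = posn k v q := by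
  have hex : ¬ ∃ t, disc msk q s t = true := by
    rintro ⟨t, ht⟩
    rw [h t] at ht
    exact absurd ht (by simp)
  unfold lab
  rw [if_neg (by simp), dif_neg hex]

private theorem lab_plain (msk : ℕ → ℕ → ℕ) (K k : ℕ) (v : List CP) (z : CP) :
    lab msk K (k, v, z, 0) = z := by
  unfold lab
  rw [if_pos rfl]

/-- The cases of a valid code. -/
private theorem okT_cases (msk : ℕ → ℕ → ℕ) (F : Finset ℕ) (K : ℕ) (i : ℕ∞) (k : ℕ) (v : List CP)
    (z : CP) (b : ℕ) :
    okT msk F K i (k, v, z, b) = true ↔
      (k ∈ F ∧ v.length = K + 1 ∧ (∀ p ∈ v, leI i p.2 = true)) ∧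
      ((indep (yl k v) = true ∧ b = 0 ∧ leI i z.2 = true ∧ z.2 ∉ (yl k v).map Prod.snd ∧
          old msk K k v z = false) ∨
        (indep (yl k v) = true ∧ b = 1 ∧ lc msk z.1 z.2 = z.2 ∧
          lc msk z.1 (max z.2 (dl K v).1) = z.2) ∨
        (indep (yl k v) = false ∧ b = 0 ∧ leI i z.2 = true)) := by
  unfold okT
  by_cases hi : indep (yl k v) = true
  · simp only [hi, if_true, Bool.and_eq_true, Bool.or_eq_true, decide_eq_true_eq,
      List.all_eq_true, List.contains_eq_mem, Bool.not_eq_true', decide_eq_false_iff_not,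
      true_and, reduceCtorEq, false_and, or_false]
    tauto
  · have hi' : indep (yl k v) = false := by simpa using hi
    simp only [hi', Bool.and_eq_true, decide_eq_true_eq, Bool.false_eq_true,
      List.all_eq_true, false_and, true_and, false_or, if_false]
    tauto

private theorem not_contra {b : Bool} (h : b = true) (h' : b = false) : False := by
  rw [h] at h'; exact absurd h' (by simp)

theorem lab_le (P : Par) (i : ℕ∞) (c : Tc) (h : okT P.msk P.F P.K i c = true)
    (hk : (c.1 : ℕ∞) ≠ i) : leI i (lab P.msk P.K c).2 = true := by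
  obtain ⟨k, v, z, b⟩ := c
  rw [okT_cases] at h
  obtain ⟨⟨hkF, hvl, hv⟩, h⟩ := h
  have hkK := P.hF k hkF
  have hkv : k ≤ v.length := by omega
  rcases h with ⟨hi, rfl, hz, -, -⟩ | ⟨hi, rfl, hs, hs'⟩ | ⟨hi, rfl, hz⟩
  · rw [lab_plain]; exact hz
  · obtain ⟨q, s⟩ := z
    have hki := le_of_indep i k v hkv hv hi
    by_cases hd : ∃ t, disc P.msk q s t = true
    · obtain ⟨t, ht⟩ := hd
      rw [lab_disc P.msk P.K k v q s t ht]
      simp only
      rw [leI_iff]
      have h1 := rgen_le (yl k v)
      rw [length_yl k v hkv] at h1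
      have hlt : (k : ℕ∞) < i := lt_of_le_of_ne hki hk
      have h2 : ((k + 1 : ℕ) : ℕ∞) ≤ i := by
        rw [Nat.cast_add, Nat.cast_one]
        exact Order.add_one_le_of_lt hlt
      exact le_trans (by exact_mod_cast h1) h2
    · have hd' : ∀ t, disc P.msk q s t = false := by
        intro t
        by_contra hc
        exact hd ⟨t, by simpa using hc⟩
      rw [lab_pos P.msk P.K k v q s hd']
      have := posn_comp k v q hkv
      rw [List.mem_map] at this
      obtain ⟨y, hy, hy'⟩ := this
      rw [← hy']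
      have hy2 : y ∈ ((0, 0) : CP) :: v := List.mem_of_mem_take hy
      rcases List.mem_cons.1 hy2 with rfl | hy3
      · rw [leI_iff]; exact bot_le
      · exact hv y hy3
  · rw [lab_plain]; exact hz

/-- Two change times, none of which is ever discarded, are equal. -/
private theorem never_disc (msk : ℕ → ℕ → ℕ) (q s s' : ℕ) (hs : lc msk q s = s) (hs' : lc msk q s' = s')
    (h : ∀ t, disc msk q s t = false) (h' : ∀ t, disc msk q s' t = false) : s = s' := by
  rcases lt_trichotomy s s' with hlt | heq | hlt
  · exfalso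
    have : ¬ lc msk q s' = s := by rw [hs']; omega
    rw [lc_eq_iff msk q s s' hs hlt.le, not_not] at this
    obtain ⟨t, -, ht⟩ := this
    exact not_contra ht (h t)
  · exact heq
  · exfalso
    have : ¬ lc msk q s = s' := by rw [hs]; omega
    rw [lc_eq_iff msk q s' s hs' hlt.le, not_not] at this
    obtain ⟨t, -, ht⟩ := this
    exact not_contra ht (h' t)

/-- The label of a valid discarded version is `old`. -/
private theorem old_of_version (msk : ℕ → ℕ → ℕ) (K k : ℕ) (v : List CP) (q s t : ℕ)
    (hs : lc msk q s = s) (hs' : lc msk q (max s (dl K v).1) = s) (ht : disc msk q s t = true) :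
    old msk K k v (Nat.pair (Nat.pair q s) (Nat.pair ((dl K v).1 &&& msk q s) t), rgen (yl k v))
      = true := by
  have hlt := (lc_max_iff msk q s (dl K v).1 hs).1 hs' t ht
  unfold old
  rw [Bool.and_eq_true]
  constructor
  · rw [isGarb_iff]
    simp only [Nat.unpair_pair]
    exact ⟨t, ht, rfl⟩
  · simp only [Nat.unpair_pair, decide_eq_true_eq]
    exact hlt

theorem lab_inj (P : Par) (i : ℕ∞) (c c' : Tc) (h : okT P.msk P.F P.K i c = true)
    (h' : okT P.msk P.F P.K i c' = true) (h1 : c.1 = c'.1) (h2 : c.2.1 = c'.2.1)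
    (hl : lab P.msk P.K c = lab P.msk P.K c') : c = c' := by
  obtain ⟨k, v, z, b⟩ := c
  obtain ⟨k', v', z', b'⟩ := c'
  simp only at h1 h2
  subst h1 h2
  rw [okT_cases] at h h'
  obtain ⟨⟨hkF, hvl, hv⟩, h⟩ := h
  obtain ⟨-, h'⟩ := h'
  have hkK := P.hF k hkF
  have hkv : k ≤ v.length := by omega
  have key : ∀ (z z' : CP), indep (yl k v) = true → z.2 ∉ (yl k v).map Prod.snd →
      old P.msk P.K k v z = false → lc P.msk z'.1 z'.2 = z'.2 →
      lc P.msk z'.1 (max z'.2 (dl P.K v).1) = z'.2 →
      lab P.msk P.K (k, v, z', 1) = z → False := by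
    rintro z ⟨q, s⟩ hi hz hold hs hs' he
    by_cases hd : ∃ t, disc P.msk q s t = true
    · obtain ⟨t, ht⟩ := hd
      rw [lab_disc P.msk P.K k v q s t ht] at he
      rw [← he] at hold
      exact not_contra (old_of_version P.msk P.K k v q s t hs hs' ht) hold
    · have hd' : ∀ t, disc P.msk q s t = false := by
        intro t
        by_contra hc
        exact hd ⟨t, by simpa using hc⟩
      rw [lab_pos P.msk P.K k v q s hd'] at he
      exact hz (he ▸ posn_comp k v q hkv)
  rcases h with ⟨hi, rfl, hz, hz2, hz3⟩ | ⟨hi, rfl, hs, hs'⟩ | ⟨hi, rfl, hz⟩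
  · rcases h' with ⟨-, rfl, -, -, -⟩ | ⟨-, rfl, ht, ht'⟩ | ⟨hi', -, -⟩
    · rw [lab_plain, lab_plain] at hl
      rw [hl]
    · rw [lab_plain] at hl
      exact (key z z' hi hz2 hz3 ht ht' hl.symm).elim
    · exact (not_contra hi hi').elim
  · rcases h' with ⟨-, rfl, -, hz2, hz3⟩ | ⟨-, rfl, ht, ht'⟩ | ⟨hi', -, -⟩
    · rw [lab_plain] at hl
      exact (key z' z hi hz2 hz3 hs hs' hl).elim
    · obtain ⟨q, s⟩ := z
      obtain ⟨q', s'⟩ := z'
      simp only at hs hs' ht ht'
      by_cases hd : ∃ t, disc P.msk q s t = true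
      · obtain ⟨t, hdt⟩ := hd
        rw [lab_disc P.msk P.K k v q s t hdt] at hl
        by_cases hd2 : ∃ t, disc P.msk q' s' t = true
        · obtain ⟨t', hdt'⟩ := hd2
          rw [lab_disc P.msk P.K k v q' s' t' hdt'] at hl
          have h3 := congrArg Prod.fst hl
          simp only [Nat.pair_eq_pair] at h3
          obtain ⟨⟨rfl, rfl⟩, -⟩ := h3
          rfl
        · have hd' : ∀ t, disc P.msk q' s' t = false := by
            intro t
            by_contra hc
            exact hd2 ⟨t, by simpa using hc⟩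
          rw [lab_pos P.msk P.K k v q' s' hd'] at hl
          exfalso
          have h3 := posn_comp k v q' hkv
          rw [← hl] at h3
          exact rgen_not_mem (yl k v) h3
      · have hd' : ∀ t, disc P.msk q s t = false := by
          intro t
          by_contra hc
          exact hd ⟨t, by simpa using hc⟩
        rw [lab_pos P.msk P.K k v q s hd'] at hl
        by_cases hd2 : ∃ t, disc P.msk q' s' t = true
        · obtain ⟨t', hdt'⟩ := hd2
          rw [lab_disc P.msk P.K k v q' s' t' hdt'] at hl
          exfalso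
          have h3 := posn_comp k v q hkv
          rw [hl] at h3
          exact rgen_not_mem (yl k v) h3
        · have hd2' : ∀ t, disc P.msk q' s' t = false := by
            intro t
            by_contra hc
            exact hd2 ⟨t, by simpa using hc⟩
          rw [lab_pos P.msk P.K k v q' s' hd2'] at hl
          have hqq := posn_inj k v hkv hi q q' hl
          subst hqq
          rw [never_disc P.msk q s s' hs ht hd' hd2']
    · exact (not_contra hi hi').elim
  · rcases h' with ⟨hi', -, -, -, -⟩ | ⟨hi', -, -, -⟩ | ⟨-, rfl, -⟩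
    · exact (not_contra hi' hi).elim
    · exact (not_contra hi' hi).elim
    · rw [lab_plain, lab_plain] at hl
      rw [hl]

theorem lab_surj (P : Par) (i : ℕ∞) (k : ℕ) (hk : k ∈ P.F) (v : List CP)
    (hv : v.length = P.K + 1) (hv' : ∀ p ∈ v, leI i p.2 = true) (z : CP)
    (hz : leI i z.2 = true) :
    ∃ z' b, okT P.msk P.F P.K i (k, v, z', b) = true ∧ lab P.msk P.K (k, v, z', b) = z := by
  have hkK := P.hF k hk
  have hkv : k ≤ v.length := by omega
  by_cases hi : indep (yl k v) = true
  · by_cases hmem : z.2 ∈ (yl k v).map Prod.snd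
    · obtain ⟨q, hq⟩ := posn_surj k v hkv z hmem
      obtain ⟨t₀, ht₀⟩ := P.msk_lim q
      have hs := lc_lc P.msk q t₀
      -- after `t₀` no change
      have hlc : ∀ t, t₀ ≤ t → lc P.msk q t = lc P.msk q t₀ := by
        intro t ht
        induction t, ht using Nat.le_induction with
        | base => rfl
        | succ n hn ih =>
          simp only [lc]
          rw [if_pos (by rw [ht₀ (n + 1) (by omega), ht₀ n hn]), ih]
      have hall : ∀ u, lc P.msk q t₀ ≤ u → lc P.msk q u = lc P.msk q t₀ := by
        intro u hu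
        rcases le_total u t₀ with h | h
        · exact lc_eq_of P.msk q rfl hu h
        · exact hlc u h
      have hnd : ∀ t, disc P.msk q (lc P.msk q t₀) t = false := by
        intro t
        by_contra hc
        have hc' : disc P.msk q (lc P.msk q t₀) t = true := by simpa using hc
        exact ((lc_eq_iff P.msk q _ (max t (lc P.msk q t₀)) hs (le_max_right _ _)).1
          (hall _ (le_max_right _ _))) ⟨t, le_max_left _ _, hc'⟩
      refine ⟨(q, lc P.msk q t₀), 1, ?_, ?_⟩
      · rw [okT_cases]
        exact ⟨⟨hk, hv, hv'⟩, Or.inr (Or.inl ⟨hi, rfl, hs, hall _ (le_max_left _ _)⟩)⟩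
      · rw [lab_pos P.msk P.K k v q _ hnd, hq]
    · by_cases hold : old P.msk P.K k v z = true
      · have hold' := hold
        unfold old at hold
        rw [Bool.and_eq_true, isGarb_iff, decide_eq_true_eq] at hold
        obtain ⟨⟨t, ht, hzt⟩, hlt⟩ := hold
        have ht2 : (Nat.unpair (Nat.unpair z.1).2).2 = t := by
          have := congrArg Prod.fst hzt
          rw [this]
          simp
        rw [ht2] at hlt
        generalize hqd : (Nat.unpair (Nat.unpair z.1).1).1 = q at *
        generalize hsd : (Nat.unpair (Nat.unpair z.1).1).2 = s at *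
        have hs : lc P.msk q s = s := by
          have := ht
          unfold disc at this
          simp only [Bool.and_eq_true, decide_eq_true_eq] at this
          exact this.1.1.1
        refine ⟨(q, s), 1, ?_, ?_⟩
        · rw [okT_cases]
          refine ⟨⟨hk, hv, hv'⟩, Or.inr (Or.inl ⟨hi, rfl, hs, ?_⟩)⟩
          simp only
          rw [lc_max_iff P.msk q s _ hs]
          intro t' ht'
          rw [disc_unique P.msk q s t' t ht' ht]
          exact hlt
        · rw [lab_disc P.msk P.K k v q s t ht]
          exact hzt.symm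
      · refine ⟨z, 0, ?_, lab_plain _ _ _ _ _⟩
        rw [okT_cases]
        exact ⟨⟨hk, hv, hv'⟩, Or.inl ⟨hi, rfl, hz, hmem, by simpa using hold⟩⟩
  · refine ⟨z, 0, ?_, lab_plain _ _ _ _ _⟩
    rw [okT_cases]
    exact ⟨⟨hk, hv, hv'⟩, Or.inr (Or.inr ⟨by simpa using hi, rfl, hz⟩)⟩

end Pool.Agent.Work.MP_ed0a9a_lc
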