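import Pool.Agent.Work.MP_ed0a9a_lc.CopyDefs

/-!
# Module `CopyLc`: the changes of the masks; the component `rgen`

Induction on `t` for `lc`.
* `lc_le : lc msk q t ≤ t`; `lc_lc`: the last change is a change: `lc msk q (lc msk q t) = lc msk q t`.
* `msk_lc`: `msk q (lc msk q t) = msk q t`.
* `lc_mono`.
* `lc_eq_of`: if `lc msk q t = s` and `s ≤ u ≤ t` then `lc msk q u = s`
  (`lc msk q u ≤ lc msk q t = s`, and `s = lc msk q s ≤ lc msk q u`).
* `disc_unique`: if `disc q s t`, `disc q s t'`, `t < t'`: `lc q t = t`, `t ≤ t' - 1` so
  `t ≤ lc q (t' - 1) = s < t`, contradiction.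
* `disc_iff_not`: for `s` with `lc q s = s`: for `s ≤ u`: `lc q u = s` iff there is no
  `t ≤ u` with `disc q s t` (the first `t > s` with `lc q t ≠ s` satisfies `disc q s t`).
* `rgen_not_mem`: among `0, …, l.length` some number is not in `l.map Prod.snd` (pigeonhole:
  `l.length + 1` different numbers); `find?` returns the least.
* `rgen_le`: if all elements of `l` are `≤ i` (`leI`), the list is independent and
  `l.length ≤ i` (i.e. `leI i l.length`), then `rgen l ≤ l.length ≤ i`.
-/

namespace Pool.Agent.Work.MP_ed0a9a_lc

variable (msk : ℕ → ℕ → ℕ)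

theorem lc_le (q t : ℕ) : lc msk q t ≤ t := by
  induction t with
  | zero => simp [lc]
  | succ t ih =>
    simp only [lc]
    split_ifs
    · omega
    · omega

theorem lc_lc (q t : ℕ) : lc msk q (lc msk q t) = lc msk q t := by
  induction t with
  | zero => simp [lc]
  | succ t ih =>
    by_cases h : msk q (t + 1) = msk q t
    · have h1 : lc msk q (t + 1) = lc msk q t := by simp [lc, h]
      rw [h1]
      exact ih
    · have h1 : lc msk q (t + 1) = t + 1 := by simp [lc, h]
      rw [h1]
      exact h1

theorem msk_lc (q t : ℕ) : msk q (lc msk q t) = msk q t := by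
  induction t with
  | zero => simp [lc]
  | succ t ih =>
    by_cases h : msk q (t + 1) = msk q t
    · have h1 : lc msk q (t + 1) = lc msk q t := by simp [lc, h]
      rw [h1, ih, h]
    · have h1 : lc msk q (t + 1) = t + 1 := by simp [lc, h]
      rw [h1]

theorem lc_mono (q : ℕ) {s t : ℕ} (h : s ≤ t) : lc msk q s ≤ lc msk q t := by
  induction t, h using Nat.le_induction with
  | base => exact le_rfl
  | succ t ht ih =>
    refine le_trans ih ?_
    simp only [lc]
    split_ifs
    · exact le_rfl
    · have := lc_le msk q t
      omega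

theorem lc_eq_of (q : ℕ) {s u t : ℕ} (h : lc msk q t = s) (h1 : s ≤ u) (h2 : u ≤ t) :
    lc msk q u = s := by
  apply le_antisymm
  · rw [← h]
    exact lc_mono msk q h2
  · have h3 := lc_mono msk q h1
    have h4 : lc msk q s = s := by rw [← h]; exact lc_lc msk q t
    rwa [h4] at h3

private theorem disc_iff (q s t : ℕ) : disc msk q s t = true ↔
    lc msk q s = s ∧ s < t ∧ lc msk q t = t ∧ lc msk q (t - 1) = s := by
  unfold disc
  simp only [Bool.and_eq_true, decide_eq_true_eq]
  tauto

theorem disc_unique (q s t t' : ℕ) (h : disc msk q s t = true) (h' : disc msk q s t' = true) :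
    t = t' := by
  have key : ∀ t t', disc msk q s t = true → disc msk q s t' = true → t < t' → False := by
    intro t t' h h' hlt
    rw [disc_iff] at h h'
    have h1 : lc msk q t ≤ lc msk q (t' - 1) := lc_mono msk q (by omega)
    rw [h.2.2.1, h'.2.2.2] at h1
    omega
  rcases lt_trichotomy t t' with h1 | h1 | h1
  · exact (key t t' h h' h1).elim
  · exact h1
  · exact (key t' t h' h h1).elim

/-- A version is current at time `u ≥ s` iff it is not discarded by then. -/
theorem lc_eq_iff (q s u : ℕ) (hs : lc msk q s = s) (hu : s ≤ u) :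
    lc msk q u = s ↔ ¬ ∃ t, t ≤ u ∧ disc msk q s t = true := by
  constructor
  · rintro h ⟨t, ht, hd⟩
    rw [disc_iff] at hd
    have h1 := lc_mono msk q ht
    rw [h, hd.2.2.1] at h1
    omega
  · intro h
    induction u, hu using Nat.le_induction with
    | base => exact hs
    | succ u hu ih =>
      have h1 : lc msk q u = s := ih (fun ⟨t, ht, hd⟩ => h ⟨t, by omega, hd⟩)
      by_cases hm : msk q (u + 1) = msk q u
      · simp only [lc]
        rw [if_pos hm, h1]
      · exfalso
        apply h
        refine ⟨u + 1, le_rfl, ?_⟩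
        rw [disc_iff]
        refine ⟨hs, by omega, by simp [lc, hm], ?_⟩
        simpa using h1

theorem lc_max_iff (q s d : ℕ) (hs : lc msk q s = s) :
    lc msk q (max s d) = s ↔ ∀ t, disc msk q s t = true → d < t := by
  rw [lc_eq_iff msk q s (max s d) hs (le_max_left _ _)]
  constructor
  · intro h t ht
    by_contra hlt
    exact h ⟨t, le_trans (not_lt.1 hlt) (le_max_right _ _), ht⟩
  · rintro h ⟨t, ht, hd⟩
    have h1 := h t hd
    have h2 := ((disc_iff msk q s t).1 hd).2.1
    rcases le_max_iff.1 ht with h3 | h3 <;> omega

private theorem exists_free (l : List CP) : ∃ r ≤ l.length, r ∉ l.map Prod.snd := by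
  by_contra hno
  push Not at hno
  have h1 : Finset.range (l.length + 1) ⊆ (l.map Prod.snd).toFinset := by
    intro r hr
    rw [List.mem_toFinset]
    exact hno r (by have := Finset.mem_range.1 hr; omega)
  have h2 := Finset.card_le_card h1
  have h3 := List.toFinset_card_le (l.map Prod.snd)
  rw [Finset.card_range] at h2
  rw [List.length_map] at h3
  omega

private theorem rgen_spec (l : List CP) : rgen l ≤ l.length ∧ rgen l ∉ l.map Prod.snd := by
  unfold rgen
  obtain ⟨r, hr, hr'⟩ := exists_free l
  rcases h : (List.range (l.length + 1)).find? (fun r => !(l.map Prod.snd).contains r) with _ | r'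
  · exfalso
    rw [List.find?_eq_none] at h
    have := h r (List.mem_range.2 (by omega))
    simp only [Bool.not_eq_true', List.contains_eq_mem, decide_eq_false_iff_not,
      not_not] at this
    exact hr' this
  · have h1 := List.find?_some h
    have h2 := List.mem_of_find?_eq_some h
    simp only [Bool.not_eq_true', List.contains_eq_mem, decide_eq_false_iff_not] at h1
    rw [Option.getD_some]
    exact ⟨by have := List.mem_range.1 h2; omega, h1⟩

theorem rgen_not_mem (l : List CP) : rgen l ∉ l.map Prod.snd := (rgen_spec l).2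

theorem rgen_le (l : List CP) : rgen l ≤ l.length := (rgen_spec l).1

theorem leI_iff (i : ℕ∞) (r : ℕ) : leI i r = true ↔ (r : ℕ∞) ≤ i := by
  unfold leI
  simp

/-- `yl k v` consists of `k + 1` points when `k ≤ v.length`. -/
theorem length_yl (k : ℕ) (v : List CP) (h : k ≤ v.length) : (yl k v).length = k + 1 := by
  unfold yl
  rw [List.length_take, List.length_cons]
  omega

theorem indep_iff (l : List CP) : indep l = true ↔ (l.map Prod.snd).Nodup := by
  unfold indep
  rw [decide_eq_true_eq, List.Nodup, List.pairwise_map]

/-- If `yl k v` is independent with components `≤ i`, then `k ≤ i`. -/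
theorem le_of_indep (i : ℕ∞) (k : ℕ) (v : List CP) (h : k ≤ v.length)
    (hv : ∀ p ∈ v, leI i p.2 = true) (hi : indep (yl k v) = true) : (k : ℕ∞) ≤ i := by
  rcases eq_or_ne i ⊤ with rfl | hne
  · exact le_top
  · obtain ⟨m, rfl⟩ := ENat.ne_top_iff_exists.1 hne
    rw [indep_iff] at hi
    have h1 : ((yl k v).map Prod.snd).toFinset ⊆ Finset.range (m + 1) := by
      intro r hr
      rw [List.mem_toFinset, List.mem_map] at hr
      obtain ⟨p, hp, rfl⟩ := hr
      rcases List.mem_cons.1 (List.mem_of_mem_take hp) with rfl | hp'
      · simp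
      · have := (leI_iff _ _).1 (hv p hp')
        rw [Finset.mem_range]
        have h2 : p.2 ≤ m := by exact_mod_cast this
        omega
    have h2 := Finset.card_le_card h1
    rw [List.toFinset_card_of_nodup hi, List.length_map, length_yl k v h, Finset.card_range] at h2
    exact_mod_cast (by omega : k ≤ m)

end Pool.Agent.Work.MP_ed0a9a_lc
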