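import Pool.Agent.Work.MP_ed0a9a_lc.CopyLab

/-!
# Module `CopyQ`: the links in the copy

Let `c, c'` be valid codes over `v`, `v'` with the same first `K` coordinates and the same `k`
(`k ≤ P.K`), so `yl k v = yl k v'`, `posn k v = posn k v'` and `rgen` is the same.
If `yl k v` is dependent: immediate from the definitions (`c.2.2.2 = 0`).
Let it be independent, `d' = shn (2 ^ n) d`.
* For every mask `m`: `d'.1 &&& m = d.1 &&& m` iff `m.testBit n = false`
  (`Nat.eq_of_testBit_eq`, `Nat.testBit_xor`, `Nat.testBit_two_pow`, `Nat.testBit_land`).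
* both plain: the label `z` is not a position (its component is not among those of `yl`,
  `posn_comp`), so the condition is `z = z'`.
* `c` plain, `c'` version: label of `c'` is `z` iff `isGarb v' … z` (`isGarb_iff`, `lab_disc`,
  `lab_pos`, a position has component among those of `yl`, the component of `z` is not).
  Symmetric: `c` version, `c'` plain (if `lab c` is a position then it is not a plain label).
* both versions `(q, s)`, `(q', s')`.  If `c` is discarded at `t`: `lab c` is garbage, not a
  position; `lab c = lab c'` iff `c'` is discarded at the same time, `(q, s) = (q', s')`,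
  and the masked parts agree, i.e. `(msk q s).testBit n = false`.
  If `c` is never discarded: `lab c = posn q`; `lab c = lab c'` iff `c'` is never discarded and
  `q = q'`, and then `s = s'` (both are the last change time), and `P.lim q = msk q s`.
  The direction `n` is missing iff `q = (unpair n).2` (`posn_inj`) and `(P.lim q).testBit n`;
  but `(P.lim q).testBit n` implies `(unpair n).2 = q` (`Par.mskI_bit`/`P.msk_bit`).
-/

namespace Pool.Agent.Work.MP_ed0a9a_lc

theorem land_eq_iff (d m n : ℕ) :
    (d ^^^ 2 ^ n) &&& m = d &&& m ↔ m.testBit n = false := by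
  constructor
  · intro h
    have h1 := congrArg (fun x : ℕ => x.testBit n) h
    simp only [Nat.testBit_land, Nat.testBit_xor, Nat.testBit_two_pow, decide_true,
      Bool.xor_true] at h1
    rcases hd : d.testBit n <;> rcases hm : m.testBit n <;> rw [hd, hm] at h1 <;> simp at h1 ⊢
  · intro h
    apply Nat.eq_of_testBit_eq
    intro j
    simp only [Nat.testBit_land, Nat.testBit_xor, Nat.testBit_two_pow]
    by_cases hj : n = j
    · subst hj
      rw [h]
      simp
    · simp [hj]

private theorem not_contra {b : Bool} (h : b = true) (h' : b = false) : False := by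
  rw [h] at h'; exact absurd h' (by simp)

private theorem lab_plain (msk : ℕ → ℕ → ℕ) (K k : ℕ) (v : List CP) (z : CP) :
    lab msk K (k, v, z, 0) = z := by
  unfold lab
  rw [if_pos rfl]

private theorem disc_or (msk : ℕ → ℕ → ℕ) (q s : ℕ) :
    (∃ t, disc msk q s t = true) ∨ ∀ t, disc msk q s t = false := by
  by_cases h : ∃ t, disc msk q s t = true
  · exact Or.inl h
  · right
    intro t
    by_contra hc
    exact h ⟨t, by simpa using hc⟩

/-- The cases of a valid code. -/
private theorem okT_cases (msk : ℕ → ℕ → ℕ) (F : Finset ℕ) (K : ℕ) (i : ℕ∞) (k : ℕ) (v : List CP)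
    (z : CP) (b : ℕ) (h : okT msk F K i (k, v, z, b) = true) :
      (k ∈ F ∧ v.length = K + 1) ∧
      ((indep (yl k v) = true ∧ b = 0 ∧ z.2 ∉ (yl k v).map Prod.snd) ∨
        (indep (yl k v) = true ∧ b = 1 ∧ lc msk z.1 z.2 = z.2) ∨
        (indep (yl k v) = false ∧ b = 0)) := by
  unfold okT at h
  by_cases hi : indep (yl k v) = true
  · simp only [hi, if_true, Bool.and_eq_true, Bool.or_eq_true, decide_eq_true_eq,
      List.all_eq_true, List.contains_eq_mem, Bool.not_eq_true', decide_eq_false_iff_not] at h
    tauto
  · have hi' : indep (yl k v) = false := by simpa using hi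
    simp only [hi', Bool.and_eq_true, decide_eq_true_eq, Bool.false_eq_true,
      List.all_eq_true, if_false] at h
    tauto

/-- The final version. -/
private theorem lim_of_never (P : Par) (q s : ℕ) (hs : lc P.msk q s = s)
    (h : ∀ t, disc P.msk q s t = false) : P.lim q = P.msk q s := by
  obtain ⟨t₀, ht₀⟩ := P.lim_spec q
  have h1 : lc P.msk q (max s t₀) = s := by
    rw [lc_eq_iff P.msk q s _ hs (le_max_left _ _)]
    rintro ⟨t, -, ht⟩
    exact not_contra ht (h t)
  rw [← ht₀ (max s t₀) (le_max_right _ _), ← msk_lc P.msk q (max s t₀), h1]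

/-- Two change times, none of which is ever discarded, are equal. -/
private theorem never_disc (msk : ℕ → ℕ → ℕ) (q s s' : ℕ) (hs : lc msk q s = s)
    (hs' : lc msk q s' = s')
    (h : ∀ t, disc msk q s t = false) (h' : ∀ t, disc msk q s' t = false) : s = s' := by
  rcases lt_trichotomy s s' with hlt | heq | hlt
  · exfalso
    have : ¬ lc msk q s' = s := by rw [hs']; omega
    rw [lc_eq_iff msk q s s' hs hlt.le, not_not] at this
    obtain ⟨t, -, ht⟩ := this
    exact not_contra ht (h t)
  · exact heq
  · exfalso
    have : ¬ lc msk q s = s' := by rw [hs]; omega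
    rw [lc_eq_iff msk q s' s hs' hlt.le, not_not] at this
    obtain ⟨t, -, ht⟩ := this
    exact not_contra ht (h' t)

theorem qrel_iff (P : Par) (i : ℕ∞) (n : ℕ) (c c' : Tc) (h : okT P.msk P.F P.K i c = true)
    (h' : okT P.msk P.F P.K i c' = true) :
    qrel P.msk P.K n c c' = true ↔ c.1 = c'.1 ∧ c'.2.1.take P.K = c.2.1.take P.K ∧
      dl P.K c'.2.1 = shn (2 ^ n) (dl P.K c.2.1) ∧ lab P.msk P.K c = lab P.msk P.K c' ∧
      ¬ (lab P.msk P.K c = posn c.1 c.2.1 (Nat.unpair n).2 ∧
        (if indep (yl c.1 c.2.1) then P.lim (Nat.unpair n).2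
          else P.msk (Nat.unpair n).2 (lvn (yl c.1 c.2.1))).testBit n = true) := by
  obtain ⟨k, v, z, b⟩ := c
  obtain ⟨k', v', z', b'⟩ := c'
  obtain ⟨⟨hkF, hvl⟩, h⟩ := okT_cases _ _ _ _ _ _ _ _ h
  obtain ⟨⟨hkF', hvl'⟩, h'⟩ := okT_cases _ _ _ _ _ _ _ _ h'
  have hkK := P.hF k hkF
  have hkv : k ≤ v.length := by omega
  unfold qrel
  simp only [Bool.and_eq_true, decide_eq_true_eq]
  rw [and_assoc, and_assoc]
  refine and_congr_right (fun hk => and_congr_right (fun htake => and_congr_right (fun hdl => ?_)))
  subst hk
  -- the same `yl`, `posn`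
  have hyl : yl k v' = yl k v := by
    unfold yl
    rw [List.take_cons (by omega), List.take_cons (by omega)]
    have h1 : ∀ w : List CP, w.take k = (w.take P.K).take k := by
      intro w
      rw [List.take_take, min_eq_left hkK]
    congr 1
    rw [show k + 1 - 1 = k by omega, h1 v', h1 v, htake]
  have hposn : ∀ q, posn k v' q = posn k v q := by
    intro q
    unfold posn
    congr 1
    have hq : q % (k + 1) < k + 1 := Nat.mod_lt _ (Nat.succ_pos k)
    have h1 : ∀ w : List CP, w.length = P.K + 1 → (((0, 0) : CP) :: w).getD (q % (k + 1)) (0, 0) =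
        (yl k w).getD (q % (k + 1)) (0, 0) := by
      intro w hw
      have e1 : q % (k + 1) < (yl k w).length := by rw [length_yl k w (by omega)]; exact hq
      have e2 : q % (k + 1) < (((0, 0) : CP) :: w).length := by rw [List.length_cons]; omega
      rw [List.getD_eq_getElem _ _ e1, List.getD_eq_getElem _ _ e2]
      simp only [yl, List.getElem_take]
    rw [h1 v' hvl', h1 v hvl, hyl]
  rw [hyl] at h'
  have hd1 : (dl P.K v').1 = (dl P.K v).1 ^^^ 2 ^ n := by rw [hdl]; rfl
  rcases h with ⟨hi, rfl, hz⟩ | ⟨hi, rfl, hs⟩ | ⟨hi, rfl⟩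
  · -- `c` plain, independent
    have hnp : ∀ q, z ≠ posn k v q := by
      rintro q rfl
      exact hz (posn_comp k v q hkv)
    rcases h' with ⟨-, rfl, -⟩ | ⟨-, rfl, hs'⟩ | ⟨hi', -⟩
    · rw [lab_plain, lab_plain]
      simp only [hi, if_true, decide_eq_true_eq]
      constructor
      · intro h1
        exact ⟨h1, fun h2 => hnp _ h2.1⟩
      · intro h1
        exact h1.1
    · obtain ⟨q', s'⟩ := z'
      rw [lab_plain]
      simp only [hi, if_true, one_ne_zero, if_false]
      rw [isGarb_iff, hyl]
      constructor
      · rintro ⟨t, ht, hzt⟩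
        refine ⟨?_, fun h2 => hnp _ h2.1⟩
        rw [lab_disc P.msk P.K k v' q' s' t ht, hyl]
        exact hzt
      · rintro ⟨h1, -⟩
        rcases disc_or P.msk q' s' with ⟨t, ht⟩ | hnd
        · rw [lab_disc P.msk P.K k v' q' s' t ht, hyl] at h1
          exact ⟨t, ht, h1⟩
        · rw [lab_pos P.msk P.K k v' q' s' hnd, hposn] at h1
          exact absurd h1 (hnp _)
    · exact (not_contra hi hi').elim
  · obtain ⟨q, s⟩ := z
    simp only at hs
    rcases h' with ⟨-, rfl, hz'⟩ | ⟨-, rfl, hs'⟩ | ⟨hi', -⟩
    · -- `c'` plain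
      rw [lab_plain]
      simp only [hi, if_true, one_ne_zero, if_false]
      rw [isGarb_iff]
      constructor
      · rintro ⟨t, ht, hzt⟩
        have h1 := lab_disc P.msk P.K k v q s t ht
        refine ⟨by rw [h1]; exact hzt.symm, ?_⟩
        rintro ⟨h2, -⟩
        rw [h1] at h2
        have h3 := posn_comp k v (Nat.unpair n).2 hkv
        rw [← h2] at h3
        exact rgen_not_mem _ h3
      · rintro ⟨h1, -⟩
        rcases disc_or P.msk q s with ⟨t, ht⟩ | hnd
        · rw [lab_disc P.msk P.K k v q s t ht] at h1
          exact ⟨t, ht, h1.symm⟩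
        · rw [lab_pos P.msk P.K k v q s hnd] at h1
          exact absurd (h1 ▸ posn_comp k v q hkv) hz'
    · -- both versions
      obtain ⟨q', s'⟩ := z'
      simp only at hs'
      simp only [hi, if_true, one_ne_zero, if_false, Bool.and_eq_true, decide_eq_true_eq,
        Bool.not_eq_true', Prod.mk.injEq]
      rcases disc_or P.msk q s with ⟨t, ht⟩ | hnd
      · rw [lab_disc P.msk P.K k v q s t ht]
        have hnp : ∀ q0 x, ((x, rgen (yl k v)) : CP) ≠ posn k v q0 := by
          intro q0 x h2
          have h3 := posn_comp k v q0 hkv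
          rw [← h2] at h3
          exact rgen_not_mem _ h3
        constructor
        · rintro ⟨⟨rfl, rfl⟩, hbit⟩
          refine ⟨?_, fun h2 => hnp _ _ h2.1⟩
          rw [lab_disc P.msk P.K k v' q s t ht, hyl, hd1, (land_eq_iff _ _ _).2 hbit]
        · rintro ⟨h1, -⟩
          rcases disc_or P.msk q' s' with ⟨t', ht'⟩ | hnd'
          · rw [lab_disc P.msk P.K k v' q' s' t' ht', hyl, hd1] at h1
            have h2 := congrArg Prod.fst h1
            simp only [Nat.pair_eq_pair] at h2
            obtain ⟨⟨rfl, rfl⟩, h3, -⟩ := h2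
            exact ⟨⟨rfl, rfl⟩, (land_eq_iff _ _ _).1 h3.symm⟩
          · rw [lab_pos P.msk P.K k v' q' s' hnd', hposn] at h1
            exact absurd h1 (hnp _ _)
      · rw [lab_pos P.msk P.K k v q s hnd]
        have hlim := lim_of_never P q s hs hnd
        constructor
        · rintro ⟨⟨rfl, rfl⟩, hbit⟩
          rw [lab_pos P.msk P.K k v' q s hnd, hposn]
          refine ⟨rfl, ?_⟩
          rintro ⟨h2, h3⟩
          have h4 := posn_inj k v hkv hi _ _ h2
          rw [← h4, hlim] at h3
          exact not_contra h3 hbit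
        · rintro ⟨h1, h2⟩
          rcases disc_or P.msk q' s' with ⟨t', ht'⟩ | hnd'
          · rw [lab_disc P.msk P.K k v' q' s' t' ht', hyl] at h1
            have h3 := posn_comp k v q hkv
            rw [h1] at h3
            exact absurd h3 (rgen_not_mem _)
          · rw [lab_pos P.msk P.K k v' q' s' hnd', hposn] at h1
            have h4 := posn_inj k v hkv hi _ _ h1
            subst h4
            have h5 := never_disc P.msk q s s' hs hs' hnd hnd'
            refine ⟨⟨rfl, h5⟩, ?_⟩
            by_contra hbit
            have hbit' : (P.msk q s).testBit n = true := by simpa using hbit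
            have h6 := P.msk_bit q s n hbit'
            apply h2
            rw [h6, hlim]
            exact ⟨rfl, hbit'⟩
    · exact (not_contra hi hi').elim
  · -- dependent
    rcases h' with ⟨hi', -⟩ | ⟨hi', -⟩ | ⟨-, rfl⟩
    · exact (not_contra hi' hi).elim
    · exact (not_contra hi' hi).elim
    · rw [lab_plain, lab_plain]
      simp only [hi, Bool.false_eq_true, if_false, Bool.and_eq_true, decide_eq_true_eq,
        Bool.not_eq_true', missD]
      refine and_congr_right (fun _ => ?_)
      rw [← Bool.not_eq_true, Bool.and_eq_true, decide_eq_true_eq]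

end Pool.Agent.Work.MP_ed0a9a_lc
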