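import Pool.Agent.Work.MP_ed0a9a_lc.Defs

/-!
# Formulas with named variables; axiomatizable properties
-/

namespace Pool.Agent.Work.MP_ed0a9a_lc

open FirstOrder FirstOrder.Language

variable {ar : ℕ → ℕ}

/-- Formulas with free variables named by natural numbers. -/
abbrev Fo (ar : ℕ → ℕ) := (sig (ari ar)).Formula ℕ

/-- The atomic formula `s(l)`, `l` a list of variables. -/
noncomputable def rl (s : Sym) (l : List ℕ) : Fo ar :=
  if h : l.length = ari ar s.code then
    Relations.formula (L := sig (ari ar)) (n := ari ar s.code) ⟨s.code, rfl⟩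
      (fun t => Term.var (l.get (t.cast h.symm)))
  else ⊥

theorem realize_rl {N : Type} [S : (sig (ari ar)).Structure N] (s : Sym) (l : List ℕ)
    (v : ℕ → N) : (rl s l : Fo ar).Realize v ↔ HN S s (l.map v) := by
  unfold rl HN hd
  by_cases h : l.length = ari ar s.code
  · rw [dif_pos h, Formula.realize_rel]
    have h' : (l.map v).length = ari ar s.code := by simpa using h
    constructor
    · intro hr
      refine ⟨h', ?_⟩
      convert hr using 2
      simp
    · rintro ⟨_, hr⟩
      convert hr using 2
      simp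
  · rw [dif_neg h]
    constructor
    · intro hr; exact absurd hr (by simp [Formula.Realize])
    · rintro ⟨h', _⟩; exact absurd (by simpa using h') h

/-- Existential quantification over the variable `x`. -/
noncomputable def exv (x : ℕ) (φ : Fo ar) : Fo ar :=
  Formula.iExs Unit (Formula.relabel (fun y : ℕ => if y = x then Sum.inr () else Sum.inl y) φ)

theorem realize_exv {N : Type} [S : (sig (ari ar)).Structure N] (x : ℕ) (φ : Fo ar)
    (v : ℕ → N) : (exv x φ).Realize v ↔ ∃ y, φ.Realize (Function.update v x y) := by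
  unfold exv
  rw [Formula.realize_iExs]
  constructor
  · rintro ⟨i, hi⟩
    refine ⟨i (), ?_⟩
    rw [Formula.realize_relabel] at hi
    convert hi using 1
    funext y
    by_cases hy : y = x
    · subst hy; simp
    · simp [hy]
  · rintro ⟨y, hy⟩
    refine ⟨fun _ => y, ?_⟩
    rw [Formula.realize_relabel]
    convert hy using 1
    funext z
    by_cases hz : z = x
    · subst hz; simp
    · simp [hz]

/-- Existential quantification over a list of variables (the head is outermost). -/
noncomputable def exs (l : List ℕ) (φ : Fo ar) : Fo ar := l.foldr exv φ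

/-- Universal closure. -/
theorem exists_sentence (φ : Fo ar) : ∃ σ : (sig (ari ar)).Sentence,
    ∀ (N : Type) [Nonempty N] [(sig (ari ar)).Structure N],
      N ⊨ σ ↔ ∀ v : ℕ → N, φ.Realize v := by
  refine ⟨(Formula.exClosure φ.not).not, ?_⟩
  intro N _ _
  have h := Formula.realize_exClosure (M := N) (φ.not)
  constructor
  · intro hs v
    by_contra hv
    apply hs
    refine h.2 ⟨fun a => v a, ?_⟩
    refine (BoundedFormula.realize_restrictFreeVar (φ := φ.not) (f := id) (v := fun a => v a)
      (v' := v) (fun _ => rfl)).2 ?_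
    exact hv
  · intro hv hs
    obtain ⟨v, hv'⟩ := h.1 hs
    let v' : ℕ → N := fun a => if hmem : a ∈ BoundedFormula.freeVarFinset φ.not
      then v ⟨a, hmem⟩ else Classical.choice inferInstance
    have h2 := (BoundedFormula.realize_restrictFreeVar (φ := φ.not) (f := id) (v := v)
      (xs := default) v' (by intro a; simp only [v', id]; rw [dif_pos a.2])).1 hv'
    exact h2 (hv v')

/-- The property `C` of systems of relations is axiomatizable. -/
def Axb (ar : ℕ → ℕ) (C : ∀ N : Type, (Sym → List N → Prop) → Prop) : Prop :=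
  ∃ T : (sig (ari ar)).Theory, ∀ (N : Type) [Nonempty N] [S : (sig (ari ar)).Structure N],
    N ⊨ T ↔ C N (HN S)

theorem Axb.all {ι : Type*} {C : ι → ∀ N : Type, (Sym → List N → Prop) → Prop}
    (h : ∀ i, Axb ar (C i)) : Axb ar (fun N H => ∀ i, C i N H) := by
  choose T hT using h
  refine ⟨⋃ i, T i, fun N _ S => ?_⟩
  simp only [Theory.model_iff, Set.mem_iUnion, forall_exists_index]
  constructor
  · intro h i
    rw [← hT i N, Theory.model_iff]
    exact fun φ hφ => h φ i hφ
  · intro h φ i hφ
    have := (hT i N).2 (h i)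
    rw [Theory.model_iff] at this
    exact this φ hφ

theorem Axb.allProp {p : Prop} {C : ∀ N : Type, (Sym → List N → Prop) → Prop}
    (h : p → Axb ar C) : Axb ar (fun N H => p → C N H) := by
  by_cases hp : p
  · obtain ⟨T, hT⟩ := h hp
    exact ⟨T, fun N _ S => by rw [hT]; simp [hp]⟩
  · exact ⟨∅, fun N _ S => by simp [hp]⟩

theorem Axb.and {C D : ∀ N : Type, (Sym → List N → Prop) → Prop}
    (hC : Axb ar C) (hD : Axb ar D) : Axb ar (fun N H => C N H ∧ D N H) := by
  obtain ⟨T, hT⟩ := hC
  obtain ⟨T', hT'⟩ := hD
  refine ⟨T ∪ T', fun N _ S => ?_⟩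
  rw [Theory.model_union_iff, hT, hT']

theorem Axb.congr {C D : ∀ N : Type, (Sym → List N → Prop) → Prop}
    (hC : Axb ar C) (h : ∀ (N : Type) [Nonempty N] (S : (sig (ari ar)).Structure N),
      C N (HN S) ↔ D N (HN S)) : Axb ar D := by
  obtain ⟨T, hT⟩ := hC
  exact ⟨T, fun N _ S => (hT N).trans (h N S)⟩

/-- A property given by the universal closure of a formula is axiomatizable. -/
theorem Axb.form (φ : Fo ar) {C : ∀ N : Type, (Sym → List N → Prop) → Prop}
    (h : ∀ (N : Type) [Nonempty N] [S : (sig (ari ar)).Structure N],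
      (∀ v : ℕ → N, φ.Realize v) ↔ C N (HN S)) : Axb ar C := by
  obtain ⟨σ, hσ⟩ := exists_sentence φ
  refine ⟨{σ}, fun N _ S => ?_⟩
  rw [← h, ← hσ]
  simp [Theory.model_iff]

end Pool.Agent.Work.MP_ed0a9a_lc
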