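import Pool.Agent.Work.MP_ed0a9a_lc.GoodU

/-!
# Module `GoodUQ`: the structures `U P J` satisfy `GQ`, `GR`, hence `Good`

* `LGH_map_d`: `LGH (relM P J) (l.map .d) c ↔ LG l c` (`List.pairwise_map`; for two points
  `p, p'`: `(∀ g < c, ¬ p' = sh g p) ↔ (p.2 = p'.2 → c ≤ p.1 ^^^ p'.1)` because `p' = sh g p` iff
  `p.2 = p'.2` and `g = p.1 ^^^ p'.1`).  Hence `lvH_map_d` (`lv_congr`).
* `missH_iff`: from `lvH_map_d`, `List.map_ofFn`, `List.getD_map`-type lemmas
  (`(o :: ofFn (.d ∘ x)) = (bs :: ofFn x).map .d`, so `getD` commutes with `.d`,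
  `List.map_take`).
* `GQ`: both directions by cases on `τ, τ'`; note `miss P k x z n` is exactly `missH` at the
  base point.  In the direction `→` take the `x` of `τ`, `d' := x' (Fin.last _)`,
  `o := .d bs`; in the direction `←` the coordinates of `τ` determine `x` (`P j` relations),
  and for `τ'` the coordinates `j < K` and `j = K`.
* `GR`: `l` with all entries in `SD` is `l'.map .d` (`List.map` of a choice; induction on `l`).
-/

namespace Pool.Agent.Work.MP_ed0a9a_lc

private theorem goodUQ_xor {g : ℕ} {J : Type} {p p' : Pt J} :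
    p' = sh g p ↔ p.2 = p'.2 ∧ g = p.1 ^^^ p'.1 := by
  obtain ⟨a, r⟩ := p
  obtain ⟨b, r'⟩ := p'
  unfold sh
  constructor
  · intro h
    have h1 : b = a ^^^ g := congrArg Prod.fst h
    have h2 : r' = r := congrArg Prod.snd h
    refine ⟨h2.symm, ?_⟩
    show g = a ^^^ b
    rw [h1, ← Nat.xor_assoc, Nat.xor_self, Nat.zero_xor]
  · rintro ⟨h1, h2⟩
    have h1' : r = r' := h1
    have h2' : g = a ^^^ b := h2
    subst h1' h2'
    show (b, r) = (a ^^^ (a ^^^ b), r)
    rw [← Nat.xor_assoc, Nat.xor_self, Nat.zero_xor]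

theorem LGH_map_d (P : Par) (J : Type) (l : List (Pt J)) (c : ℕ) :
    LGH (relM P J) (l.map U.d) c ↔ LG l c := by
  unfold LGH LG
  rw [List.pairwise_map]
  have key : ∀ p p' : Pt J, (∀ g < c, ¬ relM P J (.Tr g) [.d p, .d p']) ↔
      (p.2 = p'.2 → c ≤ p.1 ^^^ p'.1) := by
    intro p p'
    constructor
    · intro h e
      by_contra hlt
      exact h (p.1 ^^^ p'.1) (not_le.1 hlt) (goodUQ_xor.2 ⟨e, rfl⟩)
    · intro h g hg hr
      have hr' : p' = sh g p := hr
      obtain ⟨e1, e2⟩ := goodUQ_xor.1 hr'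
      have := h e1
      omega
  constructor
  · intro h
    exact h.imp (fun h => (key _ _).1 h)
  · intro h
    exact h.imp (fun h => (key _ _).2 h)

theorem lvH_map_d (P : Par) (J : Type) (l : List (Pt J)) :
    lvH (relM P J) (l.map U.d) = lvl l := by
  unfold lvH lvl
  exact lv_congr (fun c => LGH_map_d P J l c)

theorem missH_iff (P : Par) (J : Type) (k n : ℕ) (x : Fin (P.K + 1) → Pt J) (z : Pt J) :
    missH (relM P J) P k n (.d bs) (fun j => .d (x j)) (.d z) ↔ miss P k x z n := by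
  unfold missH miss
  have e : (U.d bs :: List.ofFn (fun j => U.d (x j)) : List (U P J)) =
      (bs :: List.ofFn x).map U.d := by
    rw [List.map_cons, List.map_ofFn]
    rfl
  rw [e, List.getD_map, ← List.map_take, lvH_map_d]
  rfl

private theorem goodUQ_SD {P : Par} {J : Type} {y : U P J} (h : relM P J .SD [y]) :
    ∃ p, y = .d p := by
  cases y with
  | d p => exact ⟨p, rfl⟩
  | t k hk x z => exact h.elim
  | w k hk x z z' h' => exact h.elim

private theorem goodUQ_ST {P : Par} {J : Type} {k : ℕ} {y : U P J} (h : relM P J (.ST k) [y]) :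
    ∃ hk x z, y = .t k hk x z := by
  cases y with
  | d p => exact h.elim
  | t k' hk x z =>
    have h' : k = k' := h
    subst h'
    exact ⟨hk, x, z, rfl⟩
  | w k hk x z z' h' => exact h.elim

private theorem goodUQ_Z {P : Par} {J : Type} {x : U P J}
    (h : relM P J .Z [x]) : x = .d bs := by
  cases x <;> first | exact h.elim | skip
  rename_i p
  have h' : p = bs := h
  rw [h']

private theorem goodUQ_P {P : Par} {J : Type} {j k : ℕ} {hk : k ∈ P.F}
    {x : Fin (P.K + 1) → Pt J} {z : Pt J} {y : U P J}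
    (h : relM P J (.P j) [.t k hk x z, y]) :
      ∃ hj : j < P.K + 1, y = .d (x ⟨j, hj⟩) := by
  cases y <;> first | exact h.elim | skip
  rename_i p
  have h' : ∃ hj : j < P.K + 1, x ⟨j, hj⟩ = p := h
  obtain ⟨hj, e⟩ := h'
  exact ⟨hj, by rw [e]⟩

private theorem goodUQ_map {P : Par} {J : Type} (l : List (U P J))
    (h : ∀ x ∈ l, relM P J .SD [x]) : ∃ l' : List (Pt J), l = l'.map U.d := by
  induction l with
  | nil => exact ⟨[], rfl⟩
  | cons a l ih =>
    obtain ⟨l', e⟩ := ih (fun x hx => h x (List.mem_cons_of_mem _ hx))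
    obtain ⟨p, e'⟩ := goodUQ_SD (h a List.mem_cons_self)
    exact ⟨p :: l', by rw [List.map_cons, e, e']⟩

theorem goodU_q (P : Par) (J : Type) : GQ (relM P J) P := by
  intro n τ τ'
  constructor
  · intro h
    cases τ <;> cases τ' <;> first | exact h.elim | skip
    rename_i k hk x z k' hk' x' z'
    have h' : k = k' ∧ z = z' ∧ (∀ j : Fin (P.K + 1), j.1 < P.K → x' j = x j) ∧
        x' (Fin.last P.K) = sh (2 ^ n) (x (Fin.last P.K)) ∧ ¬ miss P k x z n := h
    obtain ⟨rfl, rfl, h1, h2, h3⟩ := h'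
    refine ⟨k, hk, fun j => .d (x j), .d (x' (Fin.last P.K)), .d z, .d bs, rfl, rfl,
      fun j => ⟨j.2, rfl⟩, fun j hj => ⟨j.2, h1 j hj⟩, ⟨Nat.lt_succ_self _, rfl⟩, h2,
      (hz_iff P J k hk x z _).2 rfl, (hz_iff P J k hk' x' z _).2 rfl, rfl, ?_⟩
    rw [missH_iff]
    exact h3
  · rintro ⟨k, hk, x, d', z, o, h1, h2, h3, h4, h5, h6, h7, h8, h9, h10⟩
    obtain ⟨hk1, x1, z1, rfl⟩ := goodUQ_ST h1
    obtain ⟨hk2, x2, z2, rfl⟩ := goodUQ_ST h2
    rw [hz_iff] at h7 h8
    subst h7
    have hz : z1 = z2 := by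
      cases h8
      rfl
    subst hz
    have hx : x = fun j => .d (x1 j) := by
      funext j
      obtain ⟨_, e⟩ := goodUQ_P (h3 j)
      exact e
    subst hx
    have ho := goodUQ_Z h9
    subst ho
    rw [missH_iff] at h10
    obtain ⟨hj, rfl⟩ := goodUQ_P h5
    have h6' : x2 ⟨P.K, hj⟩ = sh (2 ^ n) (x1 (Fin.last P.K)) := h6
    refine ⟨rfl, rfl, ?_, h6', h10⟩
    intro j hjK
    obtain ⟨_, e⟩ := goodUQ_P (h4 j hjK)
    have e' := e
    injection e' with e'
    exact e'.symm

theorem goodU_r (P : Par) (J : Type) : GR (relM P J) P := by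
  intro e j l hl
  constructor
  · intro h
    have h' : l.length = P.ar e ∧ ∃ l' : List (Pt J), l = l'.map U.d ∧
      ∃ t, P.kb e j t = true ∧ (t : ℕ∞) ≤ lvl (bs :: l') := h
    obtain ⟨_, l', rfl, t, ht, ht'⟩ := h'
    refine ⟨?_, .d bs, rfl, t, ht, ?_⟩
    · intro x hx
      rw [List.mem_map] at hx
      obtain ⟨p, _, rfl⟩ := hx
      trivial
    · have := lvH_map_d P J (bs :: l')
      rw [List.map_cons] at this
      rw [this]
      exact ht'
  · rintro ⟨h1, o, ho, t, ht, ht'⟩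
    obtain ⟨l', rfl⟩ := goodUQ_map l h1
    have ho' := goodUQ_Z ho
    subst ho'
    have := lvH_map_d P J (bs :: l')
    rw [List.map_cons] at this
    rw [this] at ht'
    exact ⟨hl, l', rfl, t, ht, ht'⟩

theorem goodU (P : Par) (J : Type) : Good (relM P J) P :=
  ⟨goodU_sort P J, goodU_tr P J, goodU_pw P J, goodU_t P J, goodU_q P J, goodU_r P J⟩

end Pool.Agent.Work.MP_ed0a9a_lc
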