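import Pool.Agent.Work.MP_ed0a9a_lc.Cat
import Pool.Agent.Work.MP_ed0a9a_lc.GoodUQ
import Pool.Agent.Work.MP_ed0a9a_lc.Form

/-!
# Module `Elem`: standard embeddings are elementary

* `emb_std`: let `F : U P I ↪ₑ U P J`.  There are an injective `f : I → J` and a bijective `Eqv`
  map `α : Pt J → Pt J` such that `F x = uMap α (uMap (stdP f) x)` for all `x`.
  Proof: `F` preserves `HN = relM` (`rel_of_embedding` with `F.toEmbedding`, `HN_strU`), so
  `F (.d p) = .d (φ p)`, with `φ (sh g p) = sh g (φ p)` (`Tr g`), `φ bs = bs` (`Z`), and points in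
  different components go to different components (`¬ Tr g` for all `g`).  In particular
  `φ (g, none) = (g, none)` (`= sh g (φ bs)`), `φ (0, some i)` is not in the base component, say
  `φ (0, some i) = (a i, some (f i))`, so `φ (g, some i) = (g ^^^ a i, some (f i))` and `f` is
  injective.  Let `b j = a i` if `j = f i`, `b j = 0` if `j` is not in the range of `f`, and
  `α (g, none) = (g, none)`, `α (g, some j) = (g ^^^ b j, some j)`: an involution, `Eqv`.
  Then `φ = α ∘ stdP f`.
  Sort `T`: `F (.t k hk x z) = .t k' hk' x' z'`: `k' = k` (`ST k`), `x' = φ ∘ x` (`P j`),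
  `z' = φ z`: `hz` is preserved by elementary embeddings: by `hz_iff` and the formula
  `∃ w (Wt [w, τ] ∧ Wz [w, z])`: `F` preserves the truth of formulas
  (`ElementaryEmbedding.map_formula`); use the formula
  `exv 2 (rl .Wt [2, 0] ⊓ rl .Wz [2, 1])` and `realize_exv`, `realize_rl` from `Form`
  (with `v := fun n => if n = 0 then τ else z`): there is no `w` over `(τ, z)` in `U P I`,
  so there is no `w` over `(F τ, .d (φ z))`, so `.d (φ z)` is the hidden coordinate of `F τ`.
  Sort `W`: `Wt`, `Wz`.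
* `std_elem`: for `f : I → J` injective and `J` countable (then `I` countable) the map
  `uMap (stdP f)` is an elementary embedding.
  Proof: by `exists_elementaryEmbedding_card_eq_of_ge` there is `N` with `U P J ↪ₑ N`, `mk N = ℵ₁`;
  `N ⊨ T` so `N ≅ U P J'`, `mk J' = ℵ₁` (as in `categorical_aleph1`).  So there is
  `F : U P J ↪ₑ U P J'`, and by `emb_std` `F = uMap α ∘ uMap (stdP h)`, so `uMap (stdP h)` is
  elementary too (compose with the isomorphism given by `uEquiv` for `α`; `α` is an involution).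
  In the same way (for `I`, the same `J'` up to a bijection `std_equiv`) there is an injective
  `f' : I → J'` with `uMap (stdP f')` elementary.  Now `h ∘ f` and `f'` are two injections of the
  countable `I` into the uncountable `J'`; their ranges have complements of cardinality `ℵ₁`, so
  there is a permutation `σ` of `J'` with `σ ∘ f' = h ∘ f`.  So
  `uMap (stdP (h ∘ f)) = uMap (stdP σ) ∘ uMap (stdP f')` is elementary.
  Since `uMap (stdP h) ∘ uMap (stdP f)` and `uMap (stdP h)` are elementary, `uMap (stdP f)` is: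
  `φ(v) ↔ φ(h f v) ↔ φ(f v)`.
-/

namespace Pool.Agent.Work.MP_ed0a9a_lc

open FirstOrder FirstOrder.Language Cardinal

private theorem relM_Tr (P : Par) (J : Type) (g : ℕ) (u u' : U P J) :
    relM P J (.Tr g) [u, u'] ↔ ∃ p, u = .d p ∧ u' = .d (sh g p) := by
  rcases u with p | ⟨k, hk, x, z⟩ | ⟨k, hk, x, z, z', hne⟩ <;>
    rcases u' with p' | ⟨l, hl, y, t⟩ | ⟨l, hl, y, t, t', hne'⟩ <;> simp [relM]

private theorem sh_same {J : Type} (p p' : Pt J) (h : p.2 = p'.2) :
    p' = sh (p.1 ^^^ p'.1) p := by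
  ext1
  · simp only [sh]
    rw [← Nat.xor_assoc, Nat.xor_self, Nat.zero_xor]
  · exact h.symm

theorem emb_std (P : Par) {I J : Type} (F : U P I ↪ₑ[sig (ari P.ar)] U P J) :
    ∃ (f : I → J) (hf : Function.Injective f) (α : Pt J → Pt J) (hα : Eqv α),
      Function.Involutive α ∧
      ∀ x, F x = uMap P α hα.inj (uMap P (stdP f) (eqv_stdP f hf).inj x) := by
  classical
  have hR : ∀ s l, relM P J s (l.map F) ↔ relM P I s l := by
    intro s l
    have := rel_of_embedding F.toEmbedding s l
    rw [HN_strU, HN_strU] at this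
    exact this
  have hd : ∀ p, ∃ p', F (.d p) = .d p' := by
    intro p
    have h1 := (hR .SD [.d p]).2 (by simp [relM])
    rw [List.map_singleton] at h1
    rcases hF : F (.d p) with p' | ⟨k, hk, x, z⟩ | ⟨k, hk, x, z, z', hne⟩
    · exact ⟨p', rfl⟩
    · rw [hF] at h1; simp [relM] at h1
    · rw [hF] at h1; simp [relM] at h1
  choose φ hφ using hd
  have hsh : ∀ g p, φ (sh g p) = sh g (φ p) := by
    intro g p
    have h1 := (hR (.Tr g) [.d p, .d (sh g p)]).2 ((relM_Tr P I g _ _).2 ⟨p, rfl, rfl⟩)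
    rw [List.map_cons, List.map_singleton, relM_Tr] at h1
    obtain ⟨p', h2, h3⟩ := h1
    rw [hφ] at h2 h3
    injection h2 with h2
    injection h3 with h3
    rw [h3, h2]
  have hbs : φ bs = bs := by
    have h1 := (hR .Z [.d bs]).2 (by simp [relM])
    rw [List.map_singleton, hφ] at h1
    simpa [relM] using h1
  have hcomp : ∀ p p', (φ p).2 = (φ p').2 → p.2 = p'.2 := by
    intro p p' h
    have h1 := sh_same _ _ h
    have h2 : relM P J (.Tr ((φ p).1 ^^^ (φ p').1)) [F (.d p), F (.d p')] := by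
      rw [relM_Tr, hφ, hφ]
      exact ⟨φ p, rfl, by rw [← h1]⟩
    have h3 := (hR (.Tr ((φ p).1 ^^^ (φ p').1)) [.d p, .d p']).1 h2
    rw [relM_Tr] at h3
    obtain ⟨p'', h4, h5⟩ := h3
    injection h4 with h4
    injection h5 with h5
    rw [h5, h4]
    rfl
  have hnone : ∀ g, φ (g, none) = (g, none) := by
    intro g
    have h1 : ((g, none) : Pt I) = sh g bs := by simp [sh, bs]
    have h2 : ((g, none) : Pt J) = sh g bs := by simp [sh, bs]
    rw [h1, hsh, hbs, ← h2]
  have hsome : ∀ i : I, ∃ (a : ℕ) (j : J), φ (0, some i) = (a, some j) := by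
    intro i
    rcases h1 : φ (0, some i) with ⟨a, _ | j⟩
    · exfalso
      have h2 : (φ (0, some i)).2 = (φ bs).2 := by rw [h1, hbs]; rfl
      have := hcomp _ _ h2
      simp [bs] at this
    · exact ⟨a, j, rfl⟩
  choose a f haf using hsome
  have hφs : ∀ g i, φ (g, some i) = (g ^^^ a i, some (f i)) := by
    intro g i
    have h1 : ((g, some i) : Pt I) = sh g (0, some i) := by simp [sh]
    rw [h1, hsh, haf]
    simp only [sh]
    rw [Nat.xor_comm]
  have hf : Function.Injective f := by
    intro i i' h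
    have h2 : (φ (0, some i)).2 = (φ (0, some i')).2 := by rw [haf, haf, h]
    have := hcomp _ _ h2
    simpa using this
  let b : J → ℕ := fun j => if h : ∃ i, f i = j then a h.choose else 0
  have hb : ∀ i, b (f i) = a i := by
    intro i
    have hex : ∃ i', f i' = f i := ⟨i, rfl⟩
    simp only [b]
    rw [dif_pos hex, hf hex.choose_spec]
  let α : Pt J → Pt J := fun p => match p.2 with
    | none => p
    | some j => (p.1 ^^^ b j, p.2)
  have α_none : ∀ g, α (g, none) = (g, none) := fun g => rfl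
  have α_some : ∀ g j, α (g, some j) = (g ^^^ b j, some j) := fun g j => rfl
  have α_snd : ∀ p, (α p).2 = p.2 := by
    rintro ⟨g, _ | j⟩
    · rfl
    · rfl
  have hα : Eqv α := by
    refine ⟨?_, rfl, ?_⟩
    · rintro g ⟨g', _ | j⟩
      · rfl
      · simp only [sh, α_some]
        ext1
        · simp only
          rw [Nat.xor_assoc, Nat.xor_comm g, ← Nat.xor_assoc]
        · rfl
    · intro p p'
      rw [α_snd, α_snd]
  have hinv : Function.Involutive α := by
    rintro ⟨g, _ | j⟩
    · rfl
    · have h1 : α (α (g, some j)) = α (g ^^^ b j, some j) := congrArg α (α_some g j)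
      rw [h1, α_some (g ^^^ b j) j, Nat.xor_assoc, Nat.xor_self, Nat.xor_zero]
  have hφα : ∀ p, φ p = α (stdP f p) := by
    rintro ⟨g, _ | i⟩
    · rw [hnone]; rfl
    · rw [hφs]
      simp only [stdP, Option.map_some, α_some, hb]
  refine ⟨f, hf, α, hα, hinv, ?_⟩
  -- the sorts `T k`
  have ht : ∀ k hk x z, F (.t k hk x z) = .t k hk (φ ∘ x) (φ z) := by
    intro k hk x z
    have h1 := (hR (.ST k) [.t k hk x z]).2 (by simp [relM])
    rw [List.map_singleton] at h1
    rcases hF : F (.t k hk x z) with p' | ⟨k', hk', x', z'⟩ | ⟨k', hk', x', z', z'', hne⟩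
    · rw [hF] at h1; simp [relM] at h1
    · rw [hF] at h1
      have hkk : k = k' := by simpa [relM] using h1
      subst hkk
      have hx : x' = φ ∘ x := by
        funext j
        have h2 := (hR (.P j.1) [.t k hk x z, .d (x j)]).2 (by
          simp only [relM]
          exact ⟨j.2, trivial⟩)
        rw [List.map_cons, List.map_singleton, hF, hφ] at h2
        simp only [relM] at h2
        obtain ⟨_, h2⟩ := h2
        exact h2
      have hz : z' = φ z := by
        have h3 : ¬ (exv 2 (rl .Wt [2, 0] ⊓ rl .Wz [2, 1]) : Fo P.ar).Realize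
            (fun n => if n = 0 then (U.t k hk x z : U P I) else .d z) := by
          rw [realize_exv]
          rintro ⟨w, hw⟩
          rw [Formula.realize_inf, realize_rl, realize_rl, HN_strU] at hw
          obtain ⟨hw1, hw2⟩ := hw
          simp at hw1 hw2
          have h4 := (hz_iff P I k hk x z (.d z)).2 rfl
          exact h4.2 ⟨w, hw1, hw2⟩
        rw [← F.map_formula, realize_exv] at h3
        have h5 : hz (relM P J) (.t k hk' x' z') (.d (φ z)) := by
          refine ⟨by simp [relM], ?_⟩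
          rintro ⟨w, hw1, hw2⟩
          apply h3
          refine ⟨w, ?_⟩
          rw [Formula.realize_inf, realize_rl, realize_rl, HN_strU]
          constructor
          · simpa [hF] using hw1
          · simpa [hφ] using hw2
        have h6 := (hz_iff P J k hk' x' z' _).1 h5
        injection h6 with h6
        exact h6.symm
      rw [hx, hz]
    · rw [hF] at h1; simp [relM] at h1
  have key : ∀ (p p' : Pt J), p = p' → U.d (P := P) p = U.d p' := fun _ _ h => by rw [h]
  intro u
  rcases u with p | ⟨k, hk, x, z⟩ | ⟨k, hk, x, z, z', hne⟩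
  · rw [hφ, hφα]
    rfl
  · rw [ht]
    have h1 : φ ∘ x = α ∘ (stdP f ∘ x) := by
      funext j
      exact hφα _
    rw [h1, hφα z]
    rfl
  · have h1 := (hR .SW [.w k hk x z z' hne]).2 (by simp [relM])
    rw [List.map_singleton] at h1
    rcases hF : F (.w k hk x z z' hne) with p' | ⟨k2, hk2, x2, z2⟩ | ⟨k2, hk2, x2, z2, z2', hne2⟩
    · rw [hF] at h1; simp [relM] at h1
    · rw [hF] at h1; simp [relM] at h1
    · have h2 := (hR .Wt [.w k hk x z z' hne, .t k hk x z]).2 (by simp [relM])
      rw [List.map_cons, List.map_singleton, hF, ht] at h2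
      have h3 := (hR .Wz [.w k hk x z z' hne, .d z']).2 (by simp [relM])
      rw [List.map_cons, List.map_singleton, hF, hφ] at h3
      simp only [relM] at h2 h3
      obtain ⟨rfl, rfl, rfl⟩ := h2
      subst h3
      have e1 : φ ∘ x = α ∘ (stdP f ∘ x) := by
        funext j
        exact hφα _
      have e2 := hφα z
      have e3 := hφα z'
      simp only [uMap]
      congr 1

/-- Bijective equivariant maps preserve formulas. -/
private theorem realize_uMap (P : Par) {I J : Type} (φ : Pt I → Pt J) (h : Eqv φ)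
    (hs : Function.Surjective φ) {β : Type} (ψ : (sig (ari P.ar)).Formula β) (v : β → U P I) :
    ψ.Realize (uMap P φ h.inj ∘ v) ↔ ψ.Realize v := by
  obtain ⟨F, hF⟩ := uEquiv P φ h hs
  have : uMap P φ h.inj ∘ v = F ∘ v := by
    funext x
    exact (hF (v x)).symm
  rw [this]
  exact StrongHomClass.realize_formula F ψ

private theorem big (P : Par) (T : (sig (ari P.ar)).Theory)
    (hT : ∀ (N : Type) [Nonempty N] [S : (sig (ari P.ar)).Structure N], N ⊨ T →
      ∃ J : Type, Nonempty (U P J ≃[sig (ari P.ar)] N))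
    (hU : ∀ J : Type, U P J ⊨ T) (I : Type) [Countable I] :
    ∃ J : Type, Cardinal.mk J = Cardinal.aleph 1 ∧
      Nonempty (U P I ↪ₑ[sig (ari P.ar)] U P J) := by
  have h0 : ℵ₀ ≤ Cardinal.aleph 1 := Cardinal.aleph0_le_aleph 1
  obtain ⟨N, ⟨F⟩, hN⟩ := exists_elementaryEmbedding_card_eq_of_ge (sig (ari P.ar)) (U P I)
    (Cardinal.aleph 1 : Cardinal.{0})
    (by
      rw [Cardinal.lift_id, Cardinal.lift_id]
      exact (card_sig _).trans h0)
    (by
      rw [Cardinal.lift_id, Cardinal.lift_id]
      exact (Cardinal.mk_le_aleph0_iff.2 inferInstance).trans h0)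
  have hNT : N ⊨ T := (F.elementarilyEquivalent.theory_model_iff).1 (hU I)
  have : Nonempty N := ⟨F (.d bs)⟩
  obtain ⟨J, ⟨G⟩⟩ := hT N hNT
  have hUJ : Cardinal.mk (U P J) = Cardinal.aleph 1 := by
    rw [← hN]
    exact Cardinal.mk_congr G.toEquiv
  have hJinf : Infinite J := by
    by_contra hfin
    rw [not_infinite_iff_finite] at hfin
    have h1 : Cardinal.mk (U P J) ≤ ℵ₀ := Cardinal.mk_le_aleph0_iff.2 inferInstance
    rw [hUJ] at h1
    exact absurd h1 (not_le.2 Cardinal.aleph0_lt_aleph_one)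
  refine ⟨J, ?_, ⟨G.symm.toElementaryEmbedding.comp F⟩⟩
  rw [← card_U P J, hUJ]

/-- Two injections of a countable type into an uncountable one differ by a permutation. -/
private theorem exists_perm {I J : Type} [Countable I] (hJ : Cardinal.mk J = Cardinal.aleph 1)
    (f g : I → J) (hf : Function.Injective f) (hg : Function.Injective g) :
    ∃ σ : J ≃ J, ∀ i, σ (f i) = g i := by
  classical
  have hinf : Infinite J := by
    rw [Cardinal.infinite_iff, hJ]
    exact Cardinal.aleph0_le_aleph 1
  have hlt : ∀ h : I → J, Cardinal.mk (Set.range h) < Cardinal.mk J := by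
    intro h
    rw [hJ]
    refine lt_of_le_of_lt ?_ Cardinal.aleph0_lt_aleph_one
    exact Cardinal.mk_le_aleph0_iff.2 (Set.countable_range h).to_subtype
  have hc : Cardinal.mk ((Set.range f)ᶜ : Set J) = Cardinal.mk ((Set.range g)ᶜ : Set J) := by
    rw [Cardinal.mk_compl_of_infinite _ (hlt f), Cardinal.mk_compl_of_infinite _ (hlt g)]
  obtain ⟨e2⟩ := Cardinal.eq.1 hc
  let e1 : Set.range f ≃ Set.range g := (Equiv.ofInjective f hf).symm.trans (Equiv.ofInjective g hg)
  refine ⟨(Equiv.Set.sumCompl (Set.range f)).symm.trans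
    ((Equiv.sumCongr e1 e2).trans (Equiv.Set.sumCompl (Set.range g))), fun i => ?_⟩
  have hmem : f i ∈ Set.range f := ⟨i, rfl⟩
  rw [Equiv.trans_apply, Equiv.Set.sumCompl_symm_apply_of_mem hmem, Equiv.trans_apply,
    Equiv.sumCongr_apply, Sum.map_inl, Equiv.Set.sumCompl_apply_inl]
  simp only [e1, Equiv.trans_apply]
  rw [Equiv.ofInjective_symm_apply]
  rfl

theorem std_elem (P : Par) (T : (sig (ari P.ar)).Theory)
    (hT : ∀ (N : Type) [Nonempty N] [S : (sig (ari P.ar)).Structure N], N ⊨ T →
      ∃ J : Type, Nonempty (U P J ≃[sig (ari P.ar)] N))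
    (hU : ∀ J : Type, U P J ⊨ T) {I J : Type} [Countable J] (f : I → J)
    (hf : Function.Injective f) : Nonempty (U P I ↪ₑ[sig (ari P.ar)] U P J) := by
  have : Countable I := hf.countable
  obtain ⟨J1, hJ1, ⟨F1⟩⟩ := big P T hT hU J
  obtain ⟨J2, hJ2, ⟨F2⟩⟩ := big P T hT hU I
  obtain ⟨e⟩ := Cardinal.eq.1 (hJ2.trans hJ1.symm)
  obtain ⟨E⟩ := std_equiv P e
  obtain ⟨h, hh, α, hα, hinv, hF1⟩ := emb_std P F1
  obtain ⟨f', hf', α', hα', hinv', hF2⟩ := emb_std P (E.toElementaryEmbedding.comp F2)
  obtain ⟨σ, hσ⟩ := exists_perm hJ1 f' (h ∘ f) hf' (hh.comp hf)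
  have H1 : ∀ (n : ℕ) (ψ : (sig (ari P.ar)).Formula (Fin n)) (y : Fin n → U P J),
      ψ.Realize (uMap P (stdP h) (eqv_stdP h hh).inj ∘ y) ↔ ψ.Realize y := by
    intro n ψ y
    rw [← realize_uMap P α hα hinv.surjective, ← F1.map_formula ψ y]
    have : F1 ∘ y = uMap P α hα.inj ∘ (uMap P (stdP h) (eqv_stdP h hh).inj ∘ y) := by
      funext t
      exact hF1 _
    rw [this]
  have H2 : ∀ (n : ℕ) (ψ : (sig (ari P.ar)).Formula (Fin n)) (y : Fin n → U P I),
      ψ.Realize (uMap P (stdP f') (eqv_stdP f' hf').inj ∘ y) ↔ ψ.Realize y := by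
    intro n ψ y
    rw [← realize_uMap P α' hα' hinv'.surjective,
      ← (E.toElementaryEmbedding.comp F2).map_formula ψ y]
    have : (E.toElementaryEmbedding.comp F2) ∘ y =
        uMap P α' hα'.inj ∘ (uMap P (stdP f') (eqv_stdP f' hf').inj ∘ y) := by
      funext t
      exact hF2 _
    rw [this]
  have hσs : Function.Surjective (stdP σ) := by
    rintro ⟨g, _ | j⟩
    · exact ⟨(g, none), rfl⟩
    · exact ⟨(g, some (σ.symm j)), by simp [stdP]⟩
  have hcomp : ∀ x, uMap P (stdP σ) (eqv_stdP σ σ.injective).inj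
      (uMap P (stdP f') (eqv_stdP f' hf').inj x) =
      uMap P (stdP h) (eqv_stdP h hh).inj (uMap P (stdP f) (eqv_stdP f hf).inj x) := by
    intro x
    have h1 : (stdP σ ∘ stdP f' : Pt I → Pt J1) = stdP h ∘ stdP f := by
      funext p
      rcases p with ⟨g, _ | i⟩
      · rfl
      · simp only [stdP, Function.comp, Option.map_some]
        rw [hσ]
        rfl
    have a1 := uMap_comp P (stdP f') (stdP σ) (eqv_stdP f' hf').inj
      (eqv_stdP σ σ.injective).inj x
    have a2 := uMap_comp P (stdP f) (stdP h) (eqv_stdP f hf).inj (eqv_stdP h hh).inj x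
    rw [← a1, ← a2]
    congr 1
  refine ⟨⟨uMap P (stdP f) (eqv_stdP f hf).inj, ?_⟩⟩
  intro n ψ x
  have a := H1 n ψ (uMap P (stdP f) (eqv_stdP f hf).inj ∘ x)
  have b := realize_uMap P (stdP σ) (eqv_stdP σ σ.injective) hσs ψ
    (uMap P (stdP f') (eqv_stdP f' hf').inj ∘ x)
  have : uMap P (stdP h) (eqv_stdP h hh).inj ∘ uMap P (stdP f) (eqv_stdP f hf).inj ∘ x =
      uMap P (stdP σ) (eqv_stdP σ σ.injective).inj ∘
        (uMap P (stdP f') (eqv_stdP f' hf').inj ∘ x) := by
    funext t
    exact (hcomp _).symm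
  rw [this] at a
  exact a.symm.trans (b.trans (H2 n ψ x))

/-- Elementary embeddability between the countable models. -/
theorem elem_iff (P : Par) (T : (sig (ari P.ar)).Theory)
    (hT : ∀ (N : Type) [Nonempty N] [S : (sig (ari P.ar)).Structure N], N ⊨ T →
      ∃ J : Type, Nonempty (U P J ≃[sig (ari P.ar)] N))
    (hU : ∀ J : Type, U P J ⊨ T) (i j : ℕ∞) :
    Nonempty (U P (Jt i) ↪ₑ[sig (ari P.ar)] U P (Jt j)) ↔ i ≤ j := by
  constructor
  · rintro ⟨F⟩
    obtain ⟨f, hf, -⟩ := emb_std P F
    by_contra hij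
    have hji : j < i := not_le.1 hij
    obtain ⟨m, rfl⟩ := ENat.ne_top_iff_exists.1 (ne_top_of_lt hji)
    have hlt : ∀ r : Fin (m + 1), ((r.1 : ℕ) : ℕ∞) < i := by
      intro r
      refine lt_of_le_of_lt ?_ hji
      exact_mod_cast Nat.lt_succ_iff.1 r.2
    have h1 : Function.Injective (fun r : Fin (m + 1) =>
        (⟨(f ⟨r.1, hlt r⟩).1, by exact_mod_cast (f ⟨r.1, hlt r⟩).2⟩ : Fin m)) := by
      intro r r' h
      have h2 := congrArg Fin.val h
      simp only at h2
      have h3 := hf (Subtype.ext h2)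
      exact Fin.ext (congrArg Subtype.val h3)
    have := Fintype.card_le_of_injective _ h1
    simp at this
  · intro hij
    refine std_elem P T hT hU (fun r : Jt i => (⟨r.1, lt_of_lt_of_le r.2 hij⟩ : Jt j)) ?_
    intro r r' h
    have h1 := congrArg Subtype.val h
    exact Subtype.ext h1

/-- Every countable type is in bijection with some `Jt i`. -/
theorem exists_Jt (J : Type) [Countable J] : ∃ i : ℕ∞, Nonempty (J ≃ Jt i) := by
  rcases finite_or_infinite J with hfin | hinf
  · obtain ⟨n, ⟨e⟩⟩ := Finite.exists_equiv_fin J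
    refine ⟨n, ⟨e.trans ?_⟩⟩
    exact {
      toFun := fun r => ⟨r.1, by exact_mod_cast r.2⟩
      invFun := fun r => ⟨r.1, by exact_mod_cast r.2⟩
      left_inv := fun r => rfl
      right_inv := fun r => rfl }
  · obtain ⟨d⟩ := nonempty_denumerable J
    refine ⟨⊤, ⟨(Denumerable.eqv J).trans ?_⟩⟩
    exact {
      toFun := fun r => ⟨r, ENat.natCast_lt_top r⟩
      invFun := fun r => r.1
      left_inv := fun r => rfl
      right_inv := fun r => rfl }

end Pool.Agent.Work.MP_ed0a9a_lc
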