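import Pool.Agent.Work.MP_ed0a9a_lc.Lvl
import Pool.Agent.Work.MP_ed0a9a_lc.StrU

/-!
# Module `GoodU`: the structures `U P J` satisfy `GSort`, `GTr`, `GPW`, `GT`

All fields by cases on the elements (`cases x` / `rcases`), `simp [relM]`.
Facts: `relM (.Tr g) [x, y]` iff `x = .d p`, `y = .d (sh g p)`;
`hz (relM P J) (.t k hk x z) y ↔ y = .d z` (`hz_iff`): the `w : U.w k hk x z p h` exists iff
`p ≠ z`.  `tr_comp`: xor is associative (`Nat.xor_assoc`).  `tr_free`: `p.1 ^^^ g = p.1 → g = 0`.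
`t_ex`: `x j = .d (x' j)` (choose), `τ := .t k hk x' z'`.
Base point: `.d bs`.
-/

namespace Pool.Agent.Work.MP_ed0a9a_lc

private theorem goodU_SD {P : Par} {J : Type} {y : U P J} (h : relM P J .SD [y]) :
    ∃ p, y = .d p := by
  cases y with
  | d p => exact ⟨p, rfl⟩
  | t k hk x z => exact h.elim
  | w k hk x z z' h' => exact h.elim

private theorem goodU_SW {P : Par} {J : Type} {y : U P J} (h : relM P J .SW [y]) :
    ∃ k hk x z z' h', y = .w k hk x z z' h' := by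
  cases y with
  | d p => exact h.elim
  | t k hk x z => exact h.elim
  | w k hk x z z' h' => exact ⟨k, hk, x, z, z', h', rfl⟩

private theorem goodU_ST {P : Par} {J : Type} {k : ℕ} {y : U P J} (h : relM P J (.ST k) [y]) :
    ∃ hk x z, y = .t k hk x z := by
  cases y with
  | d p => exact h.elim
  | t k' hk x z =>
    have h' : k = k' := h
    subst h'
    exact ⟨hk, x, z, rfl⟩
  | w k hk x z z' h' => exact h.elim

private theorem goodU_Tr {P : Par} {J : Type} {g : ℕ} {x y : U P J}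
    (h : relM P J (.Tr g) [x, y]) : ∃ p, x = .d p ∧ y = .d (sh g p) := by
  cases x <;> cases y <;> first | exact h.elim | skip
  rename_i p p'
  have h' : p' = sh g p := h
  exact ⟨p, rfl, by rw [h']⟩

private theorem goodU_Z {P : Par} {J : Type} {x : U P J}
    (h : relM P J .Z [x]) : x = .d bs := by
  cases x <;> first | exact h.elim | skip
  rename_i p
  have h' : p = bs := h
  rw [h']

private theorem goodU_P {P : Par} {J : Type} {j : ℕ} {x y : U P J}
    (h : relM P J (.P j) [x, y]) : ∃ k hk x' z, x = .t k hk x' z ∧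
      ∃ hj : j < P.K + 1, y = .d (x' ⟨j, hj⟩) := by
  cases x <;> cases y <;> first | exact h.elim | skip
  rename_i k hk x' z p
  have h' : ∃ hj : j < P.K + 1, x' ⟨j, hj⟩ = p := h
  obtain ⟨hj, e⟩ := h'
  exact ⟨k, hk, x', z, rfl, hj, by rw [e]⟩

private theorem goodU_Wt {P : Par} {J : Type} {x y : U P J}
    (h : relM P J .Wt [x, y]) : ∃ k hk x' z z' h', x = .w k hk x' z z' h' ∧
      y = .t k hk x' z := by
  cases x <;> cases y <;> first | exact h.elim | skip
  rename_i k hk x' z z' hz k2 hk2 x2 z2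
  have h' : k = k2 ∧ x' = x2 ∧ z = z2 := h
  obtain ⟨rfl, rfl, rfl⟩ := h'
  exact ⟨k, hk, x', z, z', hz, rfl, rfl⟩

private theorem goodU_Wz {P : Par} {J : Type} {x y : U P J}
    (h : relM P J .Wz [x, y]) : ∃ k hk x' z z' h', x = .w k hk x' z z' h' ∧
      y = .d z' := by
  cases x <;> cases y <;> first | exact h.elim | skip
  rename_i k hk x' z z' hz p
  have h' : z' = p := h
  subst h'
  exact ⟨k, hk, x', z, z', hz, rfl, rfl⟩

private theorem goodU_T {P : Par} {J : Type} {y : U P J} (h : ∃ k ∈ P.F, relM P J (.ST k) [y]) :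
    ∃ k hk x z, y = .t k hk x z := by
  obtain ⟨k, _, h⟩ := h
  obtain ⟨hk, x, z, e⟩ := goodU_ST h
  exact ⟨k, hk, x, z, e⟩

theorem hz_iff (P : Par) (J : Type) (k : ℕ) (hk : k ∈ P.F) (x : Fin (P.K + 1) → Pt J) (z : Pt J)
    (y : U P J) : hz (relM P J) (.t k hk x z) y ↔ y = .d z := by
  unfold hz
  constructor
  · rintro ⟨h1, h2⟩
    obtain ⟨p, rfl⟩ := goodU_SD h1
    by_cases h : p = z
    · rw [h]
    · exact absurd ⟨.w k hk x z p h, ⟨rfl, rfl, rfl⟩, rfl⟩ h2
  · rintro rfl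
    refine ⟨trivial, ?_⟩
    rintro ⟨w, h1, h2⟩
    obtain ⟨k1, hk1, x1, z1, z1', hz1, rfl, e⟩ := goodU_Wt h1
    obtain ⟨k2, hk2, x2, z2, z2', hz2, e2, e3⟩ := goodU_Wz h2
    cases e
    cases e3
    cases e2
    exact hz1 rfl

theorem goodU_sort (P : Par) (J : Type) : GSort (relM P J) P where
  len := fun s l h => relM_len P J s l h
  cover := by
    intro x
    cases x with
    | d p => exact Or.inl trivial
    | t k hk x z => exact Or.inr (Or.inl ⟨k, hk, rfl⟩)
    | w k hk x z z' h => exact Or.inr (Or.inr trivial)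
  d_not_t := by
    intro k x h h'
    obtain ⟨p, rfl⟩ := goodU_SD h
    exact h'.elim
  d_not_w := by
    intro x h h'
    obtain ⟨p, rfl⟩ := goodU_SD h
    exact h'.elim
  t_not_w := by
    intro k x h h'
    obtain ⟨hk, x, z, rfl⟩ := goodU_ST h
    exact h'.elim
  t_uniq := by
    intro k k' hne x h h'
    obtain ⟨hk, x, z, rfl⟩ := goodU_ST h
    have : k' = k := h'
    exact hne this.symm
  t_F := by
    intro k hk x h
    obtain ⟨hk', x, z, rfl⟩ := goodU_ST h
    exact hk hk'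

theorem goodU_tr (P : Par) (J : Type) : GTr (relM P J) where
  tr_dom := by
    intro g x y h
    obtain ⟨p, rfl, rfl⟩ := goodU_Tr h
    exact ⟨trivial, trivial⟩
  tr_ex := by
    intro g x h
    obtain ⟨p, rfl⟩ := goodU_SD h
    exact ⟨.d (sh g p), rfl⟩
  tr_uniq := by
    intro g x y y' h h'
    obtain ⟨p, rfl, rfl⟩ := goodU_Tr h
    obtain ⟨p', e, rfl⟩ := goodU_Tr h'
    cases e
    rfl
  tr_zero := by
    intro x h
    obtain ⟨p, rfl⟩ := goodU_SD h
    show p = sh 0 p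
    simp [sh]
  tr_comp := by
    intro g h x y z h1 h2
    obtain ⟨p, rfl, rfl⟩ := goodU_Tr h1
    obtain ⟨p', e, rfl⟩ := goodU_Tr h2
    cases e
    show sh h (sh g p) = sh (g ^^^ h) p
    simp [sh, Nat.xor_assoc]
  tr_free := by
    intro g hg x h
    obtain ⟨p, rfl, e⟩ := goodU_Tr h
    have e' : p = sh g p := by
      cases p
      simpa using e
    have e2 : p.1 = p.1 ^^^ g := congrArg Prod.fst e'
    apply hg
    have : p.1 ^^^ p.1 = p.1 ^^^ (p.1 ^^^ g) := by rw [← e2]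
    rwa [Nat.xor_self, ← Nat.xor_assoc, Nat.xor_self, Nat.zero_xor, eq_comm] at this
  z_ex := ⟨.d bs, rfl⟩
  z_dom := by
    intro o h
    rw [goodU_Z h]
    trivial
  z_uniq := by
    intro o o' h h'
    rw [goodU_Z h, goodU_Z h']

theorem goodU_pw (P : Par) (J : Type) : GPW (relM P J) P where
  p_dom := by
    intro j τ x h
    obtain ⟨k, hk, x', z, rfl, hj, rfl⟩ := goodU_P h
    exact ⟨⟨k, hk, rfl⟩, trivial⟩
  p_big := by
    intro j hj τ x h
    obtain ⟨k, hk, x', z, rfl, hj', rfl⟩ := goodU_P h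
    omega
  p_ex := by
    intro j hj τ h
    obtain ⟨k, hk, x', z, rfl⟩ := goodU_T h
    exact ⟨.d (x' ⟨j, by omega⟩), ⟨by omega, rfl⟩⟩
  p_uniq := by
    intro j τ x x' h h'
    obtain ⟨k, hk, x1, z, rfl, hj1, rfl⟩ := goodU_P h
    obtain ⟨k2, hk2, x2, z2, e, hj2, rfl⟩ := goodU_P h'
    cases e
    rfl
  wt_dom := by
    intro w τ h
    obtain ⟨k, hk, x', z, z', hz, rfl, rfl⟩ := goodU_Wt h
    exact ⟨trivial, k, hk, rfl⟩
  wt_ex := by
    intro w h
    obtain ⟨k, hk, x', z, z', hz, rfl⟩ := goodU_SW h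
    exact ⟨.t k hk x' z, rfl, rfl, rfl⟩
  wt_uniq := by
    intro w τ τ' h h'
    obtain ⟨k, hk, x', z, z', hz, rfl, rfl⟩ := goodU_Wt h
    obtain ⟨k2, hk2, x2, z2, z2', hz2, e, rfl⟩ := goodU_Wt h'
    cases e
    rfl
  wz_dom := by
    intro w z h
    obtain ⟨k, hk, x', z, z', hz, rfl, rfl⟩ := goodU_Wz h
    exact ⟨trivial, trivial⟩
  wz_ex := by
    intro w h
    obtain ⟨k, hk, x', z, z', hz, rfl⟩ := goodU_SW h
    exact ⟨.d z', rfl⟩
  wz_uniq := by
    intro w z z' h h'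
    obtain ⟨k, hk, x', z1, z1', hz, rfl, rfl⟩ := goodU_Wz h
    obtain ⟨k2, hk2, x2, z2, z2', hz2, e, rfl⟩ := goodU_Wz h'
    cases e
    rfl
  w_inj := by
    intro w w' τ z h1 h2 h3 h4
    obtain ⟨k, hk, x', z1, z1', hz, rfl, rfl⟩ := goodU_Wt h1
    obtain ⟨k2, hk2, x2, z2, z2', hz2, rfl, e2⟩ := goodU_Wt h3
    cases e2
    obtain ⟨k3, hk3, x3, z3, z3', hz3, e3, rfl⟩ := goodU_Wz h2
    cases e3
    obtain ⟨k4, hk4, x4, z4, z4', hz4, e4, e5⟩ := goodU_Wz h4
    cases e4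
    cases e5
    rfl

theorem goodU_t (P : Par) (J : Type) : GT (relM P J) P where
  hz_ex := by
    intro τ h
    obtain ⟨k, hk, x', z, rfl⟩ := goodU_T h
    exact ⟨.d z, (hz_iff P J k hk x' z _).2 rfl⟩
  hz_uniq := by
    intro τ z z' h h1 h2
    obtain ⟨k, hk, x', z1, rfl⟩ := goodU_T h
    rw [hz_iff] at h1 h2
    rw [h1, h2]
  t_ex := by
    intro k hk x z hx hz
    have hx' : ∀ j, ∃ p, x j = .d p := fun j => goodU_SD (hx j)
    choose x' hx' using hx'
    obtain ⟨z', rfl⟩ := goodU_SD hz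
    refine ⟨.t k hk x' z', rfl, ?_, (hz_iff P J k hk x' z' _).2 rfl⟩
    intro j
    rw [hx' j]
    exact ⟨j.2, rfl⟩
  t_inj := by
    intro k hk x z τ τ' h1 h2 h3 h4 h5 h6
    obtain ⟨hk1, x1, z1, rfl⟩ := goodU_ST h1
    obtain ⟨hk2, x2, z2, rfl⟩ := goodU_ST h2
    rw [hz_iff] at h5 h6
    rw [h5] at h6
    have hz12 : z1 = z2 := by
      cases h6
      rfl
    have hx12 : x1 = x2 := by
      funext j
      obtain ⟨k3, hk3, x3, z3, e3, hj3, e3'⟩ := goodU_P (h3 j)
      obtain ⟨k4, hk4, x4, z4, e4, hj4, e4'⟩ := goodU_P (h4 j)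
      cases e3
      cases e4
      rw [e3'] at e4'
      have := e4'
      injection this
    rw [hz12, hx12]

end Pool.Agent.Work.MP_ed0a9a_lc
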