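import Pool.Agent.Work.MP_ed0a9a_lc.RawDefs
import Pool.Agent.Work.MP_ed0a9a_lc.Lvl

/-!
# Module `IsoPt`: codes of points

`leI i r = true ↔ (r : ℕ∞) ≤ i` (unfold `leI`); for `r = r' + 1`: `(r : ℕ∞) ≤ i ↔ (r' : ℕ∞) < i`
(`ENat.add_one_le_iff`, cases on `i`).  So `ptC i` restricted to the codes `p` with `leI i p.2` is
a bijection onto `Pt (Jt i)`: `(g, 0) ↦ (g, none)`, `(g, r + 1) ↦ (g, some r)`.
* `LG_map_ptC`, `lvl_map_ptC`: `List.pairwise_map`, `lv_congr`; for an independent list
  `lvl = ⊤` (`lvl_eq_top_iff`), for a dependent list `lvl (…) = lvn l`: `LGn l c ↔ c ≤ lvn l`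
  (`Nat.findGreatest`: `LGn l` is antitone, holds at `0` and implies
  `c ≤ p.1 ^^^ p'.1 ≤ p.1 + p'.1 ≤ (l.map Prod.fst).sum` for two points of the same component;
  `Nat.xor_le_add`-like fact: use `Nat.xor_le_or`/bits, or prove it by strong induction;
  `le_lvl_iff` to compare in `ℕ∞`).
-/

namespace Pool.Agent.Work.MP_ed0a9a_lc

private theorem leI_iff' (i : ℕ∞) (r : ℕ) : leI i r = true ↔ (r : ℕ∞) ≤ i := by
  unfold leI
  simp

/-- The second coordinate of `ptC`. -/
private theorem ptC_snd_zero (i : ℕ∞) (g : ℕ) : ptC i (g, 0) = (g, none) := by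
  unfold ptC
  simp

private theorem lt_of_succ_le (i : ℕ∞) (r : ℕ) (h : leI i (r + 1) = true) : (r : ℕ∞) < i := by
  rw [leI_iff'] at h
  refine lt_of_lt_of_le ?_ h
  exact_mod_cast Nat.lt_succ_self r

private theorem ptC_succ (i : ℕ∞) (g r : ℕ) (h : (r : ℕ∞) < i) :
    ptC i (g, r + 1) = (g, some ⟨r, h⟩) := by
  unfold ptC
  have : (((r + 1 : ℕ) - 1 : ℕ) : ℕ∞) < i ∧ (r + 1) ≠ 0 := ⟨by simpa using h, by omega⟩
  simp only
  rw [dif_pos this]
  rfl

theorem ptC_inj (i : ℕ∞) (p p' : CP) (h : leI i p.2 = true) (h' : leI i p'.2 = true)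
    (he : ptC i p = ptC i p') : p = p' := by
  obtain ⟨g, _ | r⟩ := p
  · obtain ⟨g', _ | r'⟩ := p'
    · rw [ptC_snd_zero, ptC_snd_zero] at he
      simpa using he
    · rw [ptC_snd_zero, ptC_succ i g' r' (lt_of_succ_le i r' h')] at he
      simp at he
  · obtain ⟨g', _ | r'⟩ := p'
    · rw [ptC_snd_zero, ptC_succ i g r (lt_of_succ_le i r h)] at he
      simp at he
    · rw [ptC_succ i g r (lt_of_succ_le i r h), ptC_succ i g' r' (lt_of_succ_le i r' h')] at he
      simpa using he

theorem ptC_surj (i : ℕ∞) (x : Pt (Jt i)) : ∃ p : CP, leI i p.2 = true ∧ ptC i p = x := by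
  obtain ⟨g, _ | ⟨r, hr⟩⟩ := x
  · exact ⟨(g, 0), by rw [leI_iff']; simp, ptC_snd_zero i g⟩
  · refine ⟨(g, r + 1), ?_, ptC_succ i g r hr⟩
    rw [leI_iff']
    simp only
    rw [Nat.cast_add, Nat.cast_one]
    exact Order.add_one_le_of_lt hr

theorem ptC_zero (i : ℕ∞) : ptC i (0, 0) = bs := ptC_snd_zero i 0

theorem leI_zero (i : ℕ∞) : leI i 0 = true := by
  rw [leI_iff']
  simp

theorem ptC_shn (i : ℕ∞) (g : ℕ) (p : CP) : ptC i (shn g p) = sh g (ptC i p) := rfl

theorem ptC_comp (i : ℕ∞) (p p' : CP) (h : leI i p.2 = true) (h' : leI i p'.2 = true) :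
    (ptC i p).2 = (ptC i p').2 ↔ p.2 = p'.2 := by
  obtain ⟨g, _ | r⟩ := p
  · obtain ⟨g', _ | r'⟩ := p'
    · rw [ptC_snd_zero, ptC_snd_zero]
      simp
    · rw [ptC_snd_zero, ptC_succ i g' r' (lt_of_succ_le i r' h')]
      simp
  · obtain ⟨g', _ | r'⟩ := p'
    · rw [ptC_snd_zero, ptC_succ i g r (lt_of_succ_le i r h)]
      simp
    · rw [ptC_succ i g r (lt_of_succ_le i r h), ptC_succ i g' r' (lt_of_succ_le i r' h')]
      simp

theorem ptC_fst (i : ℕ∞) (p : CP) : (ptC i p).1 = p.1 := rfl

theorem LG_map_ptC (i : ℕ∞) (l : List CP) (hl : ∀ p ∈ l, leI i p.2 = true) (c : ℕ) :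
    LG (l.map (ptC i)) c ↔ LGn l c := by
  unfold LG LGn
  rw [List.pairwise_map]
  constructor
  · intro h
    refine h.imp_of_mem ?_
    intro p p' hp hp' h1 h2
    exact h1 ((ptC_comp i p p' (hl p hp) (hl p' hp')).2 h2)
  · intro h
    refine h.imp_of_mem ?_
    intro p p' hp hp' h1 h2
    exact h1 ((ptC_comp i p p' (hl p hp) (hl p' hp')).1 h2)

private theorem xor_le (a b : ℕ) : a ^^^ b ≤ a + b := by
  have h1 : ∀ n : ℕ, ∀ a b : ℕ, a + b ≤ n → a ^^^ b ≤ a + b := by
    intro n
    induction n with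
    | zero =>
      intro a b h
      have ha : a = 0 := by omega
      have hb : b = 0 := by omega
      subst ha hb
      simp
    | succ n ih =>
      intro a b h
      rcases Nat.eq_zero_or_pos (a + b) with h0 | h0
      · have ha : a = 0 := by omega
        have hb : b = 0 := by omega
        subst ha hb
        simp
      · have h2 := ih (a / 2) (b / 2) (by omega)
        have h3 : (a ^^^ b) / 2 = a / 2 ^^^ b / 2 := Nat.xor_div_two
        have h4 : (a ^^^ b) % 2 ≤ a % 2 + b % 2 := by
          rcases Nat.mod_two_eq_zero_or_one a with ha | ha <;>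
            rcases Nat.mod_two_eq_zero_or_one b with hb | hb
          · have : (a ^^^ b) % 2 = 0 := by
              rw [Nat.xor_mod_two_eq]
              omega
            omega
          · have := Nat.mod_lt (a ^^^ b) (by norm_num : 2 > 0); omega
          · have := Nat.mod_lt (a ^^^ b) (by norm_num : 2 > 0); omega
          · have := Nat.mod_lt (a ^^^ b) (by norm_num : 2 > 0); omega
        omega
  exact h1 (a + b) a b le_rfl

private theorem mem_sum_le (l : List CP) (a b : ℕ) (ha : a < l.length) (hb : b < l.length)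
    (hab : a < b) : l[a].1 + l[b].1 ≤ (l.map Prod.fst).sum := by
  induction l generalizing a b with
  | nil => simp at ha
  | cons p l ih =>
    rcases b with _ | b
    · omega
    · rcases a with _ | a
      · simp only [List.getElem_cons_zero, List.getElem_cons_succ, List.map_cons, List.sum_cons]
        have hb' : b < l.length := by simpa using hb
        have : l[b].1 ≤ (l.map Prod.fst).sum := by
          apply List.single_le_sum (fun _ _ => Nat.zero_le _)
          exact List.mem_map_of_mem (List.getElem_mem _)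
        omega
      · have := ih a b (by simpa using ha) (by simpa using hb) (by omega)
        simp only [List.getElem_cons_succ, List.map_cons, List.sum_cons]
        omega

theorem LGn_iff (l : List CP) (h : indep l = false) (c : ℕ) : LGn l c ↔ c ≤ lvn l := by
  unfold indep at h
  rw [decide_eq_false_iff_not, List.pairwise_iff_getElem] at h
  push Not at h
  obtain ⟨a, b, ha, hb, hab, heq⟩ := h
  have hbound : ∀ c, LGn l c → c ≤ (l.map Prod.fst).sum := by
    intro c hc
    unfold LGn at hc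
    rw [List.pairwise_iff_getElem] at hc
    have h1 := hc a b ha hb hab heq
    exact h1.trans ((xor_le _ _).trans (mem_sum_le l a b ha hb hab))
  have hmono : ∀ c d, c ≤ d → LGn l d → LGn l c := by
    intro c d hcd hd
    exact List.Pairwise.imp (fun h1 h2 => hcd.trans (h1 h2)) hd
  have h0 : LGn l 0 := by
    unfold LGn
    rw [List.pairwise_iff_getElem]
    intro _ _ _ _ _ _
    exact Nat.zero_le _
  constructor
  · intro hc
    exact Nat.le_findGreatest (hbound c hc) hc
  · intro hc
    have h1 : LGn l (lvn l) := Nat.findGreatest_spec (P := LGn l) (Nat.zero_le _) h0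
    exact hmono c _ hc h1

theorem lvl_map_ptC (i : ℕ∞) (l : List CP) (hl : ∀ p ∈ l, leI i p.2 = true) :
    lvl (l.map (ptC i)) = if indep l then ⊤ else (lvn l : ℕ∞) := by
  by_cases hi : indep l = true
  · rw [if_pos hi, lvl_eq_top_iff, List.pairwise_map]
    unfold indep at hi
    rw [decide_eq_true_eq] at hi
    refine hi.imp_of_mem ?_
    intro p p' hp hp' h1 h2
    exact h1 ((ptC_comp i p p' (hl p hp) (hl p' hp')).1 h2)
  · rw [if_neg hi]
    have hi' : indep l = false := by simpa using hi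
    have key : ∀ c : ℕ, (c : ℕ∞) ≤ lvl (l.map (ptC i)) ↔ c ≤ lvn l := by
      intro c
      rw [le_lvl_iff, LG_map_ptC i l hl, LGn_iff l hi']
    apply le_antisymm
    · by_contra hlt
      have h1 : (lvn l : ℕ∞) < lvl (l.map (ptC i)) := not_le.1 hlt
      have h2 : ((lvn l + 1 : ℕ) : ℕ∞) ≤ lvl (l.map (ptC i)) := by
        rw [Nat.cast_add, Nat.cast_one]
        exact Order.add_one_le_of_lt h1
      rw [key] at h2
      omega
    · rw [key]

/-- The list `bs :: ofFn (xC v)` is the image of `(0, 0) :: v`. -/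
theorem cons_ofFn_xC (K : ℕ) (i : ℕ∞) (v : List CP) (hv : v.length = K + 1) :
    bs :: List.ofFn (xC K i v) = ((0, 0) :: v).map (ptC i) := by
  rw [List.map_cons, ptC_zero]
  congr 1
  apply List.ext_getElem
  · simp [hv]
  · intro j h1 h2
    rw [List.getElem_ofFn, List.getElem_map]
    unfold xC
    rw [List.getD_eq_getElem _ _ (by simpa using h2)]

theorem pos_xC (K : ℕ) (i : ℕ∞) (k : ℕ) (v : List CP) (hv : v.length = K + 1) (q : ℕ) :
    pos k (xC K i v) q = ptC i (posn k v q) := by
  unfold pos posn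
  rw [ptC_shn, cons_ofFn_xC K i v hv]
  congr 1
  rw [← ptC_zero i, List.getD_map]

theorem lvl_take_xC (K : ℕ) (i : ℕ∞) (k : ℕ) (v : List CP) (hv : v.length = K + 1)
    (hl : ∀ p ∈ v, leI i p.2 = true) :
    lvl ((bs :: List.ofFn (xC K i v)).take (k + 1)) =
      if indep (yl k v) then ⊤ else (lvn (yl k v) : ℕ∞) := by
  rw [cons_ofFn_xC K i v hv, ← List.map_take]
  have := lvl_map_ptC i (yl k v) (by
    intro p hp
    rcases List.mem_cons.1 (List.mem_of_mem_take hp) with rfl | hp'
    · exact leI_zero i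
    · exact hl p hp')
  exact this

end Pool.Agent.Work.MP_ed0a9a_lc
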