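import Pool.Agent.Work.MP_ed0a9a_lc.IsoU
import Pool.Agent.Work.MP_ed0a9a_lc.CopyQ

/-!
# Module `IsoQ`: `dU` preserves the links

`qrel_iff`; `miss` for `xC`: `pos_xC`, `lvl_take_xC`, `Par.mskI_top`, `Par.mskI_coe`, `ptC_inj`,
`lab_le` (the position `posn k v q` has component `≤ i`: it is a component of `(0,0) :: v`);
'same first `K` coordinates': `c'.2.1.take K = c.2.1.take K ↔ ∀ j : Fin (K+1), j < K →
xC K i c'.2.1 j = xC K i c.2.1 j` (`List.ext_getElem`, `List.getElem_take`, `ptC_inj`);
last coordinate: `dl K v = v.getD K _`, `ptC_shn`, `ptC_inj` (`(shn g p).2 = p.2`).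
-/

namespace Pool.Agent.Work.MP_ed0a9a_lc

theorem take_iff (K : ℕ) (i : ℕ∞) (v v' : List CP) (hv : v.length = K + 1)
    (hv' : v'.length = K + 1) (hl : ∀ p ∈ v, leI i p.2 = true)
    (hl' : ∀ p ∈ v', leI i p.2 = true) :
    v'.take K = v.take K ↔ ∀ j : Fin (K + 1), j.1 < K → xC K i v' j = xC K i v j := by
  constructor
  · intro h j hj
    unfold xC
    rw [List.getD_eq_getElem _ _ (by omega), List.getD_eq_getElem _ _ (by omega)]
    have h1 : (v'.take K)[j.1]'(by rw [List.length_take]; omega) =
        (v.take K)[j.1]'(by rw [List.length_take]; omega) := by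
      simp only [h]
    rw [List.getElem_take, List.getElem_take] at h1
    rw [h1]
  · intro h
    apply List.ext_getElem
    · rw [List.length_take, List.length_take]; omega
    · intro j h1 h2
      rw [List.length_take] at h1
      have h3 := h ⟨j, by omega⟩ (by simp only; omega)
      unfold xC at h3
      rw [List.getD_eq_getElem _ _ (by simp only; omega),
        List.getD_eq_getElem _ _ (by simp only; omega)] at h3
      rw [List.getElem_take, List.getElem_take]
      exact ptC_inj i _ _ (hl' _ (List.getElem_mem _)) (hl _ (List.getElem_mem _)) h3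

private theorem leI_posn (i : ℕ∞) (k : ℕ) (v : List CP) (hl : ∀ p ∈ v, leI i p.2 = true) (q : ℕ) :
    leI i (posn k v q).2 = true := by
  unfold posn shn
  simp only
  rcases lt_or_ge (q % (k + 1)) (((0, 0) : CP) :: v).length with h | h
  · rw [List.getD_eq_getElem _ _ h]
    rcases List.mem_cons.1 (List.getElem_mem h) with h1 | h1
    · rw [h1]; exact leI_zero i
    · exact hl _ h1
  · rw [List.getD_eq_default _ _ h]
    exact leI_zero i

theorem miss_xC (P : Par) (i : ℕ∞) (k : ℕ) (v : List CP) (hv : v.length = P.K + 1)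
    (hl : ∀ p ∈ v, leI i p.2 = true) (z : CP) (hz : leI i z.2 = true) (n : ℕ) :
    miss P k (xC P.K i v) (ptC i z) n ↔ (z = posn k v (Nat.unpair n).2 ∧
        (if indep (yl k v) then P.lim (Nat.unpair n).2
          else P.msk (Nat.unpair n).2 (lvn (yl k v))).testBit n = true) := by
  unfold miss missP
  rw [pos_xC P.K i k v hv, lvl_take_xC P.K i k v hv hl]
  have h1 : ptC i z = ptC i (posn k v (Nat.unpair n).2) ↔ z = posn k v (Nat.unpair n).2 :=
    ⟨ptC_inj i _ _ hz (leI_posn i k v hl _), fun h => by rw [h]⟩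
  rw [h1]
  by_cases hi : indep (yl k v) = true
  · rw [if_pos hi, if_pos hi, Par.mskI_top]
  · rw [if_neg hi, if_neg hi, Par.mskI_coe]

theorem isoQ (P : Par) (i : ℕ∞) (hF : ∀ k ∈ P.F, (k : ℕ∞) ≠ i) (n : ℕ) (x y : Raw)
    (hx : okRaw P i x = true) (hy : okRaw P i y = true) :
    (decide (x.1 = 1) && decide (y.1 = 1) && qrel P.msk P.K n x.2.1 y.2.1) = true ↔
      relM P (Jt i) (.Q n) [dU P i x, dU P i y] := by
  rcases okRaw_tag P i x hx with h | h | h
  · rw [dU_d P i x h]
    simp [h, relM]
  · rcases okRaw_tag P i y hy with h2 | h2 | h2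
    · rw [dU_d P i y h2]
      obtain ⟨hk, e⟩ := dU_t P i x hx h
      rw [e]
      simp [h, h2, relM]
    · obtain ⟨hk, e⟩ := dU_t P i x hx h
      obtain ⟨hk2, e2⟩ := dU_t P i y hy h2
      have hokx : okT P.msk P.F P.K i x.2.1 = true := by
        have := hx
        unfold okRaw at this
        rw [if_neg (by omega), if_pos h] at this
        simp only [Bool.and_eq_true] at this
        exact this.2
      have hoky : okT P.msk P.F P.K i y.2.1 = true := by
        have := hy
        unfold okRaw at this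
        rw [if_neg (by omega), if_pos h2] at this
        simp only [Bool.and_eq_true] at this
        exact this.2
      obtain ⟨-, hvl, hv⟩ := okT_spec P i x.2.1 hokx
      obtain ⟨-, hvl2, hv2⟩ := okT_spec P i y.2.1 hoky
      have hlx := lab_le P i _ hokx (hF _ hk)
      have hly := lab_le P i _ hoky (hF _ hk2)
      rw [e, e2]
      simp only [relM, h, h2, decide_true, Bool.true_and]
      rw [qrel_iff P i n x.2.1 y.2.1 hokx hoky, miss_xC P i _ _ hvl hv _ hlx n,
        ← take_iff P.K i _ _ hvl hvl2 hv hv2]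
      have h3 : ptC i (lab P.msk P.K x.2.1) = ptC i (lab P.msk P.K y.2.1) ↔
          lab P.msk P.K x.2.1 = lab P.msk P.K y.2.1 :=
        ⟨ptC_inj i _ _ hlx hly, fun h => by rw [h]⟩
      have h4 : xC P.K i y.2.1.2.1 (Fin.last P.K) =
          sh (2 ^ n) (xC P.K i x.2.1.2.1 (Fin.last P.K)) ↔
          dl P.K y.2.1.2.1 = shn (2 ^ n) (dl P.K x.2.1.2.1) := by
        have e3 : ∀ v : List CP, xC P.K i v (Fin.last P.K) = ptC i (dl P.K v) := fun v => rfl
        rw [e3, e3, ← ptC_shn]
        have hle : ∀ v : List CP, v.length = P.K + 1 → (∀ p ∈ v, leI i p.2 = true) →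
            leI i (dl P.K v).2 = true := by
          intro v hv hv'
          unfold dl
          rw [List.getD_eq_getElem _ _ (by omega)]
          exact hv' _ (List.getElem_mem _)
        exact ⟨ptC_inj i _ _ (hle _ hvl2 hv2) (hle _ hvl hv), fun h => by rw [h]⟩
      rw [h3, h4]
      tauto
    · obtain ⟨hk, e⟩ := dU_t P i x hx h
      obtain ⟨hk2, hz2, e2⟩ := dU_w P i hF y hy h2
      rw [e, e2]
      simp [h, h2, relM]
  · obtain ⟨hk, hz, e⟩ := dU_w P i hF x hx h
    rw [e]
    simp [h, relM]

end Pool.Agent.Work.MP_ed0a9a_lc
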