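import Pool.Agent.Work.MP_ed0a9a_lc.IsoU

/-!
# Module `IsoR`: `dU` preserves the coding relations

With `l' = l.map (fun x => x.2.2.1)`: `l.map dU = (l'.map ptC).map .d` if all tags
are `0` (`dU_d`; and if some tag is not `0` both sides are false: `dU_t`, `dU_w`, `okRaw_tag`),
`lvl_map_ptC` for `(0, 0) :: l'` (`ptC_zero`).  If independent: `lvl = ⊤`, and `hg` applies:
`P.ar e ≤ i` because the `P.ar e + 1` components of `(0, 0) :: l'` are different and `≤ i`
(`le_of_indep` with `k = l'.length`, `yl k l' = (0, 0) :: l'`).  If dependent: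
`(∃ t, kb e j t ∧ t ≤ lvn) ↔ kb e j lvn` (`P.kb_mono`).
-/

namespace Pool.Agent.Work.MP_ed0a9a_lc

theorem isoR (P : Par) (i : ℕ∞) (hF : ∀ k ∈ P.F, (k : ℕ∞) ≠ i) (g : ℕ → ℕ → Bool)
    (hg : ∀ e j, (P.ar e : ℕ∞) ≤ i → (g e j = true ↔ ∃ t, P.kb e j t = true))
    (e j : ℕ) (l : List Raw) (hlen : l.length = P.ar e)
    (hl : ∀ x ∈ l, okRaw P i x = true) :
    (l.all (fun x => decide (x.1 = 0)) &&
      (if indep ((0, 0) :: l.map (fun x => x.2.2.1)) then g e j
       else P.kb e j (lvn ((0, 0) :: l.map (fun x => x.2.2.1))))) = true ↔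
      relM P (Jt i) (.R e j) (l.map (dU P i)) := by
  simp only [relM, Bool.and_eq_true, List.all_eq_true, decide_eq_true_eq, List.length_map]
  by_cases htag : ∀ x ∈ l, x.1 = 0
  · -- all elements in the sort `D`
    have hle : ∀ p ∈ ((0, 0) : CP) :: l.map (fun x => x.2.2.1), leI i p.2 = true := by
      intro p hp
      rcases List.mem_cons.1 hp with rfl | hp'
      · exact leI_zero i
      · rw [List.mem_map] at hp'
        obtain ⟨x, hx, rfl⟩ := hp'
        have h1 := hl x hx
        unfold okRaw at h1
        rw [if_pos (htag x hx)] at h1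
        simp only [Bool.and_eq_true] at h1
        exact h1.2
    have hmap : l.map (dU P i) = ((l.map (fun x => x.2.2.1)).map (ptC i)).map U.d := by
      rw [List.map_map, List.map_map]
      apply List.map_congr_left
      intro x hx
      exact dU_d P i x (htag x hx)
    have hlv : lvl (bs :: (l.map (fun x => x.2.2.1)).map (ptC i)) =
        if indep ((0, 0) :: l.map (fun x => x.2.2.1)) then ⊤
        else (lvn ((0, 0) :: l.map (fun x => x.2.2.1)) : ℕ∞) := by
      rw [← lvl_map_ptC i _ hle, List.map_cons, ptC_zero]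
    have hR : (l.length = P.ar e ∧ ∃ l' : List (Pt (Jt i)), l.map (dU P i) = l'.map U.d ∧
        ∃ t, P.kb e j t = true ∧ (t : ℕ∞) ≤ lvl (bs :: l')) ↔
        ∃ t, P.kb e j t = true ∧
          (t : ℕ∞) ≤ lvl (bs :: (l.map (fun x => x.2.2.1)).map (ptC i)) := by
      constructor
      · rintro ⟨-, l', hl', h2⟩
        rw [hmap] at hl'
        have hinj : Function.Injective (U.d (P := P) (J := Jt i)) := by
          intro a b h
          injection h
        have h3 := List.map_injective_iff.2 hinj hl'
        rw [h3]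
        exact h2
      · intro h2
        exact ⟨hlen, _, hmap, h2⟩
    rw [hR, hlv]
    by_cases hi : indep ((0, 0) :: l.map (fun x => x.2.2.1)) = true
    · rw [if_pos hi, if_pos hi]
      have har : (P.ar e : ℕ∞) ≤ i := by
        have h1 := le_of_indep i (l.map (fun x => x.2.2.1)).length (l.map (fun x => x.2.2.1))
          le_rfl (fun p hp => hle p (List.mem_cons_of_mem _ hp)) (by
            unfold yl
            rw [List.take_of_length_le (by simp)]
            exact hi)
        rw [List.length_map, hlen] at h1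
        exact h1
      rw [hg e j har]
      constructor
      · rintro ⟨-, t, ht⟩
        exact ⟨t, ht, le_top⟩
      · rintro ⟨t, ht, -⟩
        exact ⟨htag, t, ht⟩
    · rw [if_neg hi, if_neg hi]
      constructor
      · rintro ⟨-, h1⟩
        exact ⟨_, h1, le_rfl⟩
      · rintro ⟨t, ht, hle'⟩
        refine ⟨htag, P.kb_mono e j t _ ?_ ht⟩
        exact_mod_cast hle'
  · constructor
    · rintro ⟨h1, -⟩
      exact absurd h1 htag
    · rintro ⟨-, l', hl', -⟩
      exfalso
      apply htag
      intro x hx
      have h1 : dU P i x ∈ l'.map U.d := by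
        rw [← hl']
        exact List.mem_map_of_mem hx
      rw [List.mem_map] at h1
      obtain ⟨p, -, hp⟩ := h1
      rcases okRaw_tag P i x (hl x hx) with h | h | h
      · exact h
      · obtain ⟨hk, e'⟩ := dU_t P i x (hl x hx) h
        rw [e'] at hp
        exact absurd hp (by simp)
      · obtain ⟨hk, hz, e'⟩ := dU_w P i hF x (hl x hx) h
        rw [e'] at hp
        exact absurd hp (by simp)

end Pool.Agent.Work.MP_ed0a9a_lc
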