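import Pool.Agent.Work.MP_ed0a9a_lc.IsoQ
import Pool.Agent.Work.MP_ed0a9a_lc.IsoR

/-!
# Module `IsoRel`: `dU` preserves the relations

By cases on `(Nat.unpair n).1` and `(Nat.unpair n).2` (`Sym.dec`, `relC` have the same case
distinctions); the length of `l` is known (`ari`, `arity`), so `l = [x]`, `l = [x, y]`, or (for
`R e j`) arbitrary.  The elements of `l` are of one of three kinds (`okRaw_tag`, `dU_d`,
`dU_t`, `dU_w`).
* `Z`: `ptC_zero`, `ptC_inj`; `Tr`: `ptC_shn`, `ptC_inj` (`(shn g p).2 = p.2`);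
  `P j`: `xC`, `ptC_inj`; `Wt`: valid codes over the same `k`, `v`: `lab_inj`, `xC_inj`,
  `lab_le`; `Wz`: `ptC_inj`.
* `Q n`: `isoQ`; `R e j`: `isoR`.
-/

namespace Pool.Agent.Work.MP_ed0a9a_lc

private theorem shn_snd (g : ℕ) (p : CP) : (shn g p).2 = p.2 := rfl

private theorem ok_d (P : Par) (i : ℕ∞) (x : Raw) (h : okRaw P i x = true) (h0 : x.1 = 0) :
    leI i x.2.2.1.2 = true := by
  unfold okRaw at h
  rw [if_pos h0] at h
  simp only [Bool.and_eq_true] at h
  exact h.2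

private theorem ok_t (P : Par) (i : ℕ∞) (x : Raw) (h : okRaw P i x = true) (h1 : x.1 = 1) :
    okT P.msk P.F P.K i x.2.1 = true := by
  unfold okRaw at h
  rw [if_neg (by omega), if_pos h1] at h
  simp only [Bool.and_eq_true] at h
  exact h.2

private theorem ok_w (P : Par) (i : ℕ∞) (x : Raw) (h : okRaw P i x = true) (h2 : x.1 = 2) :
    okT P.msk P.F P.K i x.2.1 = true ∧ leI i x.2.2.1.2 = true := by
  unfold okRaw at h
  rw [if_neg (by omega), if_neg (by omega)] at h
  simp only [Bool.and_eq_true] at h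
  have := (okW_iff P i x.2.1 x.2.2.1).1 ⟨_, h.2⟩
  exact ⟨this.1, this.2.1⟩

theorem relC_iff (P : Par) (i : ℕ∞) (hF : ∀ k ∈ P.F, (k : ℕ∞) ≠ i) (g : ℕ → ℕ → Bool)
    (hg : ∀ e j, (P.ar e : ℕ∞) ≤ i → (g e j = true ↔ ∃ t, P.kb e j t = true))
    (n : ℕ) (l : List Raw) (hlen : l.length = ari P.ar n)
    (hl : ∀ x ∈ l, okRaw P i x = true) :
    relC P g n l = true ↔ relM P (Jt i) (Sym.dec n) (l.map (dU P i)) := by
  have key : ∀ x, okRaw P i x = true →
      (x.1 = 0 ∧ dU P i x = .d (ptC i x.2.2.1) ∧ leI i x.2.2.1.2 = true) ∨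
      (x.1 = 1 ∧ okT P.msk P.F P.K i x.2.1 = true ∧ ∃ hk : x.2.1.1 ∈ P.F, dU P i x =
        .t x.2.1.1 hk (xC P.K i x.2.1.2.1) (ptC i (lab P.msk P.K x.2.1))) ∨
      (x.1 = 2 ∧ okT P.msk P.F P.K i x.2.1 = true ∧ leI i x.2.2.1.2 = true ∧
        ∃ (hk : x.2.1.1 ∈ P.F) (hz' : ptC i x.2.2.1 ≠ ptC i (lab P.msk P.K x.2.1)), dU P i x =
        .w x.2.1.1 hk (xC P.K i x.2.1.2.1) (ptC i (lab P.msk P.K x.2.1)) (ptC i x.2.2.1) hz') := by
    intro x hx
    rcases okRaw_tag P i x hx with h | h | h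
    · exact Or.inl ⟨h, dU_d P i x h, ok_d P i x hx h⟩
    · exact Or.inr (Or.inl ⟨h, ok_t P i x hx h, dU_t P i x hx h⟩)
    · exact Or.inr (Or.inr ⟨h, (ok_w P i x hx h).1, (ok_w P i x hx h).2, dU_w P i hF x hx h⟩)
  obtain ⟨a, b, hn⟩ : ∃ a b, Nat.unpair n = (a, b) := ⟨_, _, rfl⟩
  have hn1 : (Nat.unpair n).1 = a := by rw [hn]
  have hn2 : (Nat.unpair n).2 = b := by rw [hn]
  unfold ari at hlen
  unfold relC
  simp only [hn1, hn2]
  rcases a with _ | _ | _ | _ | _ | a
  · -- sorts and the base point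
    rcases b with _ | _ | _ | b
    · have hd : Sym.dec n = .SD := by simp [Sym.dec, hn1, hn2]
      rw [hd] at hlen ⊢
      obtain ⟨x, rfl⟩ := List.length_eq_one_iff.1 hlen
      have hx := hl x (by simp)
      rcases key x hx with ⟨h, e, -⟩ | ⟨h, -, hk, e⟩ | ⟨h, -, -, hk, hz, e⟩ <;>
        simp [e, h, relM]
    · have hd : Sym.dec n = .SW := by simp [Sym.dec, hn1, hn2]
      rw [hd] at hlen ⊢
      obtain ⟨x, rfl⟩ := List.length_eq_one_iff.1 hlen
      have hx := hl x (by simp)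
      rcases key x hx with ⟨h, e, -⟩ | ⟨h, -, hk, e⟩ | ⟨h, -, -, hk, hz, e⟩ <;>
        simp [e, h, relM]
    · have hd : Sym.dec n = .Z := by simp [Sym.dec, hn1, hn2]
      rw [hd] at hlen ⊢
      obtain ⟨x, rfl⟩ := List.length_eq_one_iff.1 hlen
      have hx := hl x (by simp)
      rcases key x hx with ⟨h, e, h'⟩ | ⟨h, -, hk, e⟩ | ⟨h, -, -, hk, hz, e⟩
      · simp only [List.map_singleton, e, relM, List.getD_cons_zero, h]
        simp only [if_pos, decide_true, Bool.true_and, decide_eq_true_eq]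
        constructor
        · intro h2
          rw [show x.2.2.1 = (0, 0) by simpa using h2, ptC_zero]
        · intro h2
          have := ptC_inj i x.2.2.1 (0, 0) h' (leI_zero i) (by rw [h2, ptC_zero])
          simp [this]
      · simp [e, h, relM]
      · simp [e, h, relM]
    · have hd : Sym.dec n = .ST b := by simp [Sym.dec, hn1, hn2]
      rw [hd] at hlen ⊢
      obtain ⟨x, rfl⟩ := List.length_eq_one_iff.1 hlen
      have hx := hl x (by simp)
      rcases key x hx with ⟨h, e, -⟩ | ⟨h, -, hk, e⟩ | ⟨h, -, -, hk, hz, e⟩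
      · simp [e, h, relM]
      · simp [e, h, relM, eq_comm]
      · simp [e, h, relM]
  · -- translations
    have hd : Sym.dec n = .Tr b := by simp [Sym.dec, hn1, hn2]
    rw [hd] at hlen ⊢
    obtain ⟨x, y, rfl⟩ := List.length_eq_two.1 hlen
    have hx := hl x (by simp)
    have hy := hl y (by simp)
    rcases key x hx with ⟨h, e, h'⟩ | ⟨h, -, hk, e⟩ | ⟨h, -, -, hk, hz, e⟩
    · rcases key y hy with ⟨h2, e2, h2'⟩ | ⟨h2, -, hk2, e2⟩ | ⟨h2, -, -, hk2, hz2, e2⟩
      · simp only [List.map_cons, List.map_nil, e, e2, relM]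
        rw [← ptC_shn]
        have h3 : ptC i y.2.2.1 = ptC i (shn b x.2.2.1) ↔ y.2.2.1 = shn b x.2.2.1 :=
          ⟨ptC_inj i _ _ h2' h', fun h => by rw [h]⟩
        rw [h3]
        simp [h, h2]
      · simp [e, e2, h, h2, relM]
      · simp [e, e2, h, h2, relM]
    · rcases key y hy with ⟨h2, e2, h2'⟩ | ⟨h2, -, hk2, e2⟩ | ⟨h2, -, -, hk2, hz2, e2⟩ <;>
        simp [e, e2, h, h2, relM]
    · rcases key y hy with ⟨h2, e2, h2'⟩ | ⟨h2, -, hk2, e2⟩ | ⟨h2, -, -, hk2, hz2, e2⟩ <;>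
        simp [e, e2, h, h2, relM]
  · -- visible coordinates
    have hd : Sym.dec n = .P b := by simp [Sym.dec, hn1, hn2]
    rw [hd] at hlen ⊢
    obtain ⟨x, y, rfl⟩ := List.length_eq_two.1 hlen
    have hx := hl x (by simp)
    have hy := hl y (by simp)
    rcases key x hx with ⟨h, e, h'⟩ | ⟨h, hok, hk, e⟩ | ⟨h, -, -, hk, hz, e⟩
    · rcases key y hy with ⟨h2, e2, h2'⟩ | ⟨h2, -, hk2, e2⟩ | ⟨h2, -, -, hk2, hz2, e2⟩ <;>
        simp [e, e2, h, h2, relM]
    · rcases key y hy with ⟨h2, e2, h2'⟩ | ⟨h2, -, hk2, e2⟩ | ⟨h2, -, -, hk2, hz2, e2⟩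
      · simp only [List.map_cons, List.map_nil, e, e2, relM, xC]
        obtain ⟨-, hvl, hv⟩ := okT_spec P i x.2.1 hok
        by_cases hb : b < P.K + 1
        · have hle : leI i (x.2.1.2.1.getD b (0, 0)).2 = true := by
            rw [List.getD_eq_getElem _ _ (by omega)]
            exact hv _ (List.getElem_mem _)
          have h3 : ptC i (x.2.1.2.1.getD b (0, 0)) = ptC i y.2.2.1 ↔
              y.2.2.1 = x.2.1.2.1.getD b (0, 0) :=
            ⟨fun h4 => (ptC_inj i _ _ hle h2' h4).symm, fun h4 => by rw [h4]⟩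
          rw [exists_prop_of_true hb, h3]
          simp only [List.getD_cons_zero, List.getD_cons_succ, h, h2, hb, decide_true,
            Bool.true_and, decide_eq_true_eq, if_true]
          simp
        · simp only [List.getD_cons_zero, List.getD_cons_succ, h, h2, hb, decide_false,
            Bool.and_false, Bool.false_and]
          simp
      · simp [e, e2, h, h2, relM]
      · simp [e, e2, h, h2, relM]
    · rcases key y hy with ⟨h2, e2, h2'⟩ | ⟨h2, -, hk2, e2⟩ | ⟨h2, -, -, hk2, hz2, e2⟩ <;>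
        simp [e, e2, h, h2, relM]
  · -- the sort `W`
    rcases b with _ | b
    · have hd : Sym.dec n = .Wt := by simp [Sym.dec, hn1, hn2]
      rw [hd] at hlen ⊢
      obtain ⟨x, y, rfl⟩ := List.length_eq_two.1 hlen
      have hx := hl x (by simp)
      have hy := hl y (by simp)
      rcases key x hx with ⟨h, e, h'⟩ | ⟨h, -, hk, e⟩ | ⟨h, hok, hle, hk, hz, e⟩
      · rcases key y hy with ⟨h2, e2, h2'⟩ | ⟨h2, -, hk2, e2⟩ | ⟨h2, -, -, hk2, hz2, e2⟩ <;>
          simp [e, e2, h, h2, relM]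
      · rcases key y hy with ⟨h2, e2, h2'⟩ | ⟨h2, -, hk2, e2⟩ | ⟨h2, -, -, hk2, hz2, e2⟩ <;>
          simp [e, e2, h, h2, relM]
      · rcases key y hy with ⟨h2, e2, h2'⟩ | ⟨h2, hok2, hk2, e2⟩ | ⟨h2, -, -, hk2, hz2, e2⟩
        · simp [e, e2, h, h2, relM]
        · simp only [List.map_cons, List.map_nil, e, e2, relM]
          obtain ⟨-, hvl, hv⟩ := okT_spec P i x.2.1 hok
          obtain ⟨-, hvl2, hv2⟩ := okT_spec P i y.2.1 hok2
          have h3 : (x.2.1.1 = y.2.1.1 ∧ xC P.K i x.2.1.2.1 = xC P.K i y.2.1.2.1 ∧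
              ptC i (lab P.msk P.K x.2.1) = ptC i (lab P.msk P.K y.2.1)) ↔ x.2.1 = y.2.1 := by
            constructor
            · rintro ⟨a1, a2, a3⟩
              exact lab_inj P i _ _ hok hok2 a1 (xC_inj P.K i _ _ hvl hvl2 hv hv2 a2)
                (ptC_inj i _ _ (lab_le P i _ hok (hF _ hk)) (lab_le P i _ hok2 (hF _ hk2)) a3)
            · intro h4
              rw [h4]
              exact ⟨rfl, rfl, rfl⟩
          rw [h3]
          simp only [List.getD_cons_zero, List.getD_cons_succ, h, h2, decide_true,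
            Bool.true_and, decide_eq_true_eq]
          simp
        · simp [e, e2, h, h2, relM]
    · have hd : Sym.dec n = .Wz := by simp [Sym.dec, hn1, hn2]
      rw [hd] at hlen ⊢
      obtain ⟨x, y, rfl⟩ := List.length_eq_two.1 hlen
      have hx := hl x (by simp)
      have hy := hl y (by simp)
      rcases key x hx with ⟨h, e, h'⟩ | ⟨h, -, hk, e⟩ | ⟨h, hok, hle, hk, hz, e⟩
      · rcases key y hy with ⟨h2, e2, h2'⟩ | ⟨h2, -, hk2, e2⟩ | ⟨h2, -, -, hk2, hz2, e2⟩ <;>
          simp [e, e2, h, h2, relM]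
      · rcases key y hy with ⟨h2, e2, h2'⟩ | ⟨h2, -, hk2, e2⟩ | ⟨h2, -, -, hk2, hz2, e2⟩ <;>
          simp [e, e2, h, h2, relM]
      · rcases key y hy with ⟨h2, e2, h2'⟩ | ⟨h2, hok2, hk2, e2⟩ | ⟨h2, -, -, hk2, hz2, e2⟩
        · simp only [List.map_cons, List.map_nil, e, e2, relM]
          have h3 : ptC i x.2.2.1 = ptC i y.2.2.1 ↔ x.2.2.1 = y.2.2.1 :=
            ⟨ptC_inj i _ _ hle h2', fun h => by rw [h]⟩
          rw [h3]
          simp only [List.getD_cons_zero, List.getD_cons_succ, h, h2, decide_true,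
            Bool.true_and, decide_eq_true_eq]
          simp
        · simp [e, e2, h, h2, relM]
        · simp [e, e2, h, h2, relM]
  · -- links
    have hd : Sym.dec n = .Q b := by simp [Sym.dec, hn1, hn2]
    rw [hd] at hlen ⊢
    obtain ⟨x, y, rfl⟩ := List.length_eq_two.1 hlen
    have hx := hl x (by simp)
    have hy := hl y (by simp)
    have := isoQ P i hF b x y hx hy
    simp only [List.map_cons, List.map_nil]
    rw [← this]
    simp
  · -- coding relations
    have hd : Sym.dec n = .R (Nat.unpair b).1 (Nat.unpair b).2 := by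
      simp [Sym.dec, hn1, hn2]
    rw [hd] at hlen ⊢
    have := isoR P i hF g hg (Nat.unpair b).1 (Nat.unpair b).2 l hlen hl
    rw [← this]
    simp

end Pool.Agent.Work.MP_ed0a9a_lc
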