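import Pool.Agent.Work.MP_ed0a9a_lc.Lvl
import Pool.Agent.Work.MP_ed0a9a_lc.StrU
import Pool.Agent.Work.MP_ed0a9a_lc.MskDefs

/-!
# Module `KillR`: the coding relations kill the models of large dimension

Let `S`, `r`, `f : U P (Jt i) ≃ ℕ` be a computable copy.  Put
`Ψ c j := r (Sym.R c j).code ((Encodable.decode (α := List ℕ) j).getD [])`, computable:
`(Sym.R c j).code = Nat.pair 5 (Nat.pair c j)` (`Primrec₂.natPair`, `Computable.decode`,
`Computable.option_getD`).
Let `c` be given by `DiagR`.  Let `l : List (Pt (Jt i))` be the list of the points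
`(0, some ⟨m, _⟩)`, `m < P.ar c` (`P.ar c ≤ i`), e.g. `List.ofFn`.  `lvl (bs :: l) = ⊤`
(`lvl_eq_top_iff`, different components).  Let `L := (l.map U.d).map f : List ℕ` and
`j := Encodable.encode L`.  Then `relM P _ (.R c j) (l.map U.d) ↔ ∃ t, P.kb c j t = true`.
By the isomorphism (`rel_of_embedding` with `f.toEmbedding`, `HN_strU`; or `f.map_rel` directly)
this is equivalent to `HN S (.R c j) L`, i.e. (`hd_ofFn`, `ari_code`) to
`r (Sym.R c j).code L = true`, i.e. to `Ψ c j = true`.  But it is equivalent to `Ψ c j = false`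
by the choice of `c`.
-/

namespace Pool.Agent.Work.MP_ed0a9a_lc

theorem killR (P : Par) (i : ℕ∞) (hD : DiagR P.kb) (hi : ∀ e, (P.ar e : ℕ∞) ≤ i) :
    ¬ HasCompCopy (ari P.ar) (U P (Jt i)) := by
  rintro ⟨S, r, hr, hrS, ⟨f⟩⟩
  have hΨ : Computable₂ (fun c j : ℕ => r (Nat.pair 5 (Nat.pair c j))
      ((Encodable.decode (α := List ℕ) j).getD [])) := by
    refine hr.comp ?_ ?_
    · exact (Primrec₂.natPair.comp (Primrec.const 5) Primrec₂.natPair).to_comp
    · exact Computable.option_getD (Computable.decode.comp Computable.snd) (Computable.const [])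
  obtain ⟨c, hc⟩ := hD _ hΨ
  have hlt : ∀ m : Fin (P.ar c), ((m.1 : ℕ) : ℕ∞) < i := fun m =>
    lt_of_lt_of_le (by exact_mod_cast m.2) (hi c)
  let l : List (Pt (Jt i)) := List.ofFn fun m : Fin (P.ar c) => (0, some ⟨m.1, hlt m⟩)
  have hl : lvl (bs :: l) = ⊤ := by
    rw [lvl_eq_top_iff, List.pairwise_cons]
    constructor
    · intro p hp
      rw [List.mem_ofFn'] at hp
      obtain ⟨m, rfl⟩ := hp
      simp [bs]
    · rw [List.pairwise_ofFn]
      intro m m' hm h
      rw [Option.some.injEq, Subtype.mk.injEq] at h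
      exact absurd (Fin.ext h) hm.ne
  let L : List ℕ := (l.map U.d).map f
  let j : ℕ := Encodable.encode L
  have hlen : l.length = P.ar c := List.length_ofFn
  have hLlen : L.length = ari P.ar (Sym.R c j).code := by
    rw [ari_code]
    simp only [L, List.length_map, hlen]
    rfl
  have e1 : relM P (Jt i) (.R c j) (l.map U.d) ↔ ∃ t, P.kb c j t = true := by
    constructor
    · rintro ⟨-, l', -, t, ht, -⟩
      exact ⟨t, ht⟩
    · rintro ⟨t, ht⟩
      refine ⟨by rw [List.length_map, hlen], l, rfl, t, ht, ?_⟩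
      rw [hl]
      exact le_top
  have e2 : HN S (.R c j) L ↔ relM P (Jt i) (.R c j) (l.map U.d) := by
    rw [← HN_strU]
    exact rel_of_embedding f.toEmbedding (.R c j) (l.map U.d)
  have e3 : HN S (.R c j) L ↔ r (Sym.R c j).code L = true := by
    unfold HN
    have h1 : L = List.ofFn (fun t : Fin (ari P.ar (Sym.R c j).code) =>
        L.get (t.cast hLlen.symm)) := by
      apply List.ext_getElem
      · rw [List.length_ofFn, hLlen]
      · intro n h1 h2
        rw [List.getElem_ofFn]
        rfl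
    rw [h1, hd_ofFn, ← hrS, ← h1]
  have e4 := hc j
  have h5 : r (Nat.pair 5 (Nat.pair c j)) ((Encodable.decode (α := List ℕ) j).getD []) =
      r (Sym.R c j).code L := by
    have : (Encodable.decode (α := List ℕ) j) = some L := Encodable.encodek L
    rw [this]
    rfl
  rw [h5, ← e1, ← e2, e3] at e4
  cases h : r (Sym.R c j).code L <;> rw [h] at e4
  · exact absurd (e4.2 rfl) (by decide)
  · exact absurd (e4.1 rfl) (by decide)

end Pool.Agent.Work.MP_ed0a9a_lc
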