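import Pool.Agent.Work.MP_ed0a9a_lc.GoodU
import Pool.Agent.Work.MP_ed0a9a_lc.MskDefs

/-!
# Module `KillT`: the sort `T k` kills the model of dimension `k`

The generic components of `U P (Jt k)` are `0, …, k - 1`.  Let
`x₀ : Fin (P.K + 1) → Pt (Jt k)`, `x₀ j := if h : j < k then (0, some ⟨j, _⟩) else bs`.
(`k ≤ P.K` by `P.hF`.)
* `lvl_x₀`: `lvl ((bs :: List.ofFn x₀).take (k + 1)) = ⊤` (`lvl_eq_top_iff`).
* `pos_x₀`: every point `z` of `Pt (Jt k)` is `pos k x₀ q` for exactly one `q`
  (`(bs :: List.ofFn x₀).getD a bs` is `bs` for `a = 0` and `(0, some (a - 1))` for `1 ≤ a ≤ k`;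
  so `pos k x₀ (a + (k + 1) * h) = (h, none)` resp. `(h, some (a - 1))`).
* Let `S`, `r`, `f : U P (Jt k) ≃ ℕ` be a computable copy.
  `fib u := r (Sym.ST k).code [u] && (List.range (P.K + 1)).all (fun j => r (Sym.P j).code [u, p j])`
  with `p j := f (.d (x₀ j))` (a fixed list of numbers), and `Qr n u u' := r (Sym.Q n).code [u, u']`.
  Both are computable (a finite conjunction; e.g. by induction on the number of conjuncts).
  `fib u = true` iff `u = f (.t k hk x₀ z)` for some `z`; infinite since `z ↦ f (.t k hk x₀ z)` is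
  injective.
  `Qr n (f τ) (f τ') = true ↔ relM P _ (.Q n) [τ, τ']` (`rel_of_embedding`, `HN_strU`, `hd_ofFn`,
  `ari_code`).
* Apply `Diag P.msk`: get `e`, `L`.
  First case: `q ≥ e`, `n = Nat.pair e q`, the bit `n` of `P.msk q t` is eventually `false`, so
  `(P.lim q).testBit n = false` (`Par.lim_spec`), so `miss P k x₀ z n` is false for every `z`
  (`Nat.unpair_pair`, `Par.mskI_top`).  Hence for `u = f (.t k hk x₀ z) ∈ L` the element
  `τ' = .t k hk x' z`, `x' := Function.update x₀ (Fin.last P.K) (sh (2 ^ n) (x₀ (Fin.last P.K)))`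
  satisfies `Q n [τ, τ']`: contradiction.
  Second case: the elements of `L` are `f (.t k hk x₀ z)` with `e + 1` different `z`, at `e + 1`
  different positions `q`, one of which is `≥ e` (pigeonhole: `Finset.card_le_card_of_injOn` into
  `Finset.range e`).  For this `q` and `n = Nat.pair e q` the bit is eventually `true`, so
  `miss P k x₀ z n` holds and there is no `τ'` with `Q n [τ, τ']`: contradiction.
-/

namespace Pool.Agent.Work.MP_ed0a9a_lc

open FirstOrder FirstOrder.Language

private theorem exists_ofFn {N : Type} (n : ℕ) (l : List N) (h : l.length = n) :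
    ∃ v : Fin n → N, List.ofFn v = l := by
  subst h
  exact ⟨l.get, List.ofFn_get l⟩

/-- Relations in a copy. -/
private theorem copy_iff (P : Par) (J : Type) (S : (sig (ari P.ar)).Structure ℕ)
    (r : ℕ → List ℕ → Bool)
    (hr : ∀ (i : ℕ) (v : Fin (ari P.ar i) → ℕ), r i (List.ofFn v) = true ↔
      S.RelMap (n := ari P.ar i) ⟨i, rfl⟩ v)
    (f : U P J ≃[sig (ari P.ar)] ℕ) (s : Sym) (l : List (U P J))
    (hl : l.length = arity P.ar s) :
    r s.code (l.map f) = true ↔ relM P J s l := by
  obtain ⟨v, hv⟩ := exists_ofFn (ari P.ar s.code) (l.map f) (by rw [ari_code]; simpa using hl)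
  have h1 := rel_of_embedding f.toEmbedding s l
  rw [HN_strU] at h1
  rw [← h1]
  have h2 : l.map f.toEmbedding = l.map f := rfl
  rw [h2, ← hv, hr]
  unfold HN
  rw [hd_ofFn]

private noncomputable def x0 (P : Par) (k : ℕ) : Fin (P.K + 1) → Pt (Jt (k : ℕ∞)) :=
  fun j => if h : j.1 < k then (0, some ⟨j.1, by exact_mod_cast h⟩) else bs

private theorem y0_getElem (P : Par) (k : ℕ) (_hk : k ≤ P.K) (a : ℕ) (ha : a ≤ k)
    (ha' : a < (bs :: List.ofFn (x0 P k)).length) :
    (bs :: List.ofFn (x0 P k))[a] =
      (0, if h : a = 0 then none else some ⟨a - 1, by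
        have : a - 1 < k := by omega
        exact_mod_cast this⟩) := by
  rcases a with _ | b
  · simp [bs]
  · have hb : b < k := by omega
    simp only [List.getElem_cons_succ, List.getElem_ofFn, x0]
    simp [hb]

private theorem lvl_x0 (P : Par) (k : ℕ) (hk : k ≤ P.K) :
    lvl ((bs :: List.ofFn (x0 P k)).take (k + 1)) = ⊤ := by
  rw [lvl_eq_top_iff, List.pairwise_iff_getElem]
  intro a b ha hb hab
  have hb' : b < k + 1 := by
    rw [List.length_take] at hb
    omega
  rw [List.getElem_take, List.getElem_take]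
  rw [y0_getElem P k hk a (by omega), y0_getElem P k hk b (by omega)]
  simp only
  rcases a with _ | a
  · rw [dif_pos rfl, dif_neg (by omega)]
    simp
  · rw [dif_neg (by omega), dif_neg (by omega)]
    intro h
    simp at h
    omega

/-- The position of a point. -/
private def posQ (k : ℕ) (z : Pt (Jt (k : ℕ∞))) : ℕ :=
  (match z.2 with
    | none => 0
    | some r => r.1 + 1) + (k + 1) * z.1

private theorem posQ_mod (k : ℕ) (z : Pt (Jt (k : ℕ∞))) :
    posQ k z % (k + 1) = (match z.2 with
    | none => 0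
    | some r => r.1 + 1) := by
  unfold posQ
  rw [Nat.add_mul_mod_self_left]
  apply Nat.mod_eq_of_lt
  rcases z with ⟨g, _ | ⟨r, hr⟩⟩
  · simp
  · have : r < k := by exact_mod_cast hr
    simpa using this

private theorem posQ_div (k : ℕ) (z : Pt (Jt (k : ℕ∞))) : posQ k z / (k + 1) = z.1 := by
  unfold posQ
  rw [Nat.add_mul_div_left _ _ (Nat.succ_pos k), Nat.div_eq_of_lt, zero_add]
  rcases z with ⟨g, _ | ⟨r, hr⟩⟩
  · simp
  · have : r < k := by exact_mod_cast hr
    simpa using this

private theorem pos_x0 (P : Par) (k : ℕ) (hk : k ≤ P.K) (z : Pt (Jt (k : ℕ∞))) (q : ℕ) :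
    z = pos k (x0 P k) q ↔ q = posQ k z := by
  have hlen : ∀ q, q % (k + 1) < (bs :: List.ofFn (x0 P k)).length := by
    intro q
    have : q % (k + 1) < k + 1 := Nat.mod_lt _ (Nat.succ_pos k)
    simp
    omega
  have hle : ∀ q, q % (k + 1) ≤ k := fun q => Nat.lt_succ_iff.1 (Nat.mod_lt _ (Nat.succ_pos k))
  have hpos : ∀ q, pos k (x0 P k) q = (q / (k + 1), if h : q % (k + 1) = 0 then none else
      some ⟨q % (k + 1) - 1, by
        have : q % (k + 1) - 1 < k := by have := hle q; omega
        exact_mod_cast this⟩) := by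
    intro q
    unfold pos
    rw [List.getD_eq_getElem _ _ (hlen q), y0_getElem P k hk _ (hle q)]
    simp [sh]
  constructor
  · rintro rfl
    rw [hpos q]
    unfold posQ
    by_cases h : q % (k + 1) = 0
    · simp only [h]
      have := Nat.div_add_mod q (k + 1)
      simp
      omega
    · rw [dif_neg h]
      have := Nat.div_add_mod q (k + 1)
      simp only
      omega
  · rintro rfl
    rw [hpos]
    have hm := posQ_mod k z
    have hd := posQ_div k z
    ext1
    · exact hd.symm
    · rcases z with ⟨g, _ | ⟨r, hr⟩⟩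
      · simp only at hm ⊢
        rw [dif_pos hm]
      · simp only at hm ⊢
        rw [dif_neg (by rw [hm]; omega)]
        congr 2
        rw [hm]
        rfl

theorem killT (P : Par) (k : ℕ) (hk : k ∈ P.F) (hD : Diag P.msk) :
    ¬ HasCompCopy (ari P.ar) (U P (Jt (k : ℕ∞))) := by
  rintro ⟨S, r, hrc, hr, ⟨f⟩⟩
  have hkK := P.hF k hk
  have hcopy := copy_iff P (Jt (k : ℕ∞)) S r hr f
  set p : ℕ → ℕ := fun j => if h : j < P.K + 1 then f (U.d (x0 P k ⟨j, h⟩)) else 0 with hp
  let fib : ℕ → Bool := fun u =>
    r (Sym.ST k).code [u] && (List.range (P.K + 1)).all (fun j => r (Sym.P j).code [u, p j])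
  let Qr : ℕ → ℕ → ℕ → Bool := fun n u u' => r (Sym.Q n).code [u, u']
  have hfibc : Computable fib := by
    have h1 : Computable (fun u : ℕ => r (Sym.ST k).code [u]) :=
      hrc.comp (Computable.const _)
        (Primrec.list_cons.comp Primrec.id (Primrec.const [])).to_comp
    have h2 : ∀ n, Computable (fun u : ℕ =>
        (List.range n).all (fun j => r (Sym.P j).code [u, p j])) := by
      intro n
      induction n with
      | zero => simpa using Computable.const true
      | succ n ih =>
        have h3 : Computable (fun u : ℕ => r (Sym.P n).code [u, p n]) :=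
          hrc.comp (Computable.const _)
            (Primrec.list_cons.comp Primrec.id (Primrec.const [p n])).to_comp
        have h4 : Computable (fun u : ℕ => (List.range n).all
            (fun j => r (Sym.P j).code [u, p j]) && r (Sym.P n).code [u, p n]) :=
          (Primrec.and.to_comp).comp ih h3
        refine h4.of_eq (fun u => ?_)
        rw [List.range_succ, List.all_append]
        simp
    exact (Primrec.and.to_comp).comp h1 (h2 _)
  have hQc : Computable (fun x : ℕ × ℕ × ℕ => Qr x.1 x.2.1 x.2.2) := by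
    have h1 : Computable (fun x : ℕ × ℕ × ℕ => (Sym.Q x.1).code) :=
      (Primrec₂.natPair.comp (Primrec.const 4) Primrec.fst).to_comp
    have h2 : Computable (fun x : ℕ × ℕ × ℕ => [x.2.1, x.2.2]) :=
      (Primrec.list_cons.comp (Primrec.fst.comp Primrec.snd)
        (Primrec.list_cons.comp (Primrec.snd.comp Primrec.snd) (Primrec.const []))).to_comp
    exact hrc.comp h1 h2
  have hfib : ∀ u, fib u = true ↔ ∃ z, u = f (U.t k hk (x0 P k) z) := by
    intro u
    obtain ⟨y, rfl⟩ := f.surjective u
    have hST : r (Sym.ST k).code [f y] = true ↔ relM P _ (.ST k) [y] := hcopy (.ST k) [y] rfl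
    have hPj : ∀ j, (h : j < P.K + 1) → (r (Sym.P j).code [f y, p j] = true ↔
        relM P _ (.P j) [y, .d (x0 P k ⟨j, h⟩)]) := by
      intro j h
      have := hcopy (.P j) [y, .d (x0 P k ⟨j, h⟩)] rfl
      rw [← this]
      have hpj : p j = f (U.d (x0 P k ⟨j, h⟩)) := by
        simp only [hp]
        rw [dif_pos h]
      rw [hpj]
      rfl
    simp only [fib, Bool.and_eq_true, List.all_eq_true, List.mem_range]
    constructor
    · rintro ⟨h1, h2⟩
      rw [hST] at h1
      rcases y with p' | ⟨k', hk', x, z⟩ | ⟨k', hk', x, z, z', hz⟩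
      · simp [relM] at h1
      · have hkk : k = k' := by simpa [relM] using h1
        subst hkk
        refine ⟨z, ?_⟩
        congr 2
        funext j
        have h3 := (hPj j.1 j.2).1 (h2 j.1 j.2)
        simp only [relM] at h3
        obtain ⟨_, h3⟩ := h3
        exact h3
      · simp [relM] at h1
    · rintro ⟨z, hz⟩
      have hy := f.injective hz
      subst hy
      refine ⟨hST.2 (by simp [relM]), fun j hj => (hPj j hj).2 ?_⟩
      simp only [relM]
      exact ⟨hj, trivial⟩
  have hinj : Function.Injective (fun z => f (U.t k hk (x0 P k) z)) := by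
    intro z z' h
    have := f.injective h
    simpa using this
  have hinf : {u | fib u = true}.Infinite :=
    Set.infinite_of_injective_forall_mem hinj (fun z => (hfib _).2 ⟨z, rfl⟩)
  have hQ : ∀ n τ τ', Qr n (f τ) (f τ') = true ↔ relM P _ (.Q n) [τ, τ'] :=
    fun n τ τ' => hcopy (.Q n) [τ, τ'] rfl
  obtain ⟨e, L, hcard, hLf, hcase⟩ := hD fib Qr hfibc hQc hinf
  have hmiss : ∀ (z : Pt (Jt (k : ℕ∞))) (n : ℕ), miss P k (x0 P k) z n ↔
      (Nat.unpair n).2 = posQ k z ∧ (P.lim (Nat.unpair n).2).testBit n = true := by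
    intro z n
    unfold miss missP
    rw [lvl_x0 P k hkK, Par.mskI_top, pos_x0 P k hkK]
  rcases hcase with ⟨q, heq, ⟨t₀, ht₀⟩, u, hu, hu'⟩ | hcase
  · obtain ⟨z, rfl⟩ := (hfib u).1 (hLf u hu)
    set n := Nat.pair e q
    have hlim : (P.lim q).testBit n = false := by
      obtain ⟨t₁, ht₁⟩ := P.lim_spec q
      rw [← ht₁ (max t₀ t₁) (le_max_right _ _)]
      exact ht₀ _ (le_max_left _ _)
    have hnm : ¬ miss P k (x0 P k) z n := by
      rw [hmiss]
      rintro ⟨-, h⟩
      simp only [n, Nat.unpair_pair] at h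
      rw [show (Nat.pair e q) = n from rfl, hlim] at h
      exact absurd h (by simp)
    have h1 := hu' (f (U.t k hk (Function.update (x0 P k) (Fin.last P.K)
      (sh (2 ^ n) (x0 P k (Fin.last P.K)))) z))
    have h2 := (hQ n (U.t k hk (x0 P k) z) (U.t k hk (Function.update (x0 P k) (Fin.last P.K)
      (sh (2 ^ n) (x0 P k (Fin.last P.K)))) z)).2 (by
        simp only [relM]
        refine ⟨trivial, trivial, ?_, ?_, hnm⟩
        · intro j hj
          rw [Function.update_of_ne]
          intro h
          rw [h] at hj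
          simp at hj
        · rw [Function.update_self])
    rw [h1] at h2
    exact absurd h2 (by simp)
  · -- some element of `L` is at a position `≥ e`
    have hex : ∃ z, f (U.t k hk (x0 P k) z) ∈ L ∧ e ≤ posQ k z := by
      by_contra hno
      push Not at hno
      have hL : ∀ u ∈ L, ∃ z, u = f (U.t k hk (x0 P k) z) := fun u hu => (hfib u).1 (hLf u hu)
      choose! ζ hζ using hL
      have hle : L.card ≤ (Finset.range e).card := by
        refine Finset.card_le_card_of_injOn (fun u => posQ k (ζ u)) ?_ ?_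
        · intro u hu
          have hu' : u ∈ L := hu
          have := hno (ζ u) (by rw [← hζ u hu']; exact hu')
          simpa using this
        · intro u hu u' hu' h
          have h1 : ζ u = ζ u' := by
            have e1 := (pos_x0 P k hkK (ζ u) (posQ k (ζ u))).2 rfl
            have e2 := (pos_x0 P k hkK (ζ u') (posQ k (ζ u'))).2 rfl
            rw [e1, e2]
            simp only at h
            rw [h]
          rw [hζ u hu, hζ u' hu', h1]
      rw [hcard, Finset.card_range] at hle
      omega
    obtain ⟨z, hzL, hez⟩ := hex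
    obtain ⟨⟨t₀, ht₀⟩, hall⟩ := hcase (posQ k z) hez
    obtain ⟨u', hu'⟩ := hall _ hzL
    obtain ⟨y, rfl⟩ := f.surjective u'
    set n := Nat.pair e (posQ k z)
    have hlim : (P.lim (posQ k z)).testBit n = true := by
      obtain ⟨t₁, ht₁⟩ := P.lim_spec (posQ k z)
      rw [← ht₁ (max t₀ t₁) (le_max_right _ _)]
      exact ht₀ _ (le_max_left _ _)
    have hm : miss P k (x0 P k) z n := by
      rw [hmiss]
      simp only [n, Nat.unpair_pair]
      exact ⟨trivial, hlim⟩
    have h1 := (hQ n _ _).1 hu'
    rcases y with p' | ⟨k', hk', x, z'⟩ | ⟨k', hk', x, z', z'', hz⟩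
    · simp [relM] at h1
    · simp only [relM] at h1
      exact h1.2.2.2.2 hm
    · simp [relM] at h1

end Pool.Agent.Work.MP_ed0a9a_lc
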