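import Pool.Agent.Work.MP_ed0a9a_lc.Alive
import Pool.Agent.Work.MP_ed0a9a_lc.KillT
import Pool.Agent.Work.MP_ed0a9a_lc.KillR
import Pool.Agent.Work.MP_ed0a9a_lc.MskPrim
import Pool.Agent.Work.MP_ed0a9a_lc.Msk
import Pool.Agent.Work.MP_ed0a9a_lc.Kb
import Pool.Agent.Work.MP_ed0a9a_lc.AxAll
import Pool.Agent.Work.MP_ed0a9a_lc.ClassU
import Pool.Agent.Work.MP_ed0a9a_lc.Elem
import Pool.Agent.Work.MP_ed0a9a_lc.Ari

/-!
# The main theorem
-/

namespace Pool.Agent.Work.MP_ed0a9a_lc

open FirstOrder FirstOrder.Language

/-- `X ⊆ ω ∪ {ω}` is the spectrum of constructive models of a complete theory `T` in the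
signature `sig a`, `a` computable, which is `ℵ₁`-categorical and not `ℵ₀`-categorical: the
countable models of `T` are, up to isomorphism, the `A i`, `i ∈ ℕ∞`, `A i` is elementarily
embeddable into `A j` iff `i ≤ j`, and `A i` has a computable copy iff `i ∈ X`. -/
def IsSpectrum (X : Set ℕ∞) : Prop :=
  ∃ (a : ℕ → ℕ) (T : (sig a).Theory) (A : ℕ∞ → Type) (_ : ∀ i, (sig a).Structure (A i)),
    Computable a ∧ T.IsComplete ∧ (Cardinal.aleph 1 : Cardinal.{0}).Categorical T ∧
    ¬ (Cardinal.aleph0 : Cardinal.{0}).Categorical T ∧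
    (∀ i, Countable (A i) ∧ A i ⊨ T) ∧
    (∀ (N : Type) [Nonempty N] [Countable N] [(sig a).Structure N], N ⊨ T →
      ∃ i, Nonempty (A i ≃[sig a] N)) ∧
    (∀ i j, Nonempty (A i ↪ₑ[sig a] A j) ↔ i ≤ j) ∧
    ∀ i, HasCompCopy a (A i) ↔ i ∈ X

theorem spectrum_of (P : Par) (har : Computable P.ar) (X : Set ℕ∞)
    (h : ∀ i, HasCompCopy (ari P.ar) (U P (Jt i)) ↔ i ∈ X) : IsSpectrum X := by
  obtain ⟨T, hTT⟩ := exists_theory P
  have hU : ∀ J : Type, U P J ⊨ T := by
    intro J
    rw [hTT]
    refine ⟨?_, dup_strU P J⟩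
    rw [HN_strU]
    exact goodU P J
  have hT : ∀ (N : Type) [Nonempty N] [S : (sig (ari P.ar)).Structure N], N ⊨ T →
      ∃ J : Type, Nonempty (U P J ≃[sig (ari P.ar)] N) := by
    intro N _ S hN
    rw [hTT] at hN
    exact classify P hN.1 hN.2
  refine ⟨ari P.ar, T, fun i => U P (Jt i), fun i => strU P (Jt i), computable_ari _ har,
    complete P T hT hU, categorical_aleph1 P T hT, not_categorical_aleph0 P T hU,
    fun i => ⟨countable_U P (Jt i), hU _⟩, ?_, elem_iff P T hT hU, h⟩
  intro N _ _ _ hN
  obtain ⟨J, ⟨f⟩⟩ := hT N hN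
  have hJ : Countable J := by
    have : Function.Injective (fun j : J => f (U.d (0, some j))) := by
      intro j j' hj
      have := f.injective hj
      simpa using this
    exact this.countable
  obtain ⟨i, ⟨e⟩⟩ := exists_Jt J
  obtain ⟨F⟩ := std_equiv P e
  exact ⟨i, ⟨f.comp F.symm⟩⟩

/-- Every subset of `ω ∪ {ω}` with a finite complement, and every finite subset of `ω`, is the
spectrum of an `ℵ₁`-categorical, not `ℵ₀`-categorical theory. -/
theorem main (X : Set ℕ∞) (hX : Xᶜ.Finite ∨ (X.Finite ∧ ⊤ ∉ X)) : IsSpectrum X := by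
  have hmsk : Primrec₂ mskD := primrec_mskD
  have hkbD : Computable (fun x : ℕ × ℕ × ℕ => kbD x.1 x.2.1 x.2.2) := primrec_kbD.to_comp
  rcases hX with hX | ⟨hX, htop⟩
  · -- cofinite
    have hfin : {k : ℕ | (k : ℕ∞) ∉ X}.Finite :=
      hX.preimage (f := fun k : ℕ => (k : ℕ∞)) (by
        intro x _ y _ h; simpa using h)
    by_cases htop : (⊤ : ℕ∞) ∈ X
    · let P : Par := {
        F := hfin.toFinset
        K := hfin.toFinset.sup id
        hF := fun k hk => Finset.le_sup (f := id) hk
        msk := mskD
        msk_bit := mskD_bit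
        msk_lim := mskD_lim
        ar := fun _ => 0
        kb := fun _ _ _ => false
        kb_mono := by simp }
      refine spectrum_of P (Computable.const 0) X ?_
      intro i
      constructor
      · intro hc
        by_contra hi
        rcases eq_or_ne i ⊤ with rfl | hne
        · exact hi htop
        · obtain ⟨k, rfl⟩ := ENat.ne_top_iff_exists.1 hne
          exact killT P k (by simpa [P] using hi) diag_mskD hc
      · intro hi
        refine alive P hmsk (Computable.const false) i ?_ ⟨fun _ _ => false, ?_, ?_⟩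
        · rintro k hk rfl
          have : (k : ℕ∞) ∉ X := by simpa [P] using hk
          exact this hi
        · exact Computable.const false
        · intro e j _
          simp [P]
    · let P : Par := {
        F := hfin.toFinset
        K := hfin.toFinset.sup id
        hF := fun k hk => Finset.le_sup (f := id) hk
        msk := mskD
        msk_bit := mskD_bit
        msk_lim := mskD_lim
        ar := fun e => e + 1
        kb := kbD
        kb_mono := kbD_mono }
      refine spectrum_of P Computable.succ X ?_
      intro i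
      constructor
      · intro hc
        by_contra hi
        rcases eq_or_ne i ⊤ with rfl | hne
        · exact killR P ⊤ kbD_diag (fun e => le_top) hc
        · obtain ⟨k, rfl⟩ := ENat.ne_top_iff_exists.1 hne
          exact killT P k (by simpa [P] using hi) diag_mskD hc
      · intro hi
        have hne : i ≠ ⊤ := fun h => htop (h ▸ hi)
        obtain ⟨m, rfl⟩ := ENat.ne_top_iff_exists.1 hne
        obtain ⟨g, hg, hg'⟩ := kbD_comp_lt m
        refine alive P hmsk hkbD m ?_ ⟨g, hg, ?_⟩
        · rintro k hk h
          have hk' : (k : ℕ∞) ∉ X := by simpa [P] using hk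
          exact hk' (h ▸ hi)
        · intro e j he
          have he' : e + 1 ≤ m := by
            have : ((e + 1 : ℕ) : ℕ∞) ≤ (m : ℕ∞) := he
            exact_mod_cast this
          exact hg' e (by omega) j
  · -- finite subset of `ω`
    obtain ⟨n, hn⟩ : ∃ n : ℕ, ∀ i ∈ X, i < (n : ℕ∞) := by
      have := hX.bddAbove
      refine ⟨hX.toFinset.sup ENat.toNat + 1, ?_⟩
      intro i hi
      have hne : i ≠ ⊤ := fun h => htop (h ▸ hi)
      obtain ⟨m, rfl⟩ := ENat.ne_top_iff_exists.1 hne
      have hm : m ≤ hX.toFinset.sup ENat.toNat :=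
        Finset.le_sup (f := ENat.toNat) (hX.mem_toFinset.2 hi)
      exact_mod_cast Nat.lt_succ_of_le hm
    classical
    let P : Par := {
      F := (Finset.range n).filter (fun k => (k : ℕ∞) ∉ X)
      K := n
      hF := by
        intro k hk
        have := (Finset.mem_filter.1 hk).1
        exact (Finset.mem_range.1 this).le
      msk := mskD
      msk_bit := mskD_bit
      msk_lim := mskD_lim
      ar := fun _ => n
      kb := kbD
      kb_mono := kbD_mono }
    refine spectrum_of P (Computable.const n) X ?_
    intro i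
    constructor
    · intro hc
      by_contra hi
      by_cases hin : (n : ℕ∞) ≤ i
      · exact killR P i kbD_diag (fun e => hin) hc
      · have hne : i ≠ ⊤ := by rintro rfl; exact hin le_top
        obtain ⟨k, rfl⟩ := ENat.ne_top_iff_exists.1 hne
        have hk : k < n := by
          have := not_le.1 hin
          exact_mod_cast this
        exact killT P k (Finset.mem_filter.2 ⟨Finset.mem_range.2 hk, hi⟩) diag_mskD hc
    · intro hi
      refine alive P hmsk hkbD i ?_ ⟨fun _ _ => false, Computable.const false, ?_⟩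
      · rintro k hk h
        have hk' := (Finset.mem_filter.1 hk).2
        exact hk' (h ▸ hi)
      · intro e j he
        exact absurd (hn i hi) (not_lt.2 he)

end Pool.Agent.Work.MP_ed0a9a_lc
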