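import Pool.Agent.Work.MP_ed0a9a_lc.CopyDefs
import Pool.Agent.Work.MP_ed0a9a_lc.Bits

/-!
# Module `PrimA`: primitive recursiveness of the basic functions of the copy
-/

namespace Pool.Agent.Work.MP_ed0a9a_lc

theorem primrec_yl : Primrec₂ yl :=
  Primrec.list_take.comp (Primrec.succ.comp Primrec.fst)
    (Primrec.list_cons.comp (Primrec.const (0, 0)) Primrec.snd)

private theorem primA_pw {R : CP → CP → ℕ → Prop}
    (hR : PrimrecRel (fun (a : CP) (x : CP × ℕ) => R x.1 a x.2)) :
    PrimrecPred (fun x : List CP × ℕ => x.1.Pairwise (fun p q => R p q x.2)) := by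
  classical
  have h1 : PrimrecRel (fun (L : List CP) (x : CP × ℕ) => ∀ a ∈ L, R x.1 a x.2) :=
    hR.forall_mem_list
  have h2 : Primrec (fun x : List CP × ℕ => List.rec (motive := fun _ => Bool) true
      (fun b l IH => decide (∀ a ∈ l, R b a x.2) && IH) x.1) := by
    refine Primrec.list_rec (f := fun x : List CP × ℕ => x.1) (g := fun _ => true)
      (h := fun x y => decide (∀ a ∈ y.2.1, R y.1 a x.2) && y.2.2) Primrec.fst
      (Primrec.const true) ?_
    refine Primrec.and.comp ?_ (Primrec.snd.comp (Primrec.snd.comp Primrec.snd))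
    have h3 := h1.comp (f := fun x : (List CP × ℕ) × (CP × List CP × Bool) => x.2.2.1)
      (g := fun x : (List CP × ℕ) × (CP × List CP × Bool) => (x.2.1, x.1.2))
      (Primrec.fst.comp (Primrec.snd.comp Primrec.snd))
      (Primrec.pair (Primrec.fst.comp Primrec.snd) (Primrec.snd.comp Primrec.fst))
    exact primrecPred_iff_primrec_decide.1 h3
  refine primrecPred_iff_primrec_decide.2 (h2.of_eq ?_)
  rintro ⟨l, c⟩
  induction l with
  | nil => simp
  | cons b l ih =>
    simp only at ih ⊢
    rw [ih]
    rw [Bool.eq_iff_iff, Bool.and_eq_true, decide_eq_true_iff, decide_eq_true_iff,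
      decide_eq_true_iff, List.pairwise_cons]

private theorem primA_ne : PrimrecRel (fun (a b : ℕ) => a ≠ b) :=
  (Primrec.eq (α := ℕ)).not

theorem primrec_indep : Primrec indep := by
  have h1 : PrimrecPred (fun x : List CP × ℕ => x.1.Pairwise (fun p q => p.2 ≠ q.2)) := by
    refine primA_pw (R := fun p q _ => p.2 ≠ q.2) ?_
    exact primA_ne.comp (Primrec.snd.comp (Primrec.fst.comp Primrec.snd))
      (Primrec.snd.comp Primrec.fst)
  have h2 : PrimrecPred (fun l : List CP => l.Pairwise (fun p q => p.2 ≠ q.2)) :=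
    h1.comp (f := fun l : List CP => (l, 0)) (Primrec.pair Primrec.id (Primrec.const 0))
  exact primrecPred_iff_primrec_decide.1 h2

theorem primrec_lvn : Primrec lvn := by
  have h1 : PrimrecRel (fun (l : List CP) (c : ℕ) => LGn l c) := by
    have h := primA_pw (R := fun p q c => p.2 = q.2 → c ≤ p.1 ^^^ q.1) (by
      have e : PrimrecPred (fun x : CP × (CP × ℕ) => ¬ (x.2.1.2 = x.1.2) ∨
          x.2.2 ≤ x.2.1.1 ^^^ x.1.1) := by
        refine PrimrecPred.or (PrimrecPred.not ?_) ?_
        · exact (Primrec.eq (α := ℕ)).comp (Primrec.snd.comp (Primrec.fst.comp Primrec.snd))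
            (Primrec.snd.comp Primrec.fst)
        · exact Primrec.nat_le.comp (Primrec.snd.comp Primrec.snd)
            (primrec_xor.comp (Primrec.fst.comp (Primrec.fst.comp Primrec.snd))
              (Primrec.fst.comp Primrec.fst))
      exact (e.of_eq fun x => by rw [← imp_iff_not_or]).primrecRel)
    exact h.primrecRel
  have h2 : Primrec (fun l : List CP => (l.map Prod.fst).sum) := by
    have h := Primrec.list_foldr (f := fun l : List CP => l) (g := fun _ => (0 : ℕ))
      (h := fun _ y => y.1.1 + y.2) Primrec.id (Primrec.const 0)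
      (Primrec.nat_add.comp (Primrec.fst.comp (Primrec.fst.comp Primrec.snd))
        (Primrec.snd.comp Primrec.snd))
    refine h.of_eq fun l => ?_
    induction l with
    | nil => rfl
    | cons a l ih => simp only [List.foldr_cons, List.map_cons, List.sum_cons, ih]
  exact Primrec.nat_findGreatest h2 h1

theorem primrec_shn : Primrec₂ shn :=
  Primrec.pair (primrec_xor.comp (Primrec.fst.comp Primrec.snd) Primrec.fst)
    (Primrec.snd.comp Primrec.snd)

theorem primrec_posn : Primrec (fun x : ℕ × List CP × ℕ => posn x.1 x.2.1 x.2.2) := by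
  have hk : Primrec (fun x : ℕ × List CP × ℕ => x.1 + 1) := Primrec.succ.comp Primrec.fst
  have hq : Primrec (fun x : ℕ × List CP × ℕ => x.2.2) := Primrec.snd.comp Primrec.snd
  exact primrec_shn.comp (Primrec.nat_div.comp hq hk)
    ((Primrec.list_getD (0, 0)).comp (Primrec.list_cons.comp (Primrec.const (0, 0))
      (Primrec.fst.comp Primrec.snd)) (Primrec.nat_mod.comp hq hk))

theorem primrec_rgen : Primrec rgen := by
  classical
  have h1 : PrimrecRel (fun (p : CP) (r : ℕ) => p.2 ≠ r) :=
    primA_ne.comp (Primrec.snd.comp Primrec.fst) Primrec.snd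
  have h2 : PrimrecRel (fun (l : List CP) (r : ℕ) => ∀ p ∈ l, p.2 ≠ r) := h1.forall_mem_list
  have h3 : PrimrecRel (fun (r : ℕ) (l : List CP) => ∀ p ∈ l, p.2 ≠ r) :=
    h2.comp Primrec.snd Primrec.fst
  have h4 : Primrec (fun l : List CP => (((List.range (l.length + 1)).filter
      (fun r => decide (∀ p ∈ l, p.2 ≠ r))).head?).getD 0) := by
    have h5 := h3.listFilter
    exact Primrec.option_getD.comp (Primrec.list_head?.comp (h5.comp
      (Primrec.list_range.comp (Primrec.succ.comp Primrec.list_length)) Primrec.id))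
      (Primrec.const 0)
  refine h4.of_eq fun l => ?_
  unfold rgen
  rw [List.head?_filter]
  congr 2
  funext r
  rw [Bool.eq_iff_iff, decide_eq_true_iff]
  simp only [Bool.not_eq_true', List.contains_eq_mem, List.mem_map, decide_eq_false_iff_not,
    not_exists, not_and, ne_eq]

theorem primrec_lc (msk : ℕ → ℕ → ℕ) (hm : Primrec₂ msk) : Primrec₂ (lc msk) := by
  have h := Primrec.nat_rec' (f := fun x : ℕ × ℕ => x.2) (g := fun _ => (0 : ℕ))
    (h := fun x y => if msk x.1 (y.1 + 1) = msk x.1 y.1 then y.2 else y.1 + 1)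
    Primrec.snd (Primrec.const 0) (by
      have hn : Primrec (fun x : (ℕ × ℕ) × (ℕ × ℕ) => x.2.1) := Primrec.fst.comp Primrec.snd
      have hq : Primrec (fun x : (ℕ × ℕ) × (ℕ × ℕ) => x.1.1) := Primrec.fst.comp Primrec.fst
      exact Primrec.ite ((Primrec.eq (α := ℕ)).comp (hm.comp hq (Primrec.succ.comp hn))
        (hm.comp hq hn)) (Primrec.snd.comp Primrec.snd) (Primrec.succ.comp hn))
  refine h.of_eq ?_
  rintro ⟨q, t⟩
  show _ = lc msk q t
  induction t with
  | zero => rfl
  | succ t ih =>
    simp only at ih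
    show (if msk q (t + 1) = msk q t then _ else t + 1) = if msk q (t + 1) = msk q t then
      lc msk q t else t + 1
    rw [← ih]

theorem primrec_disc (msk : ℕ → ℕ → ℕ) (hm : Primrec₂ msk) :
    Primrec (fun x : ℕ × ℕ × ℕ => disc msk x.1 x.2.1 x.2.2) := by
  have hq : Primrec (fun x : ℕ × ℕ × ℕ => x.1) := Primrec.fst
  have hs : Primrec (fun x : ℕ × ℕ × ℕ => x.2.1) := Primrec.fst.comp Primrec.snd
  have ht : Primrec (fun x : ℕ × ℕ × ℕ => x.2.2) := Primrec.snd.comp Primrec.snd
  have hl := primrec_lc msk hm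
  refine Primrec.and.comp (Primrec.and.comp (Primrec.and.comp ?_ ?_) ?_) ?_
  · exact primrecPred_iff_primrec_decide.1 ((Primrec.eq (α := ℕ)).comp (hl.comp hq hs) hs)
  · exact primrecPred_iff_primrec_decide.1 (Primrec.nat_lt.comp hs ht)
  · exact primrecPred_iff_primrec_decide.1 ((Primrec.eq (α := ℕ)).comp (hl.comp hq ht) ht)
  · exact primrecPred_iff_primrec_decide.1 ((Primrec.eq (α := ℕ)).comp
      (hl.comp hq (Primrec.pred.comp ht)) hs)

theorem primrec_dl (K : ℕ) : Primrec (dl K) :=
  (Primrec.list_getD (0, 0)).comp Primrec.id (Primrec.const K)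

theorem primrec_leI (i : ℕ∞) : Primrec (leI i) := by
  classical
  by_cases hi : i = ⊤
  · subst hi
    refine (Primrec.const true).of_eq fun r => ?_
    unfold leI
    simp
  · lift i to ℕ using hi
    have h : PrimrecPred (fun r : ℕ => r ≤ i) := Primrec.nat_le.comp Primrec.id (Primrec.const i)
    refine (primrecPred_iff_primrec_decide.1 h).of_eq fun r => ?_
    unfold leI
    rw [Bool.eq_iff_iff, decide_eq_true_iff, decide_eq_true_iff, Nat.cast_le]

end Pool.Agent.Work.MP_ed0a9a_lc
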