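import Pool.Agent.Work.MP_ed0a9a_lc.CopyDefs

/-!
# The computable copy of `U P (Jt i)`: the elements and the relations
-/

namespace Pool.Agent.Work.MP_ed0a9a_lc

/-- Codes of elements: `(0, _, p, 0)` in the sort `D`, `(1, c, _, 0)` in the sorts `T k`,
`(2, c, z', e)` in the sort `W`. -/
abbrev Raw := ℕ × Tc × CP × ℕ

/-- The valid codes. -/
noncomputable def okRaw (P : Par) (i : ℕ∞) (x : Raw) : Bool :=
  if x.1 = 0 then decide (x.2.1 = (0, [], (0, 0), 0)) && decide (x.2.2.2 = 0) && leI i x.2.2.1.2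
  else if x.1 = 1 then decide (x.2.2 = ((0, 0), 0)) && okT P.msk P.F P.K i x.2.1
  else decide (x.1 = 2) && okW P.msk P.F P.K i x.2.1 x.2.2.1 x.2.2.2

/-- The point coded by `p`. -/
noncomputable def ptC (i : ℕ∞) (p : CP) : Pt (Jt i) := by
  classical exact (p.1, if h : ((p.2 - 1 : ℕ) : ℕ∞) < i ∧ p.2 ≠ 0 then some ⟨p.2 - 1, h.1⟩ else none)

/-- The tuple of points coded by `v`. -/
noncomputable def xC (K : ℕ) (i : ℕ∞) (v : List CP) : Fin (K + 1) → Pt (Jt i) :=
  fun j => ptC i (v.getD j (0, 0))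

open Classical in
/-- The element coded by `x`. -/
noncomputable def dU (P : Par) (i : ℕ∞) (x : Raw) : U P (Jt i) :=
  if x.1 = 0 then .d (ptC i x.2.2.1)
  else if h : x.2.1.1 ∈ P.F then
    (if x.1 = 1 then
      .t x.2.1.1 h (xC P.K i x.2.1.2.1) (ptC i (lab P.msk P.K x.2.1))
    else if h' : ptC i x.2.2.1 ≠ ptC i (lab P.msk P.K x.2.1) then
      .w x.2.1.1 h (xC P.K i x.2.1.2.1) (ptC i (lab P.msk P.K x.2.1)) (ptC i x.2.2.1) h'
    else .d bs)
  else .d bs

/-- The relation number `n` on codes; `g` gives the values of the coding relations on independent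
tuples. -/
def relC (P : Par) (g : ℕ → ℕ → Bool) (n : ℕ) (l : List Raw) : Bool :=
  let a := (Nat.unpair n).1
  let b := (Nat.unpair n).2
  let x := l.getD 0 (0, (0, [], (0, 0), 0), (0, 0), 0)
  let y := l.getD 1 (0, (0, [], (0, 0), 0), (0, 0), 0)
  if a = 0 then
    (if b = 0 then decide (x.1 = 0)
     else if b = 1 then decide (x.1 = 2)
     else if b = 2 then decide (x.1 = 0) && decide (x.2.2.1 = (0, 0))
     else decide (x.1 = 1) && decide (x.2.1.1 + 3 = b))
  else if a = 1 then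
    decide (x.1 = 0) && decide (y.1 = 0) && decide (y.2.2.1 = shn b x.2.2.1)
  else if a = 2 then
    decide (x.1 = 1) && decide (y.1 = 0) && decide (b < P.K + 1) &&
      decide (y.2.2.1 = x.2.1.2.1.getD b (0, 0))
  else if a = 3 then
    (if b = 0 then decide (x.1 = 2) && decide (y.1 = 1) && decide (x.2.1 = y.2.1)
     else decide (x.1 = 2) && decide (y.1 = 0) && decide (x.2.2.1 = y.2.2.1))
  else if a = 4 then
    decide (x.1 = 1) && decide (y.1 = 1) && qrel P.msk P.K b x.2.1 y.2.1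
  else
    l.all (fun x => decide (x.1 = 0)) &&
      (if indep ((0, 0) :: l.map (fun x => x.2.2.1)) then g (Nat.unpair b).1 (Nat.unpair b).2
       else P.kb (Nat.unpair b).1 (Nat.unpair b).2
         (lvn ((0, 0) :: l.map (fun x => x.2.2.1))))

end Pool.Agent.Work.MP_ed0a9a_lc
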