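import Pool.Agent.Work.MP_ed0a9a_lc.Lvl
import Pool.Agent.Work.MP_ed0a9a_lc.StrU

/-!
# Module `UMap`: maps between the structures `U P J` induced by maps of points

`Eqv φ`: `φ` commutes with translations, preserves the base point, and maps different components
to different components (and the same component to the same one).
* `Eqv.inj`: if `φ p = φ p'` then `p.2 = p'.2`, `p' = sh g p` with `g = p.1 ^^^ p'.1`,
  so `sh g (φ p) = φ p`, `g = 0`.
* `Eqv.xor`: for `p.2 = p'.2`: `p' = sh g p` with `g = p.1 ^^^ p'.1`, so `φ p' = sh g (φ p)`.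
* `lvl` is preserved: `lvl_map`.  `pos k (φ ∘ x) q = φ (pos k x q)`:
  `bs :: ofFn (φ ∘ x) = (bs :: ofFn x).map φ`.
* `miss P k (φ ∘ x) (φ z) n ↔ miss P k x z n`.
* `relM_uMap`: by cases on the symbol and on the list (lists of length `≤ 2` except for `R`).
* `uMap_comp`, `uMap_id`: by cases.
* `stdP f : Pt I → Pt J`, `(g, r) ↦ (g, Option.map f r)`, for `f` injective.
* `std_equiv`: for a bijection `f : I ≃ J` (`equiv_of_rel`, `HN_strU`, `dup_strU`).
* `uEquiv`: for a bijective `Eqv` map.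
-/

namespace Pool.Agent.Work.MP_ed0a9a_lc

open FirstOrder FirstOrder.Language

/-- Equivariant maps of points. -/
structure Eqv {I J : Type} (φ : Pt I → Pt J) : Prop where
  sh : ∀ g p, φ (sh g p) = sh g (φ p)
  bs : φ bs = bs
  comp : ∀ p p', (φ p).2 = (φ p').2 ↔ p.2 = p'.2

private theorem uMapA_xor {g : ℕ} {J : Type} {p p' : Pt J} :
    p' = sh g p ↔ p.2 = p'.2 ∧ g = p.1 ^^^ p'.1 := by
  obtain ⟨a, r⟩ := p
  obtain ⟨b, r'⟩ := p'
  unfold Pool.Agent.Work.MP_ed0a9a_lc.sh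
  constructor
  · intro h
    have h1 : b = a ^^^ g := congrArg Prod.fst h
    have h2 : r' = r := congrArg Prod.snd h
    refine ⟨h2.symm, ?_⟩
    show g = a ^^^ b
    rw [h1, ← Nat.xor_assoc, Nat.xor_self, Nat.zero_xor]
  · rintro ⟨h1, h2⟩
    have h1' : r = r' := h1
    have h2' : g = a ^^^ b := h2
    subst h1' h2'
    show (b, r) = (a ^^^ (a ^^^ b), r)
    rw [← Nat.xor_assoc, Nat.xor_self, Nat.zero_xor]

private theorem uMapA_zero {g : ℕ} {J : Type} {p : Pt J} (h : p = sh g p) : g = 0 := by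
  obtain ⟨_, e⟩ := uMapA_xor.1 h
  rw [e, Nat.xor_self]

private theorem uMapA_sh0 {J : Type} {p : Pt J} : sh 0 p = p := by
  symm
  rw [uMapA_xor]
  exact ⟨rfl, (Nat.xor_self _).symm⟩

theorem Eqv.inj {I J : Type} {φ : Pt I → Pt J} (h : Eqv φ) : Function.Injective φ := by
  intro p p' e
  have h2 : p.2 = p'.2 := (h.comp p p').1 (by rw [e])
  have h3 : p' = Pool.Agent.Work.MP_ed0a9a_lc.sh (p.1 ^^^ p'.1) p := uMapA_xor.2 ⟨h2, rfl⟩
  have h4 : φ p' = Pool.Agent.Work.MP_ed0a9a_lc.sh (p.1 ^^^ p'.1) (φ p) := by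
    rw [← h.sh, ← h3]
  rw [← e] at h4
  have h5 := uMapA_zero h4
  rw [h5, uMapA_sh0] at h3
  exact h3.symm

private theorem uMapA_eqv_xor {I J : Type} {φ : Pt I → Pt J} (h : Eqv φ) (p p' : Pt I)
    (e : p.2 = p'.2) : (φ p).1 ^^^ (φ p').1 = p.1 ^^^ p'.1 := by
  have h3 : p' = Pool.Agent.Work.MP_ed0a9a_lc.sh (p.1 ^^^ p'.1) p := uMapA_xor.2 ⟨e, rfl⟩
  have h4 : φ p' = Pool.Agent.Work.MP_ed0a9a_lc.sh (p.1 ^^^ p'.1) (φ p) := by
    rw [← h.sh, ← h3]
  exact (uMapA_xor.1 h4).2.symm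

private theorem uMapA_list {I J : Type} {φ : Pt I → Pt J} (h : Eqv φ) {K : ℕ}
    (x : Fin (K + 1) → Pt I) : (bs :: List.ofFn (φ ∘ x)) = (bs :: List.ofFn x).map φ := by
  rw [List.map_cons, List.map_ofFn, h.bs]

/-- The induced map. -/
def uMap (P : Par) {I J : Type} (φ : Pt I → Pt J) (hφ : Function.Injective φ) :
    U P I → U P J
  | .d p => .d (φ p)
  | .t k hk x z => .t k hk (φ ∘ x) (φ z)
  | .w k hk x z z' h => .w k hk (φ ∘ x) (φ z) (φ z') (fun e => h (hφ e))

theorem Eqv.pos {I J : Type} {φ : Pt I → Pt J} (h : Eqv φ) {K : ℕ} (k : ℕ)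
    (x : Fin (K + 1) → Pt I) (q : ℕ) : pos k (φ ∘ x) q = φ (pos k x q) := by
  unfold Pool.Agent.Work.MP_ed0a9a_lc.pos
  rw [uMapA_list h, h.sh]
  congr 1
  have := List.getD_map (l := Pool.Agent.Work.MP_ed0a9a_lc.bs :: List.ofFn x)
    (d := Pool.Agent.Work.MP_ed0a9a_lc.bs) (n := q % (k + 1)) φ
  rw [h.bs] at this
  exact this

theorem Eqv.lvl {I J : Type} {φ : Pt I → Pt J} (h : Eqv φ) (l : List (Pt I)) :
    lvl (l.map φ) = lvl l := by
  exact lvl_map φ h.comp (uMapA_eqv_xor h) l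

theorem Eqv.miss {I J : Type} {φ : Pt I → Pt J} (h : Eqv φ) (P : Par) (k : ℕ)
    (x : Fin (P.K + 1) → Pt I) (z : Pt I) (n : ℕ) :
    miss P k (φ ∘ x) (φ z) n ↔ miss P k x z n := by
  unfold Pool.Agent.Work.MP_ed0a9a_lc.miss
  rw [h.pos, uMapA_list h, ← List.map_take, h.lvl, h.inj.eq_iff]

theorem relM_uMap (P : Par) {I J : Type} {φ : Pt I → Pt J} (h : Eqv φ) (s : Sym)
    (l : List (U P I)) : relM P J s (l.map (uMap P φ h.inj)) ↔ relM P I s l := by
  have hinj := h.inj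
  cases s with
  | SD =>
    rcases l with _ | ⟨a, _ | ⟨b, l⟩⟩ <;> (try cases a) <;> exact Iff.rfl
  | SW =>
    rcases l with _ | ⟨a, _ | ⟨b, l⟩⟩ <;> (try cases a) <;> exact Iff.rfl
  | Z =>
    rcases l with _ | ⟨a, _ | ⟨b, l⟩⟩ <;> (try cases a) <;> first | exact Iff.rfl | skip
    rename_i p
    show φ p = bs ↔ p = bs
    constructor
    · intro e
      apply hinj
      rw [e, h.bs]
    · rintro rfl
      exact h.bs
  | ST k =>
    rcases l with _ | ⟨a, _ | ⟨b, l⟩⟩ <;> (try cases a) <;> exact Iff.rfl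
  | Tr g =>
    rcases l with _ | ⟨a, _ | ⟨b, _ | ⟨c, l⟩⟩⟩ <;> (try cases a) <;> (try cases b) <;>
      first | exact Iff.rfl | skip
    rename_i p p'
    show φ p' = Pool.Agent.Work.MP_ed0a9a_lc.sh g (φ p) ↔
      p' = Pool.Agent.Work.MP_ed0a9a_lc.sh g p
    rw [← h.sh, hinj.eq_iff]
  | P j =>
    rcases l with _ | ⟨a, _ | ⟨b, _ | ⟨c, l⟩⟩⟩ <;> (try cases a) <;> (try cases b) <;>
      first | exact Iff.rfl | skip
    rename_i k hk x z p
    show (∃ hj : j < P.K + 1, φ (x ⟨j, hj⟩) = φ p) ↔ ∃ hj : j < P.K + 1, x ⟨j, hj⟩ = p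
    simp only [hinj.eq_iff]
  | Wt =>
    rcases l with _ | ⟨a, _ | ⟨b, _ | ⟨c, l⟩⟩⟩ <;> (try cases a) <;> (try cases b) <;>
      first | exact Iff.rfl | skip
    rename_i k hk x z z' hz k2 hk2 x2 z2
    show (k = k2 ∧ φ ∘ x = φ ∘ x2 ∧ φ z = φ z2) ↔ (k = k2 ∧ x = x2 ∧ z = z2)
    rw [hinj.eq_iff, (hinj.comp_left).eq_iff]
  | Wz =>
    rcases l with _ | ⟨a, _ | ⟨b, _ | ⟨c, l⟩⟩⟩ <;> (try cases a) <;> (try cases b) <;>
      first | exact Iff.rfl | skip
    rename_i k hk x z z' hz p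
    show φ z' = φ p ↔ z' = p
    rw [hinj.eq_iff]
  | Q n =>
    rcases l with _ | ⟨a, _ | ⟨b, _ | ⟨c, l⟩⟩⟩ <;> (try cases a) <;> (try cases b) <;>
      first | exact Iff.rfl | skip
    rename_i k hk x z k' hk' x' z'
    show (k = k' ∧ φ z = φ z' ∧ (∀ j : Fin (P.K + 1), j.1 < P.K → φ (x' j) = φ (x j)) ∧
        φ (x' (Fin.last P.K)) = Pool.Agent.Work.MP_ed0a9a_lc.sh (2 ^ n) (φ (x (Fin.last P.K))) ∧
          ¬ Pool.Agent.Work.MP_ed0a9a_lc.miss P k (φ ∘ x) (φ z) n) ↔
      (k = k' ∧ z = z' ∧ (∀ j : Fin (P.K + 1), j.1 < P.K → x' j = x j) ∧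
        x' (Fin.last P.K) = Pool.Agent.Work.MP_ed0a9a_lc.sh (2 ^ n) (x (Fin.last P.K)) ∧
          ¬ Pool.Agent.Work.MP_ed0a9a_lc.miss P k x z n)
    rw [h.miss, ← h.sh]
    simp only [hinj.eq_iff]
  | R e j =>
    show ((l.map (uMap P φ h.inj)).length = P.ar e ∧ ∃ l' : List (Pt J),
        l.map (uMap P φ h.inj) = l'.map U.d ∧
          ∃ t, P.kb e j t = true ∧ (t : ℕ∞) ≤ Pool.Agent.Work.MP_ed0a9a_lc.lvl (bs :: l')) ↔
      (l.length = P.ar e ∧ ∃ l' : List (Pt I), l = l'.map U.d ∧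
        ∃ t, P.kb e j t = true ∧ (t : ℕ∞) ≤ Pool.Agent.Work.MP_ed0a9a_lc.lvl (bs :: l'))
    have hlv : ∀ l'' : List (Pt I), Pool.Agent.Work.MP_ed0a9a_lc.lvl (bs :: l''.map φ) =
        Pool.Agent.Work.MP_ed0a9a_lc.lvl (bs :: l'') := by
      intro l''
      have := h.lvl (bs :: l'')
      rwa [List.map_cons, h.bs] at this
    have hback : ∀ (l : List (U P I)) (l' : List (Pt J)),
        l.map (uMap P φ h.inj) = l'.map U.d → ∃ l'' : List (Pt I), l = l''.map U.d ∧
          l' = l''.map φ := by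
      intro l
      induction l with
      | nil =>
        intro l' e
        cases l' with
        | nil => exact ⟨[], rfl, rfl⟩
        | cons a l' => simp at e
      | cons a l ih =>
        intro l' e
        cases l' with
        | nil => simp at e
        | cons p l' =>
          rw [List.map_cons, List.map_cons] at e
          injection e with e1 e2
          obtain ⟨l'', rfl, rfl⟩ := ih l' e2
          cases a with
          | d q =>
            have e1' : U.d (φ q) = (U.d p : U P J) := e1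
            injection e1' with e1'
            exact ⟨q :: l'', rfl, by rw [List.map_cons, e1']⟩
          | t k hk x z => cases e1
          | w k hk x z z' hz => cases e1
    rw [List.length_map]
    constructor
    · rintro ⟨h1, l', e, t, ht, ht'⟩
      obtain ⟨l'', rfl, rfl⟩ := hback l l' e
      rw [hlv] at ht'
      exact ⟨h1, l'', rfl, t, ht, ht'⟩
    · rintro ⟨h1, l', rfl, t, ht, ht'⟩
      refine ⟨h1, l'.map φ, ?_, t, ht, ?_⟩
      · rw [List.map_map, List.map_map]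
        rfl
      · rw [hlv]
        exact ht'

theorem uMap_inj (P : Par) {I J : Type} {φ : Pt I → Pt J} (h : Function.Injective φ) :
    Function.Injective (uMap P φ h) := by
  intro x y e
  cases x <;> cases y <;> first | (cases e; done) | skip
  · rename_i p q
    have e' : (U.d (φ p) : U P J) = U.d (φ q) := e
    injection e' with e'
    rw [h e']
  · rename_i k hk x z k' hk' x' z'
    have e' : (U.t k hk (φ ∘ x) (φ z) : U P J) = U.t k' hk' (φ ∘ x') (φ z') := e
    injection e' with e1 e2 e3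
    subst e1
    rw [h.comp_left e2, h e3]
  · rename_i k hk x z w hz k' hk' x' z' w' hz'
    have e' : (U.w k hk (φ ∘ x) (φ z) (φ w) (fun e => hz (h e)) : U P J) =
      U.w k' hk' (φ ∘ x') (φ z') (φ w') (fun e => hz' (h e)) := e
    injection e' with e1 e2 e3 e4
    subst e1
    have e2' := h.comp_left e2
    have e3' := h e3
    have e4' := h e4
    subst e2' e3' e4'
    rfl

theorem uMap_comp (P : Par) {I J L : Type} (φ : Pt I → Pt J) (ψ : Pt J → Pt L)
    (hφ : Function.Injective φ) (hψ : Function.Injective ψ) (x : U P I) :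
    uMap P (ψ ∘ φ) (hψ.comp hφ) x = uMap P ψ hψ (uMap P φ hφ x) := by
  cases x <;> rfl

/-- The map of points induced by a map of components. -/
def stdP {I J : Type} (f : I → J) : Pt I → Pt J := fun p => (p.1, p.2.map f)

theorem eqv_stdP {I J : Type} (f : I → J) (hf : Function.Injective f) : Eqv (stdP f) := by
  refine ⟨fun g p => rfl, rfl, fun p p' => ?_⟩
  show p.2.map f = p'.2.map f ↔ p.2 = p'.2
  exact (Option.map_injective hf).eq_iff

theorem uEquiv (P : Par) {I J : Type} (φ : Pt I → Pt J) (h : Eqv φ)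
    (hs : Function.Surjective φ) :
    ∃ F : U P I ≃[sig (ari P.ar)] U P J, ∀ x, F x = uMap P φ h.inj x := by
  have hsur : Function.Surjective (uMap P φ h.inj) := by
    intro y
    cases y with
    | d p =>
      obtain ⟨q, rfl⟩ := hs p
      exact ⟨.d q, rfl⟩
    | t k hk x z =>
      have hx : ∀ j, ∃ q, φ q = x j := fun j => hs (x j)
      choose x' hx' using hx
      obtain ⟨z', rfl⟩ := hs z
      have e : x = φ ∘ x' := by
        funext j
        exact (hx' j).symm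
      subst e
      exact ⟨.t k hk x' z', rfl⟩
    | w k hk x z w hz =>
      have hx : ∀ j, ∃ q, φ q = x j := fun j => hs (x j)
      choose x' hx' using hx
      obtain ⟨z', rfl⟩ := hs z
      obtain ⟨w', rfl⟩ := hs w
      have e : x = φ ∘ x' := by
        funext j
        exact (hx' j).symm
      subst e
      exact ⟨.w k hk x' z' w' (fun e => hz (by rw [e])), rfl⟩
  let e : U P I ≃ U P J := Equiv.ofBijective _ ⟨uMap_inj P h.inj, hsur⟩
  obtain ⟨F, hF⟩ := equiv_of_rel (ar := P.ar) (dup_strU P I) (dup_strU P J) e (by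
    intro s l
    rw [HN_strU, HN_strU]
    exact relM_uMap P h s l)
  exact ⟨F, fun x => hF x⟩

theorem std_equiv (P : Par) {I J : Type} (f : I ≃ J) :
    Nonempty (U P I ≃[sig (ari P.ar)] U P J) := by
  obtain ⟨F, _⟩ := uEquiv P (stdP f) (eqv_stdP f f.injective) (by
    rintro ⟨g, r⟩
    refine ⟨(g, r.map f.symm), ?_⟩
    show (g, (r.map f.symm).map f) = (g, r)
    rw [Option.map_map]
    simp)
  exact ⟨F⟩

end Pool.Agent.Work.MP_ed0a9a_lc
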